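import Pool.Agent.Helper6.DPDAMain

set_option autoImplicit false

/-!
# Multihead two-way deterministic pushdown computations of bounded rank are in logspace

The definitions (`PDTrans`, `Surf`, `pdMove`, `Chain`, `Spine`, `WinStep`, `Window`, `Easy`,
`Acc`, `AcceptsWithin`) are in `Pool/Agent/Helper6/DPDADefs.lean`.
-/

namespace Pool.Agent.Helper6.BoundedRank

open Pool.Agent.Helper6

/-- For every two-way `k`-head deterministic pushdown automaton (in exactly the model of the
frozen statements) and every window parameter `c`: the language of the automaton is the union,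
over the ranks `d`, of the languages of the words accepted by a computation of rank at most `d`,
and each of these languages is accepted by a two-way multihead deterministic finite automaton
(again in exactly the model of the frozen statements), that is, lies in `L`. -/
theorem result :
    ∀ (α : Type) [Fintype α] (k : ℕ) (Q Γ : Type) [Fintype Q] [Fintype Γ]
      (δ : PDTrans α Q Γ k) (q₀ : Q) (F : Set Q) (c : ℕ),
    (∀ w : List α,
      (∃ m : ℕ, ((fun c : Q × (Fin k → ℕ) × List Γ =>
        ((δ c.1 (fun j => (decide (c.2.1 j = 0), w[c.2.1 j - 1]?)) c.2.2.head?).1,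
         (fun i => if (δ c.1 (fun j => (decide (c.2.1 j = 0), w[c.2.1 j - 1]?)) c.2.2.head?).2.1 i = 0
            then c.2.1 i - 1
            else if (δ c.1 (fun j => (decide (c.2.1 j = 0), w[c.2.1 j - 1]?)) c.2.2.head?).2.1 i = 1
            then c.2.1 i
            else min (c.2.1 i + 1) (w.length + 1)),
         (δ c.1 (fun j => (decide (c.2.1 j = 0), w[c.2.1 j - 1]?)) c.2.2.head?).2.2 ++ c.2.2.tail))^[m]
          (q₀, (fun _ => 0), [])).1 ∈ F)
      ↔ ∃ d, AcceptsWithin δ q₀ F c d w) ∧
    (∀ d : ℕ,
      ∃ (k' : ℕ) (P : Type) (_ : Fintype P)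
        (η : P → (Fin k' → Bool × Option α) → P × (Fin k' → Fin 3))
        (p₀ : P) (G : Set P),
      ∀ w : List α,
        AcceptsWithin δ q₀ F c d w ↔
        (∃ m : ℕ, ((fun c : P × (Fin k' → ℕ) =>
          ((η c.1 (fun j => (decide (c.2 j = 0), w[c.2 j - 1]?))).1,
           (fun i => if (η c.1 (fun j => (decide (c.2 j = 0), w[c.2 j - 1]?))).2 i = 0
              then c.2 i - 1
              else if (η c.1 (fun j => (decide (c.2 j = 0), w[c.2 j - 1]?))).2 i = 1
              then c.2 i
              else min (c.2 i + 1) (w.length + 1))))^[m]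
            (p₀, (fun _ => 0))).1 ∈ G)) := by
  intro α _ k Q Γ _ _ δ q₀ F c
  refine ⟨fun w => accepts_iff δ q₀ F c w, fun d => ?_⟩
  exact (isL_within δ q₀ F c d).toAutomaton

end Pool.Agent.Helper6.BoundedRank
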