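import Mathlib

set_option autoImplicit false

/-!
Two-way multihead deterministic pushdown automata, in exactly the model of the frozen statements
of MP_4e849b_lc, and computations of bounded rank.

A derivation tree is attached to a computation in the usual way: a node is a stack symbol together
with the surface (state and head positions) at which it is on top of the stack, and its children
are the symbols which replace it, in order, each with the surface at which it becomes the top.
-/

namespace Pool.Agent.Helper6

/-- Transition function of a two-way `k`-head deterministic pushdown automaton with states `Q`,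
input letters `α`, stack symbols `Γ`: from the state, what each head sees (is it on the left
endmarker, and the letter under it if any), and the top stack symbol if any, it gives the new
state, a movement for each head (`0` left, `1` stay, `2` right) and the word that replaces the
top stack symbol. -/
abbrev PDTrans (α Q Γ : Type) (k : ℕ) : Type :=
  Q → (Fin k → Bool × Option α) → Option Γ → Q × (Fin k → Fin 3) × List Γ

/-- A surface: the state and the head positions, position `0` being the left endmarker and
position `w.length + 1` the right endmarker. -/
abbrev Surf (Q : Type) (k : ℕ) : Type := Q × (Fin k → ℕ)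

variable {α Q Γ : Type} {k : ℕ}

/-- One move on the word `w` from the surface `s` with top of stack `X` (`none`: empty stack):
the new surface and the word which replaces the top symbol. -/
def pdMove (δ : PDTrans α Q Γ k) (w : List α) (s : Surf Q k) (X : Option Γ) :
    Surf Q k × List Γ :=
  (((δ s.1 (fun j => (decide (s.2 j = 0), w[s.2 j - 1]?)) X).1,
    fun i => if (δ s.1 (fun j => (decide (s.2 j = 0), w[s.2 j - 1]?)) X).2.1 i = 0 then s.2 i - 1
      else if (δ s.1 (fun j => (decide (s.2 j = 0), w[s.2 j - 1]?)) X).2.1 i = 1 then s.2 i
      else min (s.2 i + 1) (w.length + 1)),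
    (δ s.1 (fun j => (decide (s.2 j = 0), w[s.2 j - 1]?)) X).2.2)

/-- `R s X s'` is read: with surface `s` and the symbol `X` on top of the stack, the automaton
erases `X` (and all that it has put in its place) and is then in the surface `s'`.
`Chain R s l s'`: it erases in this way all the symbols of the word `l`, one after the other. -/
inductive Chain (R : Surf Q k → Γ → Surf Q k → Prop) : Surf Q k → List Γ → Surf Q k → Prop
  | nil (s : Surf Q k) : Chain R s [] s
  | cons {s s' s'' : Surf Q k} {X : Γ} {l : List Γ} :
      R s X s' → Chain R s' l s'' → Chain R s (X :: l) s''

/-- Erasing computations (passing through no state of `F` while the symbol is there) whose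
derivation tree has a branch, starting at the root, such that all the subtrees hanging off this
branch are erasing computations in `R`. -/
inductive Spine (δ : PDTrans α Q Γ k) (F : Set Q) (w : List α)
    (R : Surf Q k → Γ → Surf Q k → Prop) : Surf Q k → Γ → Surf Q k → Prop
  | leaf {s s1 s' : Surf Q k} {X : Γ} {l : List Γ} :
      s.1 ∉ F → pdMove δ w s (some X) = (s1, l) → Chain R s1 l s' → Spine δ F w R s X s'
  | node {s s1 s2 s3 s' : Surf Q k} {X Y : Γ} {l₁ l₂ : List Γ} :
      s.1 ∉ F → pdMove δ w s (some X) = (s1, l₁ ++ Y :: l₂) → Chain R s1 l₁ s2 →
      Spine δ F w R s2 Y s3 → Chain R s3 l₂ s' → Spine δ F w R s X s'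

/-- One step of a contracted computation: either the top symbol is erased at once by a
computation in `R`, or one ordinary move is made, after which the stack must have less than
`(c + 2) * log₂ (|w| + 2)` symbols. -/
inductive WinStep (δ : PDTrans α Q Γ k) (F : Set Q) (w : List α) (c : ℕ)
    (R : Surf Q k → Γ → Surf Q k → Prop) : Surf Q k × List Γ → Surf Q k × List Γ → Prop
  | jump {s s' : Surf Q k} {X : Γ} {t : List Γ} :
      R s X s' → WinStep δ F w c R (s, X :: t) (s', t)
  | move {s s1 : Surf Q k} {X : Γ} {l t : List Γ} :
      s.1 ∉ F → pdMove δ w s (some X) = (s1, l) →
      2 ^ (l ++ t).length < (w.length + 2) ^ (c + 2) → WinStep δ F w c R (s, X :: t) (s1, l ++ t)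

/-- Erasing computations which, after the computations in `R` have been contracted to single
steps, keep the height of the stack below `(c + 2) * log₂ (|w| + 2)`. -/
def Window (δ : PDTrans α Q Γ k) (F : Set Q) (w : List α) (c : ℕ)
    (R : Surf Q k → Γ → Surf Q k → Prop) (s : Surf Q k) (X : Γ) (s' : Surf Q k) : Prop :=
  Relation.ReflTransGen (WinStep δ F w c R) (s, [X]) (s', [])

/-- Erasing computations of rank at most `d` (with window parameter `c`): there are none of
rank `0`, and those of rank at most `d + 1` are obtained from those of rank at most `d` by first
the spine and then the window construction. -/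
def Easy (δ : PDTrans α Q Γ k) (F : Set Q) (w : List α) (c : ℕ) :
    ℕ → Surf Q k → Γ → Surf Q k → Prop
  | 0 => fun _ _ _ => False
  | d + 1 => Window δ F w c (Spine δ F w (Easy δ F w c d))

/-- `Acc δ F w R s X`: started in the surface `s` with `X` on top of the stack (`none`: with the
empty stack), the automaton reaches a state in `F`, before it erases `X` if there is such a
symbol, and every symbol it erases completely before that, other than those which are erased
during the erasing of another one, is erased by a computation in `R`. -/
inductive Acc (δ : PDTrans α Q Γ k) (F : Set Q) (w : List α)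
    (R : Surf Q k → Γ → Surf Q k → Prop) : Surf Q k → Option Γ → Prop
  | here {s : Surf Q k} {X : Option Γ} : s.1 ∈ F → Acc δ F w R s X
  | down {s s1 s2 : Surf Q k} {X : Option Γ} {Y : Γ} {l₁ l₂ : List Γ} :
      s.1 ∉ F → pdMove δ w s X = (s1, l₁ ++ Y :: l₂) → Chain R s1 l₁ s2 →
      Acc δ F w R s2 (some Y) → Acc δ F w R s X
  | next {s s1 s2 : Surf Q k} {l : List Γ} :
      s.1 ∉ F → pdMove δ w s none = (s1, l) → Chain R s1 l s2 →
      Acc δ F w R s2 none → Acc δ F w R s none

/-- The automaton accepts `w` by a computation of rank at most `d` with window parameter `c`. -/
def AcceptsWithin (δ : PDTrans α Q Γ k) (q₀ : Q) (F : Set Q) (c d : ℕ) (w : List α) : Prop :=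
  Acc δ F w (Easy δ F w c d) (q₀, fun _ => 0) none

end Pool.Agent.Helper6
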