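import Pool.Agent.Helper6.DPDAWindow

set_option autoImplicit false

/-!
Acceptance within a given rank is decidable by two-way multihead finite automata, and every
accepting computation has some rank.
-/

namespace Pool.Agent.Helper6

open Relation

variable {α Q Γ : Type} {k : ℕ}

/-! ### Decidability of acceptance -/

section Dec

variable {δ : PDTrans α Q Γ k} {F : Set Q} {R : List α → Surf Q k → Γ → Surf Q k → Prop}

theorem acc_some_iff {w : List α} (hs : Sound δ F w (R w)) (s : Surf Q k) (X : Γ) :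
    Acc δ F w (R w) s (some X) ↔
      ∃ S, ReflTransGen (Down δ F R w) ((s.1, X), s.2) S ∧ S.1.1 ∈ F := by
  constructor
  · intro h
    have key : ∀ s X, Acc δ F w (R w) s X → ∀ X', X = some X' →
        ∃ S, ReflTransGen (Down δ F R w) ((s.1, X'), s.2) S ∧ S.1.1 ∈ F := by
      intro s X h
      induction h with
      | @here s X h =>
        rintro X' rfl
        exact ⟨_, ReflTransGen.refl, h⟩
      | @down s s1 s2 X Y l₁ l₂ h1 h2 h3 h4 ih =>
        rintro X' rfl
        obtain ⟨S, g1, g2⟩ := ih Y rfl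
        refine ⟨S, ReflTransGen.head ⟨l₂, h1, l₁, ?_, ?_, h4.not_erased hs⟩ g1, g2⟩
        · simp only [h2]
        · simp only [h2]
          exact h3
      | next _ _ _ _ =>
        intro X' hX'
        exact absurd hX' (by simp)
    exact key s (some X) h X rfl
  · rintro ⟨S, h1, h2⟩
    have key : ∀ T, ReflTransGen (Down δ F R w) T S → Acc δ F w (R w) (T.1.1, T.2)
        (some T.1.2) := by
      intro T hT
      induction hT using ReflTransGen.head_induction_on with
      | refl => exact Acc.here h2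
      | head hd _ ih =>
        obtain ⟨l₂, g1, l₁, g2, g3, _⟩ := hd
        exact Acc.down g1 (Prod.ext rfl g2) g3 ih
    exact key _ h1

variable (δ F R)

/-- From an empty stack to the next empty stack. -/
def TopStep (w : List α) (s s' : Surf Q k) : Prop :=
  s.1 ∉ F ∧ Chain (R w) (pdMove δ w s none).1 (pdMove δ w s none).2 s'

/-- Acceptance before the next empty stack. -/
def TopAcc (w : List α) (s : Surf Q k) : Prop :=
  s.1 ∉ F ∧ ∃ l₁ l₂ Y s2, (pdMove δ w s none).2 = l₁ ++ Y :: l₂ ∧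
    Chain (R w) (pdMove δ w s none).1 l₁ s2 ∧ Acc δ F w (R w) s2 (some Y)

variable {δ F R}

theorem acc_none_iff {w : List α} (s : Surf Q k) :
    Acc δ F w (R w) s none ↔ ∃ s', ReflTransGen (TopStep δ F R w) s s' ∧
      (s'.1 ∈ F ∨ TopAcc δ F R w s') := by
  constructor
  · intro h
    generalize hX : (none : Option Γ) = X at h
    induction h with
    | here h => exact ⟨_, ReflTransGen.refl, Or.inl h⟩
    | @down s s1 s2 X Y l₁ l₂ h1 h2 h3 h4 _ =>
      subst hX
      refine ⟨_, ReflTransGen.refl, Or.inr ⟨h1, l₁, l₂, Y, s2, ?_, ?_, h4⟩⟩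
      · simp only [h2]
      · simp only [h2]
        exact h3
    | @next s s1 s2 l h1 h2 h3 _ ih =>
      obtain ⟨s', g1, g2⟩ := ih rfl
      refine ⟨s', ReflTransGen.head ⟨h1, ?_⟩ g1, g2⟩
      simp only [h2]
      exact h3
  · rintro ⟨s', h1, h2⟩
    induction h1 using ReflTransGen.head_induction_on with
    | refl =>
      rcases h2 with h2 | ⟨g1, l₁, l₂, Y, s2, g2, g3, g4⟩
      · exact Acc.here h2
      · exact Acc.down g1 (Prod.ext rfl g2) g3 g4
    | head hd _ ih => exact Acc.next hd.1 rfl hd.2 ih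

variable [Finite α] [Finite Q] [Finite Γ]

theorem isL_accSome {V : Type} [Finite V] (hR : DecR α R) (hs : ∀ w, Sound δ F w (R w))
    (q : Q) (X : Γ) (e : Fin k → V) :
    IsL α V (fun w z => Acc δ F w (R w) (q, z ∘ e) (some X)) := by
  have h1 : ∀ S : Q × Γ, IsL α (V ⊕ Fin k) (fun w z =>
      ReflTransGen (Down δ F R w) ((q, X), z ∘ Sum.inl ∘ e) (S, z ∘ Sum.inr) ∧ S.1 ∈ F) :=
    fun S => IsL.and (isL_downs hR hs _ _ _ _) (IsL.const _)
  refine IsL.congr (IsL.bigOr (ι := Q × Γ) (fun S => IsL.ex (h1 S))) ?_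
  intro w z hz
  rw [acc_some_iff (hs w)]
  constructor
  · rintro ⟨S, g1, g2⟩
    exact ⟨S.1, S.2, Downs.bounded (hs w) g1 (fun v => hz _), g1, g2⟩
  · rintro ⟨S, t, _, g1, g2⟩
    exact ⟨(S, t), g1, g2⟩

theorem isL_accNone (hR : DecR α R) (hs : ∀ w, Sound δ F w (R w)) (q : Q) :
    IsL α (Fin k) (fun w z => Acc δ F w (R w) (q, z) none) := by
  -- steps between empty stacks
  have hstep : ∀ a b : Q, IsL α (Empty ⊕ (Fin k ⊕ Fin k)) (fun w z =>
      TopStep δ F R w (a, z ∘ Sum.inr ∘ Sum.inl) (b, z ∘ Sum.inr ∘ Sum.inr)) := by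
    intro a b
    have hch := IsL.chain (V := Fin k ⊕ Fin k) hR
      (fun w s X s' h hb => (hs w).bounded h hb) Sum.inl Sum.inr
    have h2 := IsL.ofMove δ (U := Fin k) (P := fun w m y => Chain (R w) m.1 m.2 (b, y))
      (fun q1 l => IsL.congr (hch l q1 b) (fun w z _ => Iff.rfl)) a none
    exact IsL.congr (IsL.and (IsL.const (a ∉ F)) (IsL.subst h2
      (Sum.elim (Sum.inr ∘ Sum.inl) (Sum.inr ∘ Sum.inr)))) (fun w z _ => Iff.rfl)
  have hbd : ∀ w (s s' : Surf Q k), (∀ v, s.2 v ≤ w.length + 1) → TopStep δ F R w s s' →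
      ∀ v, s'.2 v ≤ w.length + 1 := by
    intro w s s' hb h
    exact (hs w).chain_bounded h.2 (pdMove_bounded none hb)
  have hsteps := fun b => IsL.dtcCtl (α := α) (U := Empty) (V := Fin k) (A := Q)
    (E := fun w _ a b => TopStep δ F R w a b) hstep
    (fun w p a b _ hg h => hbd w a b hg h)
    (fun w p a b b' _ _ h1 h2 => (hs w).chain_functional h1.2 h2.2) q b
  -- acceptance before the next empty stack
  have htop : ∀ a : Q, IsL α (Fin k) (fun w z => TopAcc δ F R w (a, z)) := by
    intro a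
    let P' : List α → Surf Q k × List Γ → (Empty → ℕ) → Prop := fun w m _ =>
      ∃ Y, ∃ l₁ l₂, m.2 = l₁ ++ Y :: l₂ ∧ ∃ s2, Chain (R w) m.1 l₁ s2 ∧
        Acc δ F w (R w) s2 (some Y)
    have h1 : ∀ q1 l, IsL α (Fin k ⊕ Empty) (fun w z =>
        P' w ((q1, z ∘ Sum.inl), l) (z ∘ Sum.inr)) := by
      intro q1 l
      refine IsL.bigOr (ι := Γ) (fun Y => IsL.split (fun l₁ l₂ => ?_) l Y)
      have h3 : ∀ q2 : Q, IsL α ((Fin k ⊕ Empty) ⊕ Fin k) (fun w z =>
          Chain (R w) (q1, z ∘ Sum.inl ∘ Sum.inl) l₁ (q2, z ∘ Sum.inr) ∧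
          Acc δ F w (R w) (q2, z ∘ Sum.inr) (some Y)) := fun q2 =>
        IsL.and (IsL.chain hR (fun w s X s' h hb => (hs w).bounded h hb) _ _ _ _ _)
          (isL_accSome hR hs _ _ _)
      refine IsL.congr (IsL.bigOr (ι := Q) (fun q2 => IsL.ex (h3 q2))) ?_
      intro w z hz
      constructor
      · rintro ⟨s2, g1, g2⟩
        exact ⟨s2.1, s2.2, (hs w).chain_bounded g1 (fun v => hz _), g1, g2⟩
      · rintro ⟨q2, t, _, g1, g2⟩
        exact ⟨_, g1, g2⟩
    have h2 := IsL.ofMove δ (P := P') h1 a none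
    refine IsL.congr (IsL.and (IsL.const (a ∉ F)) (IsL.equiv h2 (Equiv.sumEmpty _ _))) ?_
    intro w z _
    constructor
    · rintro ⟨g1, l₁, l₂, Y, s2, g2, g3, g4⟩
      exact ⟨g1, Y, l₁, l₂, g2, s2, g3, g4⟩
    · rintro ⟨g1, Y, l₁, l₂, g2, s2, g3, g4⟩
      exact ⟨g1, l₁, l₂, Y, s2, g2, g3, g4⟩
  have h1 : ∀ b : Q, IsL α (Fin k ⊕ Fin k) (fun w z =>
      ReflTransGen (TopStep δ F R w) (q, z ∘ Sum.inl) (b, z ∘ Sum.inr) ∧
      (b ∈ F ∨ TopAcc δ F R w (b, z ∘ Sum.inr))) := fun b =>
    IsL.and (IsL.congr (IsL.subst (hsteps b) (Sum.elim Empty.elim id)) (fun w z _ => Iff.rfl))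
      (IsL.or (IsL.const _) (IsL.lift (htop b) Sum.inr Sum.inr_injective))
  refine IsL.congr (IsL.bigOr (ι := Q) (fun b => IsL.ex (h1 b))) ?_
  intro w z hz
  rw [acc_none_iff]
  constructor
  · rintro ⟨s', g1, g2⟩
    have hb : ∀ v, s'.2 v ≤ w.length + 1 := by
      clear g2
      induction g1 with
      | refl => exact fun v => hz _
      | tail _ hst ih => exact hbd w _ _ ih hst
    exact ⟨s'.1, s'.2, hb, g1, g2⟩
  · rintro ⟨b, t, _, g1, g2⟩
    exact ⟨_, g1, g2⟩

end Dec

theorem decR_easy [Finite α] [Finite Q] [Fintype Γ] (δ : PDTrans α Q Γ k) (F : Set Q)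
    (c d : ℕ) : DecR α (fun w => Easy δ F w c d) := by
  induction d with
  | zero => intro q X q'; exact IsL.const False
  | succ d ih =>
    exact decR_window (decR_spine ih (fun w => sound_easy c d))
      (fun w => (sound_easy c d).spine)

/-- Acceptance within rank `d` is decidable. -/
theorem isL_within [Finite α] [Finite Q] [Fintype Γ] (δ : PDTrans α Q Γ k) (q₀ : Q)
    (F : Set Q) (c d : ℕ) : IsL α Empty (fun w _ => AcceptsWithin δ q₀ F c d w) := by
  have h1 : IsL α (Empty ⊕ Fin k) (fun w z => (∀ i, z (Sum.inr i) = 0) ∧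
      Acc δ F w (Easy δ F w c d) (q₀, z ∘ Sum.inr) none) :=
    IsL.and (IsL.bigAnd (fun i => IsL.isZero _)) (IsL.lift
      (isL_accNone (decR_easy δ F c d) (fun w => sound_easy c d) q₀) Sum.inr
      Sum.inr_injective)
  refine IsL.congr (IsL.ex h1) ?_
  intro w z _
  constructor
  · intro h
    exact ⟨fun _ => 0, fun _ => Nat.zero_le _, fun _ => rfl, h⟩
  · rintro ⟨t, _, h2, h3⟩
    have e : t = fun _ => 0 := funext h2
    subst e
    exact h3

/-! ### Monotonicity in the rank -/

section Mono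

variable {δ : PDTrans α Q Γ k} {F : Set Q} {w : List α}
  {R R' : Surf Q k → Γ → Surf Q k → Prop}

theorem Chain.mono (h : ∀ s X s', R s X s' → R' s X s') {s s' : Surf Q k} {l : List Γ}
    (hc : Chain R s l s') : Chain R' s l s' := by
  induction hc with
  | nil s => exact Chain.nil s
  | cons h1 _ ih => exact Chain.cons (h _ _ _ h1) ih

theorem Spine.mono (h : ∀ s X s', R s X s' → R' s X s') {s s' : Surf Q k} {X : Γ}
    (hc : Spine δ F w R s X s') : Spine δ F w R' s X s' := by
  induction hc with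
  | leaf h1 h2 h3 => exact Spine.leaf h1 h2 (h3.mono h)
  | node h1 h2 h3 _ h5 ih => exact Spine.node h1 h2 (h3.mono h) ih (h5.mono h)

theorem Window.mono {c : ℕ} (h : ∀ s X s', R s X s' → R' s X s') {s s' : Surf Q k} {X : Γ}
    (hc : Window δ F w c R s X s') : Window δ F w c R' s X s' := by
  refine ReflTransGen.mono ?_ _ _ hc
  intro a b hab
  cases hab with
  | jump h1 => exact WinStep.jump (h _ _ _ h1)
  | move h1 h2 h3 => exact WinStep.move h1 h2 h3

theorem Acc.mono (h : ∀ s X s', R s X s' → R' s X s') {s : Surf Q k} {X : Option Γ}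
    (hc : Acc δ F w R s X) : Acc δ F w R' s X := by
  induction hc with
  | here h1 => exact Acc.here h1
  | down h1 h2 h3 _ ih => exact Acc.down h1 h2 (h3.mono h) ih
  | next h1 h2 h3 _ ih => exact Acc.next h1 h2 (h3.mono h) ih

theorem easy_succ (c d : ℕ) {s s' : Surf Q k} {X : Γ} (h : Easy δ F w c d s X s') :
    Easy δ F w c (d + 1) s X s' := by
  induction d generalizing s X s' with
  | zero => exact h.elim
  | succ d ih => exact Window.mono (fun _ _ _ => Spine.mono (fun _ _ _ => ih)) h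

theorem easy_mono (c : ℕ) {d d' : ℕ} (hd : d ≤ d') {s s' : Surf Q k} {X : Γ}
    (h : Easy δ F w c d s X s') : Easy δ F w c d' s X s' := by
  induction hd with
  | refl => exact h
  | step _ ih => exact easy_succ c _ ih

/-- A symbol all of whose children have rank `≤ d` has rank `≤ d + 1`. -/
theorem easy_of_chain (c d : ℕ) {s s1 s' : Surf Q k} {X : Γ} {l : List Γ} (h1 : s.1 ∉ F)
    (h2 : pdMove δ w s (some X) = (s1, l)) (h3 : Chain (Easy δ F w c d) s1 l s') :
    Easy δ F w c (d + 1) s X s' :=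
  ReflTransGen.single (WinStep.jump (Spine.leaf h1 h2 h3))

/-! ### Every computation has a rank -/

theorem run_split {n : ℕ} {a b : Surf Q k × List Γ} (h : NSteps (RStep δ F w) n a b) :
    ∀ u t, a.2 = u ++ t →
      (∃ n1 n2 s', n = n1 + n2 ∧ NSteps (RStep δ F w) n1 (a.1, u) (s', []) ∧
        NSteps (RStep δ F w) n2 (s', t) b) ∨
      (∃ v, v ≠ [] ∧ b.2 = v ++ t ∧ NSteps (RStep δ F w) n (a.1, u) (b.1, v)) := by
  induction h with
  | zero a =>
    intro u t hu
    cases u with
    | nil =>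
      simp only [List.nil_append] at hu
      refine Or.inl ⟨0, 0, a.1, rfl, NSteps.zero _, ?_⟩
      have : (a.1, t) = a := by rw [← hu]
      rw [this]
      exact NSteps.zero _
    | cons X u => exact Or.inr ⟨X :: u, by simp, hu, NSteps.zero _⟩
  | @succ n a b' c' h1 h2 ih =>
    intro u t hu
    cases u with
    | nil =>
      simp only [List.nil_append] at hu
      refine Or.inl ⟨0, n + 1, a.1, by omega, NSteps.zero _, ?_⟩
      have : (a.1, t) = a := by rw [← hu]
      rw [this]
      exact NSteps.succ h1 h2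
    | cons X u =>
      obtain ⟨X', t', e1, e2, e3⟩ := h1
      rw [hu] at e1
      simp only [List.cons_append, List.cons.injEq] at e1
      obtain ⟨rfl, rfl⟩ := e1
      have hb : b'.2 = ((pdMove δ w a.1 (some X)).2 ++ u) ++ t := by
        rw [e3]; simp
      have hstep : RStep δ F w (a.1, X :: u) (b'.1, (pdMove δ w a.1 (some X)).2 ++ u) :=
        ⟨X, u, rfl, e2, by rw [e3]⟩
      rcases ih _ t hb with ⟨n1, n2, s', g1, g2, g3⟩ | ⟨v, g1, g2, g3⟩
      · exact Or.inl ⟨n1 + 1, n2, s', by omega, NSteps.succ hstep g2, g3⟩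
      · exact Or.inr ⟨v, g1, g2, NSteps.succ hstep g3⟩

theorem chain_of_run (c : ℕ) (n : ℕ)
    (ih : ∀ m ≤ n, ∀ s (X : Γ) s', NSteps (RStep δ F w) m (s, [X]) (s', []) →
      ∃ d, Easy δ F w c d s X s') :
    ∀ (l : List Γ) (s s' : Surf Q k) (m : ℕ), m ≤ n →
      NSteps (RStep δ F w) m (s, l) (s', []) → ∃ d, Chain (Easy δ F w c d) s l s' := by
  intro l
  induction l with
  | nil =>
    intro s s' m _ h
    generalize ha : ((s, []) : Surf Q k × List Γ) = a at h
    generalize hb : ((s', []) : Surf Q k × List Γ) = b at h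
    cases h with
    | zero _ =>
      rw [← hb] at ha
      simp only [Prod.mk.injEq, and_true] at ha
      subst ha
      exact ⟨0, Chain.nil _⟩
    | succ h1 _ =>
      subst ha
      exact absurd h1 not_step_nil
  | cons X l ihl =>
    intro s s' m hm h
    rcases run_split h [X] l rfl with ⟨n1, n2, s1, g1, g2, g3⟩ | ⟨v, g1, g2, _⟩
    · obtain ⟨d1, hd1⟩ := ih n1 (by omega) s X s1 g2
      obtain ⟨d2, hd2⟩ := ihl s1 s' n2 (by omega) g3
      exact ⟨max d1 d2, Chain.cons (easy_mono c (le_max_left _ _) hd1)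
        (hd2.mono (fun _ _ _ => easy_mono c (le_max_right _ _)))⟩
    · simp only [List.nil_eq, List.append_eq_nil_iff] at g2
      exact absurd g2.1 g1

theorem easy_of_run (c : ℕ) (n : ℕ) : ∀ (s : Surf Q k) (X : Γ) (s' : Surf Q k),
    NSteps (RStep δ F w) n (s, [X]) (s', []) → ∃ d, Easy δ F w c d s X s' := by
  induction n using Nat.strong_induction_on with
  | _ n ih =>
    intro s X s' h
    generalize ha : ((s, [X]) : Surf Q k × List Γ) = a at h
    generalize hb : ((s', []) : Surf Q k × List Γ) = b at h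
    cases h with
    | zero _ => rw [← hb] at ha; simp at ha
    | @succ n _ b' _ h1 h2 =>
      subst ha hb
      obtain ⟨X', t', e1, e2, e3⟩ := h1
      simp only [List.cons.injEq, List.nil_eq] at e1
      obtain ⟨rfl, rfl⟩ := e1
      simp only [List.append_nil] at e3
      subst e3
      obtain ⟨d, hd⟩ := chain_of_run c n (fun m hm => ih m (by omega)) _ _ _ n le_rfl h2
      exact ⟨d + 1, easy_of_chain c d e2 rfl hd⟩

theorem list_split (c : ℕ) : ∀ (l : List Γ) (n : ℕ) (s : Surf Q k)
    (b : Surf Q k × List Γ), b.2 ≠ [] → NSteps (RStep δ F w) n (s, l) b →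
      ∃ l₁ Y l₂ s2 m v d, l = l₁ ++ Y :: l₂ ∧ m ≤ n ∧ Chain (Easy δ F w c d) s l₁ s2 ∧
        v ≠ [] ∧ NSteps (RStep δ F w) m (s2, [Y]) (b.1, v) := by
  intro l
  induction l with
  | nil =>
    intro n s b hb h
    generalize ha : ((s, []) : Surf Q k × List Γ) = a at h
    cases h with
    | zero _ => subst ha; exact absurd rfl hb
    | succ h1 _ => subst ha; exact absurd h1 not_step_nil
  | cons X l ihl =>
    intro n s b hb h
    rcases run_split h [X] l rfl with ⟨n1, n2, s1, g1, g2, g3⟩ | ⟨v, g1, g2, g3⟩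
    · obtain ⟨d1, hd1⟩ := easy_of_run c n1 s X s1 g2
      obtain ⟨l₁, Y, l₂, s2, m, v, d, e1, e2, e3, e4, e5⟩ := ihl n2 s1 b hb g3
      refine ⟨X :: l₁, Y, l₂, s2, m, v, max d1 d, by rw [e1]; rfl, by omega, ?_, e4, e5⟩
      exact Chain.cons (easy_mono c (le_max_left _ _) hd1)
        (e3.mono (fun _ _ _ => easy_mono c (le_max_right _ _)))
    · exact ⟨[], X, l, s, n, v, 0, rfl, le_rfl, Chain.nil _, g1, g3⟩

theorem acc_of_run (c : ℕ) (n : ℕ) : ∀ (s : Surf Q k) (X : Γ) (b : Surf Q k × List Γ),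
    b.2 ≠ [] → b.1.1 ∈ F → NSteps (RStep δ F w) n (s, [X]) b →
      ∃ d, Acc δ F w (Easy δ F w c d) s (some X) := by
  induction n using Nat.strong_induction_on with
  | _ n ih =>
    intro s X b hb hF h
    generalize ha : ((s, [X]) : Surf Q k × List Γ) = a at h
    cases h with
    | zero _ => subst ha; exact ⟨0, Acc.here hF⟩
    | @succ n _ b' _ h1 h2 =>
      subst ha
      obtain ⟨X', t', e1, e2, e3⟩ := h1
      simp only [List.cons.injEq, List.nil_eq] at e1
      obtain ⟨rfl, rfl⟩ := e1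
      simp only [List.append_nil] at e3
      subst e3
      obtain ⟨l₁, Y, l₂, s2, m, v, d, e4, e5, e6, e7, e8⟩ := list_split c _ n _ b hb h2
      obtain ⟨d', hd'⟩ := ih m (by omega) s2 Y (b.1, v) e7 hF e8
      refine ⟨max d d', Acc.down e2 (Prod.ext rfl e4)
        (e6.mono (fun _ _ _ => easy_mono c (le_max_left _ _)))
        (hd'.mono (fun _ _ _ => easy_mono c (le_max_right _ _)))⟩

end Mono

/-! ### The full step function -/

section Full

variable (δ : PDTrans α Q Γ k) (w : List α)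

/-- The step function of the frozen statements. -/
def fstep (c : Q × (Fin k → ℕ) × List Γ) : Q × (Fin k → ℕ) × List Γ :=
  ((δ c.1 (fun j => (decide (c.2.1 j = 0), w[c.2.1 j - 1]?)) c.2.2.head?).1,
         (fun i => if (δ c.1 (fun j => (decide (c.2.1 j = 0), w[c.2.1 j - 1]?)) c.2.2.head?).2.1 i = 0
            then c.2.1 i - 1
            else if (δ c.1 (fun j => (decide (c.2.1 j = 0), w[c.2.1 j - 1]?)) c.2.2.head?).2.1 i = 1
            then c.2.1 i
            else min (c.2.1 i + 1) (w.length + 1)),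
         (δ c.1 (fun j => (decide (c.2.1 j = 0), w[c.2.1 j - 1]?)) c.2.2.head?).2.2 ++ c.2.2.tail)

variable {δ w}

theorem fstep_cons (s : Surf Q k) (X : Γ) (t : List Γ) :
    fstep δ w (s.1, s.2, X :: t) = ((pdMove δ w s (some X)).1.1, (pdMove δ w s (some X)).1.2,
      (pdMove δ w s (some X)).2 ++ t) := rfl

theorem fstep_nil (s : Surf Q k) :
    fstep δ w (s.1, s.2, []) = ((pdMove δ w s none).1.1, (pdMove δ w s none).1.2,
      (pdMove δ w s none).2) := by
  simp [fstep, pdMove]

variable {F : Set Q}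

theorem fstep_of_run {a b : Surf Q k × List Γ} (h : Run δ F w a b) (t : List Γ) :
    ∃ m, (fstep δ w)^[m] (a.1.1, a.1.2, a.2 ++ t) = (b.1.1, b.1.2, b.2 ++ t) := by
  induction h with
  | refl => exact ⟨0, rfl⟩
  | @tail b' c' _ hs ih =>
    obtain ⟨m, hm⟩ := ih
    obtain ⟨X, t', e1, _, e3⟩ := hs
    refine ⟨m + 1, ?_⟩
    rw [Function.iterate_succ_apply', hm, e1, e3]
    simp only [List.cons_append, fstep_cons, List.append_assoc]

/-- Soundness: acceptance in the sense of `Acc` is acceptance. -/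
theorem fstep_of_acc {R : Surf Q k → Γ → Surf Q k → Prop} (hR : Sound δ F w R)
    {s : Surf Q k} {X : Option Γ} (h : Acc δ F w R s X) :
    ∀ t : List Γ, (X = none → t = []) →
      ∃ m, ((fstep δ w)^[m] (s.1, s.2, X.toList ++ t)).1 ∈ F := by
  induction h with
  | here h => exact fun t _ => ⟨0, h⟩
  | @down s s1 s2 X Y l₁ l₂ h1 h2 h3 _ ih =>
    intro t ht
    obtain ⟨m1, hm1⟩ := fstep_of_run (hR.chain h3) (Y :: (l₂ ++ t))
    obtain ⟨m2, hm2⟩ := ih (l₂ ++ t) (by simp)
    refine ⟨m2 + m1 + 1, ?_⟩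
    rw [Function.iterate_add_apply (fstep δ w) (m2 + m1) 1, Function.iterate_one]
    have hstep : fstep δ w (s.1, s.2, X.toList ++ t) =
        (s1.1, s1.2, l₁ ++ Y :: (l₂ ++ t)) := by
      cases X with
      | none =>
        have := ht rfl
        subst this
        simp only [Option.toList_none, List.append_nil, fstep_nil, h2]
      | some X =>
        simp only [Option.toList_some, List.singleton_append, fstep_cons, h2]
        simp
    rw [hstep, Function.iterate_add_apply, hm1]
    simpa using hm2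
  | @next s s1 s2 l h1 h2 h3 _ ih =>
    intro t ht
    have := ht rfl
    subst this
    obtain ⟨m1, hm1⟩ := fstep_of_run (hR.chain h3) []
    obtain ⟨m2, hm2⟩ := ih [] (by simp)
    refine ⟨m2 + m1 + 1, ?_⟩
    rw [Function.iterate_add_apply (fstep δ w) (m2 + m1) 1, Function.iterate_one]
    have hstep : fstep δ w (s.1, s.2, (none : Option Γ).toList ++ []) = (s1.1, s1.2, l) := by
      simp only [Option.toList_none, List.append_nil, fstep_nil, h2]
    rw [hstep, Function.iterate_add_apply]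
    simp only [List.append_nil] at hm1
    rw [hm1]
    simpa using hm2

/-- Follow the run until the stack is empty or a state of `F` is reached. -/
theorem follow (m : ℕ) : ∀ (s : Surf Q k) (l : List Γ),
    (∀ j < m, ((fstep δ w)^[j] (s.1, s.2, l)).1 ∉ F) →
    ((fstep δ w)^[m] (s.1, s.2, l)).1 ∈ F →
    (∃ j s2, j ≤ m ∧ NSteps (RStep δ F w) j (s, l) (s2, []) ∧
      (fstep δ w)^[j] (s.1, s.2, l) = (s2.1, s2.2, [])) ∨
    (∃ b : Surf Q k × List Γ, b.2 ≠ [] ∧ b.1.1 ∈ F ∧ NSteps (RStep δ F w) m (s, l) b) := by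
  induction m with
  | zero =>
    intro s l _ h
    cases l with
    | nil => exact Or.inl ⟨0, s, le_rfl, NSteps.zero _, rfl⟩
    | cons X t => exact Or.inr ⟨(s, X :: t), by simp, h, NSteps.zero _⟩
  | succ m ih =>
    intro s l h1 h2
    cases l with
    | nil => exact Or.inl ⟨0, s, Nat.zero_le _, NSteps.zero _, rfl⟩
    | cons X t =>
      have hs : s.1 ∉ F := h1 0 (Nat.succ_pos _)
      have hstep : RStep δ F w (s, X :: t) ((pdMove δ w s (some X)).1,
        (pdMove δ w s (some X)).2 ++ t) := ⟨X, t, rfl, hs, rfl⟩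
      have e : ∀ j, (fstep δ w)^[j + 1] (s.1, s.2, X :: t) =
          (fstep δ w)^[j] ((pdMove δ w s (some X)).1.1, (pdMove δ w s (some X)).1.2,
            (pdMove δ w s (some X)).2 ++ t) := fun j => by
        rw [Function.iterate_succ_apply, fstep_cons]
      rcases ih (pdMove δ w s (some X)).1 ((pdMove δ w s (some X)).2 ++ t)
        (fun j hj => by rw [← e]; exact h1 _ (by omega)) (by rw [← e]; exact h2) with
        ⟨j, s2, g1, g2, g3⟩ | ⟨b, g1, g2, g3⟩
      · exact Or.inl ⟨j + 1, s2, by omega, NSteps.succ hstep g2, by rw [e, g3]⟩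
      · exact Or.inr ⟨b, g1, g2, NSteps.succ hstep g3⟩

theorem within_of_run (c : ℕ) (m : ℕ) : ∀ (s : Surf Q k),
    (∀ j < m, ((fstep δ w)^[j] (s.1, s.2, [])).1 ∉ F) →
    ((fstep δ w)^[m] (s.1, s.2, [])).1 ∈ F →
    ∃ d, Acc δ F w (Easy δ F w c d) s (none : Option Γ) := by
  induction m using Nat.strong_induction_on with
  | _ m ih =>
    intro s h1 h2
    cases m with
    | zero => exact ⟨0, Acc.here h2⟩
    | succ m =>
      have hs : s.1 ∉ F := h1 0 (Nat.succ_pos _)
      have e : ∀ j, (fstep δ w)^[j + 1] (s.1, s.2, []) =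
          (fstep δ w)^[j] ((pdMove δ w s none).1.1, (pdMove δ w s none).1.2,
            (pdMove δ w s none).2) := fun j => by
        rw [Function.iterate_succ_apply, fstep_nil]
      rcases follow (F := F) m (pdMove δ w s none).1 (pdMove δ w s none).2
        (fun j hj => by rw [← e]; exact h1 _ (by omega)) (by rw [← e]; exact h2) with
        ⟨j, s2, g1, g2, g3⟩ | ⟨b, g1, g2, g3⟩
      · -- the stack becomes empty again
        obtain ⟨d1, hd1⟩ := chain_of_run c j (fun m _ => easy_of_run c m) _ _ _ j le_rfl g2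
        have e2 : ∀ i, (fstep δ w)^[i] (s2.1, s2.2, []) =
            (fstep δ w)^[i + j + 1] (s.1, s.2, []) := fun i => by
          rw [e (i + j), Function.iterate_add_apply, g3]
        obtain ⟨d2, hd2⟩ := ih (m - j) (by omega) s2
          (fun i hi => by rw [e2]; exact h1 _ (by omega))
          (by
            rw [e2]
            have : m - j + j + 1 = m + 1 := by omega
            rw [this]
            exact h2)
        exact ⟨max d1 d2, Acc.next hs rfl (hd1.mono (fun _ _ _ => easy_mono c (le_max_left _ _)))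
          (hd2.mono (fun _ _ _ => easy_mono c (le_max_right _ _)))⟩
      · obtain ⟨l₁, Y, l₂, s2, m', v, d, e4, e5, e6, e7, e8⟩ := list_split c _ m _ b g1 g3
        obtain ⟨d', hd'⟩ := acc_of_run c m' s2 Y (b.1, v) e7 g2 e8
        exact ⟨max d d', Acc.down hs (Prod.ext rfl e4)
          (e6.mono (fun _ _ _ => easy_mono c (le_max_left _ _)))
          (hd'.mono (fun _ _ _ => easy_mono c (le_max_right _ _)))⟩

/-- A word is accepted iff it is accepted within some rank. -/
theorem accepts_iff (δ : PDTrans α Q Γ k) (q₀ : Q) (F : Set Q) (c : ℕ) (w : List α) :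
    (∃ m : ℕ, ((fstep δ w)^[m] (q₀, (fun _ => 0), [])).1 ∈ F) ↔
      ∃ d, AcceptsWithin δ q₀ F c d w := by
  classical
  constructor
  · intro h
    exact within_of_run c (Nat.find h) (q₀, fun _ => 0) (fun j hj => Nat.find_min h hj)
      (Nat.find_spec h)
  · rintro ⟨d, h⟩
    have := fstep_of_acc (sound_easy c d) h [] (fun _ => rfl)
    simpa using this

end Full

end Pool.Agent.Helper6
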