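import Pool.Agent.Helper6.DPDADefs

set_option autoImplicit false

/-!
Small-step facts about pushdown computations: soundness and determinism of the erasing relations.
-/

namespace Pool.Agent.Helper6

open Relation

variable {α Q Γ : Type} {k : ℕ} (δ : PDTrans α Q Γ k) (F : Set Q) (w : List α)

/-- One ordinary move with a non-empty stack and a state outside `F`. -/
def RStep (a b : Surf Q k × List Γ) : Prop :=
  ∃ X t, a.2 = X :: t ∧ a.1.1 ∉ F ∧ b = ((pdMove δ w a.1 (some X)).1,
    (pdMove δ w a.1 (some X)).2 ++ t)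

/-- Ordinary runs. -/
abbrev Run : Surf Q k × List Γ → Surf Q k × List Γ → Prop := ReflTransGen (RStep δ F w)

variable {δ F w}

theorem RStep.unique : Relator.RightUnique (RStep δ F w) := by
  rintro ⟨s, u⟩ b c ⟨X, t, h1, _, rfl⟩ ⟨X', t', h2, _, rfl⟩
  simp only at h1 h2
  rw [h1] at h2
  simp only [List.cons.injEq] at h2
  obtain ⟨rfl, rfl⟩ := h2
  rfl

theorem RStep.frame {s s' : Surf Q k} {u u' : List Γ} (h : RStep δ F w (s, u) (s', u'))
    (t : List Γ) : RStep δ F w (s, u ++ t) (s', u' ++ t) := by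
  obtain ⟨X, t', h1, h2, h3⟩ := h
  simp only at h1 h2 h3
  subst h1
  simp only [Prod.mk.injEq] at h3
  obtain ⟨rfl, rfl⟩ := h3
  exact ⟨X, t' ++ t, rfl, h2, by simp⟩

theorem Run.frame {a b : Surf Q k × List Γ} (h : Run δ F w a b) (t : List Γ) :
    Run δ F w (a.1, a.2 ++ t) (b.1, b.2 ++ t) := by
  induction h with
  | refl => exact ReflTransGen.refl
  | tail _ hs ih => exact ReflTransGen.tail ih (hs.frame t)

theorem RStep.of_move {s s1 : Surf Q k} {X : Γ} {l t : List Γ} (h1 : s.1 ∉ F)
    (h2 : pdMove δ w s (some X) = (s1, l)) : RStep δ F w (s, X :: t) (s1, l ++ t) :=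
  ⟨X, t, rfl, h1, by simp [h2]⟩

theorem not_step_nil {s : Surf Q k} {b : Surf Q k × List Γ} : ¬ RStep δ F w (s, []) b := by
  rintro ⟨X, t, h, _⟩
  simp at h

theorem not_step_acc {s : Surf Q k} {u : List Γ} {b : Surf Q k × List Γ} (hs : s.1 ∈ F) :
    ¬ RStep δ F w (s, u) b := by
  rintro ⟨X, t, _, h, _⟩
  exact h hs

theorem eq_of_run_stuck {a b : Surf Q k × List Γ} (h : Run δ F w a b)
    (hs : ∀ c, ¬ RStep δ F w a c) : a = b := by
  rcases ReflTransGen.cases_head h with h | ⟨c, hc, _⟩
  · exact h
  · exact absurd hc (hs c)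

/-- Two stuck configurations reachable from the same one are equal. -/
theorem stuck_unique {a b c : Surf Q k × List Γ} (h1 : Run δ F w a b) (h2 : Run δ F w a c)
    (hb : ∀ d, ¬ RStep δ F w b d) (hc : ∀ d, ¬ RStep δ F w c d) : b = c := by
  rcases ReflTransGen.total_of_right_unique RStep.unique h1 h2 with h | h
  · exact eq_of_run_stuck h hb
  · exact (eq_of_run_stuck h hc).symm

variable (δ F w)

/-- A sound erasing relation. -/
def Sound (R : Surf Q k → Γ → Surf Q k → Prop) : Prop :=
  ∀ s X s', R s X s' → Run δ F w (s, [X]) (s', [])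

variable {δ F w}

variable {R : Surf Q k → Γ → Surf Q k → Prop}

theorem Sound.chain (hR : Sound δ F w R) {s s' : Surf Q k} {l : List Γ} (h : Chain R s l s') :
    Run δ F w (s, l) (s', []) := by
  induction h with
  | nil s => exact ReflTransGen.refl
  | @cons s s' s'' X l h _ ih =>
    have h1 := (hR _ _ _ h).frame l
    exact ReflTransGen.trans h1 ih

theorem Sound.functional (hR : Sound δ F w R) {s s' s'' : Surf Q k} {X : Γ}
    (h1 : R s X s') (h2 : R s X s'') : s' = s'' := by
  have := stuck_unique (hR _ _ _ h1) (hR _ _ _ h2) (fun _ => not_step_nil)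
    (fun _ => not_step_nil)
  simpa using this

theorem Sound.chain_functional (hR : Sound δ F w R) {s s' s'' : Surf Q k} {l : List Γ}
    (h1 : Chain R s l s') (h2 : Chain R s l s'') : s' = s'' := by
  have := stuck_unique (hR.chain h1) (hR.chain h2) (fun _ => not_step_nil)
    (fun _ => not_step_nil)
  simpa using this

theorem Chain.append {s s' s'' : Surf Q k} {l l' : List Γ} (h : Chain R s l s')
    (h' : Chain R s' l' s'') : Chain R s (l ++ l') s'' := by
  induction h with
  | nil s => exact h'
  | cons h1 _ ih => exact Chain.cons h1 (ih h')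

theorem Sound.spine (hR : Sound δ F w R) : Sound δ F w (Spine δ F w R) := by
  intro s X s' h
  induction h with
  | leaf h1 h2 h3 =>
    refine ReflTransGen.head (RStep.of_move (t := []) h1 h2) ?_
    simpa using hR.chain h3
  | @node s s1 s2 s3 s' X Y l₁ l₂ h1 h2 h3 _ h5 ih =>
    refine ReflTransGen.head (RStep.of_move (t := []) h1 h2) ?_
    have e1 := (hR.chain h3).frame (Y :: l₂)
    have e2 := ih.frame l₂
    have e3 := hR.chain h5
    simp only [List.nil_append, List.append_nil, List.singleton_append] at e1 e2 e3 ⊢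
    exact e1.trans (e2.trans e3)

theorem WinStep.run {c : ℕ} (hR : Sound δ F w R) {a b : Surf Q k × List Γ}
    (h : WinStep δ F w c R a b) : Run δ F w a b := by
  cases h with
  | @jump s s' X t h => exact (hR _ _ _ h).frame t
  | move h1 h2 _ => exact ReflTransGen.single (RStep.of_move h1 h2)

theorem Sound.window (hR : Sound δ F w R) (c : ℕ) : Sound δ F w (Window δ F w c R) := by
  intro s X s' h
  have key : ∀ a b, ReflTransGen (WinStep δ F w c R) a b → Run δ F w a b := by
    intro a b h
    induction h with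
    | refl => exact ReflTransGen.refl
    | tail _ hs ih => exact ih.trans (hs.run hR)
  exact key _ _ h

theorem sound_easy (c d : ℕ) : Sound δ F w (Easy δ F w c d) := by
  induction d with
  | zero => intro s X s' h; exact h.elim
  | succ d ih => exact ih.spine.window c

/-- If acceptance is reached below `X`, then `X` is never erased. -/
theorem Acc.run (hR : Sound δ F w R) {s : Surf Q k} {X : Option Γ} (h : Acc δ F w R s X) :
    ∀ Y, X = some Y → ∃ s' Z t, Run δ F w (s, [Y]) (s', Z :: t) ∧ s'.1 ∈ F := by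
  induction h with
  | @here s X hs =>
    rintro Y rfl
    exact ⟨s, Y, [], ReflTransGen.refl, hs⟩
  | @down s s1 s2 X Y l₁ l₂ h1 h2 h3 _ ih =>
    rintro Z rfl
    obtain ⟨s', Z', t, hrun, hs'⟩ := ih Y rfl
    refine ⟨s', Z', t ++ l₂, ?_, hs'⟩
    refine ReflTransGen.head (RStep.of_move (t := []) h1 h2) ?_
    have e1 := (hR.chain h3).frame (Y :: l₂)
    have e2 := hrun.frame l₂
    simp only [List.nil_append, List.append_nil, List.singleton_append] at e1 e2 ⊢
    exact e1.trans e2
  | next h1 h2 h3 _ ih =>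
    intro Y hY
    exact absurd hY (by simp)

theorem Acc.not_erased (hR : Sound δ F w R) {s : Surf Q k} {X : Γ}
    (h : Acc δ F w R s (some X)) : ¬ ∃ s', R s X s' := by
  rintro ⟨s', h'⟩
  obtain ⟨s'', Z, t, hrun, hs''⟩ := h.run hR X rfl
  have := stuck_unique hrun (hR _ _ _ h') (fun _ => not_step_acc hs'')
    (fun _ => not_step_nil)
  simp at this

/-- Moves keep the heads on the tape. -/
theorem pdMove_bounded {s : Surf Q k} (X : Option Γ) (hs : ∀ v, s.2 v ≤ w.length + 1) :
    ∀ v, (pdMove δ w s X).1.2 v ≤ w.length + 1 := by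
  intro v
  have := hs v
  simp only [pdMove]
  split_ifs
  · omega
  · exact this
  · exact min_le_right _ _

theorem Run.bounded {a b : Surf Q k × List Γ} (h : Run δ F w a b)
    (ha : ∀ v, a.1.2 v ≤ w.length + 1) : ∀ v, b.1.2 v ≤ w.length + 1 := by
  induction h with
  | refl => exact ha
  | tail _ hs ih =>
    obtain ⟨X, t, _, _, rfl⟩ := hs
    exact pdMove_bounded (some X) ih

theorem Sound.bounded (hR : Sound δ F w R) {s s' : Surf Q k} {X : Γ} (h : R s X s')
    (hs : ∀ v, s.2 v ≤ w.length + 1) : ∀ v, s'.2 v ≤ w.length + 1 :=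
  (hR _ _ _ h).bounded hs

theorem Sound.chain_bounded (hR : Sound δ F w R) {s s' : Surf Q k} {l : List Γ}
    (h : Chain R s l s') (hs : ∀ v, s.2 v ≤ w.length + 1) : ∀ v, s'.2 v ≤ w.length + 1 :=
  (hR.chain h).bounded hs

end Pool.Agent.Helper6
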