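import Pool.Agent.Helper6.MHeadD

set_option autoImplicit false

/-!
Finite control and parameters for the deterministic transitive closure, and the passage to
the automaton model of the frozen statements.
-/

namespace Pool.Agent.Helper6

open Relation

variable {α V V' U A B : Type}

theorem iterate_of_reach {X : Type} {r : X → X → Prop} (f : X → X)
    (hr : ∀ x y, r x y → f x = y) {x y : X} (h : ReflTransGen r x y) : ∃ m, f^[m] x = y := by
  induction h with
  | refl => exact ⟨0, rfl⟩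
  | tail _ hs ih =>
    obtain ⟨m, hm⟩ := ih
    exact ⟨m + 1, by rw [Function.iterate_succ_apply', hm, hr _ _ hs]⟩

namespace IsL

/-- A decidable language is accepted by a two-way multihead finite automaton in the sense of
the frozen statements. -/
theorem toAutomaton {R : List α → Prop} (h : IsL α Empty (fun w _ => R w)) :
    ∃ (k' : ℕ) (P : Type) (_ : Fintype P)
      (η : P → (Fin k' → Bool × Option α) → P × (Fin k' → Fin 3))
      (p₀ : P) (G : Set P),
    ∀ w : List α, R w ↔
      (∃ m : ℕ, ((fun c : P × (Fin k' → ℕ) =>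
        ((η c.1 (fun j => (decide (c.2 j = 0), w[c.2 j - 1]?))).1,
         (fun i => if (η c.1 (fun j => (decide (c.2 j = 0), w[c.2 j - 1]?))).2 i = 0
            then c.2 i - 1
            else if (η c.1 (fun j => (decide (c.2 j = 0), w[c.2 j - 1]?))).2 i = 1
            then c.2 i
            else min (c.2 i + 1) (w.length + 1))))^[m]
          (p₀, (fun _ => 0))).1 ∈ G) := by
  classical
  obtain ⟨W, hW, M0, hM0⟩ := h
  have := Fintype.ofFinite W
  let e : Empty ⊕ W ≃ Fin (Fintype.card W) := (Equiv.emptySum Empty W).trans (Fintype.equivFin W)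
  let M := M0.lift e
  have hM : ∀ w, M.Reach w (Sum.inl (M.entry ()), fun _ => 0)
      (Sum.inr (decide (R w)), fun _ => 0) := by
    intro w
    have h1 := hM0 w () (fun v => v.elim) (decide (R w)) (fun v => v.elim)
      (fun v => v.elim) ⟨rfl, by simp⟩
    have h2 := Frag.lift_reach M0 e.injective h1 (fun _ => 0) (by
      funext v
      rcases v with v | v
      · exact v.elim
      · rfl)
    have h3 : Function.extend e (Sum.elim (fun v : Empty => v.elim) (fun _ => 0) : Empty ⊕ W → ℕ)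
        (fun _ => 0) = fun _ => 0 := by
      funext v
      obtain ⟨u, rfl⟩ := e.surjective v
      rw [e.injective.extend_apply]
      rcases u with u | u
      · exact u.elim
      · rfl
    simp only [h3] at h2
    exact h2
  have hfin : Finite M.P := M.fin
  have hft := Fintype.ofFinite M.P
  let η : (M.P ⊕ Bool) → (Fin (Fintype.card W) → Bool × Option α) →
      (M.P ⊕ Bool) × (Fin (Fintype.card W) → Fin 3) := fun p s => match p with
    | Sum.inl p => M.η p s
    | Sum.inr b => (Sum.inr b, fun _ => 1)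
  refine ⟨Fintype.card W, M.P ⊕ Bool, inferInstance, η, Sum.inl (M.entry ()),
    {Sum.inr true}, ?_⟩
  intro w
  set f : (M.P ⊕ Bool) × (Fin (Fintype.card W) → ℕ) → (M.P ⊕ Bool) ×
      (Fin (Fintype.card W) → ℕ) := fun c =>
        ((η c.1 (fun j => (decide (c.2 j = 0), w[c.2 j - 1]?))).1,
         (fun i => if (η c.1 (fun j => (decide (c.2 j = 0), w[c.2 j - 1]?))).2 i = 0
            then c.2 i - 1
            else if (η c.1 (fun j => (decide (c.2 j = 0), w[c.2 j - 1]?))).2 i = 1
            then c.2 i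
            else min (c.2 i + 1) (w.length + 1))) with hf
  have hstep : ∀ x y, M.Step w x y → f x = y := by
    rintro ⟨p, σ⟩ y ⟨p', hp, rfl⟩
    simp only at hp
    subst hp
    rfl
  obtain ⟨m, hm⟩ := iterate_of_reach f hstep (hM w)
  have habs : ∀ b σ j, (f^[j] (Sum.inr b, σ)).1 = Sum.inr b := by
    intro b σ j
    have : ∀ j, ∃ σ', f^[j] (Sum.inr b, σ) = (Sum.inr b, σ') := by
      intro j
      induction j with
      | zero => exact ⟨σ, rfl⟩
      | succ j ih =>
        obtain ⟨σ', h⟩ := ih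
        rw [Function.iterate_succ_apply', h]
        exact ⟨_, rfl⟩
    obtain ⟨σ', h⟩ := this j
    rw [h]
  constructor
  · intro hR
    refine ⟨m, ?_⟩
    rw [hm]
    simp [hR]
  · rintro ⟨m', hm'⟩
    by_contra hR
    have hR' : decide (R w) = false := by simp [hR]
    rw [hR'] at hm
    rcases Nat.le_total m m' with hle | hle
    · have h1 : f^[m'] (Sum.inl (M.entry ()), fun _ => 0) =
          f^[m' - m] (f^[m] (Sum.inl (M.entry ()), fun _ => 0)) := by
        rw [← Function.iterate_add_apply]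
        congr 1
        omega
      rw [h1, hm, habs] at hm'
      simp at hm'
    · have h1 : f^[m] (Sum.inl (M.entry ()), fun _ => 0) =
          f^[m - m'] (f^[m'] (Sum.inl (M.entry ()), fun _ => 0)) := by
        rw [← Function.iterate_add_apply]
        congr 1
        omega
      rcases hc : f^[m'] (Sum.inl (M.entry ()), fun _ => 0) with ⟨p, σ⟩
      rw [hc] at hm' h1
      have hp : p = Sum.inr true := hm'
      subst hp
      rw [hm] at h1
      have h2 := habs true σ (m - m')
      rw [← h1] at h2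
      simp at h2

end IsL

/-- Configurations with finite control whose heads are genuine positions. -/
def Good (w : List α) (c : A × (V → ℕ)) : Prop := ∀ v, c.2 v ≤ w.length + 1

/-- One-hot code of a control state. -/
noncomputable def oneHot (a : A) : A → ℕ := by
  classical
  exact fun a' => if a' = a then 1 else 0

theorem oneHot_inj {a b : A} (h : oneHot a = oneHot b) : a = b := by
  classical
  have := congrFun h a
  unfold oneHot at this
  simp only [if_true] at this
  by_contra hne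
  rw [if_neg hne] at this
  simp at this

theorem oneHot_le (a a' : A) : oneHot a a' ≤ 1 := by
  classical
  unfold oneHot
  split_ifs <;> simp

namespace IsL

theorem isOne (u : V) : IsL α V (fun _ x => x u = 1) := by
  have h : IsL α (V ⊕ Unit) (fun _ z => z (Sum.inr ()) = 0 ∧
      z (Sum.inr ()) + 1 = z (Sum.inl u)) := and (isZero _) (succ _ _)
  refine congr (ex1 h) ?_
  intro w x _
  constructor
  · intro h
    exact ⟨0, Nat.zero_le _, rfl, by simpa using h.symm⟩
  · rintro ⟨t, _, h1, h2⟩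
    simp at h1 h2
    omega

theorem isOneHot [Finite A] (a : A) (e : A → V) :
    IsL α V (fun _ x => x ∘ e = oneHot a) := by
  classical
  refine congr (bigAnd (R := fun a' _ x => x (e a') = oneHot a a') ?_) ?_
  · intro a'
    unfold oneHot
    split_ifs
    · exact isOne _
    · exact isZero _
  · intro w x _
    exact funext_iff

/-- Deterministic transitive closure with finite control and parameters. -/
theorem dtcCtl [Finite A] [Finite V] [Finite U]
    {E : List α → (U → ℕ) → A × (V → ℕ) → A × (V → ℕ) → Prop}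
    (hE : ∀ a b, IsL α (U ⊕ (V ⊕ V)) (fun w z =>
      E w (z ∘ Sum.inl) (a, z ∘ Sum.inr ∘ Sum.inl) (b, z ∘ Sum.inr ∘ Sum.inr)))
    (hbd : ∀ w p c d, (∀ u, p u ≤ w.length + 1) → Good w c → E w p c d → Good w d)
    (hfun : ∀ w p c d d', (∀ u, p u ≤ w.length + 1) → Good w c → E w p c d → E w p c d' → d = d')
    (a b : A) :
    IsL α (U ⊕ (V ⊕ V)) (fun w z => ReflTransGen (E w (z ∘ Sum.inl))
      (a, z ∘ Sum.inr ∘ Sum.inl) (b, z ∘ Sum.inr ∘ Sum.inr)) := by
  classical
  -- heads of the coded configurations: `A ⊕ (U ⊕ V)`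
  let E' : List α → ((A ⊕ (U ⊕ V)) ⊕ (A ⊕ (U ⊕ V)) → ℕ) → Prop := fun w z =>
    ∃ a b : A, (z ∘ Sum.inl ∘ Sum.inl = oneHot a ∧ z ∘ Sum.inr ∘ Sum.inl = oneHot b) ∧
      (z ∘ Sum.inr ∘ Sum.inr ∘ Sum.inl = z ∘ Sum.inl ∘ Sum.inr ∘ Sum.inl) ∧
      E w (z ∘ Sum.inl ∘ Sum.inr ∘ Sum.inl) (a, z ∘ Sum.inl ∘ Sum.inr ∘ Sum.inr)
        (b, z ∘ Sum.inr ∘ Sum.inr ∘ Sum.inr)
  have hE' : IsL α ((A ⊕ (U ⊕ V)) ⊕ (A ⊕ (U ⊕ V))) E' := by
    refine bigOr (fun a => bigOr (fun b => and (and ?_ ?_) (and ?_ ?_)))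
    · exact isOneHot a (Sum.inl ∘ Sum.inl)
    · exact isOneHot b (Sum.inr ∘ Sum.inl)
    · refine congr (bigAnd (R := fun u _ x => x (Sum.inr (Sum.inr (Sum.inl u))) =
        x (Sum.inl (Sum.inr (Sum.inl u)))) (fun u => eq _ _)) ?_
      intro w x _
      exact funext_iff
    · refine congr (subst (hE a b) (Sum.elim (Sum.inl ∘ Sum.inr ∘ Sum.inl)
        (Sum.elim (Sum.inl ∘ Sum.inr ∘ Sum.inr) (Sum.inr ∘ Sum.inr ∘ Sum.inr)))) ?_
      intro w x _
      rfl
  have hcode : ∀ w x y, Bd E' w x y ↔ ∃ (a b : A) (p : U → ℕ) (c d : V → ℕ),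
      x = Sum.elim (oneHot a) (Sum.elim p c) ∧ y = Sum.elim (oneHot b) (Sum.elim p d) ∧
      (∀ u, p u ≤ w.length + 1) ∧ Good w (a, c) ∧ Good w (b, d) ∧ E w p (a, c) (b, d) := by
    intro w x y
    constructor
    · rintro ⟨hx, hy, a, b, ⟨h1, h2⟩, h3, h4⟩
      refine ⟨a, b, x ∘ Sum.inr ∘ Sum.inl, x ∘ Sum.inr ∘ Sum.inr, y ∘ Sum.inr ∘ Sum.inr,
        ?_, ?_, fun u => hx _, fun v => hx _, fun v => hy _, h4⟩
      · rw [← h1]
        funext v
        rcases v with v | (v | v) <;> rfl
      · have h3' : y ∘ Sum.inr ∘ Sum.inl = x ∘ Sum.inr ∘ Sum.inl := h3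
        rw [← h2, ← h3']
        funext v
        rcases v with v | (v | v) <;> rfl
    · rintro ⟨a, b, p, c, d, rfl, rfl, hp, hc, hd, hE⟩
      refine ⟨?_, ?_, a, b, ⟨rfl, rfl⟩, rfl, hE⟩
      · rintro (v | (v | v))
        · exact (oneHot_le a v).trans (by omega)
        · exact hp v
        · exact hc v
      · rintro (v | (v | v))
        · exact (oneHot_le b v).trans (by omega)
        · exact hp v
        · exact hd v
  have hinj : ∀ {a b : A} {p q : U → ℕ} {c d : V → ℕ},
      (Sum.elim (oneHot a) (Sum.elim p c) : A ⊕ (U ⊕ V) → ℕ) =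
        Sum.elim (oneHot b) (Sum.elim q d) → a = b ∧ p = q ∧ c = d := by
    intro a b p q c d h
    refine ⟨oneHot_inj ?_, ?_, ?_⟩
    · funext v; exact congrFun h (Sum.inl v)
    · funext v; exact congrFun h (Sum.inr (Sum.inl v))
    · funext v; exact congrFun h (Sum.inr (Sum.inr v))
  have hdtc := dtc hE' (by
    intro w x y y' h1 h2
    rw [hcode] at h1 h2
    obtain ⟨a, b, p, c, d, rfl, rfl, hp, hc, _, hE1⟩ := h1
    obtain ⟨a', b', p', c', d', h3, rfl, _, _, _, hE2⟩ := h2
    obtain ⟨rfl, rfl, rfl⟩ := hinj h3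
    have := hfun w _ _ _ _ hp hc hE1 hE2
    simp only [Prod.mk.injEq] at this
    obtain ⟨rfl, rfl⟩ := this
    rfl)
  -- the final formula
  have h1 : IsL α ((U ⊕ (V ⊕ V)) ⊕ ((A ⊕ (U ⊕ V)) ⊕ (A ⊕ (U ⊕ V)))) (fun w z =>
      ((z ∘ Sum.inr ∘ Sum.inl ∘ Sum.inl = oneHot a ∧
        z ∘ Sum.inr ∘ Sum.inr ∘ Sum.inl = oneHot b) ∧
      ((z ∘ Sum.inr ∘ Sum.inl ∘ Sum.inr = z ∘ Sum.inl ∘ Sum.map id Sum.inl ) ∧
       (z ∘ Sum.inr ∘ Sum.inr ∘ Sum.inr = z ∘ Sum.inl ∘ Sum.map id Sum.inr))) ∧
      ReflTransGen (Bd E' w) (z ∘ Sum.inr ∘ Sum.inl) (z ∘ Sum.inr ∘ Sum.inr)) := by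
    refine and (and (and ?_ ?_) (and ?_ ?_)) ?_
    · exact isOneHot a (Sum.inr ∘ Sum.inl ∘ Sum.inl)
    · exact isOneHot b (Sum.inr ∘ Sum.inr ∘ Sum.inl)
    · refine congr (bigAnd (R := fun (u : U ⊕ V) _ x =>
        x (Sum.inr (Sum.inl (Sum.inr u))) = x (Sum.inl (Sum.map id Sum.inl u)))
        (fun u => eq _ _)) ?_
      intro w x _
      exact funext_iff
    · refine congr (bigAnd (R := fun (u : U ⊕ V) _ x =>
        x (Sum.inr (Sum.inr (Sum.inr u))) = x (Sum.inl (Sum.map id Sum.inr u)))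
        (fun u => eq _ _)) ?_
      intro w x _
      exact funext_iff
    · exact lift hdtc Sum.inr Sum.inr_injective
  refine congr (ex h1) ?_
  intro w z hz
  have hzp : ∀ u, (z ∘ Sum.inl) u ≤ w.length + 1 := fun u => hz _
  constructor
  · intro hr
    have hgood0 : Good w (a, z ∘ Sum.inr ∘ Sum.inl) := fun v => hz _
    have hmain : ∀ d : A × (V → ℕ), ReflTransGen (E w (z ∘ Sum.inl))
        (a, z ∘ Sum.inr ∘ Sum.inl) d → Good w d ∧
        ReflTransGen (Bd E' w) (Sum.elim (oneHot a) (Sum.elim (z ∘ Sum.inl)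
          (z ∘ Sum.inr ∘ Sum.inl))) (Sum.elim (oneHot d.1) (Sum.elim (z ∘ Sum.inl) d.2)) := by
      intro d hd
      induction hd with
      | refl => exact ⟨hgood0, ReflTransGen.refl⟩
      | @tail c d _ hcd ih =>
        have hg := hbd w _ _ _ hzp ih.1 hcd
        refine ⟨hg, ReflTransGen.tail ih.2 ?_⟩
        rw [hcode]
        exact ⟨c.1, d.1, z ∘ Sum.inl, c.2, d.2, rfl, rfl, hzp, ih.1, hg, hcd⟩
    refine ⟨Sum.elim (Sum.elim (oneHot a) (Sum.elim (z ∘ Sum.inl) (z ∘ Sum.inr ∘ Sum.inl)))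
      (Sum.elim (oneHot b) (Sum.elim (z ∘ Sum.inl) (z ∘ Sum.inr ∘ Sum.inr))), ?_,
      ⟨⟨rfl, rfl⟩, ?_, ?_⟩, (hmain _ hr).2⟩
    · rintro ((v | (v | v)) | (v | (v | v)))
      · exact (oneHot_le a v).trans (by omega)
      · exact hz _
      · exact hz _
      · exact (oneHot_le b v).trans (by omega)
      · exact hz _
      · exact hz _
    · funext v
      rcases v with v | v <;> rfl
    · funext v
      rcases v with v | v <;> rfl
  · rintro ⟨t, ht, ⟨⟨h1, h2⟩, h3, h4⟩, h5⟩
    have hmain : ∀ y, ReflTransGen (Bd E' w) (t ∘ Sum.inl) y → ∃ d : A × (V → ℕ),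
        y = Sum.elim (oneHot d.1) (Sum.elim (z ∘ Sum.inl) d.2) ∧
        ReflTransGen (E w (z ∘ Sum.inl)) (a, z ∘ Sum.inr ∘ Sum.inl) d := by
      intro y hy
      induction hy with
      | refl =>
        refine ⟨(a, z ∘ Sum.inr ∘ Sum.inl), ?_, ReflTransGen.refl⟩
        funext v
        rcases v with v | v
        · exact congrFun h1 v
        · have := congrFun h3 v
          rcases v with v | v
          · exact this
          · exact this
      | @tail y y' _ hyy' ih =>
        obtain ⟨d, rfl, hd⟩ := ih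
        rw [hcode] at hyy'
        obtain ⟨a1, b1, p, c, d', h6, rfl, _, _, _, hE1⟩ := hyy'
        obtain ⟨rfl, rfl, rfl⟩ := hinj h6
        exact ⟨(b1, d'), rfl, ReflTransGen.tail hd hE1⟩
    obtain ⟨d, hd1, hd2⟩ := hmain _ h5
    have hdb : d = (b, z ∘ Sum.inr ∘ Sum.inr) := by
      refine Prod.ext ?_ ?_
      · apply oneHot_inj
        rw [← h2]
        funext v
        exact (congrFun hd1 (Sum.inl v)).symm
      · funext v
        have e1 := congrFun hd1 (Sum.inr (Sum.inr v))
        have e2 := congrFun h4 (Sum.inr v)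
        exact e1.symm.trans e2
    rw [hdb] at hd2
    exact hd2

end IsL

end Pool.Agent.Helper6
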