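import Pool.Agent.Helper6.DPDARun
import Pool.Agent.Helper6.MHeadE

set_option autoImplicit false

/-!
The spine construction preserves decidability by two-way multihead finite automata.
-/

namespace Pool.Agent.Helper6

open Relation

variable {α Q Γ : Type} {k : ℕ}

/-! ### An abstract lemma on deterministic walks -/

theorem cycle_forward {X : Type} {r : X → X → Prop} (hU : Relator.RightUnique r) {S T : X}
    (hc : TransGen r S S) (h : ReflTransGen r S T) : TransGen r T T := by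
  induction h with
  | refl => exact hc
  | @tail b c _ hbc ih =>
    rcases TransGen.head'_iff.1 ih with ⟨y, hy, hyb⟩
    have : y = c := hU hy hbc
    subst this
    exact TransGen.tail' hyb hbc

theorem parent_unique {X : Type} {r : X → X → Prop} (hU : Relator.RightUnique r)
    {root L P P' S : X} (hL : ReflTransGen r root L) (hstuck : ∀ y, ¬ r L y)
    (hP : ReflTransGen r root P) (hP' : ReflTransGen r root P') (h : r P S) (h' : r P' S) :
    P = P' := by
  have key : ∀ P P', ReflTransGen r root P → r P S → r P' S → ReflTransGen r P P' → P = P' := by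
    intro P P' hP h h' hPP'
    rcases ReflTransGen.cases_head hPP' with h1 | ⟨y, hy, hyP'⟩
    · exact h1
    · exfalso
      have : y = S := hU hy h
      subst this
      have hc : TransGen r y y := TransGen.tail' hyP' h'
      have hrS : ReflTransGen r root y := hP.tail h
      rcases ReflTransGen.total_of_right_unique hU hL hrS with h2 | h2
      · rcases ReflTransGen.cases_head h2 with h3 | ⟨z, hz, _⟩
        · subst h3
          rcases TransGen.head'_iff.1 hc with ⟨z, hz, _⟩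
          exact hstuck z hz
        · exact hstuck z hz
      · rcases TransGen.head'_iff.1 (cycle_forward hU hc h2) with ⟨z, hz, _⟩
        exact hstuck z hz
  rcases ReflTransGen.total_of_right_unique hU hP hP' with h1 | h1
  · exact key P P' hP h h' h1
  · exact (key P' P hP' h' h h1).symm

/-! ### Building blocks -/

theorem chain_nil_iff {R : Surf Q k → Γ → Surf Q k → Prop} {s s' : Surf Q k} :
    Chain R s [] s' ↔ s = s' := by
  constructor
  · intro h
    generalize hl : ([] : List Γ) = l at h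
    cases h with
    | nil _ => rfl
    | cons _ _ => simp at hl
  · rintro rfl
    exact Chain.nil _

/-- A family of erasing relations all of whose instances are decidable. -/
def DecR (α : Type) {Q Γ : Type} {k : ℕ}
    (R : List α → Surf Q k → Γ → Surf Q k → Prop) : Prop :=
  ∀ q X q', IsL α (Fin k ⊕ Fin k) (fun w z => R w (q, z ∘ Sum.inl) X (q', z ∘ Sum.inr))

theorem pdMove_eq (δ : PDTrans α Q Γ k) (w : List α) (q : Q) (x : Fin k → ℕ) (X : Option Γ)
    (σ : Fin k → Sym α) (h : (fun j => rd w (x j)) = σ) :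
    pdMove δ w (q, x) X = (((δ q σ X).1, fun i => mv w.length ((δ q σ X).2.1 i) (x i)),
      (δ q σ X).2.2) := by
  subst h
  rfl

namespace IsL

theorem afterMove {V U : Type} [Finite V] {S : List α → (V ⊕ U → ℕ) → Prop}
    (h : IsL α (V ⊕ U) S) (m : V → Fin 3) :
    IsL α (V ⊕ U) (fun w z => S w (Sum.elim (fun i => mv w.length (m i) (z (Sum.inl i)))
      (z ∘ Sum.inr))) := by
  have h1 : IsL α ((V ⊕ U) ⊕ V) (fun w z =>
      (∀ i, z (Sum.inr i) = mv w.length (m i) (z (Sum.inl (Sum.inl i)))) ∧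
      S w (z ∘ Sum.elim Sum.inr (Sum.inl ∘ Sum.inr))) := by
    refine and (bigAnd (fun i => mvGraph _ _ _)) (lift h _ ?_)
    intro a b hab
    rcases a with a | a <;> rcases b with b | b <;> simp_all
  refine congr (ex h1) ?_
  intro w z hz
  have e : ∀ t : V → ℕ, (Sum.elim z t ∘ Sum.elim Sum.inr (Sum.inl ∘ Sum.inr) : V ⊕ U → ℕ) =
      Sum.elim t (z ∘ Sum.inr) := by
    intro t
    funext v
    rcases v with v | v <;> rfl
  constructor
  · intro hS
    refine ⟨fun i => mv w.length (m i) (z (Sum.inl i)), fun i => mv_le (hz _), fun i => rfl, ?_⟩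
    rw [e]
    exact hS
  · rintro ⟨t, _, ht, hS⟩
    rw [e] at hS
    have : t = fun i => mv w.length (m i) (z (Sum.inl i)) := funext ht
    rw [← this]
    exact hS

/-- Decide a property of the result of one move. -/
theorem ofMove [Finite α] {U : Type} (δ : PDTrans α Q Γ k)
    {P : List α → Surf Q k × List Γ → (U → ℕ) → Prop}
    (h : ∀ q1 l, IsL α (Fin k ⊕ U) (fun w z => P w ((q1, z ∘ Sum.inl), l) (z ∘ Sum.inr)))
    (q : Q) (X : Option Γ) :
    IsL α (Fin k ⊕ U) (fun w z => P w (pdMove δ w (q, z ∘ Sum.inl) X) (z ∘ Sum.inr)) := by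
  have h1 : ∀ σ : Fin k → Sym α, IsL α (Fin k ⊕ U) (fun w z =>
      (∀ j, rd w (z (Sum.inl j)) = σ j) ∧
      P w (((δ q σ X).1, fun i => mv w.length ((δ q σ X).2.1 i) (z (Sum.inl i))),
        (δ q σ X).2.2) (z ∘ Sum.inr)) := by
    intro σ
    exact and (bigAnd (fun j => sym _ (fun s => s = σ j)))
      (afterMove (h (δ q σ X).1 (δ q σ X).2.2) (δ q σ X).2.1)
  refine congr (bigOr h1) ?_
  intro w z _
  constructor
  · intro hP
    refine ⟨fun j => rd w (z (Sum.inl j)), fun j => rfl, ?_⟩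
    rw [pdMove_eq δ w q (z ∘ Sum.inl) X _ rfl] at hP
    exact hP
  · rintro ⟨σ, hσ, hP⟩
    rw [pdMove_eq δ w q (z ∘ Sum.inl) X σ (funext hσ)]
    exact hP

/-- Split a fixed word at a given letter. -/
theorem split {V : Type} {P : List Γ → List Γ → List α → (V → ℕ) → Prop}
    (h : ∀ l₁ l₂, IsL α V (P l₁ l₂)) (l : List Γ) (Y : Γ) :
    IsL α V (fun w z => ∃ l₁ l₂, l = l₁ ++ Y :: l₂ ∧ P l₁ l₂ w z) := by
  have h1 : ∀ i : Fin l.length, IsL α V (fun w z =>
      (l = l.take i ++ Y :: l.drop (i + 1)) ∧ P (l.take i) (l.drop (i + 1)) w z) :=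
    fun i => and (const _) (h _ _)
  refine congr (bigOr h1) ?_
  intro w z _
  constructor
  · rintro ⟨l₁, l₂, rfl, hP⟩
    refine ⟨⟨l₁.length, by simp⟩, ?_, ?_⟩
    · simp
    · simpa using hP
  · rintro ⟨i, h1, h2⟩
    exact ⟨_, _, h1, h2⟩

theorem chain {V : Type} [Finite V] [Finite Q]
    {R : List α → Surf Q k → Γ → Surf Q k → Prop} (hR : DecR α R)
    (hbd : ∀ w s X s', R w s X s' → (∀ v, s.2 v ≤ w.length + 1) →
      ∀ v, s'.2 v ≤ w.length + 1) (e e' : Fin k → V) (l : List Γ) (q q' : Q) :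
    IsL α V (fun w z => Chain (R w) (q, z ∘ e) l (q', z ∘ e')) := by
  have key : ∀ (l : List Γ) (q q' : Q), IsL α (Fin k ⊕ Fin k)
      (fun w z => Chain (R w) (q, z ∘ Sum.inl) l (q', z ∘ Sum.inr)) := by
    intro l
    induction l with
    | nil =>
      intro q q'
      refine congr (and (const (q = q')) (bigAnd (R := fun i _ z =>
        z (Sum.inl i) = z (Sum.inr i)) (fun i => eq _ _))) ?_
      intro w z _
      constructor
      · intro h
        rw [chain_nil_iff] at h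
        simp only [Prod.mk.injEq] at h
        exact ⟨h.1, fun i => congrFun h.2 i⟩
      · rintro ⟨rfl, h⟩
        have : z ∘ Sum.inl = z ∘ (Sum.inr : Fin k → Fin k ⊕ Fin k) := funext h
        rw [this]
        exact Chain.nil _
    | cons X l ih =>
      intro q q'
      have h1 : ∀ q1 : Q, IsL α ((Fin k ⊕ Fin k) ⊕ Fin k) (fun w z =>
          R w (q, z ∘ Sum.inl ∘ Sum.inl) X (q1, z ∘ Sum.inr) ∧
          Chain (R w) (q1, z ∘ Sum.inr) l (q', z ∘ Sum.inl ∘ Sum.inr)) := fun q1 =>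
        and (congr (subst (hR q X q1) (Sum.elim (Sum.inl ∘ Sum.inl) Sum.inr))
            (fun w z _ => Iff.rfl))
          (congr (subst (ih q1 q') (Sum.elim Sum.inr (Sum.inl ∘ Sum.inr)))
            (fun w z _ => Iff.rfl))
      refine congr (bigOr (fun q1 => ex (h1 q1))) ?_
      intro w z hz
      constructor
      · intro h
        cases h with
        | @cons s s' s'' X l h1 h2 =>
          obtain ⟨q1, t⟩ := s'
          exact ⟨q1, t, hbd w _ _ _ h1 (fun v => hz _), h1, h2⟩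
      · rintro ⟨q1, t, _, h1, h2⟩
        exact Chain.cons h1 h2
  exact congr (subst (key l q q') (Sum.elim e e')) (fun w z _ => Iff.rfl)

end IsL

/-! ### The spine -/

section Spine

variable (δ : PDTrans α Q Γ k) (F : Set Q) (R : List α → Surf Q k → Γ → Surf Q k → Prop)

/-- From a node to its first child which is not erased by `R`; the last argument is the word
of the siblings to the right of this child. -/
def DownL (w : List α) (S T : (Q × Γ) × (Fin k → ℕ)) (l₂ : List Γ) : Prop :=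
  S.1.1 ∉ F ∧ ∃ l₁, (pdMove δ w (S.1.1, S.2) (some S.1.2)).2 = l₁ ++ T.1.2 :: l₂ ∧
    Chain (R w) (pdMove δ w (S.1.1, S.2) (some S.1.2)).1 l₁ (T.1.1, T.2) ∧
    ¬ ∃ s', R w (T.1.1, T.2) T.1.2 s'

/-- Forgetting the siblings. -/
def Down (w : List α) (S T : (Q × Γ) × (Fin k → ℕ)) : Prop := ∃ l₂, DownL δ F R w S T l₂

/-- All children of the node are erased by `R`. -/
def Leaf (w : List α) (S : (Q × Γ) × (Fin k → ℕ)) (ρ : Surf Q k) : Prop :=
  S.1.1 ∉ F ∧ Chain (R w) (pdMove δ w (S.1.1, S.2) (some S.1.2)).1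
    (pdMove δ w (S.1.1, S.2) (some S.1.2)).2 ρ

/-- Return from a child on the branch to its parent. -/
def Up (r : Q × Γ) (w : List α) (p : Fin k → ℕ)
    (c d : ((Q × Γ) × Q) × (Fin k ⊕ Fin k → ℕ)) : Prop :=
  (∃ L ρ, ReflTransGen (Down δ F R w) (r, p) L ∧ Leaf δ F R w L ρ) ∧
  ReflTransGen (Down δ F R w) (r, p) (d.1.1, d.2 ∘ Sum.inl) ∧
  ∃ l₂, DownL δ F R w (d.1.1, d.2 ∘ Sum.inl) (c.1.1, c.2 ∘ Sum.inl) l₂ ∧
    Chain (R w) (c.1.2, c.2 ∘ Sum.inr) l₂ (d.1.2, d.2 ∘ Sum.inr)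

variable {δ F R}

theorem split_unique {w : List α} (hR : Sound δ F w (R w)) {s t t' : Surf Q k} {l₁ l₁' l₂ l₂' : List Γ}
    {Y Y' : Γ} (h1 : Chain (R w) s l₁ t) (h2 : ¬ ∃ s', R w t Y s')
    (h1' : Chain (R w) s l₁' t') (h2' : ¬ ∃ s', R w t' Y' s')
    (he : l₁ ++ Y :: l₂ = l₁' ++ Y' :: l₂') : t = t' ∧ Y = Y' ∧ l₂ = l₂' := by
  induction h1 generalizing l₁' with
  | nil s =>
    cases h1' with
    | nil _ =>
      simp only [List.nil_append, List.cons.injEq] at he
      exact ⟨rfl, he.1, he.2⟩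
    | cons h3 h4 =>
      simp only [List.nil_append, List.cons_append, List.cons.injEq] at he
      obtain ⟨rfl, _⟩ := he
      exact absurd ⟨_, h3⟩ h2
  | @cons s s' s'' X l h3 h4 ih =>
    cases h1' with
    | nil _ =>
      simp only [List.nil_append, List.cons_append, List.cons.injEq] at he
      obtain ⟨rfl, _⟩ := he
      exact absurd ⟨_, h3⟩ h2'
    | @cons _ s1 _ _ l' h5 h6 =>
      simp only [List.cons_append, List.cons.injEq] at he
      obtain ⟨rfl, he⟩ := he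
      have : s' = s1 := hR.functional h3 h5
      subst this
      exact ih h2 h6 he

theorem DownL.unique {w : List α} (hR : Sound δ F w (R w)) {S T T' : (Q × Γ) × (Fin k → ℕ)}
    {l₂ l₂' : List Γ} (h : DownL δ F R w S T l₂) (h' : DownL δ F R w S T' l₂') :
    T = T' ∧ l₂ = l₂' := by
  obtain ⟨_, l₁, h1, h2, h3⟩ := h
  obtain ⟨_, l₁', h1', h2', h3'⟩ := h'
  obtain ⟨e1, e2, e3⟩ := split_unique hR h2 h3 h2' h3' (h1.symm.trans h1')
  obtain ⟨⟨q, X⟩, x⟩ := T
  obtain ⟨⟨q', X'⟩, x'⟩ := T'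
  simp only [Prod.mk.injEq] at e1 e2
  obtain ⟨rfl, rfl⟩ := e1
  subst e2
  exact ⟨rfl, e3⟩

theorem Down.unique {w : List α} (hR : Sound δ F w (R w)) :
    Relator.RightUnique (Down δ F R w) := by
  rintro S T T' ⟨l₂, h⟩ ⟨l₂', h'⟩
  exact (h.unique hR h').1

theorem Leaf.stuck {w : List α} (hR : Sound δ F w (R w)) {L : (Q × Γ) × (Fin k → ℕ)}
    {ρ : Surf Q k} (h : Leaf δ F R w L ρ) (T : (Q × Γ) × (Fin k → ℕ)) :
    ¬ Down δ F R w L T := by
  rintro ⟨l₂, _, l₁, h1, h2, h3⟩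
  obtain ⟨_, h4⟩ := h
  rw [h1] at h4
  generalize (pdMove δ w (L.1.1, L.2) (some L.1.2)).1 = s at h2 h4
  -- the chain along `l₁ ++ Y :: l₂` passes through `T`
  have key : ∀ {s : Surf Q k} {l₁ : List Γ} {t : Surf Q k}, Chain (R w) s l₁ t →
      Chain (R w) s (l₁ ++ T.1.2 :: l₂) ρ → ∃ s', R w t T.1.2 s' := by
    intro s l₁ t hc
    induction hc with
    | nil s =>
      intro h
      cases h with
      | cons h5 _ => exact ⟨_, h5⟩
    | @cons s s' s'' X l h5 _ ih =>
      intro h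
      cases h with
      | cons h6 h7 =>
        have := hR.functional h5 h6
        subst this
        exact ih h7
  exact h3 (key h2 h4)

theorem Down.bounded {w : List α} (hR : Sound δ F w (R w)) {S T : (Q × Γ) × (Fin k → ℕ)}
    (h : Down δ F R w S T) (hS : ∀ v, S.2 v ≤ w.length + 1) : ∀ v, T.2 v ≤ w.length + 1 := by
  obtain ⟨l₂, _, l₁, _, h2, _⟩ := h
  exact hR.chain_bounded h2 (pdMove_bounded _ hS)

theorem Downs.bounded {w : List α} (hR : Sound δ F w (R w)) {S T : (Q × Γ) × (Fin k → ℕ)}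
    (h : ReflTransGen (Down δ F R w) S T) (hS : ∀ v, S.2 v ≤ w.length + 1) :
    ∀ v, T.2 v ≤ w.length + 1 := by
  induction h with
  | refl => exact hS
  | tail _ hs ih => exact hs.bounded hR ih

/-- The canonical form of a spine computation. -/
theorem spine_iff {w : List α} (hR : Sound δ F w (R w)) (q : Q) (x : Fin k → ℕ) (X : Γ)
    (s' : Surf Q k) :
    Spine δ F w (R w) (q, x) X s' ↔
      ∃ L ρ, ReflTransGen (Down δ F R w) ((q, X), x) L ∧ Leaf δ F R w L ρ ∧
        ReflTransGen (Up δ F R (q, X) w x) ((L.1, ρ.1), Sum.elim L.2 ρ.2)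
          (((q, X), s'.1), Sum.elim x s'.2) := by
  constructor
  · intro h
    -- generalise the starting surface
    have key : ∀ s X s', Spine δ F w (R w) s X s' →
        ∃ L ρ, ReflTransGen (Down δ F R w) ((s.1, X), s.2) L ∧ Leaf δ F R w L ρ ∧
        ReflTransGen (Up δ F R (s.1, X) w s.2) ((L.1, ρ.1), Sum.elim L.2 ρ.2)
          (((s.1, X), s'.1), Sum.elim s.2 s'.2) := by
      intro s X s' h
      induction h with
      | @leaf s s1 s' X l h1 h2 h3 =>
        refine ⟨((s.1, X), s.2), s', ReflTransGen.refl, ⟨h1, ?_⟩, ReflTransGen.refl⟩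
        simp only [h2]
        exact h3
      | @node s s1 s2 s3 s' X Y l₁ l₂ h1 h2 h3 h4 h5 ih =>
        by_cases hY : ∃ s'', R w s2 Y s''
        · -- then all children are erased by `R`
          obtain ⟨s'', hs''⟩ := hY
          have e1 : s'' = s3 := by
            have := stuck_unique (hR _ _ _ hs'') (hR.spine _ _ _ h4) (fun _ => not_step_nil)
              (fun _ => not_step_nil)
            simpa using this
          subst e1
          refine ⟨((s.1, X), s.2), s', ReflTransGen.refl, ⟨h1, ?_⟩, ReflTransGen.refl⟩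
          simp only [h2]
          exact h3.append (Chain.cons hs'' h5)
        · obtain ⟨L, ρ, g1, g2, g3⟩ := ih
          have hd : DownL δ F R w ((s.1, X), s.2) ((s2.1, Y), s2.2) l₂ := by
            refine ⟨h1, l₁, ?_, ?_, hY⟩
            · simp only [h2]
            · simp only [h2]
              exact h3
          refine ⟨L, ρ, ReflTransGen.head ⟨l₂, hd⟩ g1, g2, ?_⟩
          have g3' : ReflTransGen (Up δ F R (s.1, X) w s.2) ((L.1, ρ.1), Sum.elim L.2 ρ.2)
              (((s2.1, Y), s3.1), Sum.elim s2.2 s3.2) := by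
            refine ReflTransGen.mono ?_ _ _ g3
            rintro a b ⟨⟨L', ρ', a1, a2⟩, a3, a4⟩
            exact ⟨⟨L', ρ', ReflTransGen.head ⟨l₂, hd⟩ a1, a2⟩, ReflTransGen.head ⟨l₂, hd⟩ a3, a4⟩
          refine ReflTransGen.tail g3' ⟨⟨L, ρ, ReflTransGen.head ⟨l₂, hd⟩ g1, g2⟩,
            ReflTransGen.refl, l₂, hd, h5⟩
    exact key (q, x) X s' h
  · rintro ⟨L, ρ, _, g2, g3⟩
    have key : ∀ c, ReflTransGen (Up δ F R (q, X) w x) ((L.1, ρ.1), Sum.elim L.2 ρ.2) c →
        Spine δ F w (R w) (c.1.1.1, c.2 ∘ Sum.inl) c.1.1.2 (c.1.2, c.2 ∘ Sum.inr) := by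
      intro c hc
      induction hc with
      | refl =>
        obtain ⟨a1, a2⟩ := g2
        exact Spine.leaf a1 rfl a2
      | @tail b c _ hbc ih =>
        obtain ⟨_, _, l₂, ⟨a1, l₁, a2, a3, a4⟩, a5⟩ := hbc
        refine Spine.node a1 (Prod.ext rfl a2) a3 ih a5
    exact key _ g3

set_option linter.unusedSectionVars false

variable [Finite α] [Finite Q] [Finite Γ]

theorem isL_downL {V : Type} [Finite V] (hR : DecR α R) (hs : ∀ w, Sound δ F w (R w))
    (S T : Q × Γ) {P : List Γ → List α → (V → ℕ) → Prop} (hP : ∀ l₂, IsL α V (P l₂))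
    (e e' : Fin k → V) :
    IsL α V (fun w z => ∃ l₂, DownL δ F R w (S, z ∘ e) (T, z ∘ e') l₂ ∧ P l₂ w z) := by
  have hch := IsL.chain (V := Fin k ⊕ V) hR (fun w s X s' h hb => (hs w).bounded h hb)
    Sum.inl (Sum.inr ∘ e')
  have hno : IsL α (Fin k ⊕ V) (fun w z => ¬ ∃ s', R w (T.1, (z ∘ Sum.inr) ∘ e') T.2 s') := by
    refine IsL.not (IsL.congr (IsL.bigOr (fun q' => IsL.ex (U := Fin k)
      (R := fun w z => R w (T.1, (z ∘ Sum.inl ∘ Sum.inr) ∘ e') T.2 (q', z ∘ Sum.inr)) ?_)) ?_)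
    · exact IsL.congr (IsL.subst (hR T.1 T.2 q') (Sum.elim (Sum.inl ∘ Sum.inr ∘ e') Sum.inr))
        (fun w z _ => Iff.rfl)
    · intro w z hz
      constructor
      · rintro ⟨⟨q', t⟩, h⟩
        exact ⟨q', t, (hs w).bounded h (fun v => hz _), h⟩
      · rintro ⟨q', t, _, h⟩
        exact ⟨_, h⟩
  let P' : List α → Surf Q k × List Γ → (V → ℕ) → Prop := fun w m y =>
    ∃ l₁ l₂, m.2 = l₁ ++ T.2 :: l₂ ∧
        (Chain (R w) m.1 l₁ (T.1, y ∘ e') ∧ (¬ ∃ s', R w (T.1, y ∘ e') T.2 s') ∧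
          P l₂ w y)
  have h1 : ∀ q1 l, IsL α (Fin k ⊕ V) (fun w z =>
      P' w ((q1, z ∘ Sum.inl), l) (z ∘ Sum.inr)) := by
    intro q1 l
    exact IsL.split (fun l₁ l₂ => IsL.and (IsL.congr (hch l₁ q1 T.1) (fun w z _ => Iff.rfl))
      (IsL.and hno (IsL.lift (hP l₂) Sum.inr Sum.inr_injective))) l T.2
  have h2 := IsL.ofMove δ (P := P') h1 S.1 (some S.2)
  refine IsL.congr (IsL.and (IsL.const (S.1 ∉ F)) (IsL.subst h2 (Sum.elim e id))) ?_
  intro w z _
  constructor
  · rintro ⟨l₂, ⟨a1, l₁, a2, a3, a4⟩, a5⟩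
    exact ⟨a1, l₁, l₂, a2, a3, a4, a5⟩
  · rintro ⟨a1, l₁, l₂, a2, a3, a4, a5⟩
    exact ⟨l₂, ⟨a1, l₁, a2, a3, a4⟩, a5⟩

theorem isL_down {V : Type} [Finite V] (hR : DecR α R) (hs : ∀ w, Sound δ F w (R w))
    (S T : Q × Γ) (e e' : Fin k → V) :
    IsL α V (fun w z => Down δ F R w (S, z ∘ e) (T, z ∘ e')) := by
  refine IsL.congr (isL_downL hR hs S T (P := fun _ _ _ => True) (fun _ => IsL.const True)
    e e') ?_
  intro w z _
  simp only [and_true]
  rfl

theorem isL_downs {V : Type} [Finite V] (hR : DecR α R) (hs : ∀ w, Sound δ F w (R w))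
    (S T : Q × Γ) (e e' : Fin k → V) :
    IsL α V (fun w z => ReflTransGen (Down δ F R w) (S, z ∘ e) (T, z ∘ e')) := by
  have h := IsL.dtcCtl (α := α) (U := Empty) (V := Fin k) (A := Q × Γ)
    (E := fun w _ c d => Down δ F R w c d)
    (fun a b => isL_down hR hs a b (Sum.inr ∘ Sum.inl) (Sum.inr ∘ Sum.inr))
    (fun w p c d _ hc hd => hd.bounded (hs w) hc)
    (fun w p c d d' _ _ h1 h2 => Down.unique (hs w) h1 h2) S T
  exact IsL.congr (IsL.subst h (Sum.elim Empty.elim (Sum.elim e e'))) (fun w z _ => Iff.rfl)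

theorem isL_leaf {V : Type} [Finite V] (hR : DecR α R) (hs : ∀ w, Sound δ F w (R w))
    (S : Q × Γ) (q' : Q) (e e' : Fin k → V) :
    IsL α V (fun w z => Leaf δ F R w (S, z ∘ e) (q', z ∘ e')) := by
  have hch := IsL.chain (V := Fin k ⊕ V) hR (fun w s X s' h hb => (hs w).bounded h hb)
    Sum.inl (Sum.inr ∘ e')
  have h2 := IsL.ofMove δ (P := fun w m y => Chain (R w) m.1 m.2 (q', y ∘ e'))
    (fun q1 l => IsL.congr (hch l q1 q') (fun w z _ => Iff.rfl)) S.1 (some S.2)
  exact IsL.congr (IsL.and (IsL.const (S.1 ∉ F)) (IsL.subst h2 (Sum.elim e id)))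
    (fun w z _ => Iff.rfl)

theorem decR_spine (hR : DecR α R) (hs : ∀ w, Sound δ F w (R w)) :
    DecR α (fun w => Spine δ F w (R w)) := by
  intro q X q'
  -- the upward walk
  have hup : ∀ a b, IsL α (Fin k ⊕ ((Fin k ⊕ Fin k) ⊕ (Fin k ⊕ Fin k))) (fun w z =>
      Up δ F R (q, X) w (z ∘ Sum.inl) (a, z ∘ Sum.inr ∘ Sum.inl)
        (b, z ∘ Sum.inr ∘ Sum.inr)) := by
    intro a b
    refine IsL.and ?_ (IsL.and ?_ ?_)
    · -- the branch ends
      have h1 : ∀ (c : Q × Γ) (q1 : Q), IsL α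
          ((Fin k ⊕ ((Fin k ⊕ Fin k) ⊕ (Fin k ⊕ Fin k))) ⊕ (Fin k ⊕ Fin k)) (fun w z =>
          ReflTransGen (Down δ F R w) ((q, X), z ∘ Sum.inl ∘ Sum.inl)
            (c, z ∘ Sum.inr ∘ Sum.inl) ∧
          Leaf δ F R w (c, z ∘ Sum.inr ∘ Sum.inl) (q1, z ∘ Sum.inr ∘ Sum.inr)) :=
        fun c q1 => IsL.and (isL_downs hR hs _ _ _ _) (isL_leaf hR hs _ _ _ _)
      refine IsL.congr (IsL.bigOr (ι := Q × Γ) (fun c => IsL.bigOr (ι := Q)
        (fun q1 => IsL.ex (U := Fin k ⊕ Fin k) (h1 c q1)))) ?_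
      intro w z hz
      constructor
      · rintro ⟨L, ρ, g1, g2⟩
        have b1 := Downs.bounded (hs w) g1 (fun v => hz _)
        have b2 := (hs w).chain_bounded g2.2 (pdMove_bounded _ b1)
        refine ⟨L.1, ρ.1, Sum.elim L.2 ρ.2, ?_, g1, g2⟩
        rintro (v | v)
        · exact b1 v
        · exact b2 v
      · rintro ⟨c, q1, t, _, g1, g2⟩
        exact ⟨_, _, g1, g2⟩
    · exact isL_downs (V := Fin k ⊕ ((Fin k ⊕ Fin k) ⊕ (Fin k ⊕ Fin k))) hR hs (q, X) b.1
        Sum.inl (Sum.inr ∘ Sum.inr ∘ Sum.inl)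
    · have hch := IsL.chain (V := Fin k ⊕ ((Fin k ⊕ Fin k) ⊕ (Fin k ⊕ Fin k))) hR
        (fun w s X s' h hb => (hs w).bounded h hb)
        (Sum.inr ∘ Sum.inl ∘ Sum.inr) (Sum.inr ∘ Sum.inr ∘ Sum.inr)
      exact isL_downL hR hs b.1 a.1 (fun l₂ => hch l₂ a.2 b.2)
        (Sum.inr ∘ Sum.inr ∘ Sum.inl) (Sum.inr ∘ Sum.inl ∘ Sum.inl)
  have hups := IsL.dtcCtl (E := fun w p c d => Up δ F R (q, X) w p c d) hup
    (by
      rintro w p c d hp hc ⟨_, h2, l₂, _, h4⟩
      have b1 := Downs.bounded (hs w) h2 hp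
      have b2 := (hs w).chain_bounded h4 (fun v => hc (Sum.inr v))
      rintro (v | v)
      · exact b1 v
      · exact b2 v)
    (by
      rintro w p c d d' hp hc ⟨⟨L, ρ, g1, g2⟩, h2, l₂, h3, h4⟩ ⟨_, h2', l₂', h3', h4'⟩
      have e1 := parent_unique (Down.unique (hs w)) g1 (g2.stuck (hs w)) h2 h2'
        ⟨l₂, h3⟩ ⟨l₂', h3'⟩
      obtain ⟨⟨d1, d2⟩, y⟩ := d
      obtain ⟨⟨d1', d2'⟩, y'⟩ := d'
      simp only [Prod.mk.injEq] at e1
      obtain ⟨rfl, e1⟩ := e1
      simp only at h3 h3' h4 h4'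
      rw [e1] at h3
      obtain ⟨_, rfl⟩ := h3.unique (hs w) h3'
      have e2 := (hs w).chain_functional h4 h4'
      simp only [Prod.mk.injEq] at e2
      obtain ⟨rfl, e2⟩ := e2
      have : y = y' := by
        funext v
        rcases v with v | v
        · exact congrFun e1 v
        · exact congrFun e2 v
      rw [this])
  have h1 : ∀ (c : Q × Γ) (q1 : Q), IsL α ((Fin k ⊕ Fin k) ⊕ (Fin k ⊕ Fin k)) (fun w z =>
      ReflTransGen (Down δ F R w) ((q, X), z ∘ Sum.inl ∘ Sum.inl) (c, z ∘ Sum.inr ∘ Sum.inl) ∧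
      Leaf δ F R w (c, z ∘ Sum.inr ∘ Sum.inl) (q1, z ∘ Sum.inr ∘ Sum.inr) ∧
      ReflTransGen (Up δ F R (q, X) w (z ∘ Sum.inl ∘ Sum.inl)) ((c, q1), z ∘ Sum.inr)
        (((q, X), q'), z ∘ Sum.inl)) := by
    intro c q1
    refine IsL.and (isL_downs hR hs _ _ _ _) (IsL.and (isL_leaf hR hs _ _ _ _) ?_)
    exact IsL.congr (IsL.subst (hups (c, q1) ((q, X), q'))
      (Sum.elim (Sum.inl ∘ Sum.inl) (Sum.elim Sum.inr Sum.inl))) (fun w z _ => Iff.rfl)
  refine IsL.congr (IsL.bigOr (ι := Q × Γ) (fun c => IsL.bigOr (ι := Q)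
    (fun q1 => IsL.ex (U := Fin k ⊕ Fin k) (h1 c q1)))) ?_
  intro w z hz
  change Spine δ F w (R w) _ _ _ ↔ _
  rw [spine_iff (hs w)]
  have ez : Sum.elim (z ∘ Sum.inl) (z ∘ Sum.inr) = z := by
    funext v
    rcases v with v | v <;> rfl
  constructor
  · rintro ⟨L, ρ, g1, g2, g3⟩
    have b1 := Downs.bounded (hs w) g1 (fun v => hz _)
    have b2 := (hs w).chain_bounded g2.2 (pdMove_bounded _ b1)
    refine ⟨L.1, ρ.1, Sum.elim L.2 ρ.2, ?_, g1, g2, ?_⟩
    · rintro (v | v)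
      · exact b1 v
      · exact b2 v
    · simp only [ez] at g3
      exact g3
  · rintro ⟨c, q1, t, _, g1, g2, g3⟩
    refine ⟨(c, t ∘ Sum.inl), (q1, t ∘ Sum.inr), g1, g2, ?_⟩
    have et : Sum.elim (t ∘ Sum.inl) (t ∘ Sum.inr) = t := by
      funext v
      rcases v with v | v <;> rfl
    simp only [ez, et]
    exact g3

end Spine

end Pool.Agent.Helper6
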