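import Pool.Agent.Helper6.MHeadE

set_option autoImplicit false

/-!
Numbers below `(n + 2) ^ m` written with `m` head positions as digits.
-/

namespace Pool.Agent.Helper6

open Relation

variable {α V V' U : Type}

/-- The number whose digits (least significant first) are given. -/
def val (N : ℕ) : (m : ℕ) → (Fin m → ℕ) → ℕ
  | 0, _ => 0
  | m + 1, x => x 0 + N * val N m (fun i => x i.succ)

theorem val_lt {N m : ℕ} {x : Fin m → ℕ} (hx : ∀ i, x i < N) : val N m x < N ^ m := by
  induction m with
  | zero => simp [val]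
  | succ m ih =>
    have h1 := ih (x := fun i => x i.succ) (fun i => hx _)
    have h0 := hx 0
    simp only [val, pow_succ]
    have : N * (val N m (fun i => x i.succ) + 1) ≤ N * N ^ m := Nat.mul_le_mul_left _ h1
    nlinarith

theorem val_inj {N m : ℕ} {x y : Fin m → ℕ} (hx : ∀ i, x i < N) (hy : ∀ i, y i < N)
    (h : val N m x = val N m y) : x = y := by
  induction m with
  | zero => funext i; exact i.elim0
  | succ m ih =>
    simp only [val] at h
    have h0 : x 0 = y 0 := by
      have h1 : (x 0 + N * val N m (fun i => x i.succ)) % N = x 0 := by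
        rw [Nat.add_mul_mod_self_left, Nat.mod_eq_of_lt (hx 0)]
      have h2 : (y 0 + N * val N m (fun i => y i.succ)) % N = y 0 := by
        rw [Nat.add_mul_mod_self_left, Nat.mod_eq_of_lt (hy 0)]
      rw [← h1, ← h2, h]
    have hN : 0 < N := lt_of_le_of_lt (Nat.zero_le _) (hx 0)
    have h3 : val N m (fun i => x i.succ) = val N m (fun i => y i.succ) := by
      rw [h0] at h
      exact Nat.eq_of_mul_eq_mul_left hN (by omega)
    have h4 := ih (fun i => hx _) (fun i => hy _) h3
    funext i
    refine Fin.cases h0 (fun j => congrFun h4 j) i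

theorem val_surj {N m : ℕ} (hN : 0 < N) {a : ℕ} (ha : a < N ^ m) :
    ∃ x : Fin m → ℕ, (∀ i, x i < N) ∧ val N m x = a := by
  induction m generalizing a with
  | zero => exact ⟨fun i => i.elim0, fun i => i.elim0, by simp [val] at ha ⊢; omega⟩
  | succ m ih =>
    have h1 : a / N < N ^ m := by
      rw [Nat.div_lt_iff_lt_mul hN]
      rwa [pow_succ] at ha
    obtain ⟨x, hx, hv⟩ := ih h1
    refine ⟨Fin.cons (a % N) x, ?_, ?_⟩
    · intro i
      refine Fin.cases ?_ (fun j => ?_) i
      · simpa using Nat.mod_lt _ hN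
      · simpa using hx j
    · simp only [val, Fin.cons_zero, Fin.cons_succ, hv]
      exact Nat.mod_add_div a N

theorem val_eq_zero {N m : ℕ} (hN : 0 < N) {x : Fin m → ℕ} :
    val N m x = 0 ↔ ∀ i, x i = 0 := by
  induction m with
  | zero => simp [val]
  | succ m ih =>
    simp only [val]
    constructor
    · intro h
      have h1 : x 0 = 0 := by omega
      have h2 : val N m (fun i => x i.succ) = 0 := by
        have : N * val N m (fun i => x i.succ) = 0 := by omega
        rcases Nat.mul_eq_zero.1 this with h | h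
        · omega
        · exact h
      intro i
      exact Fin.cases h1 (fun j => ih.1 h2 j) i
    · intro h
      rw [h 0, ih.2 (fun i => h _)]
      simp

theorem val_succ_iff {N m : ℕ} {x y : Fin (m + 1) → ℕ} (hx : ∀ i, x i < N)
    (hy : ∀ i, y i < N) : val N (m + 1) y = val N (m + 1) x + 1 ↔
      (x 0 + 1 = y 0 ∧ ∀ i : Fin m, x i.succ = y i.succ) ∨
      ((x 0 + 1 = N ∧ y 0 = 0) ∧
        val N m (fun i => y i.succ) = val N m (fun i => x i.succ) + 1) := by
  simp only [val]
  set X := val N m (fun i => x i.succ) with hX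
  set Y := val N m (fun i => y i.succ) with hY
  have hx0 := hx 0
  have hy0 := hy 0
  constructor
  · intro h
    by_cases hc : x 0 + 1 = N
    · right
      have h1 : y 0 + N * Y = N * (X + 1) := by rw [Nat.mul_add]; omega
      have h2 : y 0 = 0 := by
        have e1 : (y 0 + N * Y) % N = y 0 := by
          rw [Nat.add_mul_mod_self_left, Nat.mod_eq_of_lt hy0]
        rw [h1, Nat.mul_mod_right] at e1
        exact e1.symm
      refine ⟨⟨hc, h2⟩, ?_⟩
      rw [h2, Nat.zero_add] at h1
      exact Nat.eq_of_mul_eq_mul_left (by omega) h1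
    · left
      have e1 : (y 0 + N * Y) % N = y 0 := by
        rw [Nat.add_mul_mod_self_left, Nat.mod_eq_of_lt hy0]
      have e2 : (x 0 + 1 + N * X) % N = x 0 + 1 := by
        rw [Nat.add_mul_mod_self_left, Nat.mod_eq_of_lt (by omega)]
      have h1 : y 0 + N * Y = x 0 + 1 + N * X := by omega
      rw [h1, e2] at e1
      refine ⟨e1, ?_⟩
      have h2 : Y = X := Nat.eq_of_mul_eq_mul_left (by omega : 0 < N) (by omega)
      have h3 := val_inj (fun i => hx _) (fun i => hy _) (hX.symm.trans (h2.symm.trans hY))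
      exact fun i => congrFun h3 i
  · rintro (⟨h1, h2⟩ | ⟨⟨h1, h2⟩, h3⟩)
    · have : X = Y := by
        rw [hX, hY]
        congr 1
        funext i
        exact h2 i
      rw [this]
      omega
    · rw [h3, h2, Nat.mul_add]
      omega

namespace IsL

theorem valEq (m : ℕ) (e e' : Fin m → V) :
    IsL α V (fun w z => val (w.length + 2) m (z ∘ e') = val (w.length + 2) m (z ∘ e)) := by
  refine congr (bigAnd (R := fun i _ z => z (e' i) = z (e i)) (fun i => eq _ _)) ?_
  intro w z hz
  constructor
  · intro h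
    have := val_inj (fun i => Nat.lt_succ_of_le (hz _)) (fun i => Nat.lt_succ_of_le (hz _)) h
    exact fun i => congrFun this i
  · intro h
    have : z ∘ e' = z ∘ e := funext h
    rw [this]

theorem valSucc (m : ℕ) (e e' : Fin m → V) :
    IsL α V (fun w z => val (w.length + 2) m (z ∘ e') = val (w.length + 2) m (z ∘ e) + 1) := by
  induction m with
  | zero => exact congr (const False) (by intro w z _; simp [val])
  | succ m ih =>
    refine congr (or (and (succ (e 0) (e' 0)) (bigAnd (R := fun (i : Fin m) _ z =>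
      z (e i.succ) = z (e' i.succ)) (fun i => eq _ _)))
      (and (and (isEnd (e 0)) (isZero (e' 0))) (ih (fun i => e i.succ) (fun i => e' i.succ)))) ?_
    intro w z hz
    rw [val_succ_iff (N := w.length + 2) (x := z ∘ e) (y := z ∘ e')
      (fun i => Nat.lt_succ_of_le (hz _)) (fun i => Nat.lt_succ_of_le (hz _))]
    simp only [Function.comp_apply, Nat.add_right_cancel_iff]
    rfl

theorem valAdd (m b : ℕ) (e e' : Fin m → V) :
    IsL α V (fun w z => val (w.length + 2) m (z ∘ e') = val (w.length + 2) m (z ∘ e) + b) := by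
  induction b generalizing V with
  | zero => exact valEq m e e'
  | succ b ih =>
    have h1 : IsL α (V ⊕ Fin m) (fun w z =>
        val (w.length + 2) m (z ∘ Sum.inr) = val (w.length + 2) m (z ∘ (Sum.inl ∘ e)) + b ∧
        val (w.length + 2) m (z ∘ (Sum.inl ∘ e')) = val (w.length + 2) m (z ∘ Sum.inr) + 1) :=
      and (ih _ _) (valSucc m _ _)
    refine congr (ex h1) ?_
    intro w z hz
    constructor
    · intro h
      have h2 : val (w.length + 2) m (z ∘ e) + b < (w.length + 2) ^ m := by
        have := val_lt (N := w.length + 2) (x := z ∘ e') (fun i => Nat.lt_succ_of_le (hz _))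
        omega
      obtain ⟨t, ht, hv⟩ := val_surj (by omega) h2
      refine ⟨t, fun u => Nat.le_of_lt_succ (ht u), hv, ?_⟩
      change val (w.length + 2) m (z ∘ e') = val (w.length + 2) m t + 1
      omega
    · rintro ⟨t, _, h2, h3⟩
      have h2' : val (w.length + 2) m t = val (w.length + 2) m (z ∘ e) + b := h2
      have h3' : val (w.length + 2) m (z ∘ e') = val (w.length + 2) m t + 1 := h3
      omega

theorem valZero (m : ℕ) (e : Fin m → V) :
    IsL α V (fun w z => val (w.length + 2) m (z ∘ e) = 0) := by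
  refine congr (bigAnd (R := fun i _ z => z (e i) = 0) (fun i => isZero _)) ?_
  intro w z hz
  rw [val_eq_zero (by omega)]
  rfl

theorem valConst (m b : ℕ) (e : Fin m → V) :
    IsL α V (fun w z => val (w.length + 2) m (z ∘ e) = b) := by
  have h1 : IsL α (V ⊕ Fin m) (fun w z => val (w.length + 2) m (z ∘ Sum.inr) = 0 ∧
      val (w.length + 2) m (z ∘ (Sum.inl ∘ e)) = val (w.length + 2) m (z ∘ Sum.inr) + b) :=
    and (valZero m _) (valAdd m b _ _)
  refine congr (ex h1) ?_
  intro w z hz
  constructor
  · intro h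
    refine ⟨fun _ => 0, fun _ => Nat.zero_le _, ?_, ?_⟩
    · exact (val_eq_zero (by omega)).2 (fun i => rfl)
    · have h0 : val (w.length + 2) m (fun _ => 0) = 0 :=
        (val_eq_zero (by omega)).2 (fun i => rfl)
      change val (w.length + 2) m (z ∘ e) = val (w.length + 2) m (fun _ => 0) + b
      omega
  · rintro ⟨t, _, h2, h3⟩
    have h2' : val (w.length + 2) m t = 0 := h2
    have h3' : val (w.length + 2) m (z ∘ e) = val (w.length + 2) m t + b := h3
    omega

/-- Linear functions. -/
theorem valLin [Finite V] (m a b : ℕ) (e e' : Fin m → V) :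
    IsL α V (fun w z => val (w.length + 2) m (z ∘ e') =
      a * val (w.length + 2) m (z ∘ e) + b) := by
  let E : List α → ((Fin m ⊕ Fin m) ⊕ (Fin m ⊕ Fin m) → ℕ) → Prop := fun w z =>
    val (w.length + 2) m (z ∘ (Sum.inl ∘ Sum.inl)) =
      val (w.length + 2) m (z ∘ (Sum.inr ∘ Sum.inl)) + 1 ∧
    val (w.length + 2) m (z ∘ (Sum.inl ∘ Sum.inr)) =
      val (w.length + 2) m (z ∘ (Sum.inr ∘ Sum.inr)) + a
  have hE : IsL α ((Fin m ⊕ Fin m) ⊕ (Fin m ⊕ Fin m)) E :=
    and (valSucc m _ _) (valAdd m a _ _)
  have hfun : ∀ w x y y', Bd E w x y → Bd E w x y' → y = y' := by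
    rintro w x y y' ⟨_, hy, h1, h2⟩ ⟨_, hy', h1', h2'⟩
    have e1 : val (w.length + 2) m (x ∘ Sum.inl) = val (w.length + 2) m (y ∘ Sum.inl) + 1 := h1
    have e2 : val (w.length + 2) m (x ∘ Sum.inr) = val (w.length + 2) m (y ∘ Sum.inr) + a := h2
    have e1' : val (w.length + 2) m (x ∘ Sum.inl) =
      val (w.length + 2) m (y' ∘ Sum.inl) + 1 := h1'
    have e2' : val (w.length + 2) m (x ∘ Sum.inr) =
      val (w.length + 2) m (y' ∘ Sum.inr) + a := h2'
    have g1 : y ∘ Sum.inl = y' ∘ Sum.inl :=
      val_inj (N := w.length + 2) (fun i => Nat.lt_succ_of_le (hy _))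
        (fun i => Nat.lt_succ_of_le (hy' _)) (by omega)
    have g2 : y ∘ Sum.inr = y' ∘ Sum.inr :=
      val_inj (N := w.length + 2) (fun i => Nat.lt_succ_of_le (hy _))
        (fun i => Nat.lt_succ_of_le (hy' _)) (by omega)
    funext v
    rcases v with v | v
    · exact congrFun g1 v
    · exact congrFun g2 v
  have hdtc := dtc hE hfun
  have h1 : IsL α (V ⊕ (Fin m ⊕ Fin m)) (fun w z =>
      ReflTransGen (Bd E w) ((z ∘ Sum.inl) ∘ Sum.elim e e') (z ∘ Sum.inr) ∧
      val (w.length + 2) m (z ∘ (Sum.inr ∘ Sum.inl)) = 0 ∧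
      val (w.length + 2) m (z ∘ (Sum.inr ∘ Sum.inr)) = b) := by
    refine and ?_ (and (valZero m _) (valConst m b _))
    exact congr (subst hdtc (Sum.elim (Sum.inl ∘ Sum.elim e e') Sum.inr))
      (fun w z _ => Iff.rfl)
  refine congr (ex h1) ?_
  intro w z hz
  constructor
  · intro h
    have key : ∀ s, ∀ x : Fin m ⊕ Fin m → ℕ, (∀ v, x v ≤ w.length + 1) →
        val (w.length + 2) m (x ∘ Sum.inl) = s →
        val (w.length + 2) m (x ∘ Sum.inr) = a * s + b →
        ∃ t : Fin m ⊕ Fin m → ℕ, (∀ v, t v ≤ w.length + 1) ∧ ReflTransGen (Bd E w) x t ∧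
          val (w.length + 2) m (t ∘ Sum.inl) = 0 ∧ val (w.length + 2) m (t ∘ Sum.inr) = b := by
      intro s
      induction s with
      | zero =>
        intro x hx h1 h2
        exact ⟨x, hx, ReflTransGen.refl, h1, by simpa using h2⟩
      | succ s ih =>
        intro x hx h1 h2
        have l1 := val_lt (N := w.length + 2) (x := x ∘ Sum.inl)
          (fun i => Nat.lt_succ_of_le (hx _))
        have l2 := val_lt (N := w.length + 2) (x := x ∘ Sum.inr)
          (fun i => Nat.lt_succ_of_le (hx _))
        obtain ⟨u, hu, hu'⟩ := val_surj (N := w.length + 2) (m := m) (a := s) (by omega)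
          (by omega)
        have h2' : val (w.length + 2) m (x ∘ Sum.inr) = a * s + b + a := by
          rw [h2]; ring
        obtain ⟨v, hv, hv'⟩ := val_surj (N := w.length + 2) (m := m) (a := a * s + b)
          (by omega) (by omega)
        obtain ⟨t, ht, g1, g2⟩ := ih (Sum.elim u v) (by
          rintro (i | i)
          · exact Nat.le_of_lt_succ (hu i)
          · exact Nat.le_of_lt_succ (hv i)) hu' hv'
        refine ⟨t, ht, ReflTransGen.head ⟨hx, ?_, ?_, ?_⟩ g1, g2⟩
        · rintro (i | i)
          · exact Nat.le_of_lt_succ (hu i)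
          · exact Nat.le_of_lt_succ (hv i)
        · change val (w.length + 2) m (x ∘ Sum.inl) = val (w.length + 2) m u + 1
          omega
        · change val (w.length + 2) m (x ∘ Sum.inr) = val (w.length + 2) m v + a
          omega
    obtain ⟨t, ht, g1, g2, g3⟩ := key _ (z ∘ Sum.elim e e') (fun v => hz _) rfl h
    exact ⟨t, ht, g1, g2, g3⟩
  · rintro ⟨t, _, g1, g2, g3⟩
    have key : ∀ x t : Fin m ⊕ Fin m → ℕ, ReflTransGen (Bd E w) x t →
        val (w.length + 2) m (x ∘ Sum.inr) + a * val (w.length + 2) m (t ∘ Sum.inl) =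
          a * val (w.length + 2) m (x ∘ Sum.inl) + val (w.length + 2) m (t ∘ Sum.inr) := by
      intro x t h
      induction h with
      | refl => ring
      | @tail b c _ hbc ih =>
        obtain ⟨_, _, h1, h2⟩ := hbc
        have e1 : val (w.length + 2) m (b ∘ Sum.inl) =
          val (w.length + 2) m (c ∘ Sum.inl) + 1 := h1
        have e2 : val (w.length + 2) m (b ∘ Sum.inr) =
          val (w.length + 2) m (c ∘ Sum.inr) + a := h2
        rw [e1, e2, Nat.mul_add] at ih
        omega
    have := key _ _ g1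
    have g2' : val (w.length + 2) m (t ∘ Sum.inl) = 0 := g2
    have g3' : val (w.length + 2) m (t ∘ Sum.inr) = b := g3
    have e1 : Sum.elim z t ∘ Sum.inr = t := rfl
    rw [e1, g2', g3', Nat.mul_zero, Nat.add_zero] at this
    exact this

end IsL

end Pool.Agent.Helper6
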