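import Pool.Agent.Helper6.DPDASpine
import Pool.Agent.Helper6.MHeadF

set_option autoImplicit false

/-!
The window construction preserves decidability by two-way multihead finite automata.
-/

namespace Pool.Agent.Helper6

open Relation

variable {α Q Γ : Type} {k : ℕ}

/-! ### Greedy form of the window construction -/

/-- Walks with a given number of steps. -/
inductive NSteps {X : Type} (r : X → X → Prop) : ℕ → X → X → Prop
  | zero (a : X) : NSteps r 0 a a
  | succ {n : ℕ} {a b c : X} : r a b → NSteps r n b c → NSteps r (n + 1) a c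

theorem NSteps.of_rtg {X : Type} {r : X → X → Prop} {a b : X} (h : ReflTransGen r a b) :
    ∃ n, NSteps r n a b := by
  induction h using ReflTransGen.head_induction_on with
  | refl => exact ⟨0, NSteps.zero _⟩
  | head h _ ih =>
    obtain ⟨n, hn⟩ := ih
    exact ⟨n + 1, NSteps.succ h hn⟩

theorem NSteps.rtg {X : Type} {r : X → X → Prop} {n : ℕ} {a b : X} (h : NSteps r n a b) :
    ReflTransGen r a b := by
  induction h with
  | zero => exact ReflTransGen.refl
  | succ h _ ih => exact ReflTransGen.head h ih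

section Greedy

variable (δ : PDTrans α Q Γ k) (F : Set Q) (w : List α) (c : ℕ)
  (R : Surf Q k → Γ → Surf Q k → Prop)

/-- Greedy steps: contract whenever possible. -/
inductive GStep : Surf Q k × List Γ → Surf Q k × List Γ → Prop
  | jump {s s' : Surf Q k} {X : Γ} {t : List Γ} : R s X s' → GStep (s, X :: t) (s', t)
  | move {s s1 : Surf Q k} {X : Γ} {l t : List Γ} : (¬ ∃ s', R s X s') →
      s.1 ∉ F → pdMove δ w s (some X) = (s1, l) →
      2 ^ (l ++ t).length < (w.length + 2) ^ (c + 2) → GStep (s, X :: t) (s1, l ++ t)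

variable {δ F w c R}

theorem win_split {n : ℕ} {a : Surf Q k × List Γ} {sf : Surf Q k}
    (h : NSteps (WinStep δ F w c R) n a (sf, [])) :
    ∀ u t, a.2 = u ++ t → ∃ n1 n2 s', n = n1 + n2 ∧
      NSteps (WinStep δ F w c R) n1 (a.1, u) (s', []) ∧
      NSteps (WinStep δ F w c R) n2 (s', t) (sf, []) := by
  generalize hb : ((sf, []) : Surf Q k × List Γ) = b at h
  induction h with
  | zero a =>
    intro u t hu
    subst hb
    simp only [List.nil_eq, List.append_eq_nil_iff] at hu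
    obtain ⟨rfl, rfl⟩ := hu
    exact ⟨0, 0, sf, rfl, NSteps.zero _, NSteps.zero _⟩
  | @succ n a b' c' h1 h2 ih =>
    intro u t hu
    subst hb
    cases u with
    | nil =>
      simp only [List.nil_append] at hu
      refine ⟨0, n + 1, a.1, by omega, NSteps.zero _, ?_⟩
      have : (a.1, t) = a := by rw [← hu]
      rw [this]
      exact NSteps.succ h1 h2
    | cons X u =>
      cases h1 with
      | @jump s s' X' t' hj =>
        simp only [List.cons_append, List.cons.injEq] at hu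
        obtain ⟨rfl, rfl⟩ := hu
        obtain ⟨n1, n2, s1, e1, e2, e3⟩ := ih rfl u t rfl
        exact ⟨n1 + 1, n2, s1, by omega, NSteps.succ (WinStep.jump hj) e2, e3⟩
      | @move s s1 X' l t' g1 g2 g3 =>
        simp only [List.cons_append, List.cons.injEq] at hu
        obtain ⟨rfl, rfl⟩ := hu
        obtain ⟨n1, n2, s2, e1, e2, e3⟩ := ih rfl (l ++ u) t (by simp)
        refine ⟨n1 + 1, n2, s2, by omega, NSteps.succ (WinStep.move g1 g2 ?_) e2, e3⟩
        refine lt_of_le_of_lt (Nat.pow_le_pow_right (by norm_num) ?_) g3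
        simp

theorem win_greedy (hR : Sound δ F w R) (n : ℕ) : ∀ {a : Surf Q k × List Γ} {sf : Surf Q k},
    NSteps (WinStep δ F w c R) n a (sf, []) → ReflTransGen (GStep δ F w c R) a (sf, []) := by
  induction n using Nat.strong_induction_on with
  | _ n ih =>
    intro a sf h
    generalize hb : ((sf, []) : Surf Q k × List Γ) = b at h
    cases h with
    | zero => exact ReflTransGen.refl
    | @succ n _ b' _ h1 h2 =>
      subst hb
      cases h1 with
      | @jump s s' X t hj =>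
        exact ReflTransGen.head (GStep.jump hj) (ih n (by omega) h2)
      | @move s s1 X l t g1 g2 g3 =>
        by_cases hX : ∃ s', R s X s'
        · obtain ⟨s', hs'⟩ := hX
          obtain ⟨n1, n2, s2, e1, e2, e3⟩ := win_split
            (NSteps.succ (WinStep.move g1 g2 g3) h2) [X] t rfl
          have hn1 : n1 ≠ 0 := by
            rintro rfl
            generalize hm : (0 : ℕ) = m at e2
            generalize hc : ((s2, []) : Surf Q k × List Γ) = c' at e2
            cases e2 with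
            | zero _ => simp at hc
            | succ _ _ => simp at hm
          have hs2 : s' = s2 := by
            have r2 := hR.window c s X s2 e2.rtg
            have := stuck_unique (hR _ _ _ hs') r2 (fun _ => not_step_nil)
              (fun _ => not_step_nil)
            simpa using this
          subst hs2
          exact ReflTransGen.head (GStep.jump hs') (ih n2 (by omega) e3)
        · exact ReflTransGen.head (GStep.move hX g1 g2 g3) (ih n (by omega) h2)

theorem GStep.win {a b : Surf Q k × List Γ} (h : GStep δ F w c R a b) :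
    WinStep δ F w c R a b := by
  cases h with
  | jump h => exact WinStep.jump h
  | move _ h1 h2 h3 => exact WinStep.move h1 h2 h3

theorem window_iff (hR : Sound δ F w R) (s : Surf Q k) (X : Γ) (s' : Surf Q k) :
    Window δ F w c R s X s' ↔ ReflTransGen (GStep δ F w c R) (s, [X]) (s', []) := by
  constructor
  · intro h
    obtain ⟨n, hn⟩ := NSteps.of_rtg h
    exact win_greedy hR n hn
  · intro h
    exact ReflTransGen.mono (fun a b hab => hab.win) _ _ h

end Greedy

/-! ### Coding stacks by numbers -/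

section Coding

variable [Fintype Γ]

/-- Code of a stack symbol, between `1` and `card Γ`. -/
noncomputable def code (X : Γ) : ℕ := (Fintype.equivFin Γ X : ℕ) + 1

theorem code_pos (X : Γ) : 0 < code X := Nat.succ_pos _

theorem code_lt (X : Γ) : code X < Fintype.card Γ + 1 := by
  have := (Fintype.equivFin Γ X).2
  unfold code
  omega

theorem code_inj {X Y : Γ} (h : code X = code Y) : X = Y := by
  unfold code at h
  exact (Fintype.equivFin Γ).injective (Fin.ext (by omega))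

/-- Code of a stack, top symbol least significant. -/
noncomputable def enc : List Γ → ℕ
  | [] => 0
  | X :: t => (Fintype.card Γ + 1) * enc t + code X

theorem enc_lt (u : List Γ) : enc u < (Fintype.card Γ + 1) ^ u.length := by
  induction u with
  | nil => simp [enc]
  | cons X t ih =>
    simp only [enc, List.length_cons, pow_succ]
    have := code_lt X
    have h2 : (Fintype.card Γ + 1) * (enc t + 1) ≤
      (Fintype.card Γ + 1) * (Fintype.card Γ + 1) ^ t.length := Nat.mul_le_mul_left _ ih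
    nlinarith

theorem enc_append (l t : List Γ) :
    enc (l ++ t) = (Fintype.card Γ + 1) ^ l.length * enc t + enc l := by
  induction l with
  | nil => simp [enc]
  | cons X l ih =>
    simp only [List.cons_append, enc, ih, List.length_cons, pow_succ]
    ring

theorem enc_decomp {u : List Γ} {X : Γ} {v : ℕ}
    (h : enc u = (Fintype.card Γ + 1) * v + code X) : ∃ t, u = X :: t ∧ enc t = v := by
  cases u with
  | nil =>
    have := code_pos X
    simp only [enc] at h
    omega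
  | cons Y t =>
    simp only [enc] at h
    have h1 : code Y = code X := by
      have e1 : ((Fintype.card Γ + 1) * enc t + code Y) % (Fintype.card Γ + 1) = code Y := by
        rw [Nat.mul_add_mod, Nat.mod_eq_of_lt (code_lt Y)]
      have e2 : ((Fintype.card Γ + 1) * v + code X) % (Fintype.card Γ + 1) = code X := by
        rw [Nat.mul_add_mod, Nat.mod_eq_of_lt (code_lt X)]
      rw [← e1, ← e2, h]
    have := code_inj h1
    subst this
    refine ⟨t, rfl, ?_⟩
    exact Nat.eq_of_mul_eq_mul_left (Nat.succ_pos (Fintype.card Γ)) (by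
      simpa using h)

end Coding

section Window

variable [Fintype Γ]
variable (δ : PDTrans α Q Γ k) (F : Set Q) (c : ℕ)
  (R : List α → Surf Q k → Γ → Surf Q k → Prop)

/-- Number of digits used for the code of the stack. -/
abbrev m2 (Γ : Type) [Fintype Γ] (c : ℕ) : ℕ := (c + 2) * (Fintype.card Γ + 1)

/-- Heads used: positions, digits of the code of the stack, digits of a power of two. -/
abbrev WV (Γ : Type) [Fintype Γ] (k c : ℕ) : Type := Fin k ⊕ (Fin (m2 Γ c) ⊕ Fin (c + 2))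

/-- The configuration `a` codes the surface and stack `b`. -/
def Repr (w : List α) (a : Q × (WV Γ k c → ℕ)) (b : Surf Q k × List Γ) : Prop :=
  Good w a ∧ a.1 = b.1.1 ∧ a.2 ∘ Sum.inl = b.1.2 ∧
    val (w.length + 2) (m2 Γ c) (a.2 ∘ (Sum.inr ∘ Sum.inl)) = enc b.2 ∧
    val (w.length + 2) (c + 2) (a.2 ∘ (Sum.inr ∘ Sum.inr)) = 2 ^ b.2.length

/-- The stack part of a greedy contracted step, on codes. -/
def Pop (w : List α) (X : Γ) (z : WV Γ k c → ℕ) (t : Fin (m2 Γ c) ⊕ Fin (c + 2) → ℕ) : Prop :=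
  val (w.length + 2) (m2 Γ c) (z ∘ (Sum.inr ∘ Sum.inl)) =
      (Fintype.card Γ + 1) * val (w.length + 2) (m2 Γ c) (t ∘ Sum.inl) + code X ∧
  val (w.length + 2) (c + 2) (z ∘ (Sum.inr ∘ Sum.inr)) =
      2 * val (w.length + 2) (c + 2) (t ∘ Sum.inr) + 0

/-- The jump on codes. -/
def CJump (w : List α) (X : Γ) (a b : Q × (WV Γ k c → ℕ))
    (t : Fin (m2 Γ c) ⊕ Fin (c + 2) → ℕ) : Prop :=
  R w (a.1, a.2 ∘ Sum.inl) X (b.1, b.2 ∘ Sum.inl) ∧
    val (w.length + 2) (m2 Γ c) (b.2 ∘ (Sum.inr ∘ Sum.inl)) =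
      val (w.length + 2) (m2 Γ c) (t ∘ Sum.inl) ∧
    val (w.length + 2) (c + 2) (b.2 ∘ (Sum.inr ∘ Sum.inr)) =
      val (w.length + 2) (c + 2) (t ∘ Sum.inr)

/-- The result of an ordinary move on codes. -/
def CRes (w : List α) (m : Surf Q k × List Γ) (b : Q × (WV Γ k c → ℕ))
    (t : Fin (m2 Γ c) ⊕ Fin (c + 2) → ℕ) : Prop :=
  m.1 = (b.1, b.2 ∘ Sum.inl) ∧
    val (w.length + 2) (m2 Γ c) (b.2 ∘ (Sum.inr ∘ Sum.inl)) =
      (Fintype.card Γ + 1) ^ m.2.length * val (w.length + 2) (m2 Γ c) (t ∘ Sum.inl)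
        + enc m.2 ∧
    val (w.length + 2) (c + 2) (b.2 ∘ (Sum.inr ∘ Sum.inr)) =
      2 ^ m.2.length * val (w.length + 2) (c + 2) (t ∘ Sum.inr) + 0

/-- A greedy step on codes. -/
def CStep (w : List α) (a b : Q × (WV Γ k c → ℕ)) : Prop :=
  (∀ v, b.2 v ≤ w.length + 1) ∧
  ∃ (X : Γ) (t : Fin (m2 Γ c) ⊕ Fin (c + 2) → ℕ), (∀ v, t v ≤ w.length + 1) ∧
    Pop c w X a.2 t ∧
    (CJump c R w X a b t ∨
      ((¬ ∃ s', R w (a.1, a.2 ∘ Sum.inl) X s') ∧ a.1 ∉ F ∧
        CRes c w (pdMove δ w (a.1, a.2 ∘ Sum.inl) (some X)) b t))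

variable {δ F c R}

theorem tuple_ext {w : List α} {m : ℕ} {x y : Fin m → ℕ} (hx : ∀ v, x v ≤ w.length + 1)
    (hy : ∀ v, y v ≤ w.length + 1)
    (h : val (w.length + 2) m x = val (w.length + 2) m y) : x = y :=
  val_inj (fun i => Nat.lt_succ_of_le (hx i)) (fun i => Nat.lt_succ_of_le (hy i)) h

theorem CStep.unique {w : List α} (hs : Sound δ F w (R w)) {a b b' : Q × (WV Γ k c → ℕ)}
    (h : CStep δ F c R w a b) (h' : CStep δ F c R w a b') : b = b' := by
  obtain ⟨hb, X, t, ht, ⟨p1, p2⟩, hc⟩ := h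
  obtain ⟨hb', X', t', ht', ⟨p1', p2'⟩, hc'⟩ := h'
  -- the symbol and the popped code agree
  have hX : code X = code X' := by
    have e1 : ((Fintype.card Γ + 1) * val (w.length + 2) (m2 Γ c) (t ∘ Sum.inl) + code X) %
        (Fintype.card Γ + 1) = code X := by
      rw [Nat.mul_add_mod, Nat.mod_eq_of_lt (code_lt X)]
    have e2 : ((Fintype.card Γ + 1) * val (w.length + 2) (m2 Γ c) (t' ∘ Sum.inl) + code X') %
        (Fintype.card Γ + 1) = code X' := by
      rw [Nat.mul_add_mod, Nat.mod_eq_of_lt (code_lt X')]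
    rw [← e1, ← e2, ← p1, ← p1']
  have hX' := code_inj hX
  subst hX'
  have t1 : val (w.length + 2) (m2 Γ c) (t ∘ Sum.inl) =
      val (w.length + 2) (m2 Γ c) (t' ∘ Sum.inl) := by
    rw [p1] at p1'
    exact Nat.eq_of_mul_eq_mul_left (Nat.succ_pos (Fintype.card Γ)) (by simpa using p1')
  have t2 : val (w.length + 2) (c + 2) (t ∘ Sum.inr) =
      val (w.length + 2) (c + 2) (t' ∘ Sum.inr) := by
    omega
  obtain ⟨q, z⟩ := b
  obtain ⟨q', z'⟩ := b'
  have fin : q = q' → z ∘ Sum.inl = z' ∘ Sum.inl →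
      val (w.length + 2) (m2 Γ c) (z ∘ (Sum.inr ∘ Sum.inl)) =
        val (w.length + 2) (m2 Γ c) (z' ∘ (Sum.inr ∘ Sum.inl)) →
      val (w.length + 2) (c + 2) (z ∘ (Sum.inr ∘ Sum.inr)) =
        val (w.length + 2) (c + 2) (z' ∘ (Sum.inr ∘ Sum.inr)) → (q, z) = (q', z') := by
    rintro rfl g1 g2 g3
    have e2 := tuple_ext (fun v => hb _) (fun v => hb' _) g2
    have e3 := tuple_ext (fun v => hb _) (fun v => hb' _) g3
    have : z = z' := by
      funext v
      rcases v with v | (v | v)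
      · exact congrFun g1 v
      · exact congrFun e2 v
      · exact congrFun e3 v
    rw [this]
  rcases hc with ⟨c1, c2, c3⟩ | ⟨c1, c2, c3, c4, c5⟩
  · rcases hc' with ⟨c1', c2', c3'⟩ | ⟨c1', _⟩
    · have e := hs.functional c1 c1'
      simp only [Prod.mk.injEq] at e
      exact fin e.1 e.2 (by rw [c2, c2', t1]) (by rw [c3, c3', t2])
    · exact absurd ⟨_, c1⟩ c1'
  · rcases hc' with ⟨c1', _⟩ | ⟨c1', c2', c3', c4', c5'⟩
    · exact absurd ⟨_, c1'⟩ c1
    · rw [c3] at c3'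
      simp only [Prod.mk.injEq] at c3'
      exact fin c3'.1 c3'.2 (by rw [c4, c4', t1]) (by rw [c5, c5', t2])

theorem two_pow_lt_iff {w : List α} {u : List Γ} (h : 2 ^ u.length < (w.length + 2) ^ (c + 2)) :
    enc u < (w.length + 2) ^ (m2 Γ c) := by
  have h1 := enc_lt u
  have h2 : (Fintype.card Γ + 1) ≤ 2 ^ (Fintype.card Γ + 1) := (Nat.lt_two_pow_self).le
  calc enc u < (Fintype.card Γ + 1) ^ u.length := h1
    _ ≤ (2 ^ (Fintype.card Γ + 1)) ^ u.length := Nat.pow_le_pow_left h2 _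
    _ = (2 ^ u.length) ^ (Fintype.card Γ + 1) := by rw [← pow_mul, ← pow_mul, Nat.mul_comm]
    _ ≤ ((w.length + 2) ^ (c + 2)) ^ (Fintype.card Γ + 1) := Nat.pow_le_pow_left h.le _
    _ = (w.length + 2) ^ (m2 Γ c) := by rw [← pow_mul]

theorem Repr.exists {w : List α} {s : Surf Q k} {u : List Γ} (hs : ∀ v, s.2 v ≤ w.length + 1)
    (hu : 2 ^ u.length < (w.length + 2) ^ (c + 2)) :
    ∃ a : Q × (WV Γ k c → ℕ), Repr c w a (s, u) := by
  obtain ⟨x, hx, hx'⟩ := val_surj (N := w.length + 2) (m := m2 Γ c) (by omega)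
    (two_pow_lt_iff hu)
  obtain ⟨y, hy, hy'⟩ := val_surj (N := w.length + 2) (m := c + 2) (by omega) hu
  refine ⟨(s.1, Sum.elim s.2 (Sum.elim x y)), ?_, rfl, rfl, hx', hy'⟩
  rintro (v | (v | v))
  · exact hs v
  · exact Nat.le_of_lt_succ (hx v)
  · exact Nat.le_of_lt_succ (hy v)

theorem Repr.small {w : List α} {a : Q × (WV Γ k c → ℕ)} {b : Surf Q k × List Γ}
    (h : Repr c w a b) : 2 ^ b.2.length < (w.length + 2) ^ (c + 2) := by
  obtain ⟨h1, _, _, _, h5⟩ := h
  rw [← h5]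
  exact val_lt (fun i => Nat.lt_succ_of_le (h1 _))

theorem Repr.forward {w : List α} (hs : Sound δ F w (R w)) {a : Q × (WV Γ k c → ℕ)}
    {b b' : Surf Q k × List Γ} (h : Repr c w a b) (hg : GStep δ F w c (R w) b b') :
    ∃ a', CStep δ F c R w a a' ∧ Repr c w a' b' := by
  have hsm := h.small
  obtain ⟨q, z⟩ := a
  obtain ⟨hgood, h1, h2, h3, h4⟩ := h
  -- the popped stack
  have popped : ∀ (X : Γ) (t : List Γ), b.2 = X :: t →
      ∃ t' : Fin (m2 Γ c) ⊕ Fin (c + 2) → ℕ, (∀ v, t' v ≤ w.length + 1) ∧ Pop c w X z t' ∧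
      val (w.length + 2) (m2 Γ c) (t' ∘ Sum.inl) = enc t ∧
      val (w.length + 2) (c + 2) (t' ∘ Sum.inr) = 2 ^ t.length := by
    intro X t ht
    have hsm' : 2 ^ t.length < (w.length + 2) ^ (c + 2) := by
      refine lt_of_le_of_lt (Nat.pow_le_pow_right (by norm_num) ?_) hsm
      rw [ht]; simp
    obtain ⟨x, hx, hx'⟩ := val_surj (N := w.length + 2) (m := m2 Γ c) (by omega)
      (two_pow_lt_iff hsm')
    obtain ⟨y, hy, hy'⟩ := val_surj (N := w.length + 2) (m := c + 2) (by omega) hsm'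
    refine ⟨Sum.elim x y, ?_, ⟨?_, ?_⟩, hx', hy'⟩
    · rintro (v | v)
      · exact Nat.le_of_lt_succ (hx v)
      · exact Nat.le_of_lt_succ (hy v)
    · have e1 : (Sum.elim x y : Fin (m2 Γ c) ⊕ Fin (c + 2) → ℕ) ∘ Sum.inl = x := rfl
      rw [e1, hx']
      rw [ht] at h3
      exact h3
    · have e1 : (Sum.elim x y : Fin (m2 Γ c) ⊕ Fin (c + 2) → ℕ) ∘ Sum.inr = y := rfl
      rw [e1, hy']
      rw [ht] at h4
      refine h4.trans ?_
      simp only [List.length_cons, pow_succ]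
      ring
  cases hg with
  | @jump s s' X t hj =>
    obtain ⟨t', ht', hpop, e1, e2⟩ := popped X t rfl
    have hsm' : 2 ^ t.length < (w.length + 2) ^ (c + 2) := by
      refine lt_of_le_of_lt (Nat.pow_le_pow_right (by norm_num) ?_) hsm
      simp
    have hsb : ∀ v, s.2 v ≤ w.length + 1 := by
      intro v
      have := congrFun h2 v
      simp only at this
      rw [← this]
      exact hgood _
    obtain ⟨a', ha'⟩ := Repr.exists (Q := Q) (k := k) (c := c) (hs.bounded hj hsb) hsm'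
    refine ⟨a', ⟨ha'.1, X, t', ht', hpop, Or.inl ⟨?_, ?_, ?_⟩⟩, ha'⟩
    · have i1 : ((q, z).1, (q, z).2 ∘ Sum.inl) = s := Prod.ext h1 h2
      have i2 : (a'.1, a'.2 ∘ Sum.inl) = s' := Prod.ext ha'.2.1 ha'.2.2.1
      rw [i1, i2]
      exact hj
    · rw [ha'.2.2.2.1, e1]
    · rw [ha'.2.2.2.2, e2]
  | @move s s1 X l t g0 g1 g2 g3 =>
    obtain ⟨t', ht', hpop, e1, e2⟩ := popped X t rfl
    have hsb : ∀ v, s.2 v ≤ w.length + 1 := by
      intro v
      have := congrFun h2 v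
      simp only at this
      rw [← this]
      exact hgood _
    have hs1 : ∀ v, s1.2 v ≤ w.length + 1 := by
      have := pdMove_bounded (δ := δ) (some X) hsb
      rw [g2] at this
      exact this
    obtain ⟨a', ha'⟩ := Repr.exists (Q := Q) (k := k) (c := c) hs1 g3
    have i1 : ((q, z).1, (q, z).2 ∘ Sum.inl) = s := Prod.ext h1 h2
    refine ⟨a', ⟨ha'.1, X, t', ht', hpop, Or.inr ⟨?_, ?_, ?_, ?_, ?_⟩⟩, ha'⟩
    · rw [i1]; exact g0
    · have : q = s.1 := h1
      change q ∉ F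
      rw [this]; exact g1
    · rw [i1, g2]
      exact (Prod.ext ha'.2.1 ha'.2.2.1).symm
    · rw [i1, g2, ha'.2.2.2.1, e1]
      exact enc_append l t
    · rw [i1, g2, ha'.2.2.2.2, e2]
      simp only [List.length_append, pow_add]
      rfl

theorem Repr.backward {w : List α} (hs : Sound δ F w (R w)) {a a' : Q × (WV Γ k c → ℕ)}
    {b : Surf Q k × List Γ} (h : Repr c w a b) (hg : CStep δ F c R w a a') :
    ∃ b', GStep δ F w c (R w) b b' ∧ Repr c w a' b' := by
  obtain ⟨q, z⟩ := a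
  obtain ⟨s, u⟩ := b
  obtain ⟨hgood, h1, h2, h3, h4⟩ := h
  obtain ⟨hb, X, t', ht', ⟨p1, p2⟩, hc⟩ := hg
  have h3' : val (w.length + 2) (m2 Γ c) (z ∘ (Sum.inr ∘ Sum.inl)) = enc u := h3
  have h4' : val (w.length + 2) (c + 2) (z ∘ (Sum.inr ∘ Sum.inr)) = 2 ^ u.length := h4
  have p1' := h3'.symm.trans p1
  have p2' := h4'.symm.trans p2
  obtain ⟨t, rfl, ht⟩ := enc_decomp p1'
  have e2 : val (w.length + 2) (c + 2) (t' ∘ Sum.inr) = 2 ^ t.length := by
    simp only [List.length_cons, pow_succ] at p2'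
    omega
  have i1 : ((q, z).1, (q, z).2 ∘ Sum.inl) = s := Prod.ext h1 h2
  rcases hc with ⟨c1, c2, c3⟩ | ⟨c1, c2, c3, c4, c5⟩
  · rw [i1] at c1
    refine ⟨_, GStep.jump c1, hb, rfl, rfl, ?_, ?_⟩
    · rw [c2, ht]
    · rw [c3, e2]
  · rw [i1] at c1 c3 c4 c5
    have hq : s.1 ∉ F := by
      have : q = s.1 := h1
      rw [← this]; exact c2
    rcases hm : pdMove δ w s (some X) with ⟨s1, l⟩
    rw [hm] at c3 c4 c5
    simp only at c3 c4 c5
    subst c3
    have c4' : val (w.length + 2) (m2 Γ c) (a'.2 ∘ (Sum.inr ∘ Sum.inl)) = enc (l ++ t) := by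
      rw [c4, ← ht, enc_append]
    have c5' : val (w.length + 2) (c + 2) (a'.2 ∘ (Sum.inr ∘ Sum.inr)) =
        2 ^ (l ++ t).length := by
      rw [c5, e2, List.length_append, pow_add]
      rfl
    refine ⟨(_, l ++ t), GStep.move c1 hq hm ?_, hb, rfl, rfl, c4', c5'⟩
    rw [← c5']
    exact val_lt (fun i => Nat.lt_succ_of_le (hb _))

theorem window_iff_code {w : List α} (hs : Sound δ F w (R w)) (s : Surf Q k) (X : Γ)
    (s' : Surf Q k) (hb : ∀ v, s.2 v ≤ w.length + 1) :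
    Window δ F w c (R w) s X s' ↔ ∃ a b : Q × (WV Γ k c → ℕ), Repr c w a (s, [X]) ∧
      Repr c w b (s', []) ∧ ReflTransGen (CStep δ F c R w) a b := by
  rw [window_iff hs]
  constructor
  · intro h
    have hsmall : 2 ^ ([X] : List Γ).length < (w.length + 2) ^ (c + 2) := by
      have h1 : 2 ^ 2 ≤ (w.length + 2) ^ (c + 2) :=
        (Nat.pow_le_pow_left (by omega) 2).trans (Nat.pow_le_pow_right (by omega) (by omega))
      simp only [List.length_singleton]
      omega
    obtain ⟨a, ha⟩ := Repr.exists (Q := Q) (k := k) (c := c) (u := [X]) hb hsmall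
    have key : ∀ b, ReflTransGen (GStep δ F w c (R w)) (s, [X]) b →
        ∃ b', Repr c w b' b ∧ ReflTransGen (CStep δ F c R w) a b' := by
      intro b hb
      induction hb with
      | refl => exact ⟨a, ha, ReflTransGen.refl⟩
      | tail _ hstep ih =>
        obtain ⟨b', h1, h2⟩ := ih
        obtain ⟨a', h3, h4⟩ := h1.forward hs hstep
        exact ⟨a', h4, h2.tail h3⟩
    obtain ⟨b', h1, h2⟩ := key _ h
    exact ⟨a, b', ha, h1, h2⟩
  · rintro ⟨a, b, ha, hb', h⟩
    have key : ∀ b', ReflTransGen (CStep δ F c R w) a b' →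
        ∃ b, Repr c w b' b ∧ ReflTransGen (GStep δ F w c (R w)) (s, [X]) b := by
      intro b' hb
      induction hb with
      | refl => exact ⟨_, ha, ReflTransGen.refl⟩
      | tail _ hstep ih =>
        obtain ⟨b, h1, h2⟩ := ih
        obtain ⟨a', h3, h4⟩ := h1.backward hs hstep
        exact ⟨a', h4, h2.tail h3⟩
    obtain ⟨b1, h1, h2⟩ := key _ h
    have : b1 = (s', []) := by
      obtain ⟨s1, u⟩ := b1
      obtain ⟨_, e1, e2, e3, _⟩ := h1
      obtain ⟨_, e1', e2', e3', _⟩ := hb'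
      have hu : u = [] := by
        cases u with
        | nil => rfl
        | cons Y t =>
          have hY := code_pos Y
          have e4 : enc (Y :: t) = enc ([] : List Γ) := e3.symm.trans e3'
          simp only [enc] at e4
          omega
      have h5 : s1 = s' := Prod.ext (e1.symm.trans e1') (e2.symm.trans e2')
      rw [hu, h5]
    rw [this] at h2
    exact h2

set_option linter.unusedSectionVars false

variable [Finite α] [Finite Q]

theorem isL_noR {V : Type} [Finite V] (hR : DecR α R) (hs : ∀ w, Sound δ F w (R w))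
    (q : Q) (X : Γ) (e : Fin k → V) :
    IsL α V (fun w z => ¬ ∃ s', R w (q, z ∘ e) X s') := by
  refine IsL.not (IsL.congr (IsL.bigOr (ι := Q) (fun q' => IsL.ex (U := Fin k)
    (R := fun w z => R w (q, (z ∘ Sum.inl) ∘ e) X (q', z ∘ Sum.inr)) ?_)) ?_)
  · exact IsL.congr (IsL.subst (hR q X q') (Sum.elim (Sum.inl ∘ e) Sum.inr))
      (fun w z _ => Iff.rfl)
  · intro w z hz
    constructor
    · rintro ⟨⟨q', t⟩, h⟩
      exact ⟨q', t, (hs w).bounded h (fun v => hz _), h⟩
    · rintro ⟨q', t, _, h⟩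
      exact ⟨_, h⟩

theorem isL_cstep {V : Type} [Finite V] (hR : DecR α R) (hs : ∀ w, Sound δ F w (R w))
    (a b : Q) (ea eb : WV Γ k c → V) :
    IsL α V (fun w z => CStep δ F c R w (a, z ∘ ea) (b, z ∘ eb)) := by
  have h1 : ∀ X : Γ, IsL α (V ⊕ (Fin (m2 Γ c) ⊕ Fin (c + 2))) (fun w z =>
      Pop c w X ((z ∘ Sum.inl) ∘ ea) (z ∘ Sum.inr) ∧
      (CJump c R w X (a, (z ∘ Sum.inl) ∘ ea) (b, (z ∘ Sum.inl) ∘ eb) (z ∘ Sum.inr) ∨
      ((¬ ∃ s', R w (a, ((z ∘ Sum.inl) ∘ ea) ∘ Sum.inl) X s') ∧ a ∉ F ∧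
        CRes c w (pdMove δ w (a, ((z ∘ Sum.inl) ∘ ea) ∘ Sum.inl) (some X))
          (b, (z ∘ Sum.inl) ∘ eb) (z ∘ Sum.inr)))) := by
    intro X
    refine IsL.and (IsL.and ?_ ?_) (IsL.or (IsL.and ?_ (IsL.and ?_ ?_))
      (IsL.and ?_ (IsL.and ?_ ?_)))
    · exact IsL.valLin (m2 Γ c) _ _ (Sum.inr ∘ Sum.inl)
        (Sum.inl ∘ ea ∘ (Sum.inr ∘ Sum.inl))
    · exact IsL.valLin (c + 2) 2 0 (Sum.inr ∘ Sum.inr) (Sum.inl ∘ ea ∘ (Sum.inr ∘ Sum.inr))
    · exact IsL.congr (IsL.subst (hR a X b)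
        (Sum.elim (Sum.inl ∘ ea ∘ Sum.inl) (Sum.inl ∘ eb ∘ Sum.inl)))
        (fun w z _ => Iff.rfl)
    · exact IsL.valEq (m2 Γ c) (Sum.inr ∘ Sum.inl) (Sum.inl ∘ eb ∘ (Sum.inr ∘ Sum.inl))
    · exact IsL.valEq (c + 2) (Sum.inr ∘ Sum.inr) (Sum.inl ∘ eb ∘ (Sum.inr ∘ Sum.inr))
    · exact isL_noR hR hs a X (Sum.inl ∘ ea ∘ Sum.inl)
    · exact IsL.const _
    · have h2 := IsL.ofMove δ (U := V ⊕ (Fin (m2 Γ c) ⊕ Fin (c + 2)))
        (P := fun w m y => CRes c w m (b, (y ∘ Sum.inl) ∘ eb) (y ∘ Sum.inr)) (by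
          intro q1 l
          refine IsL.and ?_ (IsL.and ?_ ?_)
          · refine IsL.congr (IsL.and (IsL.const (q1 = b)) (IsL.bigAnd (R := fun i _ z =>
              z (Sum.inl i) = z (Sum.inr (Sum.inl (eb (Sum.inl i))))) (fun i => IsL.eq _ _))) ?_
            intro w z _
            constructor
            · intro h
              simp only [Prod.mk.injEq] at h
              exact ⟨h.1, fun i => congrFun h.2 i⟩
            · rintro ⟨h1, h2⟩
              exact Prod.ext h1 (funext h2)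
          · exact IsL.valLin (V := Fin k ⊕ (V ⊕ (Fin (m2 Γ c) ⊕ Fin (c + 2)))) (m2 Γ c)
              ((Fintype.card Γ + 1) ^ l.length) (enc l) (Sum.inr ∘ Sum.inr ∘ Sum.inl)
              (Sum.inr ∘ Sum.inl ∘ eb ∘ (Sum.inr ∘ Sum.inl))
          · exact IsL.valLin (V := Fin k ⊕ (V ⊕ (Fin (m2 Γ c) ⊕ Fin (c + 2)))) (c + 2)
              (2 ^ l.length) 0 (Sum.inr ∘ Sum.inr ∘ Sum.inr)
              (Sum.inr ∘ Sum.inl ∘ eb ∘ (Sum.inr ∘ Sum.inr))) a (some X)
      exact IsL.congr (IsL.subst h2 (Sum.elim (Sum.inl ∘ ea ∘ Sum.inl) id))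
        (fun w z _ => Iff.rfl)
  refine IsL.congr (IsL.bigOr (ι := Γ) (fun X => IsL.ex (h1 X))) ?_
  intro w z hz
  constructor
  · rintro ⟨_, X, t, ht, h2, h3⟩
    exact ⟨X, t, ht, h2, h3⟩
  · rintro ⟨X, t, ht, h2, h3⟩
    exact ⟨fun v => hz _, X, t, ht, h2, h3⟩

theorem decR_window (hR : DecR α R) (hs : ∀ w, Sound δ F w (R w)) :
    DecR α (fun w => Window δ F w c (R w)) := by
  intro q X q'
  have hd := IsL.dtcCtl (α := α) (U := Empty) (V := WV Γ k c) (A := Q)
    (E := fun w _ a b => CStep δ F c R w a b)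
    (fun a b => isL_cstep hR hs a b (Sum.inr ∘ Sum.inl) (Sum.inr ∘ Sum.inr))
    (fun w p a b _ _ h => h.1)
    (fun w p a b b' _ _ h1 h2 => CStep.unique (hs w) h1 h2) q q'
  have h1 : IsL α ((Fin k ⊕ Fin k) ⊕ (WV Γ k c ⊕ WV Γ k c)) (fun w z =>
      ((∀ i, z (Sum.inr (Sum.inl (Sum.inl i))) = z (Sum.inl (Sum.inl i))) ∧
        (∀ i, z (Sum.inr (Sum.inr (Sum.inl i))) = z (Sum.inl (Sum.inr i)))) ∧
      ((val (w.length + 2) (m2 Γ c) (z ∘ (Sum.inr ∘ Sum.inl ∘ Sum.inr ∘ Sum.inl)) =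
          enc [X] ∧
        val (w.length + 2) (c + 2) (z ∘ (Sum.inr ∘ Sum.inl ∘ Sum.inr ∘ Sum.inr)) = 2 ^ 1) ∧
      (val (w.length + 2) (m2 Γ c) (z ∘ (Sum.inr ∘ Sum.inr ∘ Sum.inr ∘ Sum.inl)) =
          0 ∧
        val (w.length + 2) (c + 2) (z ∘ (Sum.inr ∘ Sum.inr ∘ Sum.inr ∘ Sum.inr)) = 2 ^ 0)) ∧
      ReflTransGen (CStep δ F c R w) (q, z ∘ Sum.inr ∘ Sum.inl) (q', z ∘ Sum.inr ∘ Sum.inr)) := by
    refine IsL.and (IsL.and (IsL.bigAnd (fun i => IsL.eq _ _))
      (IsL.bigAnd (fun i => IsL.eq _ _))) (IsL.and (IsL.and (IsL.and ?_ ?_)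
      (IsL.and ?_ ?_)) ?_)
    · exact IsL.valConst _ _ _
    · exact IsL.valConst _ _ _
    · exact IsL.valConst _ _ _
    · exact IsL.valConst _ _ _
    · exact IsL.congr (IsL.subst hd (Sum.elim Empty.elim
        (Sum.elim (Sum.inr ∘ Sum.inl) (Sum.inr ∘ Sum.inr)))) (fun w z _ => Iff.rfl)
  refine IsL.congr (IsL.ex h1) ?_
  intro w z hz
  change Window δ F w c (R w) _ _ _ ↔ _
  rw [window_iff_code (hs w) _ _ _ (fun v => hz _)]
  constructor
  · rintro ⟨a, b, ha, hb, h⟩
    obtain ⟨qa, xa⟩ := a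
    obtain ⟨qb, xb⟩ := b
    obtain ⟨a1, a2, a3, a4, a5⟩ := ha
    obtain ⟨b1, b2, b3, b4, b5⟩ := hb
    simp only at a2 b2
    subst a2 b2
    refine ⟨Sum.elim xa xb, ?_, ⟨fun i => congrFun a3 i, fun i => congrFun b3 i⟩,
      ⟨⟨a4, a5⟩, ⟨b4, b5⟩⟩, h⟩
    rintro (v | v)
    · exact a1 v
    · exact b1 v
  · rintro ⟨t, ht, ⟨h2, h3⟩, ⟨⟨h4, h5⟩, ⟨h6, h7⟩⟩, h8⟩
    refine ⟨(q, t ∘ Sum.inl), (q', t ∘ Sum.inr), ⟨fun v => ht _, rfl, funext h2, h4, h5⟩,
      ⟨fun v => ht _, rfl, funext h3, h6, h7⟩, h8⟩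

end Window

end Pool.Agent.Helper6
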