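import Pool.Agent.Helper6.ThriftyDefs

/-!
# Deterministic branching programs for tree evaluation, and straight-line programs
-/

namespace Pool.Agent.Helper6.TreeEval

/-- A deterministic `k`-way branching program for trees with `h` levels of nodes. A state is either
a query state, with one successor for each possible answer, or a final state labelled with
an output value. -/
structure DBP (h k : ℕ) where
  State : Type
  [fin : Fintype State]
  start : State
  label : State → Query k ⊕ Fin k
  next : State → Fin k → State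
  inTree : ∀ s q, label s = Sum.inl q → q.InTree h

attribute [instance] DBP.fin

/-- One step of the computation on the instance `I` (a final state is never left). -/
def DBP.step {h k : ℕ} (B : DBP h k) (I : Inst k) (s : B.State) : B.State :=
  match B.label s with
  | Sum.inl q => B.next s (I.answer q)
  | Sum.inr _ => s

/-- The program solves the tree evaluation problem: on every instance the computation from the
start state reaches a final state labelled with the value of the root. -/
def DBP.Solves {h k : ℕ} (B : DBP h k) : Prop :=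
  ∀ I : Inst k, ∃ n : ℕ, B.label ((B.step I)^[n] B.start) = Sum.inr (I.nodeVal h [])

/-- A straight-line program on the register type `R`: a list of queries, each with an update
of the registers depending on the answer. -/
abbrev SLP (k : ℕ) (R : Type) : Type := List (Query k × (R → Fin k → R))

variable {k : ℕ} {R : Type}

/-- Running a straight-line program. -/
def SLP.run (I : Inst k) (P : SLP k R) (r : R) : R :=
  P.foldl (fun r ins => ins.2 r (I.answer ins.1)) r

@[simp] theorem SLP.run_nil (I : Inst k) (r : R) : SLP.run I ([] : SLP k R) r = r := rfl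

@[simp] theorem SLP.run_cons (I : Inst k) (ins : Query k × (R → Fin k → R)) (P : SLP k R) (r : R) :
    SLP.run I (ins :: P : SLP k R) r = SLP.run I P (ins.2 r (I.answer ins.1)) := rfl

@[simp] theorem SLP.run_append (I : Inst k) (P Q : SLP k R) (r : R) :
    SLP.run I (P ++ Q : SLP k R) r = SLP.run I Q (SLP.run I P r) := by
  unfold SLP.run
  rw [List.foldl_append]

/-- Relabelling of the registers. -/
def SLP.conj (σ : R → R) (P : SLP k R) : SLP k R :=
  P.map fun ins => (ins.1, fun r v => σ (ins.2 (σ r) v))

theorem SLP.run_conj (I : Inst k) (σ : R → R) (hσ : ∀ r, σ (σ r) = r) (P : SLP k R) (r : R) :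
    SLP.run I (SLP.conj σ P) r = σ (SLP.run I P (σ r)) := by
  induction P generalizing r with
  | nil => simp [SLP.conj, hσ]
  | cons ins P ih =>
    have h1 : SLP.conj σ (ins :: P : SLP k R) =
        (ins.1, fun r v => σ (ins.2 (σ r) v)) :: SLP.conj σ P := rfl
    rw [h1, SLP.run_cons, ih, SLP.run_cons, hσ]

theorem SLP.length_conj (σ : R → R) (P : SLP k R) : (SLP.conj σ P).length = P.length := by
  simp [SLP.conj]

theorem SLP.mem_conj {σ : R → R} {P : SLP k R} {T : Query k → Prop}
    (h : ∀ ins ∈ P, T ins.1) : ∀ ins ∈ SLP.conj σ P, T ins.1 := by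
  intro ins hins
  obtain ⟨ins', h1, rfl⟩ := List.mem_map.1 hins
  exact h ins' h1

/-- The branching program of a straight-line program. -/
def SLP.toDBP {h : ℕ} [Fintype R] (P : SLP k R) (hP : 0 < P.length)
    (hT : ∀ ins ∈ P, ins.1.InTree h) (r₀ : R) (out : R → Fin k) : DBP h k where
  State := (Fin P.length × R) ⊕ Fin k
  start := Sum.inl (⟨0, hP⟩, r₀)
  label := Sum.elim (fun s => Sum.inl (P.get s.1).1) Sum.inr
  next := fun s v => match s with
    | Sum.inl s => if hi : (s.1 : ℕ) + 1 < P.length then
        Sum.inl (⟨s.1 + 1, hi⟩, (P.get s.1).2 s.2 v)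
      else Sum.inr (out ((P.get s.1).2 s.2 v))
    | Sum.inr c => Sum.inr c
  inTree := by
    rintro (s | s) q hq
    · cases hq
      exact hT _ (List.get_mem _ _)
    · exact absurd hq (by simp)

theorem SLP.toDBP_solves {h : ℕ} [Fintype R] (P : SLP k R) (hP : 0 < P.length)
    (hT : ∀ ins ∈ P, ins.1.InTree h) (r₀ : R) (out : R → Fin k)
    (hout : ∀ I, out (SLP.run I P r₀) = I.nodeVal h []) :
    (P.toDBP hP hT r₀ out).Solves := by
  intro I
  set B := P.toDBP hP hT r₀ out with hB
  have s1 : ∀ (i : ℕ) (hi : i < P.length) (r : R) (hi' : i + 1 < P.length),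
      B.step I (Sum.inl (⟨i, hi⟩, r) : (Fin P.length × R) ⊕ Fin k) =
        (Sum.inl (⟨i + 1, hi'⟩, (P.get ⟨i, hi⟩).2 r (I.answer (P.get ⟨i, hi⟩).1)) :
          (Fin P.length × R) ⊕ Fin k) := by
    intro i hi r hi'
    change (if hi : i + 1 < P.length then
        (Sum.inl (⟨i + 1, hi⟩, (P.get ⟨i, by omega⟩).2 r (I.answer (P.get ⟨i, by omega⟩).1)) :
          (Fin P.length × R) ⊕ Fin k)
      else Sum.inr (out ((P.get ⟨i, by omega⟩).2 r (I.answer (P.get ⟨i, by omega⟩).1)))) = _
    exact dif_pos hi'
  have s2 : ∀ (i : ℕ) (hi : i < P.length) (r : R), ¬ i + 1 < P.length →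
      B.step I (Sum.inl (⟨i, hi⟩, r) : (Fin P.length × R) ⊕ Fin k) =
        (Sum.inr (out ((P.get ⟨i, hi⟩).2 r (I.answer (P.get ⟨i, hi⟩).1))) :
          (Fin P.length × R) ⊕ Fin k) := by
    intro i hi r hi'
    change (if hi : i + 1 < P.length then
        (Sum.inl (⟨i + 1, hi⟩, (P.get ⟨i, by omega⟩).2 r (I.answer (P.get ⟨i, by omega⟩).1)) :
          (Fin P.length × R) ⊕ Fin k)
      else Sum.inr (out ((P.get ⟨i, by omega⟩).2 r (I.answer (P.get ⟨i, by omega⟩).1)))) = _
    exact dif_neg hi'
  have s3 : ∀ (i : ℕ) (hi : i < P.length), SLP.run I (P.take (i + 1) : SLP k R) r₀ =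
      (P.get ⟨i, hi⟩).2 (SLP.run I (P.take i) r₀) (I.answer (P.get ⟨i, hi⟩).1) := by
    intro i hi
    have h2 : P.take (i + 1) = P.take i ++ [P.get ⟨i, hi⟩] := by
      rw [List.take_succ_eq_append_getElem hi]
      rfl
    rw [h2]
    exact SLP.run_append _ _ _ _
  have key : ∀ m (hm : m < P.length),
      (B.step I)^[m] B.start =
        (Sum.inl (⟨m, hm⟩, SLP.run I (P.take m) r₀) : (Fin P.length × R) ⊕ Fin k) := by
    intro m
    induction m with
    | zero => intro hm; rfl
    | succ m ih =>
      intro hm
      rw [Function.iterate_succ_apply', ih (by omega), s3 m (by omega)]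
      exact s1 m (by omega) _ hm
  obtain ⟨m, hm⟩ : ∃ m, P.length = m + 1 := ⟨P.length - 1, by omega⟩
  refine ⟨m + 1, ?_⟩
  rw [Function.iterate_succ_apply', key m (by omega)]
  have h1 := s2 m (by omega) (SLP.run I (P.take m) r₀) (by omega)
  have h3 : SLP.run I P r₀ = SLP.run I (P.take (m + 1) : SLP k R) r₀ := by
    rw [← hm, List.take_length]
  rw [← s3 m (by omega), ← h3, hout] at h1
  exact congrArg B.label h1

theorem SLP.card_toDBP {h : ℕ} [Fintype R] (P : SLP k R) (hP : 0 < P.length)
    (hT : ∀ ins ∈ P, ins.1.InTree h) (r₀ : R) (out : R → Fin k) :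
    Fintype.card (P.toDBP hP hT r₀ out).State = P.length * Fintype.card R + k := by
  change Fintype.card ((Fin P.length × R) ⊕ Fin k) = _
  rw [Fintype.card_sum, Fintype.card_prod, Fintype.card_fin, Fintype.card_fin]

end Pool.Agent.Helper6.TreeEval
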