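import Mathlib

/-!
# Low degree representation of divisibility (Barrington-Beigel-Rudich)
-/

namespace Pool.Agent.Helper6.MV

open Finset

open scoped Pointwise

/-- Lucas: the binomial coefficient `C(w, p^i)` is the `i`-th digit of `w` modulo `p`. -/
theorem choose_pow_eq (p : ℕ) [Fact p.Prime] (i w : ℕ) :
    ((w.choose (p ^ i) : ℕ) : ZMod p) = ((w / p ^ i : ℕ) : ZMod p) := by
  induction i generalizing w with
  | zero => simp
  | succ i ih =>
    have h1 := Choose.choose_modEq_choose_mod_mul_choose_div_nat (p := p) (n := w)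
      (k := p ^ (i + 1))
    have hp : 0 < p := (Fact.out : p.Prime).pos
    have h2 : p ^ (i + 1) % p = 0 := by
      rw [pow_succ]
      exact Nat.mul_mod_left _ _
    have h3 : p ^ (i + 1) / p = p ^ i := by
      rw [pow_succ]
      exact Nat.mul_div_cancel _ hp
    rw [h2, h3, Nat.choose_zero_right, one_mul] at h1
    rw [(ZMod.natCast_eq_natCast_iff _ _ _).2 h1, ih, Nat.div_div_eq_div_mul, pow_succ, mul_comm]

/-- The divisibility by `p ^ e` as a polynomial in the digits. -/
theorem prod_digits (p : ℕ) [Fact p.Prime] (e w : ℕ) :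
    ∏ i ∈ range e, (1 - ((w.choose (p ^ i) : ℕ) : ZMod p) ^ (p - 1)) =
      if p ^ e ∣ w then 1 else 0 := by
  have hp : p.Prime := Fact.out
  induction e with
  | zero => simp
  | succ e ih =>
    rw [Finset.prod_range_succ, ih, choose_pow_eq]
    by_cases h1 : p ^ e ∣ w
    · rw [if_pos h1, one_mul]
      obtain ⟨v, rfl⟩ := h1
      have h5 : p ^ (e + 1) ∣ p ^ e * v ↔ p ∣ v := by
        rw [pow_succ]
        exact Nat.mul_dvd_mul_iff_left (Nat.pow_pos hp.pos)
      rw [Nat.mul_div_cancel_left _ (Nat.pow_pos hp.pos)]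
      by_cases h2 : p ∣ v
      · rw [if_pos (h5.2 h2), (ZMod.natCast_eq_zero_iff v p).2 h2,
          zero_pow (Nat.sub_pos_of_lt hp.one_lt).ne', sub_zero]
      · rw [if_neg (fun h => h2 (h5.1 h)), ZMod.pow_card_sub_one_eq_one, sub_self]
        intro h3
        exact h2 ((ZMod.natCast_eq_zero_iff v p).1 h3)
    · rw [if_neg h1, if_neg, zero_mul]
      intro h2
      exact h1 (dvd_trans (pow_dvd_pow p (Nat.le_succ e)) h2)

section features

variable (p N : ℕ)

/-- The functions on the cube. -/
abbrev Fn : Type := (Fin N → Bool) → ZMod p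

/-- The coordinate functions. -/
def coord (i : Fin N) : Fn p N := fun a => if a i then 1 else 0

/-- The generating set `1, x_1, ..., x_N`. -/
def gens [DecidableEq (Fn p N)] : Finset (Fn p N) := insert 1 (univ.image (coord p N))

theorem card_gens [DecidableEq (Fn p N)] : (gens p N).card ≤ N + 1 := by
  refine (Finset.card_insert_le _ _).trans ?_
  refine Nat.succ_le_succ ?_
  refine Finset.card_image_le.trans ?_
  simp

/-- The functions of degree at most one. -/
def deg1 [DecidableEq (Fn p N)] : Submodule (ZMod p) (Fn p N) :=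
  Submodule.span (ZMod p) (gens p N : Set (Fn p N))

variable [DecidableEq (Fn p N)]

theorem one_mem_deg1 : (1 : Fn p N) ∈ deg1 p N :=
  Submodule.subset_span (Finset.mem_coe.2 (Finset.mem_insert_self _ _))

theorem coord_mem (i : Fin N) : coord p N i ∈ deg1 p N :=
  Submodule.subset_span (Finset.mem_coe.2 (Finset.mem_insert_of_mem
    (Finset.mem_image_of_mem _ (mem_univ i))))

theorem one_le_deg1 : (1 : Submodule (ZMod p) (Fn p N)) ≤ deg1 p N := by
  rw [Submodule.one_le]
  exact one_mem_deg1 p N

theorem pow_mono {m n : ℕ} (h : m ≤ n) : deg1 p N ^ m ≤ deg1 p N ^ n :=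
  pow_le_pow_right₀ (one_le_deg1 p N) h

/-- The indicator of a difference in one coordinate. -/
def dif (b : Fin N → Bool) (i : Fin N) : Fn p N := fun a => if a i ≠ b i then 1 else 0

theorem dif_mem (b : Fin N → Bool) (i : Fin N) : dif p N b i ∈ deg1 p N := by
  cases hb : b i with
  | false =>
    have : dif p N b i = coord p N i := by
      funext a
      simp only [dif, coord, hb]
      cases a i <;> simp
    rw [this]
    exact coord_mem p N i
  | true =>
    have : dif p N b i = 1 - coord p N i := by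
      funext a
      simp only [dif, coord, hb, Pi.sub_apply, Pi.one_apply]
      cases a i <;> simp
    rw [this]
    exact Submodule.sub_mem _ (one_mem_deg1 p N) (coord_mem p N i)

/-- The binomial coefficients of the distance. -/
def binom (b : Fin N → Bool) (j : ℕ) : Fn p N :=
  fun a => (((univ.filter fun i => a i ≠ b i).card.choose j : ℕ) : ZMod p)

omit [DecidableEq (Fn p N)] in
theorem binom_eq (b : Fin N → Bool) (j : ℕ) :
    binom p N b j = ∑ T ∈ powersetCard j univ, ∏ i ∈ T, dif p N b i := by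
  funext a
  simp only [binom, Finset.sum_apply, Finset.prod_apply, dif]
  rw [← Finset.card_powersetCard]
  simp only [Finset.prod_ite_zero, Finset.prod_const_one]
  rw [Finset.sum_boole]
  congr 2
  ext T
  simp only [mem_powersetCard, mem_filter, subset_univ, true_and]
  constructor
  · rintro ⟨h1, h2⟩
    exact ⟨h2, fun i hi => (mem_filter.1 (h1 hi)).2⟩
  · rintro ⟨h1, h2⟩
    exact ⟨fun i hi => mem_filter.2 ⟨mem_univ _, h2 i hi⟩, h1⟩

theorem prod_mem_pow {ι : Type} (T : Finset ι) (f : ι → Fn p N) (m : ι → ℕ)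
    (hf : ∀ i ∈ T, f i ∈ deg1 p N ^ m i) : ∏ i ∈ T, f i ∈ deg1 p N ^ ∑ i ∈ T, m i := by
  classical
  induction T using Finset.induction_on with
  | empty =>
    simp only [Finset.prod_empty, Finset.sum_empty, pow_zero]
    exact Submodule.one_le.1 le_rfl
  | insert i T hi ih =>
    rw [Finset.prod_insert hi, Finset.sum_insert hi, pow_add]
    exact Submodule.mul_mem_mul (hf i (mem_insert_self _ _))
      (ih fun j hj => hf j (mem_insert_of_mem hj))

theorem binom_mem (b : Fin N → Bool) (j : ℕ) : binom p N b j ∈ deg1 p N ^ j := by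
  rw [binom_eq]
  apply Submodule.sum_mem
  intro T hT
  have h1 := prod_mem_pow p N T (dif p N b) (fun _ => 1) (fun i _ => by
    rw [pow_one]
    exact dif_mem p N b i)
  rw [Finset.sum_const, smul_eq_mul, mul_one, (mem_powersetCard.1 hT).2] at h1
  exact h1

theorem target_mem [Fact p.Prime] (b : Fin N → Bool) (e : ℕ) :
    (1 - ∏ i ∈ range e, (1 - binom p N b (p ^ i) ^ (p - 1)) : Fn p N) ∈
      deg1 p N ^ (p ^ e - 1) := by
  have hp : p.Prime := Fact.out
  have h0 : ∀ n, (1 : Fn p N) ∈ deg1 p N ^ n := fun n =>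
    pow_mono p N (Nat.zero_le n) (by
      rw [pow_zero]
      exact Submodule.one_le.1 le_rfl)
  apply Submodule.sub_mem _ (h0 _)
  have h1 : ∑ i ∈ range e, (p ^ i * (p - 1)) = p ^ e - 1 := by
    rw [← Finset.sum_mul]
    exact Nat.geomSum_eq hp.two_le e ▸ by
      rw [Nat.div_mul_cancel]
      exact Nat.sub_one_dvd_pow_sub_one _ _
  rw [← h1]
  apply prod_mem_pow
  intro i _
  apply Submodule.sub_mem _ (h0 _)
  rw [pow_mul]
  exact Submodule.pow_mem_pow _ (binom_mem p N b (p ^ i)) _

end features

theorem exists_features (p N e : ℕ) [Fact p.Prime] :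
    ∃ (n : ℕ) (U V : (Fin N → Bool) → Fin n → ZMod p), n ≤ (N + 1) ^ (p ^ e - 1) ∧
      ∀ a b, ∑ i, U a i * V b i =
        if p ^ e ∣ (Finset.univ.filter fun i => a i ≠ b i).card then 0 else 1 := by
  classical
  obtain ⟨m, hm⟩ : ∃ m, m = p ^ e - 1 := ⟨_, rfl⟩
  let T : Finset (Fn p N) := gens p N ^ m
  have hT : T.card ≤ (N + 1) ^ m := Finset.card_pow_le.trans (Nat.pow_le_pow_left (card_gens p N) m)
  have hspan : deg1 p N ^ m = Submodule.span (ZMod p) (T : Set (Fn p N)) := by
    unfold deg1
    rw [Submodule.span_pow, Finset.coe_pow]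
  have h1 : ∀ b : Fin N → Bool, ∃ c : Fn p N → ZMod p,
      (1 - ∏ i ∈ range e, (1 - binom p N b (p ^ i) ^ (p - 1)) : Fn p N) = ∑ t ∈ T, c t • t := by
    intro b
    have h2 := target_mem p N b e
    rw [← hm, hspan] at h2
    obtain ⟨c, -, hc⟩ := Submodule.mem_span_finset.1 h2
    exact ⟨c, hc.symm⟩
  choose c hc using h1
  refine ⟨T.card, fun a i => (T.equivFin.symm i : Fn p N) a, fun b i => c b (T.equivFin.symm i), ?_, ?_⟩
  · rw [← hm]
    exact hT
  · intro a b
    have h2 : ∑ i, (T.equivFin.symm i : Fn p N) a * c b (T.equivFin.symm i : Fn p N) =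
        ∑ t ∈ T, c b t * t a := by
      rw [← Finset.sum_coe_sort T (fun t => c b t * t a)]
      rw [← Equiv.sum_comp T.equivFin.symm]
      exact Finset.sum_congr rfl fun i _ => mul_comm _ _
    rw [h2]
    have h3 := congrFun (hc b) a
    simp only [Finset.sum_apply, Pi.smul_apply, smul_eq_mul] at h3
    rw [← h3]
    simp only [Pi.sub_apply, Pi.one_apply, Finset.prod_apply, Pi.pow_apply, binom]
    rw [prod_digits]
    split_ifs <;> simp

end Pool.Agent.Helper6.MV
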