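import Mathlib

/-!
# Finite fields with many roots of unity
-/

namespace Pool.Agent.Helper6.MV

theorem exists_field_one (q m : ℕ) (hq : q.Prime) (hm : 0 < m) (hqm : m.Coprime q) :
    ∃ (K : Type) (_ : Field K) (_ : Fintype K) (c : ZMod q →+* K) (τ : K →+ ZMod q),
      (∀ x, τ (c x) = x) ∧ ∀ ℓ : ℕ, ℓ.Prime → ℓ ∣ m → ∃ χ : AddChar (ZMod ℓ) K, χ 1 ≠ 1 := by
  classical
  have hfact : Fact q.Prime := ⟨hq⟩
  -- q ^ φ(m) ≡ 1 mod m
  have hphi : 0 < m.totient := Nat.totient_pos.2 hm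
  have h1 : m ∣ q ^ m.totient - 1 := by
    have h2 := Nat.ModEq.pow_totient hqm.symm
    exact (Nat.modEq_iff_dvd' (Nat.one_le_pow _ _ hq.pos)).1 h2.symm
  let K := GaloisField q m.totient
  have : Finite K := inferInstance
  let _ : Fintype K := Fintype.ofFinite K
  have hcard : Fintype.card K = q ^ m.totient := by
    rw [← Nat.card_eq_fintype_card]
    exact GaloisField.card q _ hphi.ne'
  obtain ⟨g, hg⟩ := LinearMap.exists_leftInverse_of_injective (Algebra.linearMap (ZMod q) K)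
    (LinearMap.ker_eq_bot.2 (algebraMap (ZMod q) K).injective)
  refine ⟨K, inferInstance, inferInstance, algebraMap (ZMod q) K, g.toAddMonoidHom, ?_, ?_⟩
  · intro x
    exact LinearMap.congr_fun hg x
  · intro ℓ hℓ hℓm
    have hfl : Fact ℓ.Prime := ⟨hℓ⟩
    have h3 : ℓ ∣ Nat.card Kˣ := by
      rw [Nat.card_eq_fintype_card, Fintype.card_units, hcard]
      exact hℓm.trans h1
    obtain ⟨u, hu⟩ := exists_prime_orderOf_dvd_card' ℓ h3
    have h4 : (u : K) ^ ℓ = 1 := by
      rw [← hu, ← Units.val_pow_eq_pow_val, pow_orderOf_eq_one, Units.val_one]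
    refine ⟨AddChar.zmodChar ℓ h4, ?_⟩
    intro h5
    have h6 : AddChar.zmodChar ℓ h4 (1 : ZMod ℓ) = (u : K) := by
      have := AddChar.zmodChar_apply' h4 1
      simpa using this
    rw [h6] at h5
    have h7 : u = 1 := Units.ext h5
    rw [h7, orderOf_one] at hu
    exact hℓ.one_lt.ne hu

/-- Finite fields of characteristic `p j` containing nontrivial `p i`-th roots of unity for all
`i ≠ j`, with additive retractions onto the prime field. -/
theorem exists_fields (J : Type) [Fintype J] [DecidableEq J] (p : J → ℕ)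
    (hp : ∀ j, (p j).Prime) (hinj : Function.Injective p) :
    ∃ (K : J → Type) (_ : ∀ j, Field (K j)) (_ : ∀ j, Fintype (K j))
      (c : ∀ j, ZMod (p j) →+* K j) (τ : ∀ j, K j →+ ZMod (p j))
      (χ : ∀ i j, AddChar (ZMod (p j)) (K i)),
      (∀ j x, τ j (c j x) = x) ∧ (∀ i j, i ≠ j → χ i j 1 ≠ 1) := by
  have h := fun j => exists_field_one (p j) (∏ i ∈ Finset.univ.erase j, p i) (hp j)
    (Finset.prod_pos fun i _ => (hp i).pos)
    (Nat.Coprime.prod_left fun i hi => (Nat.coprime_primes (hp i) (hp j)).2 fun h =>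
      (Finset.mem_erase.1 hi).1 (hinj h))
  choose K iF iT c τ hτ hχ using h
  have h2 : ∀ i j, ∃ χ : AddChar (ZMod (p j)) (K i), i ≠ j → χ 1 ≠ 1 := by
    intro i j
    by_cases hij : i = j
    · exact ⟨1, fun h => absurd hij h⟩
    · obtain ⟨χ, h3⟩ := hχ i (p j) (hp j) (Finset.dvd_prod_of_mem _
        (Finset.mem_erase.2 ⟨fun h => hij h.symm, Finset.mem_univ _⟩))
      exact ⟨χ, fun _ => h3⟩
  choose χ hχ' using h2
  exact ⟨K, iF, iT, c, τ, χ, hτ, hχ'⟩

end Pool.Agent.Helper6.MV
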