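import Pool.Agent.Helper6.DetMain
import Pool.Agent.Helper6.DetFields
import Pool.Agent.Helper6.DetFeatures

/-!
# The deterministic program: choice of the parameters
-/

namespace Pool.Agent.Helper6.TreeEval.Mach

open Finset Pool.Agent.Helper6.MV

/-- The combinatorial form of the upper bound. -/
theorem exists_dbp_nat (r : ℕ) (hr : 0 < r) :
    ∃ C₁ C₂ P : ℕ, ∀ h k N s : ℕ, 1 ≤ h → 2 ≤ k → k ≤ 2 ^ N → 2 ≤ s → N < s ^ r →
      ∃ B : DBP h k, B.Solves ∧
        Fintype.card B.State ≤ 2 ^ (C₁ * h + C₂ * (N + 1) ^ (P * s)) := by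
  classical
  let p : Fin r → ℕ := fun j => Nat.nth Nat.Prime j
  have hp : ∀ j, (p j).Prime := fun j => Nat.prime_nth_prime j
  have hinj : Function.Injective p := by
    intro i j hij
    have := Nat.nth_injective Nat.infinite_setOfPred_prime hij
    exact Fin.ext this
  obtain ⟨K, iF, iT, c, τ, χ, hτ, hχ⟩ := exists_fields (Fin r) p hp hinj
  have hfact : ∀ j, Fact (p j).Prime := fun j => ⟨hp j⟩
  have hne : ∀ j, NeZero (p j) := fun j => ⟨(hp j).ne_zero⟩
  let P : ℕ := ∑ j, p j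
  let D : ℕ := ∑ j, Fintype.card (K j)
  refine ⟨20 + 5 * 4 ^ r, 3 + 3 * D + P, P, ?_⟩
  intro h k N s hh hk hkN hs hsN
  -- the injection of the values into the cube
  obtain ⟨ι⟩ : Nonempty (Fin k ↪ (Fin N → Bool)) := by
    apply Function.Embedding.nonempty_of_card_le
    simpa using hkN
  have hN : 1 ≤ N := by
    by_contra hN
    have : N = 0 := by omega
    subst this
    simp at hkN
    omega
  let e : Fin r → ℕ := fun j => Nat.clog (p j) s
  have he1 : ∀ j, s ≤ p j ^ e j := fun j => Nat.le_pow_clog (hp j).one_lt s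
  have he2 : ∀ j, p j ^ e j ≤ p j * s := by
    intro j
    have h1 : 0 < Nat.clog (p j) s := Nat.clog_pos (hp j).one_lt hs
    obtain ⟨d, hd⟩ : ∃ d, e j = d + 1 := ⟨Nat.clog (p j) s - 1, by
      change Nat.clog (p j) s = _
      omega⟩
    have h2 : p j ^ d < s := by
      apply (Nat.lt_clog_iff_pow_lt (hp j).one_lt).1
      change d < e j
      omega
    rw [hd, pow_succ, mul_comm]
    exact Nat.mul_le_mul_left _ h2.le
  choose n U V hn hUV using fun j => exists_features (p j) N (e j)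
  have key := exists_dbp (k := k) (h := h) (J := Fin r) (p := p) (n := n) (K := K) c τ χ
    (fun j v => U j (ι v)) (fun j v => V j (ι v)) hh (by omega) hτ hχ ?_ ?_ ?_
  · obtain ⟨B, h1, h2⟩ := key
    refine ⟨B, h1, h2.trans ?_⟩
    rw [Fintype.card_fin]
    obtain ⟨X, hX⟩ : ∃ X, X = (N + 1) ^ (P * s) := ⟨_, rfl⟩
    have hPpos : 1 ≤ P := by
      have h3 : p ⟨0, hr⟩ ≤ P := Finset.single_le_sum (f := p) (fun _ _ => Nat.zero_le _)
        (mem_univ _)
      exact (hp _).one_lt.le.trans h3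
    have hNX : N + 1 ≤ X := by
      rw [hX]
      apply Nat.le_self_pow
      have : 0 < P * s := Nat.mul_pos hPpos (by omega)
      omega
    have hnX : ∀ j, n j ≤ X := by
      intro j
      refine (hn j).trans ?_
      rw [hX]
      apply Nat.pow_le_pow_right (Nat.succ_pos _)
      have h3 : p j ≤ P := Finset.single_le_sum (f := p) (fun _ _ => Nat.zero_le _) (mem_univ _)
      calc p j ^ e j - 1 ≤ p j ^ e j := Nat.sub_le _ _
        _ ≤ p j * s := he2 j
        _ ≤ P * s := Nat.mul_le_mul_right _ h3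
    rw [← hX]
    have a1 : (20 + 5 * 4 ^ r) ^ h ≤ 2 ^ ((20 + 5 * 4 ^ r) * h) := by
      rw [pow_mul]
      exact Nat.pow_le_pow_left Nat.lt_two_pow_self.le _
    have a2 : k ^ 2 ≤ 2 ^ (2 * N) := by
      rw [mul_comm, pow_mul]
      exact Nat.pow_le_pow_left hkN _
    have a3 : ∏ j, Fintype.card (K j) ^ n j ≤ 2 ^ (D * X) := by
      calc ∏ j, Fintype.card (K j) ^ n j ≤ ∏ j, 2 ^ (Fintype.card (K j) * X) := by
            apply Finset.prod_le_prod'
            intro j _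
            calc Fintype.card (K j) ^ n j ≤ (2 ^ Fintype.card (K j)) ^ n j :=
                  Nat.pow_le_pow_left Nat.lt_two_pow_self.le _
              _ ≤ (2 ^ Fintype.card (K j)) ^ X :=
                  Nat.pow_le_pow_right (Nat.pow_pos (by norm_num)) (hnX j)
              _ = _ := by rw [← pow_mul]
        _ = 2 ^ (D * X) := by rw [Finset.prod_pow_eq_pow_sum, ← Finset.sum_mul]
    have a4 : ∏ j, p j ≤ 2 ^ P := by
      calc ∏ j, p j ≤ ∏ j, 2 ^ p j := Finset.prod_le_prod' fun j _ => Nat.lt_two_pow_self.le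
        _ = _ := by rw [Finset.prod_pow_eq_pow_sum]
    calc 2 * ((20 + 5 * 4 ^ r) ^ h * k ^ 2 * ((∏ j, Fintype.card (K j) ^ n j) ^ 3 * ∏ j, p j))
        ≤ 2 * (2 ^ ((20 + 5 * 4 ^ r) * h) * 2 ^ (2 * N) * ((2 ^ (D * X)) ^ 3 * 2 ^ P)) := by
          gcongr
      _ = 2 ^ (1 + (20 + 5 * 4 ^ r) * h + 2 * N + D * X * 3 + P) := by
          rw [← pow_mul, pow_add, pow_add, pow_add, pow_add]
          ring
      _ ≤ _ := by
          apply Nat.pow_le_pow_right (by norm_num)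
          have b1 : P ≤ P * X := Nat.le_mul_of_pos_right _ (by omega)
          have b2 : (3 + 3 * D + P) * X = 3 * X + D * X * 3 + P * X := by ring
          rw [b2]
          omega
  · intro j a b
    rw [hUV]
    split_ifs
    · left; rfl
    · right; rfl
  · intro j a
    rw [hUV]
    simp
  · intro a b hab
    by_contra hcon
    push Not at hcon
    have h1 : ∀ j, p j ^ e j ∣ (univ.filter fun i => ι a i ≠ ι b i).card := by
      intro j
      by_contra h2
      apply hcon j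
      rw [hUV, if_neg h2]
    have h3 : ∏ j, p j ^ e j ∣ (univ.filter fun i => ι a i ≠ ι b i).card := by
      apply Finset.prod_dvd_of_isRelPrime
      · intro i _ j _ hij
        exact Nat.coprime_iff_isRelPrime.1
          (Nat.Coprime.pow _ _ ((Nat.coprime_primes (hp i) (hp j)).2 fun h => hij (hinj h)))
      · intro j _
        exact h1 j
    have h4 : 0 < (univ.filter fun i => ι a i ≠ ι b i).card := by
      rw [Finset.card_pos]
      by_contra h5
      rw [Finset.not_nonempty_iff_eq_empty, Finset.filter_eq_empty_iff] at h5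
      apply hab
      apply ι.injective
      funext i
      exact not_not.1 (h5 (mem_univ i))
    have h5 : (univ.filter fun i => ι a i ≠ ι b i).card ≤ N := by
      refine (Finset.card_filter_le _ _).trans ?_
      simp
    have h6 : s ^ r ≤ ∏ j, p j ^ e j := by
      calc s ^ r = ∏ _j : Fin r, s := by simp
        _ ≤ _ := Finset.prod_le_prod' fun j _ => he1 j
    have h7 := Nat.le_of_dvd h4 h3
    omega

/-- The numerical estimate. -/
theorem numeric (r P : ℕ) (δ : ℝ) (hδ : 0 < δ) (hr : 0 < r) (hrδ : 1 / (r : ℝ) ≤ δ / 2) :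
    ∃ C₃ : ℝ, 0 ≤ C₃ ∧ ∀ k : ℕ, 2 ≤ k → ∃ N s : ℕ, k ≤ 2 ^ N ∧ 2 ≤ s ∧ N < s ^ r ∧
      (((N + 1) ^ (P * s) : ℕ) : ℝ) ≤ 2 ^ (C₃ * Real.logb 2 k ^ δ) := by
  have hlog2 : 0 < Real.log 2 := Real.log_pos (by norm_num)
  refine ⟨P * 2 * 3 ^ δ / (δ / 2 * Real.log 2), by positivity, ?_⟩
  intro k hk
  have hex : ∃ s : ℕ, Nat.clog 2 k < s ^ r := ⟨Nat.clog 2 k + 1, by
    calc Nat.clog 2 k < Nat.clog 2 k + 1 := Nat.lt_succ_self _
      _ ≤ _ := Nat.le_self_pow hr.ne' _⟩
  classical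
  refine ⟨Nat.clog 2 k, Nat.find hex, Nat.le_pow_clog (by norm_num) k, ?_, Nat.find_spec hex, ?_⟩
  · have h1 : 0 < Nat.clog 2 k := Nat.clog_pos (by norm_num) (by omega)
    have h2 := Nat.find_spec hex
    by_contra h3
    have h4 : Nat.find hex ≤ 1 := by omega
    have h5 : Nat.find hex ^ r ≤ 1 ^ r := Nat.pow_le_pow_left h4 r
    rw [one_pow] at h5
    omega
  obtain ⟨N, hN⟩ : ∃ N, N = Nat.clog 2 k := ⟨_, rfl⟩
  obtain ⟨s, hs⟩ : ∃ s, s = Nat.find hex := ⟨_, rfl⟩
  obtain ⟨L, hL⟩ : ∃ L, L = Real.logb 2 k := ⟨_, rfl⟩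
  rw [← hs, ← hN, ← hL]
  have hk' : (2 : ℝ) ≤ k := by exact_mod_cast hk
  have hL1 : 1 ≤ L := by
    rw [hL]
    have := Real.logb_le_logb_of_le (b := 2) (by norm_num) (by norm_num) hk'
    rwa [Real.logb_self_eq_one (by norm_num)] at this
  -- N + 1 ≤ 3 L
  have hN1 : (N : ℝ) + 1 ≤ 3 * L := by
    have h1 : 0 < Nat.clog 2 k := Nat.clog_pos (by norm_num) (by omega)
    have h2 : 2 ^ (N - 1) < k := by
      apply (Nat.lt_clog_iff_pow_lt (by norm_num)).1
      omega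
    have h3 : ((N - 1 : ℕ) : ℝ) ≤ L := by
      rw [hL]
      have h4 : ((2 : ℝ) ^ (N - 1)) ≤ k := by exact_mod_cast h2.le
      have h5 := Real.logb_le_logb_of_le (b := 2) (by norm_num) (by positivity) h4
      rwa [← Real.rpow_natCast, Real.logb_rpow (by norm_num) (by norm_num)] at h5
    have h6 : ((N - 1 : ℕ) : ℝ) = N - 1 := by
      rw [Nat.cast_sub (by omega)]
      simp
    rw [h6] at h3
    linarith
  -- s ≤ 2 (N+1)^(1/r)
  have hs1 : (s : ℝ) ≤ 2 * ((N : ℝ) + 1) ^ (1 / (r : ℝ)) := by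
    have h1 : 0 < Nat.find hex := by
      rw [Nat.find_pos]
      rw [zero_pow hr.ne']
      omega
    have h2 : ¬ Nat.clog 2 k < (s - 1) ^ r := by
      rw [hs]
      exact Nat.find_min hex (by omega)
    rw [← hN, not_lt] at h2
    have h3 : ((s - 1 : ℕ) : ℝ) ^ r ≤ (N : ℝ) + 1 := by
      have : ((s - 1 : ℕ) : ℝ) ^ r ≤ (N : ℝ) := by exact_mod_cast h2
      linarith
    have h4 : ((s - 1 : ℕ) : ℝ) ≤ ((N : ℝ) + 1) ^ (1 / (r : ℝ)) := by
      have h5 := Real.rpow_le_rpow (by positivity) h3 (show (0 : ℝ) ≤ 1 / (r : ℝ) by positivity)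
      rwa [← Real.rpow_natCast, ← Real.rpow_mul (by positivity), mul_one_div_cancel
        (by exact_mod_cast hr.ne'), Real.rpow_one] at h5
    have h6 : ((s - 1 : ℕ) : ℝ) = s - 1 := by
      rw [Nat.cast_sub (by omega)]
      simp
    have h7 : (1 : ℝ) ≤ ((N : ℝ) + 1) ^ (1 / (r : ℝ)) := by
      apply Real.one_le_rpow
      · have : (0 : ℝ) ≤ N := by positivity
        linarith
      · positivity
    rw [h6] at h4
    linarith
  -- the logarithm
  have hM : (0 : ℝ) < (N : ℝ) + 1 := by positivity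
  have hlog : Real.logb 2 ((N : ℝ) + 1) ≤ ((N : ℝ) + 1) ^ (δ / 2) / (δ / 2 * Real.log 2) := by
    rw [Real.logb, ← div_div]
    apply div_le_div_of_nonneg_right _ hlog2.le
    exact Real.log_le_rpow_div hM.le (by positivity)
  have hlog0 : 0 ≤ Real.logb 2 ((N : ℝ) + 1) := by
    apply Real.logb_nonneg (by norm_num)
    have : (0 : ℝ) ≤ N := by positivity
    linarith
  have e1 : (((N + 1) ^ (P * s) : ℕ) : ℝ) = 2 ^ (Real.logb 2 ((N : ℝ) + 1) * (P * s)) := by
    rw [Real.rpow_mul (by norm_num), Real.rpow_logb (by norm_num) (by norm_num) hM]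
    push_cast
    rw [← Real.rpow_natCast]
    push_cast
    rfl
  rw [e1]
  apply Real.rpow_le_rpow_of_exponent_le (by norm_num)
  calc Real.logb 2 ((N : ℝ) + 1) * (P * s)
      ≤ (((N : ℝ) + 1) ^ (δ / 2) / (δ / 2 * Real.log 2)) *
          (P * (2 * ((N : ℝ) + 1) ^ (1 / (r : ℝ)))) := by
        gcongr
    _ ≤ (((N : ℝ) + 1) ^ (δ / 2) / (δ / 2 * Real.log 2)) *
          (P * (2 * ((N : ℝ) + 1) ^ (δ / 2))) := by
        gcongr
        · have : (0 : ℝ) ≤ N := by positivity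
          linarith
    _ = P * 2 / (δ / 2 * Real.log 2) * (((N : ℝ) + 1) ^ δ) := by
        have : ((N : ℝ) + 1) ^ δ = ((N : ℝ) + 1) ^ (δ / 2) * ((N : ℝ) + 1) ^ (δ / 2) := by
          rw [← Real.rpow_add hM]
          ring_nf
        rw [this]
        ring
    _ ≤ P * 2 / (δ / 2 * Real.log 2) * ((3 * L) ^ δ) := by
        gcongr
    _ = _ := by
        rw [Real.mul_rpow (by norm_num) (by linarith)]
        ring

/-- The main theorem. -/
theorem main (δ : ℝ) (hδ : 0 < δ) : ∃ C : ℝ, ∀ h k : ℕ, 1 ≤ h → 2 ≤ k →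
    ∃ B : DBP h k, B.Solves ∧
      (Fintype.card B.State : ℝ) ≤ 2 ^ (C * (h + 2 ^ (C * Real.logb 2 k ^ δ))) := by
  obtain ⟨r, hr⟩ := exists_nat_gt (2 / δ)
  have hr0 : 0 < r := by
    rcases Nat.eq_zero_or_pos r with rfl | h
    · exfalso
      have : 0 < 2 / δ := by positivity
      simp only [Nat.cast_zero] at hr
      linarith
    · exact h
  have hrδ : 1 / (r : ℝ) ≤ δ / 2 := by
    have hr' : (0 : ℝ) < r := by exact_mod_cast hr0
    rw [div_le_div_iff₀ hr' (by norm_num)]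
    rw [div_lt_iff₀ hδ] at hr
    linarith
  obtain ⟨C₁, C₂, P, h1⟩ := exists_dbp_nat r hr0
  obtain ⟨C₃, hC₃, h2⟩ := numeric r P δ hδ hr0 hrδ
  refine ⟨C₁ + C₂ + C₃, ?_⟩
  intro h k hh hk
  obtain ⟨N, s, h3, h4, h5, h6⟩ := h2 k hk
  obtain ⟨B, h7, h8⟩ := h1 h k N s hh hk h3 h4 h5
  refine ⟨B, h7, ?_⟩
  have h9 : (Fintype.card B.State : ℝ) ≤ 2 ^ (C₁ * h + C₂ * (N + 1) ^ (P * s) : ℕ) := by
    exact_mod_cast h8
  refine h9.trans ?_
  rw [← Real.rpow_natCast]
  apply Real.rpow_le_rpow_of_exponent_le (by norm_num)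
  have hL0 : 0 ≤ Real.logb 2 (k : ℝ) ^ δ := by
    apply Real.rpow_nonneg
    apply Real.logb_nonneg (by norm_num)
    have : (2 : ℝ) ≤ k := by exact_mod_cast hk
    linarith
  have h10 : (2 : ℝ) ^ (C₃ * Real.logb 2 k ^ δ) ≤
      2 ^ ((C₁ + C₂ + C₃) * Real.logb 2 k ^ δ) := by
    apply Real.rpow_le_rpow_of_exponent_le (by norm_num)
    apply mul_le_mul_of_nonneg_right _ hL0
    have : (0 : ℝ) ≤ C₁ := by positivity
    have : (0 : ℝ) ≤ C₂ := by positivity
    linarith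
  obtain ⟨Y, hY⟩ : ∃ Y : ℝ, Y = 2 ^ ((C₁ + C₂ + C₃) * Real.logb 2 k ^ δ) := ⟨_, rfl⟩
  rw [← hY] at h10 ⊢
  have h11 : (((N + 1) ^ (P * s) : ℕ) : ℝ) ≤ Y := h6.trans h10
  have h12 : (0 : ℝ) ≤ (((N + 1) ^ (P * s) : ℕ) : ℝ) := by positivity
  rw [Nat.cast_add, Nat.cast_mul, Nat.cast_mul]
  have c1 : (0 : ℝ) ≤ C₁ := by positivity
  have c2 : (0 : ℝ) ≤ C₂ := by positivity
  have c3 : (0 : ℝ) ≤ h := by positivity
  have hY0 : 0 ≤ Y := h12.trans h11
  calc (C₁ : ℝ) * h + C₂ * (((N + 1) ^ (P * s) : ℕ) : ℝ) ≤ C₁ * h + C₂ * Y := by gcongr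
    _ ≤ (C₁ + C₂ + C₃) * h + (C₁ + C₂ + C₃) * Y := by
        gcongr
        · linarith
        · linarith
    _ = _ := by ring

end Pool.Agent.Helper6.TreeEval.Mach
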