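import Pool.Agent.Helper6.DetDefs

/-!
# Catalytic evaluation with matching vectors
-/

namespace Pool.Agent.Helper6.TreeEval.Mach

open Finset

/-- The content of one register: a vector over the field `K j` for each `j`. -/
abbrev Reg {J : Type} (n : J → ℕ) (K : J → Type) : Type := ∀ j, Fin (n j) → K j

/-- The register file: three registers and phases. -/
abbrev File {J : Type} (p n : J → ℕ) (K : J → Type) : Type :=
  Reg n K × Reg n K × Reg n K × (∀ j, ZMod (p j))

section algebra

variable {k : ℕ} {J : Type} [Fintype J] [DecidableEq J] {p n : J → ℕ} {K : J → Type}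
  [∀ j, Field (K j)]
  (c : ∀ j, ZMod (p j) →+* K j) (τ : ∀ j, K j →+ ZMod (p j))
  (χ : ∀ i j, AddChar (ZMod (p j)) (K i)) (U V : ∀ j, Fin k → Fin (n j) → ZMod (p j))

/-- Embedding of a vector over the prime field. -/
def emb (j : J) (u : Fin (n j) → ZMod (p j)) : Fin (n j) → K j := fun d => c j (u d)

/-- Inner product of two vectors. -/
def ip (j : J) (x y : Fin (n j) → K j) : K j := ∑ d, x d * y d

/-- The phase of a vector with respect to a value. -/
def psi (j : J) (x : Fin (n j) → K j) (v : Fin (n j) → ZMod (p j)) : ZMod (p j) :=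
  τ j (ip j x (emb c j v))

theorem ip_add_emb (j : J) (x : Fin (n j) → K j) (u v : Fin (n j) → ZMod (p j)) :
    ip j (x + emb c j u) (emb c j v) = ip j x (emb c j v) + c j (∑ d, u d * v d) := by
  unfold ip emb
  rw [map_sum, ← Finset.sum_add_distrib]
  refine Finset.sum_congr rfl fun d _ => ?_
  rw [Pi.add_apply, add_mul, map_mul]

theorem psi_add_emb (hτ : ∀ j x, τ j (c j x) = x) (j : J) (x : Fin (n j) → K j)
    (u v : Fin (n j) → ZMod (p j)) :
    psi c τ j (x + emb c j u) v = psi c τ j x v + ∑ d, u d * v d := by
  unfold psi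
  rw [ip_add_emb, map_add, hτ]

/-- One factor of the coefficient. -/
noncomputable def fac (i j : J) (T : Finset J) (X : Reg n K) (a' : Fin k) : K i :=
  if j = i then
    (if i ∈ T then 1 - ip i (X i) (emb c i (V i a')) else ip i (X i) (emb c i (V i a')))
  else (if j ∈ T then (1 - χ i j 1)⁻¹ else -(χ i j 1 * (1 - χ i j 1)⁻¹)) *
    χ i j (psi c τ j (X j) (V j a'))

/-- The coefficient. -/
noncomputable def coef (i : J) (T : Finset J) (X : Reg n K) (a' : Fin k) : K i :=
  ∏ j, fac c τ χ V i j T X a'

/-- What is added to the register when the components in `T` are toggled. -/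
def tog (T : Finset J) (a : Fin k) : Reg n K := fun j => if j ∈ T then emb c j (U j a) else 0

/-- The total phase factor. -/
noncomputable def theta (i : J) (X : Reg n K) (a : Fin k) : K i :=
  ∏ j, if j = i then 1 else χ i j (psi c τ j (X j) (V j a))

theorem sum_coef (hτ : ∀ j x, τ j (c j x) = x) (hχ : ∀ i j, i ≠ j → χ i j 1 ≠ 1)
    (hs : ∀ j a b, ∑ d, U j a d * V j b d = 0 ∨ ∑ d, U j a d * V j b d = 1)
    (hself : ∀ j a, ∑ d, U j a d * V j a d = 0)
    (hsep : ∀ a b, a ≠ b → ∃ j, ∑ d, U j a d * V j b d = 1)
    (i : J) (X : Reg n K) (a a' : Fin k) :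
    ∑ T : Finset J, coef c τ χ V i T (X + tog c U T a) a' =
      if a' = a then theta c τ χ V i X a else 0 := by
  classical
  let A : J → K i := fun j => if j = i then 1 - ip i (X i + emb c i (U i a)) (emb c i (V i a'))
    else (1 - χ i j 1)⁻¹ * χ i j (psi c τ j (X j + emb c j (U j a)) (V j a'))
  let B : J → K i := fun j => if j = i then ip i (X i) (emb c i (V i a'))
    else -(χ i j 1 * (1 - χ i j 1)⁻¹) * χ i j (psi c τ j (X j) (V j a'))
  have h1 : ∀ T j, fac c τ χ V i j T (X + tog c U T a) a' = if j ∈ T then A j else B j := by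
    intro T j
    simp only [fac, A, B, tog, Pi.add_apply]
    by_cases hji : j = i
    · subst hji
      by_cases hT : j ∈ T
      · simp [hT]
      · simp [hT]
    · by_cases hT : j ∈ T
      · simp [hT, hji]
      · simp [hT, hji]
  have h2 : ∀ T : Finset J, coef c τ χ V i T (X + tog c U T a) a' =
      (∏ j ∈ T, A j) * ∏ j ∈ Finset.univ \ T, B j := by
    intro T
    unfold coef
    rw [Finset.prod_congr rfl (fun j _ => h1 T j), Finset.prod_ite]
    congr 1
    · congr 1
      ext j
      simp
    · congr 1
      ext j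
      simp
  rw [Finset.sum_congr rfl (fun T _ => h2 T), ← Finset.powerset_univ,
    ← Finset.prod_add A B Finset.univ]
  -- the factors
  have h3 : ∀ j, A j + B j = (if j = i then 1 else χ i j (psi c τ j (X j) (V j a'))) *
      (if ∑ d, U j a d * V j a' d = 0 then 1 else 0) := by
    intro j
    simp only [A, B]
    by_cases hji : j = i
    · subst hji
      rw [if_pos rfl, if_pos rfl, if_pos rfl, ip_add_emb, one_mul]
      rcases hs j a a' with h | h
      · rw [h, if_pos rfl, map_zero]
        ring
      · rw [h, map_one, if_neg]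
        · ring
        · intro h10
          have := congrArg (c j) h10
          rw [map_one, map_zero] at this
          exact one_ne_zero this
    · rw [if_neg hji, if_neg hji, if_neg hji, psi_add_emb c τ hτ]
      have hne : (1 - χ i j 1 : K i) ≠ 0 := sub_ne_zero.2 (Ne.symm (hχ i j (Ne.symm hji)))
      rcases hs j a a' with h | h
      · rw [h, if_pos rfl, add_zero, mul_one]
        field_simp
        ring
      · rw [h, AddChar.map_add_eq_mul, if_neg]
        · ring
        · intro h10
          have := congrArg (c j) h10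
          rw [map_one, map_zero] at this
          exact one_ne_zero this
  rw [Finset.prod_congr rfl (fun j _ => h3 j), Finset.prod_mul_distrib]
  split_ifs with haa
  · subst haa
    have h4 : ∏ j, (if ∑ d, U j a' d * V j a' d = 0 then (1 : K i) else 0) = 1 := by
      apply Finset.prod_eq_one
      intro j _
      rw [if_pos (hself j a')]
    rw [h4, mul_one]
    rfl
  · obtain ⟨j, hj⟩ := hsep a a' (Ne.symm haa)
    have h4 : ∏ j, (if ∑ d, U j a d * V j a' d = 0 then (1 : K i) else 0) = 0 := by
      apply Finset.prod_eq_zero (Finset.mem_univ j)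
      rw [hj, if_neg]
      intro h10
      have := congrArg (c j) h10
      rw [map_one, map_zero] at this
      exact one_ne_zero this
    rw [h4, mul_zero]

/-- Multiplication of a register by phase factors. -/
noncomputable def tw (t : ∀ j, ZMod (p j)) (Z : Reg n K) : Reg n K := fun i d =>
  Z i d * ∏ j, if j = i then 1 else χ i j (t j)

theorem tw_tw (s t : ∀ j, ZMod (p j)) (Z : Reg n K) : tw χ s (tw χ t Z) = tw χ (t + s) Z := by
  funext i d
  simp only [tw]
  rw [mul_assoc, ← Finset.prod_mul_distrib]
  congr 1
  refine Finset.prod_congr rfl fun j _ => ?_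
  split_ifs
  · rw [one_mul]
  · rw [Pi.add_apply, AddChar.map_add_eq_mul]

theorem tw_zero (Z : Reg n K) : tw χ 0 Z = Z := by
  funext i d
  simp [tw]

theorem tw_add (t : ∀ j, ZMod (p j)) (Z Z' : Reg n K) :
    tw χ t (Z + Z') = tw χ t Z + tw χ t Z' := by
  funext i d
  simp only [tw, Pi.add_apply]
  ring

theorem theta_mul (X Y E : Reg n K) (a b : Fin k) :
    (fun i d => E i d * theta c τ χ V i X a * theta c τ χ V i Y b) =
      tw χ (fun j => psi c τ j (X j) (V j a) + psi c τ j (Y j) (V j b)) E := by
  funext i d
  simp only [tw, theta]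
  rw [mul_assoc, ← Finset.prod_mul_distrib]
  congr 1
  refine Finset.prod_congr rfl fun j _ => ?_
  split_ifs
  · rw [one_mul]
  · rw [AddChar.map_add_eq_mul]

end algebra

end Pool.Agent.Helper6.TreeEval.Mach
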