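import Pool.Agent.Helper6.DetProg

/-!
# The deterministic program from matching vectors
-/

namespace Pool.Agent.Helper6.TreeEval.Mach

open Finset

section main

variable {k : ℕ} {J : Type} [Fintype J] [DecidableEq J] {p n : J → ℕ} {K : J → Type}
  [∀ j, Field (K j)]
  (c : ∀ j, ZMod (p j) →+* K j) (τ : ∀ j, K j →+ ZMod (p j))
  (χ : ∀ i j, AddChar (ZMod (p j)) (K i)) (U V : ∀ j, Fin k → Fin (n j) → ZMod (p j))

theorem canCall_all {h : ℕ} (z0 : Fin k)
    (hτ : ∀ j x, τ j (c j x) = x) (hχ : ∀ i j, i ≠ j → χ i j 1 ≠ 1)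
    (hs : ∀ j a b, ∑ d, U j a d * V j b d = 0 ∨ ∑ d, U j a d * V j b d = 1)
    (hself : ∀ j a, ∑ d, U j a d * V j a d = 0)
    (hsep : ∀ a b, a ≠ b → ∃ j, ∑ d, U j a d * V j b d = 1) :
    ∀ (m : ℕ) (q : Node), q.length + 1 + m = h →
      CanCall p n K k h m q ((20 + 5 * 4 ^ Fintype.card J) ^ m * k ^ 2) := by
  have hk : 1 ≤ k := by
    have := z0.2
    omega
  have hk2 : 1 ≤ k ^ 2 := Nat.one_le_pow _ _ hk
  intro m
  induction m with
  | zero =>
    intro q hq E
    refine ⟨[(Query.leaf q, fun r v => addZ r (E v))], ?_, ?_, ?_⟩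
    · intro ins hins
      rw [List.mem_singleton.1 hins]
      exact hq
    · simpa using hk2
    · intro I r
      rfl
  | succ m ih =>
    intro q hq
    have hl := ih (false :: q) (by simp only [List.length_cons]; omega)
    have hr := ih (true :: q) (by simp only [List.length_cons]; omega)
    have h1 := canCall_succ c τ χ U V z0 hτ hχ hs hself hsep (h := h) (q := q) (by omega) hl hr
    intro E
    obtain ⟨P, h2, h3, h4⟩ := h1 E
    refine ⟨P, h2, h3.trans ?_, h4⟩
    obtain ⟨W, hW⟩ : ∃ W, W = (20 + 5 * 4 ^ Fintype.card J) ^ m := ⟨_, rfl⟩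
    obtain ⟨Q, hQ⟩ : ∃ Q, Q = 4 ^ Fintype.card J := ⟨_, rfl⟩
    have hW1 : 1 ≤ W := by
      rw [hW]
      exact Nat.one_le_pow _ _ (by omega)
    have h8 : (20 + 5 * 4 ^ Fintype.card J) ^ (m + 1) = W * (20 + 5 * Q) := by
      rw [hW, hQ, pow_succ]
    rw [h8, ← hW, ← hQ]
    have h5 : k ^ 2 ≤ W * k ^ 2 := Nat.le_mul_of_pos_left _ hW1
    have h6 : Q * k ^ 2 ≤ Q * (W * k ^ 2) := Nat.mul_le_mul_left _ h5
    have h7 : W * (20 + 5 * Q) * k ^ 2 =
        (8 + 4 * Q) * (W * k ^ 2) + 12 * (W * k ^ 2) + Q * (W * k ^ 2) := by ring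
    rw [h7]
    omega

/-- The deterministic program. -/
theorem exists_dbp {h : ℕ} (hh : 1 ≤ h) (hk : 1 ≤ k) [∀ j, Fintype (K j)] [∀ j, NeZero (p j)]
    (hτ : ∀ j x, τ j (c j x) = x) (hχ : ∀ i j, i ≠ j → χ i j 1 ≠ 1)
    (hs : ∀ j a b, ∑ d, U j a d * V j b d = 0 ∨ ∑ d, U j a d * V j b d = 1)
    (hself : ∀ j a, ∑ d, U j a d * V j a d = 0)
    (hsep : ∀ a b, a ≠ b → ∃ j, ∑ d, U j a d * V j b d = 1) :
    ∃ B : DBP h k, B.Solves ∧ Fintype.card B.State ≤
      2 * ((20 + 5 * 4 ^ Fintype.card J) ^ h * k ^ 2 *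
        ((∏ j, Fintype.card (K j) ^ n j) ^ 3 * ∏ j, p j)) := by
  classical
  have z0 : Fin k := ⟨0, hk⟩
  have hnonempty : Nonempty (Fin k) := ⟨z0⟩
  obtain ⟨m, rfl⟩ : ∃ m, h = m + 1 := ⟨h - 1, by omega⟩
  let E : Fin k → Reg n K := fun v j => emb c j (U j v)
  have hE : Function.Injective E := by
    intro a b hab
    by_contra hne
    obtain ⟨j, hj⟩ := hsep a b hne
    have h1 : U j a = U j b := by
      funext d
      have h0 : c j (U j a d) = c j (U j b d) := congrFun (congrFun hab j) d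
      rw [← hτ j (U j a d), h0, hτ]
    rw [h1, hself] at hj
    have := congrArg (c j) hj
    rw [map_one, map_zero] at this
    exact zero_ne_one this
  obtain ⟨P, h1, h2, h3⟩ := canCall_all c τ χ U V (h := m + 1) z0 hτ hχ hs hself hsep m []
    (by simp; omega) E
  have hroot : ∀ I : Inst k, I.nodeVal (m + 1) [] = I.val m [] := by
    intro I
    unfold Inst.nodeVal
    simp
  -- the program is not empty: otherwise extend it by a harmless instruction
  let q0 : Query k := if m = 0 then Query.leaf [] else Query.fn [] z0 z0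
  have hq0 : q0.InTree (m + 1) := by
    simp only [q0]
    split_ifs with hm
    · subst hm
      rfl
    · change 0 + 1 < m + 1
      omega
  let P' : SLP k (File p n K) := (q0, fun r _ => r) :: P
  have hP' : 0 < P'.length := Nat.succ_pos _
  have hT' : ∀ ins ∈ P', ins.1.InTree (m + 1) := by
    intro ins hins
    rcases List.mem_cons.1 hins with rfl | hins
    · exact hq0
    · exact h1 _ hins
  let r₀ : File p n K := (0, 0, 0, 0)
  let out : File p n K → Fin k := fun r => Function.invFun E r.2.2.1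
  refine ⟨P'.toDBP hP' hT' r₀ out, ?_, ?_⟩
  · apply SLP.toDBP_solves
    intro I
    change out (SLP.run I P r₀) = _
    rw [h3, hroot]
    change Function.invFun E ((0 : Reg n K) + E (I.val m [])) = _
    rw [zero_add]
    exact Function.leftInverse_invFun hE _
  · rw [SLP.card_toDBP]
    have hcardF : Fintype.card (File p n K) =
        (∏ j, Fintype.card (K j) ^ n j) ^ 3 * ∏ j, p j := by
      have e1 : Fintype.card (Reg n K) = ∏ j, Fintype.card (K j) ^ n j := by
        simp only [Reg, Fintype.card_pi, Fintype.card_fin, Finset.prod_const, Finset.card_univ]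
      have e2 : Fintype.card (∀ j, ZMod (p j)) = ∏ j, p j := by
        simp only [Fintype.card_pi, ZMod.card]
      simp only [File, Fintype.card_prod]
      rw [e1, e2]
      ring
    rw [hcardF]
    obtain ⟨F, hF⟩ : ∃ F, F = (∏ j, Fintype.card (K j) ^ n j) ^ 3 * ∏ j, p j := ⟨_, rfl⟩
    rw [← hF]
    have hF1 : 1 ≤ F := by
      rw [← hcardF] at hF
      rw [hF]
      exact Fintype.card_pos_iff.2 ⟨r₀⟩
    obtain ⟨W, hW⟩ : ∃ W, W = (20 + 5 * 4 ^ Fintype.card J) ^ m * k ^ 2 := ⟨_, rfl⟩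
    rw [← hW] at h2
    have hkk : k ≤ k ^ 2 := by nlinarith
    have hc : 1 ≤ (20 + 5 * 4 ^ Fintype.card J) ^ m := Nat.one_le_pow _ _ (by omega)
    have hW1 : k ≤ W := by
      rw [hW]
      calc k ≤ k ^ 2 := hkk
        _ ≤ _ := Nat.le_mul_of_pos_left _ hc
    have h4 : P'.length ≤ 1 + W := by
      have : P'.length = P.length + 1 := rfl
      omega
    have h5 : (20 + 5 * 4 ^ Fintype.card J) ^ (m + 1) * k ^ 2 =
        (20 + 5 * 4 ^ Fintype.card J) * W := by rw [hW]; ring
    rw [h5]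
    calc P'.length * F + k ≤ (1 + W) * F + W * F := by
          apply Nat.add_le_add (Nat.mul_le_mul_right _ h4)
          calc k ≤ W := hW1
            _ ≤ W * F := Nat.le_mul_of_pos_right _ hF1
      _ ≤ 2 * ((20 + 5 * 4 ^ Fintype.card J) * W * F) := by
          have h6 : F ≤ W * F := Nat.le_mul_of_pos_left _ (by omega)
          have h7 : 20 * (W * F) ≤ (20 + 5 * 4 ^ Fintype.card J) * W * F := by
            rw [mul_assoc]
            exact Nat.mul_le_mul_right _ (by omega)
          have h8 : (1 + W) * F = F + W * F := by ring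
          omega

end main

end Pool.Agent.Helper6.TreeEval.Mach
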