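import Pool.Agent.Helper6.DetMachine

/-!
# The recursive straight-line program
-/

namespace Pool.Agent.Helper6.TreeEval.Mach

open Finset

section prog

variable {k : ℕ} {J : Type} [Fintype J] [DecidableEq J] {p n : J → ℕ} {K : J → Type}
  [∀ j, Field (K j)]

/-- Adding to the third register. -/
def addZ (r : File p n K) (m : Reg n K) : File p n K := (r.1, r.2.1, r.2.2.1 + m, r.2.2.2)

/-- Exchange of the first and third register. -/
def swXZ (r : File p n K) : File p n K := (r.2.2.1, r.2.1, r.1, r.2.2.2)

/-- Exchange of the second and third register. -/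
def swYZ (r : File p n K) : File p n K := (r.1, r.2.2.1, r.2.1, r.2.2.2)

/-- A list of instructions, each adding to the third register something depending on the
first two registers. -/
theorem run_addList (I : Inst k) {α : Type} (L : List α) (q : α → Query k)
    (g : α → Fin k → Reg n K → Reg n K → Reg n K) (r : File p n K) :
    SLP.run I (L.map (fun x => (q x, fun (r : File p n K) v => addZ r (g x v r.1 r.2.1))) :
        SLP k (File p n K)) r =
      addZ r ((L.map (fun x => g x (I.answer (q x)) r.1 r.2.1)).sum) := by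
  induction L generalizing r with
  | nil => simp [addZ]
  | cons x L ih =>
    rw [List.map_cons, SLP.run_cons, ih, List.map_cons, List.sum_cons]
    simp only [addZ, Prod.mk.injEq, true_and, and_true]
    rw [add_assoc]

/-- A list of blocks, each adding to the third register something depending on the
first two registers. -/
theorem run_blocks (I : Inst k) {α : Type} (L : List α) (P : α → SLP k (File p n K))
    (g : α → Reg n K → Reg n K → Reg n K)
    (hP : ∀ x r, SLP.run I (P x) r = addZ r (g x r.1 r.2.1)) (r : File p n K) :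
    SLP.run I ((L.map P).flatten : SLP k (File p n K)) r =
      addZ r ((L.map (fun x => g x r.1 r.2.1)).sum) := by
  induction L generalizing r with
  | nil => simp [addZ]
  | cons x L ih =>
    rw [List.map_cons, List.flatten_cons, SLP.run_append, hP, ih, List.map_cons, List.sum_cons]
    simp only [addZ, Prod.mk.injEq, true_and, and_true]
    rw [add_assoc]

/-- `CanCall h m q L`: for every encoding `E` there is a straight-line program of length at most
`L` which adds `E v` to the third register, where `v` is the value of the node `q` with `m`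
levels below it. -/
def CanCall (p n : J → ℕ) (K : J → Type) [∀ j, Field (K j)] (k h m : ℕ) (q : Node) (L : ℕ) :
    Prop :=
  ∀ E : Fin k → Reg n K, ∃ P : SLP k (File p n K), (∀ ins ∈ P, ins.1.InTree h) ∧ P.length ≤ L ∧
    ∀ (I : Inst k) (r : File p n K), SLP.run I P r = addZ r (E (I.val m q))

theorem CanCall.toX {h m : ℕ} {q : Node} {L : ℕ} (H : CanCall p n K k h m q L)
    (E : Fin k → Reg n K) : ∃ P : SLP k (File p n K), (∀ ins ∈ P, ins.1.InTree h) ∧
      P.length ≤ L ∧ ∀ (I : Inst k) (X Y Z : Reg n K) (t : ∀ j, ZMod (p j)),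
        SLP.run I P (X, Y, Z, t) = (X + E (I.val m q), Y, Z, t) := by
  obtain ⟨P, h1, h2, h3⟩ := H E
  refine ⟨SLP.conj swXZ P, SLP.mem_conj h1, ?_, ?_⟩
  · rw [SLP.length_conj]
    exact h2
  · intro I X Y Z t
    rw [SLP.run_conj I swXZ (fun _ => rfl), h3]
    rfl

theorem CanCall.toY {h m : ℕ} {q : Node} {L : ℕ} (H : CanCall p n K k h m q L)
    (E : Fin k → Reg n K) : ∃ P : SLP k (File p n K), (∀ ins ∈ P, ins.1.InTree h) ∧
      P.length ≤ L ∧ ∀ (I : Inst k) (X Y Z : Reg n K) (t : ∀ j, ZMod (p j)),
        SLP.run I P (X, Y, Z, t) = (X, Y + E (I.val m q), Z, t) := by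
  obtain ⟨P, h1, h2, h3⟩ := H E
  refine ⟨SLP.conj swYZ P, SLP.mem_conj h1, ?_, ?_⟩
  · rw [SLP.length_conj]
    exact h2
  · intro I X Y Z t
    rw [SLP.run_conj I swYZ (fun _ => rfl), h3]
    rfl

variable (c : ∀ j, ZMod (p j) →+* K j) (τ : ∀ j, K j →+ ZMod (p j))
  (χ : ∀ i j, AddChar (ZMod (p j)) (K i)) (U V : ∀ j, Fin k → Fin (n j) → ZMod (p j))

theorem psi_eq (j : J) (X Y : Reg n K) (v : Fin (n j) → ZMod (p j)) :
    τ j (ip j (X j) (Y j + emb c j v)) - τ j (ip j (X j) (Y j)) = psi c τ j (X j) v := by
  unfold psi ip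
  rw [← map_sub, ← Finset.sum_sub_distrib]
  congr 1
  refine Finset.sum_congr rfl fun d _ => ?_
  rw [Pi.add_apply]
  ring

theorem exists_phase {h m : ℕ} {q : Node} {L : ℕ} (z0 : Fin k)
    (hq : q.length + 1 < h) (hl : CanCall p n K k h m (false :: q) L)
    (hr : CanCall p n K k h m (true :: q) L) (s : ℤ) :
    ∃ P : SLP k (File p n K), (∀ ins ∈ P, ins.1.InTree h) ∧ P.length ≤ 4 * L + 4 ∧
      ∀ (I : Inst k) (X Y Z : Reg n K) (t : ∀ j, ZMod (p j)),
        SLP.run I P (X, Y, Z, t) = (X, Y, Z, t + fun j =>
          s • (psi c τ j (X j) (V j (I.val m (false :: q))) +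
            psi c τ j (Y j) (V j (I.val m (true :: q))))) := by
  obtain ⟨P1, a1, b1, c1⟩ := hl.toY (fun a j => emb c j (V j a))
  obtain ⟨P2, a2, b2, c2⟩ := hl.toY (fun a j => -emb c j (V j a))
  obtain ⟨P3, a3, b3, c3⟩ := hr.toX (fun a j => emb c j (V j a))
  obtain ⟨P4, a4, b4, c4⟩ := hr.toX (fun a j => -emb c j (V j a))
  let A (s : ℤ) : Query k × (File p n K → Fin k → File p n K) := (Query.fn q z0 z0, fun r _ =>
    (r.1, r.2.1, r.2.2.1, r.2.2.2 + fun j => s • τ j (ip j (r.1 j) (r.2.1 j))))
  let B (s : ℤ) : Query k × (File p n K → Fin k → File p n K) := (Query.fn q z0 z0, fun r _ =>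
    (r.1, r.2.1, r.2.2.1, r.2.2.2 + fun j => s • τ j (ip j (r.2.1 j) (r.1 j))))
  refine ⟨P1 ++ ([A s] ++ (P2 ++ ([A (-s)] ++ (P3 ++ ([B s] ++ (P4 ++ [B (-s)])))))), ?_, ?_, ?_⟩
  · intro ins hins
    simp only [List.mem_append, List.mem_singleton] at hins
    rcases hins with h1 | rfl | h1 | rfl | h1 | rfl | h1 | rfl
    · exact a1 _ h1
    · exact hq
    · exact a2 _ h1
    · exact hq
    · exact a3 _ h1
    · exact hq
    · exact a4 _ h1
    · exact hq
  · simp only [List.length_append, List.length_singleton]
    omega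
  · intro I X Y Z t
    simp only [SLP.run_append, c1, c2, c3, c4, SLP.run_cons, SLP.run_nil, A, B]
    refine Prod.ext ?_ (Prod.ext ?_ (Prod.ext rfl ?_))
    · funext j
      simp only [Pi.add_apply]
      exact add_neg_cancel_right _ _
    · funext j
      simp only [Pi.add_apply]
      exact add_neg_cancel_right _ _
    · funext j
      simp only [Pi.add_apply]
      have h1 : Y j + emb c j (V j (I.val m (false :: q))) +
          -emb c j (V j (I.val m (false :: q))) = Y j := add_neg_cancel_right _ _
      have h2 : X j + emb c j (V j (I.val m (true :: q))) +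
          -emb c j (V j (I.val m (true :: q))) = X j := add_neg_cancel_right _ _
      rw [h1, h2, ← psi_eq c τ j X Y, ← psi_eq c τ j Y X]
      simp only [smul_add, smul_sub, neg_smul]
      abel

/-- The recursion. -/
theorem canCall_succ {h m : ℕ} {q : Node} {L : ℕ} (z0 : Fin k)
    (hτ : ∀ j x, τ j (c j x) = x) (hχ : ∀ i j, i ≠ j → χ i j 1 ≠ 1)
    (hs : ∀ j a b, ∑ d, U j a d * V j b d = 0 ∨ ∑ d, U j a d * V j b d = 1)
    (hself : ∀ j a, ∑ d, U j a d * V j a d = 0)
    (hsep : ∀ a b, a ≠ b → ∃ j, ∑ d, U j a d * V j b d = 1)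
    (hq : q.length + 1 < h) (hl : CanCall p n K k h m (false :: q) L)
    (hr : CanCall p n K k h m (true :: q) L) :
    CanCall p n K k h (m + 1) q
      ((8 + 4 * 4 ^ Fintype.card J) * L + (12 + 4 ^ Fintype.card J * k ^ 2)) := by
  classical
  intro E
  obtain ⟨Q1, qa1, qb1, qc1⟩ := exists_phase c τ V z0 hq hl hr 1
  obtain ⟨Q2, qa2, qb2, qc2⟩ := exists_phase c τ V z0 hq hl hr (-1)
  choose P1 a1 b1 c1 using fun T : Finset J => hl.toX (tog c U T)
  choose P2 a2 b2 c2 using fun T : Finset J => hl.toX (fun a => -tog c U T a)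
  choose P3 a3 b3 c3 using fun T : Finset J => hr.toY (tog c U T)
  choose P4 a4 b4 c4 using fun T : Finset J => hr.toY (fun a => -tog c U T a)
  -- the inner loop
  let g : Finset J × Finset J → Fin k × Fin k → Fin k → Reg n K → Reg n K → Reg n K :=
    fun T x v X Y i d => E v i d * coef c τ χ V i T.1 X x.1 * coef c τ χ V i T.2 Y x.2
  let inner : Finset J × Finset J → SLP k (File p n K) := fun T =>
    (Finset.univ : Finset (Fin k × Fin k)).toList.map
      (fun x => (Query.fn q x.1 x.2, fun (r : File p n K) v => addZ r (g T x v r.1 r.2.1)))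
  let block : Finset J × Finset J → SLP k (File p n K) := fun T =>
    P1 T.1 ++ (P3 T.2 ++ (inner T ++ (P2 T.1 ++ P4 T.2)))
  let main : SLP k (File p n K) :=
    ((Finset.univ : Finset (Finset J × Finset J)).toList.map block).flatten
  let tm (s : ℤ) : Query k × (File p n K → Fin k → File p n K) := (Query.fn q z0 z0, fun r _ =>
    (r.1, r.2.1, tw χ (s • r.2.2.2) r.2.2.1, r.2.2.2))
  have hinnerlen : ∀ T, (inner T).length = k ^ 2 := by
    intro T
    simp only [inner, List.length_map, Finset.length_toList, Finset.card_univ, Fintype.card_prod,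
      Fintype.card_fin]
    ring
  have hblocklen : ∀ T, (block T).length ≤ 4 * L + k ^ 2 := by
    intro T
    simp only [block, List.length_append, hinnerlen]
    have := b1 T.1
    have := b2 T.1
    have := b3 T.2
    have := b4 T.2
    omega
  have hmainlen : main.length ≤ 4 ^ Fintype.card J * (4 * L + k ^ 2) := by
    simp only [main, List.length_flatten, List.map_map]
    have h1 : ((Finset.univ : Finset (Finset J × Finset J)).toList.map
        (List.length ∘ block)).sum = ∑ T : Finset J × Finset J, (block T).length :=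
      Finset.sum_map_toList _ _
    rw [h1]
    calc ∑ T : Finset J × Finset J, (block T).length ≤
          ∑ _T : Finset J × Finset J, (4 * L + k ^ 2) := Finset.sum_le_sum fun T _ => hblocklen T
      _ = 4 ^ Fintype.card J * (4 * L + k ^ 2) := by
          rw [Finset.sum_const, Finset.card_univ, Fintype.card_prod, Fintype.card_finset,
            smul_eq_mul, ← mul_pow]
          norm_num
  refine ⟨[tm (-1)] ++ (Q1 ++ ([tm 1] ++ (main ++ ([tm (-1)] ++ (Q2 ++ [tm 1]))))), ?_, ?_, ?_⟩
  · intro ins hins
    simp only [List.mem_append, List.mem_singleton] at hins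
    rcases hins with rfl | h1 | rfl | h1 | rfl | h1 | rfl
    · exact hq
    · exact qa1 _ h1
    · exact hq
    · obtain ⟨l, hl1, hl2⟩ := List.mem_flatten.1 h1
      obtain ⟨T, -, rfl⟩ := List.mem_map.1 hl1
      simp only [block, List.mem_append] at hl2
      rcases hl2 with h2 | h2 | h2 | h2 | h2
      · exact a1 _ _ h2
      · exact a3 _ _ h2
      · obtain ⟨x, -, rfl⟩ := List.mem_map.1 h2
        exact hq
      · exact a2 _ _ h2
      · exact a4 _ _ h2
    · exact hq
    · exact qa2 _ h1
    · exact hq
  · simp only [List.length_append, List.length_singleton]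
    have h1 : (8 + 4 * 4 ^ Fintype.card J) * L + (12 + 4 ^ Fintype.card J * k ^ 2) =
        8 * L + 12 + 4 ^ Fintype.card J * (4 * L + k ^ 2) := by ring
    rw [h1]
    omega
  · intro I r
    obtain ⟨X, Y, Z, t⟩ := r
    set a := I.val m (false :: q) with ha
    set b := I.val m (true :: q) with hb
    have hval : I.val (m + 1) q = I.fn q a b := rfl
    set φ : ∀ j, ZMod (p j) := fun j => psi c τ j (X j) (V j a) + psi c τ j (Y j) (V j b) with hφ
    -- the effect of the blocks
    have hblock : ∀ T r, SLP.run I (block T) r = addZ r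
        (∑ x : Fin k × Fin k, g T x (I.fn q x.1 x.2) (r.1 + tog c U T.1 a)
          (r.2.1 + tog c U T.2 b)) := by
      intro T r
      obtain ⟨X, Y, Z, t⟩ := r
      simp only [block, SLP.run_append, c1, c3]
      rw [run_addList I _ (fun x : Fin k × Fin k => Query.fn q x.1 x.2) (g T)]
      simp only [addZ, c2, c4, ← ha, ← hb]
      refine Prod.ext ?_ (Prod.ext ?_ (Prod.ext ?_ rfl))
      · exact add_neg_cancel_right _ _
      · exact add_neg_cancel_right _ _
      · exact congrArg (Z + ·) (Finset.sum_map_toList _ _)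
    have hmain : ∀ r : File p n K, r.1 = X → r.2.1 = Y →
        SLP.run I main r = addZ r (tw χ φ (E (I.fn q a b))) := by
      intro r hX hY
      simp only [main]
      rw [run_blocks I _ block (fun T X Y => ∑ x : Fin k × Fin k,
        g T x (I.fn q x.1 x.2) (X + tog c U T.1 a) (Y + tog c U T.2 b)) hblock]
      congr 1
      rw [hX, hY]
      have h1 : ((Finset.univ : Finset (Finset J × Finset J)).toList.map
          (fun T => ∑ x : Fin k × Fin k, g T x (I.fn q x.1 x.2) (X + tog c U T.1 a)
            (Y + tog c U T.2 b))).sum = ∑ T : Finset J × Finset J, ∑ x : Fin k × Fin k,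
            g T x (I.fn q x.1 x.2) (X + tog c U T.1 a) (Y + tog c U T.2 b) :=
        Finset.sum_map_toList _ _
      rw [h1, ← theta_mul c τ χ V X Y (E (I.fn q a b)) a b, Finset.sum_comm]
      funext i d
      simp only [Finset.sum_apply, g]
      have h2 : ∀ x : Fin k × Fin k, ∑ T : Finset J × Finset J,
          E (I.fn q x.1 x.2) i d * coef c τ χ V i T.1 (X + tog c U T.1 a) x.1 *
            coef c τ χ V i T.2 (Y + tog c U T.2 b) x.2 =
          E (I.fn q x.1 x.2) i d * (if x.1 = a then theta c τ χ V i X a else 0) *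
            (if x.2 = b then theta c τ χ V i Y b else 0) := by
        intro x
        rw [← sum_coef c τ χ U V hτ hχ hs hself hsep i X a x.1,
          ← sum_coef c τ χ U V hτ hχ hs hself hsep i Y b x.2, mul_assoc,
          Finset.sum_mul_sum, ← Finset.sum_product', Finset.mul_sum]
        refine Finset.sum_congr rfl fun T _ => ?_
        ring
      rw [Finset.sum_congr rfl (fun x _ => h2 x), Finset.sum_eq_single (a, b)]
      · simp
      · rintro ⟨x, y⟩ _ hne
        by_cases hx : x = a
        · have hy : y ≠ b := by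
            rintro rfl
            exact hne (by rw [hx])
          simp [hy]
        · simp [hx]
      · intro h
        exact absurd (Finset.mem_univ _) h
    simp only [SLP.run_append, SLP.run_cons, SLP.run_nil, tm, qc1, qc2]
    rw [hmain _ rfl rfl]
    simp only [addZ, hval]
    have e1 : (t + fun j => (1 : ℤ) • (psi c τ j (X j) (V j a) + psi c τ j (Y j) (V j b))) =
        t + φ := by
      funext j
      simp [hφ]
    have e2 : ∀ t' : ∀ j, ZMod (p j), (t' + fun j => (-1 : ℤ) •
        (psi c τ j (X j) (V j a) + psi c τ j (Y j) (V j b))) = t' - φ := by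
      intro t'
      funext j
      simp only [hφ, Pi.add_apply, Pi.sub_apply, neg_smul, one_smul]
      ring
    rw [← ha, ← hb]
    rw [e1, e2]
    refine Prod.ext rfl (Prod.ext rfl (Prod.ext ?_ ?_))
    · change tw χ _ (tw χ _ (tw χ _ (tw χ _ Z) + tw χ φ (E (I.fn q a b)))) = _
      have e3 : (-1 : ℤ) • t + (1 : ℤ) • (t + φ) = φ := by
        simp only [neg_smul, one_smul]
        abel
      have e5 : tw χ ((1 : ℤ) • (t + φ)) (tw χ ((-1 : ℤ) • t) Z) = tw χ φ Z := by
        rw [tw_tw, e3]
      have e4 : φ + ((-1 : ℤ) • (t + φ) + (1 : ℤ) • (t + φ - φ)) = 0 := by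
        simp only [neg_smul, one_smul]
        abel
      rw [e5, ← tw_add, tw_tw, tw_tw, e4, tw_zero]
    · change t + φ - φ = t
      abel

end prog

end Pool.Agent.Helper6.TreeEval.Mach
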