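import Mathlib

set_option autoImplicit false

/-!
Two-way multihead deterministic finite automata: program fragments and their composition.
The head model is exactly the one used by the frozen statements of MP_4e849b_lc.
-/

namespace Pool.Agent.Helper6

open Relation

/-- What one head reports: is it on the left endmarker, and the letter (if any) under it. -/
abbrev Sym (α : Type) : Type := Bool × Option α

/-- The report of a head in position `p` on the word `w`. -/
def rd {α : Type} (w : List α) (p : ℕ) : Sym α := (decide (p = 0), w[p - 1]?)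

/-- Head movement: `0` = left, `1` = stay, `2` = right, between the endmarkers `0` and `n + 1`. -/
def mv (n : ℕ) (d : Fin 3) (x : ℕ) : ℕ :=
  if d = 0 then x - 1 else if d = 1 then x else min (x + 1) (n + 1)

theorem mv_le {n : ℕ} {d : Fin 3} {x : ℕ} (h : x ≤ n + 1) : mv n d x ≤ n + 1 := by
  unfold mv
  split_ifs
  · omega
  · exact h
  · exact min_le_right _ _

@[simp] theorem mv_zero (n x : ℕ) : mv n 0 x = x - 1 := by simp [mv]
@[simp] theorem mv_one (n x : ℕ) : mv n 1 x = x := by simp [mv]
@[simp] theorem mv_two (n x : ℕ) : mv n 2 x = min (x + 1) (n + 1) := by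
  have h : (2 : Fin 3) ≠ 0 := by decide
  have h' : (2 : Fin 3) ≠ 1 := by decide
  simp [mv, h, h']

/-- A program fragment with heads `H`, entry points `A` and exit points `B`. -/
structure Frag (α H A B : Type) where
  /-- internal states -/
  P : Type
  /-- finitely many of them -/
  fin : Finite P
  /-- transition function -/
  η : P → (H → Sym α) → (P ⊕ B) × (H → Fin 3)
  /-- entry states -/
  entry : A → P

namespace Frag

variable {α H H' A B C D : Type}

/-- One step of a fragment. -/
def Step (M : Frag α H A B) (w : List α) (c c' : (M.P ⊕ B) × (H → ℕ)) : Prop :=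
  ∃ p, c.1 = Sum.inl p ∧
    c' = ((M.η p (fun h => rd w (c.2 h))).1,
      fun h => mv w.length ((M.η p (fun h => rd w (c.2 h))).2 h) (c.2 h))

/-- Reachability in a fragment. -/
def Reach (M : Frag α H A B) (w : List α) : (M.P ⊕ B) × (H → ℕ) → (M.P ⊕ B) × (H → ℕ) → Prop :=
  ReflTransGen (M.Step w)

theorem Reach.bounded {M : Frag α H A B} {w : List α} {c c' : (M.P ⊕ B) × (H → ℕ)}
    (h : M.Reach w c c') (hb : ∀ v, c.2 v ≤ w.length + 1) : ∀ v, c'.2 v ≤ w.length + 1 := by
  induction h with
  | refl => exact hb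
  | tail _ hs ih =>
    obtain ⟨p, _, rfl⟩ := hs
    intro v
    exact mv_le (ih v)

/-- A simulation between fragments on the same heads. -/
theorem sim (M : Frag α H A B) (N : Frag α H C D) (φ : M.P ⊕ B → N.P ⊕ D)
    (h : ∀ p, ∃ q, φ (Sum.inl p) = Sum.inl q ∧
      ∀ s, N.η q s = (φ (M.η p s).1, (M.η p s).2))
    {w : List α} {c c' : (M.P ⊕ B) × (H → ℕ)} (hr : M.Reach w c c') :
    N.Reach w (φ c.1, c.2) (φ c'.1, c'.2) := by
  induction hr with
  | refl => exact ReflTransGen.refl
  | tail _ hs ih =>
    refine ReflTransGen.tail ih ?_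
    obtain ⟨p, hp, rfl⟩ := hs
    obtain ⟨q, hq, hη⟩ := h p
    refine ⟨q, ?_, ?_⟩
    · simp [hp, hq]
    · simp [hη]

/-- Run a fragment on a larger set of heads. -/
noncomputable def lift (M : Frag α H A B) (e : H → H') : Frag α H' A B where
  P := M.P
  fin := M.fin
  η := fun p s => ((M.η p (s ∘ e)).1, Function.extend e (M.η p (s ∘ e)).2 (fun _ => 1))
  entry := M.entry

theorem lift_reach (M : Frag α H A B) {e : H → H'} (he : Function.Injective e) {w : List α}
    {c c' : (M.P ⊕ B) × (H → ℕ)} (hr : M.Reach w c c') :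
    ∀ τ : H' → ℕ, τ ∘ e = c.2 →
      (M.lift e).Reach w (c.1, τ) (c'.1, Function.extend e c'.2 τ) := by
  induction hr using ReflTransGen.head_induction_on with
  | refl =>
    intro τ hτ
    have : Function.extend e c'.2 τ = τ := by
      funext v
      by_cases hv : ∃ u, e u = v
      · obtain ⟨u, rfl⟩ := hv
        rw [he.extend_apply, ← hτ]; rfl
      · rw [Function.extend_apply' _ _ _ hv]
    rw [this]
    exact ReflTransGen.refl
  | head hs _ ih =>
    intro τ hτ
    obtain ⟨p, hp, rfl⟩ := hs
    rename_i a b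
    set r := M.η p (fun h => rd w (a.2 h)) with hr
    let τ1 : H' → ℕ := fun v => mv w.length (Function.extend e r.2 (fun _ => 1) v) (τ v)
    have hs1 : (fun v => rd w (τ v)) ∘ e = fun h => rd w (a.2 h) := by
      funext u
      have : τ (e u) = a.2 u := congrFun hτ u
      simp [this]
    have h1 : τ1 ∘ e = fun h => mv w.length (r.2 h) (a.2 h) := by
      funext u
      have : τ (e u) = a.2 u := congrFun hτ u
      simp [τ1, he.extend_apply, this]
    have h2 := ih τ1 h1
    have h3 : Function.extend e c'.2 τ1 = Function.extend e c'.2 τ := by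
      funext v
      by_cases hv : ∃ u, e u = v
      · obtain ⟨u, rfl⟩ := hv
        rw [he.extend_apply, he.extend_apply]
      · rw [Function.extend_apply' _ _ _ hv, Function.extend_apply' _ _ _ hv]
        simp [τ1, Function.extend_apply' _ _ _ hv]
    rw [h3] at h2
    refine ReflTransGen.head ?_ h2
    refine ⟨p, hp, ?_⟩
    have e1 : (M.lift e).η p (fun h => rd w (τ h)) =
        (r.1, Function.extend e r.2 (fun _ => 1)) := by
      simp only [lift]
      rw [hs1]
    simp only [e1]
    rfl

/-- Sequential composition. -/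
def seq (M : Frag α H A B) (N : Frag α H B C) : Frag α H A C where
  P := M.P ⊕ N.P
  fin := by
    have := M.fin
    have := N.fin
    infer_instance
  η := fun p s => match p with
    | Sum.inl p => (Sum.elim (fun p' => Sum.inl (Sum.inl p'))
        (fun b => Sum.inl (Sum.inr (N.entry b))) (M.η p s).1, (M.η p s).2)
    | Sum.inr p => (Sum.elim (fun p' => Sum.inl (Sum.inr p')) (fun c => Sum.inr c) (N.η p s).1,
        (N.η p s).2)
  entry := fun a => Sum.inl (M.entry a)

theorem seq_reach (M : Frag α H A B) (N : Frag α H B C) {w : List α} {a : A} {b : B} {c : C}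
    {x y z : H → ℕ} (h1 : M.Reach w (Sum.inl (M.entry a), x) (Sum.inr b, y))
    (h2 : N.Reach w (Sum.inl (N.entry b), y) (Sum.inr c, z)) :
    (M.seq N).Reach w (Sum.inl ((M.seq N).entry a), x) (Sum.inr c, z) := by
  have g1 := sim M (M.seq N) (Sum.elim (fun p' => Sum.inl (Sum.inl p'))
        (fun b => Sum.inl (Sum.inr (N.entry b)))) (fun p => ⟨Sum.inl p, rfl, fun s => rfl⟩) h1
  have g2 := sim N (M.seq N) (Sum.elim (fun p' => Sum.inl (Sum.inr p')) (fun c => Sum.inr c))
        (fun p => ⟨Sum.inr p, rfl, fun s => rfl⟩) h2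
  exact ReflTransGen.trans g1 g2

/-- Looping: exits of the form `inl a` are fed back to the entries. -/
def loop (M : Frag α H A (A ⊕ B)) : Frag α H A B where
  P := M.P
  fin := M.fin
  η := fun p s => (Sum.elim (fun p' => Sum.inl p')
    (Sum.elim (fun a => Sum.inl (M.entry a)) (fun b => Sum.inr b)) (M.η p s).1, (M.η p s).2)
  entry := M.entry

theorem loop_more (M : Frag α H A (A ⊕ B)) {w : List α} {a a' : A} {x x' : H → ℕ}
    (h1 : M.Reach w (Sum.inl (M.entry a), x) (Sum.inr (Sum.inl a'), x')) :
    M.loop.Reach w (Sum.inl (M.entry a), x) (Sum.inl (M.entry a'), x') := by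
  exact sim M M.loop (Sum.elim (fun p' => Sum.inl p')
    (Sum.elim (fun a => Sum.inl (M.entry a)) (fun b => Sum.inr b)))
    (fun p => ⟨p, rfl, fun s => rfl⟩) h1

theorem loop_done (M : Frag α H A (A ⊕ B)) {w : List α} {a : A} {b : B} {x x' : H → ℕ}
    (h1 : M.Reach w (Sum.inl (M.entry a), x) (Sum.inr (Sum.inr b), x')) :
    M.loop.Reach w (Sum.inl (M.entry a), x) (Sum.inr b, x') := by
  exact sim M M.loop (Sum.elim (fun p' => Sum.inl p')
    (Sum.elim (fun a => Sum.inl (M.entry a)) (fun b => Sum.inr b)))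
    (fun p => ⟨p, rfl, fun s => rfl⟩) h1

end Frag

/-- The relation `F` (from entry `a` with head positions `x` to exit `b` with head positions `y`)
is realised by a fragment with finitely many extra heads, which start and end on the left
endmarker. -/
def Comp (α V A B : Type) (F : List α → A → (V → ℕ) → B → (V → ℕ) → Prop) : Prop :=
  ∃ (W : Type) (_ : Finite W) (M : Frag α (V ⊕ W) A B),
    ∀ w a x b y, (∀ v, x v ≤ w.length + 1) → F w a x b y →
      M.Reach w (Sum.inl (M.entry a), Sum.elim x (fun _ => 0))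
        (Sum.inr b, Sum.elim y (fun _ => 0))

namespace Comp

variable {α V V' A B C U : Type}

theorem mono {F F' : List α → A → (V → ℕ) → B → (V → ℕ) → Prop}
    (h : Comp α V A B F)
    (hF : ∀ w a x b y, (∀ v, x v ≤ w.length + 1) → F' w a x b y → F w a x b y) :
    Comp α V A B F' := by
  obtain ⟨W, hW, M, hM⟩ := h
  exact ⟨W, hW, M, fun w a x b y hx hf => hM w a x b y hx (hF w a x b y hx hf)⟩

theorem extend_sum_map {W W' : Type} (f : W → W') (hf : Function.Injective f) (x y : V → ℕ) :
    Function.extend (Sum.map (id : V → V) f) (Sum.elim y (fun _ => 0))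
      (Sum.elim x (fun _ => 0)) = Sum.elim y (fun _ => 0) := by
  have hinj : Function.Injective (Sum.map (id : V → V) f) :=
    Sum.map_injective.2 ⟨Function.injective_id, hf⟩
  funext v
  rcases v with v | v
  · have : (Sum.inl v : V ⊕ W') = Sum.map id f (Sum.inl v) := rfl
    rw [this, hinj.extend_apply]
    rfl
  · by_cases hv : ∃ u, f u = v
    · obtain ⟨u, rfl⟩ := hv
      have : (Sum.inr (f u) : V ⊕ W') = Sum.map id f (Sum.inr u) := rfl
      rw [this, hinj.extend_apply]
      rfl
    · rw [Function.extend_apply']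
      · rfl
      · rintro ⟨u, hu⟩
        rcases u with u | u
        · simp at hu
        · exact hv ⟨u, by simpa using hu⟩

/-- Change the set of auxiliary heads. -/
theorem reach_aux {W W' : Type} (f : W → W') (hf : Function.Injective f)
    (M : Frag α (V ⊕ W) A B) {w : List α} {a : A} {b : B} {x y : V → ℕ}
    (h : M.Reach w (Sum.inl (M.entry a), Sum.elim x (fun _ => 0))
        (Sum.inr b, Sum.elim y (fun _ => 0))) :
    (M.lift (Sum.map (id : V → V) f)).Reach w
      (Sum.inl ((M.lift (Sum.map (id : V → V) f)).entry a), Sum.elim x (fun _ => 0))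
        (Sum.inr b, Sum.elim y (fun _ => 0)) := by
  have hinj : Function.Injective (Sum.map (id : V → V) f) :=
    Sum.map_injective.2 ⟨Function.injective_id, hf⟩
  have := Frag.lift_reach M hinj h (Sum.elim x (fun _ => 0)) (by
    funext v; rcases v with v | v <;> rfl)
  simp only [extend_sum_map f hf x y] at this
  exact this

theorem seq {F : List α → A → (V → ℕ) → B → (V → ℕ) → Prop}
    {G : List α → B → (V → ℕ) → C → (V → ℕ) → Prop}
    (hF : Comp α V A B F) (hG : Comp α V B C G) :
    Comp α V A C (fun w a x c z => ∃ b y, F w a x b y ∧ G w b y c z) := by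
  obtain ⟨W1, hW1, M, hM⟩ := hF
  obtain ⟨W2, hW2, N, hN⟩ := hG
  refine ⟨W1 ⊕ W2, inferInstance, (M.lift (Sum.map id Sum.inl)).seq
    (N.lift (Sum.map id Sum.inr)), ?_⟩
  rintro w a x c z hx ⟨b, y, hf, hg⟩
  have h1 := hM w a x b y hx hf
  have hy : ∀ v, y v ≤ w.length + 1 := by
    have := h1.bounded (by
      rintro (v | v)
      · exact hx v
      · exact Nat.zero_le _)
    intro v
    exact this (Sum.inl v)
  have h2 := hN w b y c z hy hg
  have g1 := reach_aux (Sum.inl : W1 → W1 ⊕ W2) Sum.inl_injective M h1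
  have g2 := reach_aux (Sum.inr : W2 → W1 ⊕ W2) Sum.inr_injective N h2
  exact Frag.seq_reach _ _ g1 g2

/-- Iteration of a relation until an exit of the form `inr b`. -/
inductive Iter {A B X : Type} (F : A → X → (A ⊕ B) → X → Prop) : A → X → B → X → Prop
  | done {a x b y} : F a x (Sum.inr b) y → Iter F a x b y
  | more {a x a' x' b y} : F a x (Sum.inl a') x' → Iter F a' x' b y → Iter F a x b y

theorem loop {F : List α → A → (V → ℕ) → (A ⊕ B) → (V → ℕ) → Prop}
    (hF : Comp α V A (A ⊕ B) F) :
    Comp α V A B (fun w a x b y => Iter (F w) a x b y) := by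
  obtain ⟨W, hW, M, hM⟩ := hF
  refine ⟨W, hW, M.loop, ?_⟩
  intro w a x b y hx hi
  induction hi with
  | done h => exact Frag.loop_done M (hM w _ _ _ _ hx h)
  | @more a x a' x' b y h _ ih =>
    have h1 := hM w _ _ _ _ hx h
    have hx' : ∀ v, x' v ≤ w.length + 1 := by
      have := h1.bounded (by
        rintro (v | v)
        · exact hx v
        · exact Nat.zero_le _)
      intro v
      exact this (Sum.inl v)
    exact ReflTransGen.trans (Frag.loop_more M h1) (ih hx')

/-- A single step. -/
theorem basic [Finite A] (g : A → (V → Sym α) → B × (V → Fin 3)) :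
    Comp α V A B (fun w a x b y => b = (g a (fun v => rd w (x v))).1 ∧
      y = fun v => mv w.length ((g a (fun v => rd w (x v))).2 v) (x v)) := by
  refine ⟨Empty, inferInstance, ⟨A, inferInstance, fun a s => (Sum.inr (g a (s ∘ Sum.inl)).1,
    Sum.elim (g a (s ∘ Sum.inl)).2 (fun _ => 1)), id⟩, ?_⟩
  rintro w a x b y - ⟨rfl, rfl⟩
  refine ReflTransGen.single ⟨a, rfl, ?_⟩
  refine Prod.ext rfl ?_
  funext v
  rcases v with v | v
  · rfl
  · exact v.elim

/-- Change of control only. -/
theorem ctl [Finite A] (g : A → B) :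
    Comp α V A B (fun _ a x b y => b = g a ∧ y = x) := by
  refine mono (basic (fun a _ => (g a, fun _ => 1))) ?_
  rintro w a x b y - ⟨rfl, rfl⟩
  refine ⟨rfl, ?_⟩
  funext v
  simp

/-- Branching on finitely many entries. -/
theorem family [Finite A] {F : A → List α → (V → ℕ) → B → (V → ℕ) → Prop}
    (h : ∀ a, Comp α V Unit B (fun w _ x b y => F a w x b y)) :
    Comp α V A B (fun w a x b y => F a w x b y) := by
  choose W hW M hM using h
  let N : ∀ a, Frag α (V ⊕ (Σ a, W a)) Unit B := fun a =>
    (M a).lift (Sum.map (id : V → V) (fun u => (⟨a, u⟩ : Σ a, W a)))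
  let T : Frag α (V ⊕ (Σ a, W a)) A B :=
    { P := Σ a, (N a).P
      fin := by
        have := fun a => (N a).fin
        infer_instance
      η := fun p s => (Sum.elim (fun p' => Sum.inl ⟨p.1, p'⟩) (fun b => Sum.inr b)
        ((N p.1).η p.2 s).1, ((N p.1).η p.2 s).2)
      entry := fun a => ⟨a, (N a).entry ()⟩ }
  refine ⟨Σ a, W a, inferInstance, T, ?_⟩
  intro w a x b y hx hf
  have h1 := hM a w () x b y hx hf
  have hinj : Function.Injective (fun u => (⟨a, u⟩ : Σ a, W a)) := by
    intro u v huv
    simpa using huv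
  have g1 := reach_aux (fun u => (⟨a, u⟩ : Σ a, W a)) hinj (M a) h1
  exact Frag.sim (N a) T (Sum.elim (fun p' => Sum.inl ⟨a, p'⟩) (fun b => Sum.inr b))
    (fun p => ⟨⟨a, p⟩, rfl, fun s => rfl⟩) g1

/-- Use a fragment on a larger set of visible heads. -/
theorem lift {F : List α → A → (V → ℕ) → B → (V → ℕ) → Prop}
    (hF : Comp α V A B F) (e : V → V') (he : Function.Injective e) :
    Comp α V' A B (fun w a x b y => F w a (x ∘ e) b (y ∘ e) ∧
      ∀ v, v ∉ Set.range e → y v = x v) := by
  obtain ⟨W, hW, M, hM⟩ := hF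
  refine ⟨W, hW, M.lift (Sum.map e id), ?_⟩
  rintro w a x b y hx ⟨hf, hfr⟩
  have hinj : Function.Injective (Sum.map e (id : W → W)) :=
    Sum.map_injective.2 ⟨he, Function.injective_id⟩
  have h1 := hM w a (x ∘ e) b (y ∘ e) (fun v => hx (e v)) hf
  have h2 := Frag.lift_reach M hinj h1 (Sum.elim x (fun _ => 0)) (by
    funext v; rcases v with v | v <;> rfl)
  have h3 : Function.extend (Sum.map e (id : W → W)) (Sum.elim (y ∘ e) (fun _ => 0))
      (Sum.elim x (fun _ => 0)) = Sum.elim y (fun _ => 0) := by
    funext v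
    rcases v with v | v
    · by_cases hv : v ∈ Set.range e
      · obtain ⟨u, rfl⟩ := hv
        have : (Sum.inl (e u) : V' ⊕ W) = Sum.map e id (Sum.inl u) := rfl
        rw [this, hinj.extend_apply]
        rfl
      · rw [Function.extend_apply']
        · simp [hfr v hv]
        · rintro ⟨u, hu⟩
          rcases u with u | u
          · exact hv ⟨u, by simpa using hu⟩
          · simp at hu
    · have : (Sum.inr v : V' ⊕ W) = Sum.map e id (Sum.inr v) := rfl
      rw [this, hinj.extend_apply]
      rfl
  simp only [h3] at h2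
  exact h2

/-- Hide some heads, which start and end on the left endmarker. -/
theorem hide [Finite U] {F : List α → A → (V ⊕ U → ℕ) → B → (V ⊕ U → ℕ) → Prop}
    (hF : Comp α (V ⊕ U) A B F) :
    Comp α V A B (fun w a x b y =>
      F w a (Sum.elim x (fun _ => 0)) b (Sum.elim y (fun _ => 0))) := by
  obtain ⟨W, hW, M, hM⟩ := hF
  let e : (V ⊕ U) ⊕ W ≃ V ⊕ (U ⊕ W) := Equiv.sumAssoc V U W
  refine ⟨U ⊕ W, inferInstance, M.lift e, ?_⟩
  intro w a x b y hx hf
  have h1 := hM w a _ b _ (by
    rintro (v | v)
    · exact hx v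
    · exact Nat.zero_le _) hf
  have h2 := Frag.lift_reach M e.injective h1 (Sum.elim x (fun _ => 0)) (by
    funext v; rcases v with (v | v) | v <;> rfl)
  have h3 : Function.extend e (Sum.elim (Sum.elim y (fun _ => 0)) (fun _ => 0))
      (Sum.elim x (fun _ => 0)) = (Sum.elim y (fun _ => 0) : V ⊕ (U ⊕ W) → ℕ) := by
    funext v
    obtain ⟨u, rfl⟩ := e.surjective v
    rw [e.injective.extend_apply]
    rcases u with (u | u) | u <;> rfl
  simp only [h3] at h2
  exact h2

/-- Carry a finite piece of data along. -/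
theorem carry [Finite A] [Finite C] {F : List α → A → (V → ℕ) → B → (V → ℕ) → Prop}
    (hF : Comp α V A B F) :
    Comp α V (A × C) (B × C) (fun w a x b y => F w a.1 x b.1 y ∧ b.2 = a.2) := by
  obtain ⟨W, hW, M, hM⟩ := hF
  let T : Frag α (V ⊕ W) (A × C) (B × C) :=
    { P := M.P × C
      fin := by
        have := M.fin
        infer_instance
      η := fun p s => (Sum.elim (fun p' => Sum.inl (p', p.2)) (fun b => Sum.inr (b, p.2))
        (M.η p.1 s).1, (M.η p.1 s).2)
      entry := fun a => (M.entry a.1, a.2) }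
  refine ⟨W, hW, T, ?_⟩
  rintro w ⟨a, c⟩ x ⟨b, c'⟩ y hx ⟨hf, hc⟩
  simp only at hc
  subst hc
  have h1 := hM w a x b y hx hf
  exact Frag.sim M T (Sum.elim (fun p' => Sum.inl (p', c')) (fun b => Sum.inr (b, c')))
    (fun p => ⟨(p, c'), rfl, fun s => rfl⟩) h1

end Comp

end Pool.Agent.Helper6
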