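import Pool.Agent.Helper6.MHeadA

set_option autoImplicit false

/-!
Relations on head positions decided by halting two-way multihead deterministic finite automata,
and their closure under first-order constructions.
-/

namespace Pool.Agent.Helper6

open Relation

theorem rd_fst {α : Type} (w : List α) (p : ℕ) : (rd w p).1 = true ↔ p = 0 := by
  simp [rd]

theorem rd_fst_false {α : Type} (w : List α) (p : ℕ) : (rd w p).1 = false ↔ p ≠ 0 := by
  simp [rd]

theorem rd_end {α : Type} (w : List α) {p : ℕ} (hp : p ≤ w.length + 1) :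
    rd w p = (false, none) ↔ p = w.length + 1 := by
  simp only [rd, Prod.mk.injEq, decide_eq_false_iff_not, List.getElem?_eq_none_iff]
  omega

/-- `R` is decided by a halting automaton that restores its heads. -/
def IsL (α V : Type) (R : List α → (V → ℕ) → Prop) : Prop :=
  Comp α V Unit Bool (fun w _ x b y => y = x ∧ (b = true ↔ R w x))

variable {α V V' U : Type}

namespace IsL

theorem congr {R R' : List α → (V → ℕ) → Prop} (h : IsL α V R)
    (hR : ∀ w x, (∀ v, x v ≤ w.length + 1) → (R' w x ↔ R w x)) : IsL α V R' := by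
  refine Comp.mono h ?_
  rintro w a x b y hx ⟨h1, h2⟩
  exact ⟨h1, h2.trans (hR w x hx)⟩

theorem sym (v : V) (p : Sym α → Prop) : IsL α V (fun w x => p (rd w (x v))) := by
  classical
  refine Comp.mono (Comp.basic (fun _ s => (decide (p (s v)), fun _ => 1))) ?_
  rintro w a x b y hx ⟨h1, h2⟩
  refine ⟨?_, ?_⟩
  · rw [Bool.eq_iff_iff, h2]
    simp
  · subst h1
    funext v
    simp

theorem const (p : Prop) : IsL α V (fun _ _ => p) := by
  classical
  refine Comp.mono (Comp.ctl (fun _ => decide p)) ?_
  rintro w a x b y hx ⟨h1, h2⟩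
  refine ⟨?_, h1⟩
  rw [Bool.eq_iff_iff, h2]
  simp

theorem not {R : List α → (V → ℕ) → Prop} (h : IsL α V R) : IsL α V (fun w x => ¬ R w x) := by
  refine Comp.mono (Comp.seq h (Comp.ctl (fun b => !b))) ?_
  rintro w a x b y hx ⟨h1, h2⟩
  refine ⟨!b, x, ⟨rfl, ?_⟩, ?_, h1⟩
  · rcases b with _ | _
    · simpa using h2
    · simpa using h2
  · simp

/-- Conditional execution. -/
theorem ite {A B : Type} [Finite A] {R : List α → (V → ℕ) → Prop} (h : IsL α V R)
    {F G : List α → A → (V → ℕ) → B → (V → ℕ) → Prop}
    (hF : Comp α V A B F) (hG : Comp α V A B G) :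
    Comp α V A B (fun w a x b y => (R w x ∧ F w a x b y) ∨ (¬ R w x ∧ G w a x b y)) := by
  have h1 : Comp α V (Unit × A) (Bool × A) _ := Comp.carry h
  have h2 : Comp α V (Bool × A) B (fun w c x b y =>
      (c.1 = true ∧ F w c.2 x b y) ∨ (c.1 = false ∧ G w c.2 x b y)) := by
    refine Comp.family (F := fun (c : Bool × A) w x b y =>
      (c.1 = true ∧ F w c.2 x b y) ∨ (c.1 = false ∧ G w c.2 x b y)) ?_
    rintro ⟨c, a⟩
    rcases c with _ | _
    · refine Comp.mono (Comp.seq (Comp.ctl (fun _ => a)) hG) ?_
      rintro w _ x b y _ h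
      refine ⟨a, x, ⟨rfl, rfl⟩, ?_⟩
      simpa using h
    · refine Comp.mono (Comp.seq (Comp.ctl (fun _ => a)) hF) ?_
      rintro w _ x b y _ h
      refine ⟨a, x, ⟨rfl, rfl⟩, ?_⟩
      simpa using h
  refine Comp.mono (Comp.seq (Comp.ctl (fun a => ((), a))) (Comp.seq h1 h2)) ?_
  classical
  rintro w a x b y _ h
  refine ⟨((), a), x, ⟨rfl, rfl⟩, (decide (R w x), a), x, ⟨⟨rfl, by simp⟩, rfl⟩, ?_⟩
  simpa using h

theorem and {R S : List α → (V → ℕ) → Prop} (h : IsL α V R) (h' : IsL α V S) :
    IsL α V (fun w x => R w x ∧ S w x) := by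
  refine Comp.mono (ite h h' (const False)) ?_
  rintro w a x b y _ ⟨h1, h2⟩
  by_cases hr : R w x
  · exact Or.inl ⟨hr, h1, by rw [h2]; simp [hr]⟩
  · exact Or.inr ⟨hr, h1, by rw [h2]; simp [hr]⟩

theorem or {R S : List α → (V → ℕ) → Prop} (h : IsL α V R) (h' : IsL α V S) :
    IsL α V (fun w x => R w x ∨ S w x) := by
  refine congr (not (and (not h) (not h'))) ?_
  intro w x _
  tauto

theorem imp {R S : List α → (V → ℕ) → Prop} (h : IsL α V R) (h' : IsL α V S) :
    IsL α V (fun w x => R w x → S w x) := by
  refine congr (or (not h) h') ?_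
  intro w x _
  tauto

theorem iff {R S : List α → (V → ℕ) → Prop} (h : IsL α V R) (h' : IsL α V S) :
    IsL α V (fun w x => R w x ↔ S w x) := by
  refine congr (and (imp h h') (imp h' h)) ?_
  intro w x _
  tauto

theorem lift {R : List α → (V → ℕ) → Prop} (h : IsL α V R) (e : V → V')
    (he : Function.Injective e) : IsL α V' (fun w x => R w (x ∘ e)) := by
  refine Comp.mono (Comp.lift h e he) ?_
  rintro w a x b y _ ⟨h1, h2⟩
  subst h1
  exact ⟨⟨rfl, h2⟩, fun _ _ => rfl⟩

theorem equiv {R : List α → (V → ℕ) → Prop} (h : IsL α V R) (e : V ≃ V') :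
    IsL α V' (fun w x => R w (x ∘ e)) := lift h e e.injective

theorem bigAnd {ι : Type} [Finite ι] {R : ι → List α → (V → ℕ) → Prop}
    (h : ∀ i, IsL α V (R i)) : IsL α V (fun w x => ∀ i, R i w x) := by
  have key : ∀ s : Set ι, s.Finite → IsL α V (fun w x => ∀ i ∈ s, R i w x) := by
    intro s hs
    induction s, hs using Set.Finite.induction_on with
    | empty => exact congr (const True) (by intro w x _; simp)
    | @insert a s _ _ ih =>
      refine congr (and (h a) ih) ?_
      intro w x _
      simp
  exact congr (key Set.univ Set.finite_univ) (by intro w x _; simp)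

theorem bigOr {ι : Type} [Finite ι] {R : ι → List α → (V → ℕ) → Prop}
    (h : ∀ i, IsL α V (R i)) : IsL α V (fun w x => ∃ i, R i w x) := by
  refine congr (not (bigAnd (fun i => not (h i)))) ?_
  intro w x _
  push Not
  rfl

end IsL

namespace Comp

/-- Move one head. -/
theorem move [DecidableEq V] (u : V) (d : Fin 3) :
    Comp α V Unit Unit (fun w _ x _ y => y = Function.update x u (mv w.length d (x u))) := by
  refine mono (basic (fun _ _ => ((), fun v => if v = u then d else 1))) ?_
  rintro w _ x _ y _ rfl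
  refine ⟨rfl, ?_⟩
  funext v
  by_cases hv : v = u
  · subst hv; simp
  · simp [hv]

/-- Bring one head to the left endmarker. -/
theorem reset [DecidableEq V] (u : V) :
    Comp α V Unit Unit (fun _ _ x _ y => y = Function.update x u 0) := by
  have hb : Comp α V Unit (Unit ⊕ Unit) (fun _ _ x b y =>
      (x u = 0 ∧ b = Sum.inr () ∧ y = x) ∨
      (x u ≠ 0 ∧ b = Sum.inl () ∧ y = Function.update x u (x u - 1))) := by
    refine mono (basic (fun _ s => if (s u).1 then (Sum.inr (), fun _ => 1)
      else (Sum.inl (), fun v => if v = u then 0 else 1))) ?_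
    rintro w _ x b y _ (⟨h1, rfl, rfl⟩ | ⟨h1, rfl, rfl⟩)
    · have : (rd w (y u)).1 = true := by rw [rd_fst]; exact h1
      simp [this]
    · have : (rd w (x u)).1 = false := by rw [rd_fst_false]; exact h1
      simp only [this]
      refine ⟨rfl, ?_⟩
      funext v
      by_cases hv : v = u
      · subst hv; simp
      · simp [hv]
  refine mono (loop hb) ?_
  rintro w _ x _ y _ rfl
  generalize hm : x u = m
  induction m generalizing x with
  | zero =>
    refine Iter.done (Or.inl ⟨hm, rfl, ?_⟩)
    rw [← hm]; exact Function.update_eq_self u x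
  | succ m ih =>
    refine Iter.more (a' := ()) (Or.inr ⟨by omega, rfl, rfl⟩) ?_
    have := ih (Function.update x u (x u - 1)) (by
      intro v
      by_cases hv : v = u
      · subst hv; simp; have := ‹∀ v, x v ≤ w.length + 1› v; omega
      · simp [hv]; exact ‹∀ v, x v ≤ w.length + 1› v) (by simp [hm])
    simpa using this

/-- Linear search with the head `u` for the least position satisfying `R`. -/
theorem search [DecidableEq V] (u : V) {R : List α → (V → ℕ) → Prop} (h : IsL α V R) :
    Comp α V Unit Bool (fun w _ x b y => x u = 0 ∧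
      ((b = true ∧ ∃ t ≤ w.length + 1, R w (Function.update x u t) ∧
          (∀ s < t, ¬ R w (Function.update x u s)) ∧ y = Function.update x u t) ∨
       (b = false ∧ (∀ t ≤ w.length + 1, ¬ R w (Function.update x u t)) ∧
          y = Function.update x u (w.length + 1)))) := by
  classical
  have hb : Comp α V Unit (Unit ⊕ Bool) (fun w _ x b y =>
      (R w x ∧ b = Sum.inr true ∧ y = x) ∨
      (¬ R w x ∧ x u = w.length + 1 ∧ b = Sum.inr false ∧ y = x) ∨
      (¬ R w x ∧ x u < w.length + 1 ∧ b = Sum.inl () ∧ y = Function.update x u (x u + 1))) := by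
    refine mono (seq h (basic (fun (b : Bool) s => if b then (Sum.inr true, fun _ => 1) else
      if s u = (false, none) then (Sum.inr false, fun _ => 1)
      else (Sum.inl (), fun v => if v = u then 2 else 1)))) ?_
    rintro w _ x b y hx (⟨h1, rfl, rfl⟩ | ⟨h1, h2, rfl, rfl⟩ | ⟨h1, h2, rfl, rfl⟩)
    · refine ⟨true, y, ⟨rfl, by simp [h1]⟩, ?_⟩
      simp
    · refine ⟨false, y, ⟨rfl, by simp [h1]⟩, ?_⟩
      have : rd w (y u) = (false, none) := (rd_end w (hx u)).2 h2
      simp [this]
    · refine ⟨false, x, ⟨rfl, by simp [h1]⟩, ?_⟩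
      have : ¬ rd w (x u) = (false, none) := by
        rw [rd_end w (hx u)]; omega
      simp only [this]
      refine ⟨by simp, ?_⟩
      funext v
      by_cases hv : v = u
      · subst hv; simp; omega
      · simp [hv]
  refine mono (loop hb) ?_
  rintro w _ x b y hx ⟨h0, hc⟩
  -- generalize the starting position
  have key : ∀ m s, s + m = w.length + 1 →
      ((b = true ∧ ∃ t ≤ w.length + 1, s ≤ t ∧ R w (Function.update x u t) ∧
          (∀ s' < t, s ≤ s' → ¬ R w (Function.update x u s')) ∧ y = Function.update x u t) ∨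
       (b = false ∧ (∀ t ≤ w.length + 1, s ≤ t → ¬ R w (Function.update x u t)) ∧
          y = Function.update x u (w.length + 1))) →
      Iter (fun _ x b y =>
      (R w x ∧ b = Sum.inr true ∧ y = x) ∨
      (¬ R w x ∧ x u = w.length + 1 ∧ b = Sum.inr false ∧ y = x) ∨
      (¬ R w x ∧ x u < w.length + 1 ∧ b = Sum.inl () ∧ y = Function.update x u (x u + 1)))
        () (Function.update x u s) b y := by
    intro m
    induction m with
    | zero =>
      intro s hs hcs
      rcases hcs with ⟨rfl, t, ht, hst, hRt, _, rfl⟩ | ⟨rfl, hn, rfl⟩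
      · have : t = s := by omega
        subst this
        exact Iter.done (Or.inl ⟨hRt, rfl, rfl⟩)
      · have hs' : s = w.length + 1 := by omega
        subst hs'
        exact Iter.done (Or.inr (Or.inl ⟨hn _ le_rfl le_rfl, by simp, rfl, rfl⟩))
    | succ m ih =>
      intro s hs hcs
      by_cases hR : R w (Function.update x u s)
      · rcases hcs with ⟨rfl, t, ht, hst, hRt, hmin, rfl⟩ | ⟨rfl, hn, rfl⟩
        · have : t = s := by
            by_contra hne
            exact hmin s (by omega) le_rfl hR
          subst this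
          exact Iter.done (Or.inl ⟨hRt, rfl, rfl⟩)
        · exact absurd hR (hn s (by omega) le_rfl)
      · have hstep := ih (s + 1) (by omega) (by
          rcases hcs with ⟨rfl, t, ht, hst, hRt, hmin, rfl⟩ | ⟨rfl, hn, rfl⟩
          · refine Or.inl ⟨rfl, t, ht, ?_, hRt, fun s' h1 h2 => hmin s' h1 (by omega), rfl⟩
            rcases Nat.lt_or_ge s t with h | h
            · exact h
            · have : t = s := by omega
              subst this
              exact absurd hRt hR
          · exact Or.inr ⟨rfl, fun t h1 h2 => hn t h1 (by omega), rfl⟩)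
        refine Iter.more (a' := ()) (Or.inr (Or.inr ⟨hR, by simp; omega, rfl, rfl⟩)) ?_
        simpa using hstep
  have := key (w.length + 1) 0 (by omega) (by
    rcases hc with ⟨hb, t, ht, hRt, hmin, hy⟩ | ⟨hb, hn, hy⟩
    · exact Or.inl ⟨hb, t, ht, Nat.zero_le _, hRt, fun s' h1 _ => hmin s' h1, hy⟩
    · exact Or.inr ⟨hb, fun t h1 _ => hn t h1, hy⟩)
  have h0' : Function.update x u 0 = x := by rw [← h0]; exact Function.update_eq_self u x
  rw [h0'] at this
  exact this

end Comp

namespace IsL

/-- Existential quantification over one position. -/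
theorem ex1 {R : List α → (V ⊕ Unit → ℕ) → Prop} (h : IsL α (V ⊕ Unit) R) :
    IsL α V (fun w x => ∃ t ≤ w.length + 1, R w (Sum.elim x (fun _ => t))) := by
  classical
  have h1 := Comp.search (Sum.inr () : V ⊕ Unit) h
  have h2 : Comp α (V ⊕ Unit) (Unit × Bool) (Unit × Bool) _ :=
    Comp.carry (C := Bool) (Comp.reset (α := α) (Sum.inr () : V ⊕ Unit))
  have h3 := Comp.hide (Comp.seq h1 (Comp.seq (Comp.ctl (fun b : Bool => ((), b)))
    (Comp.seq h2 (Comp.ctl (fun c : Unit × Bool => c.2)))))
  refine Comp.mono h3 ?_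
  rintro w _ x b y hx ⟨h4, h5⟩
  subst h4
  have hup : ∀ t, Function.update (Sum.elim y (fun _ => 0) : V ⊕ Unit → ℕ) (Sum.inr ()) t
      = Sum.elim y (fun _ => t) := by
    intro t
    funext v
    rcases v with v | v
    · simp [Function.update]
    · simp
  have hfin : ∀ t, Function.update (Sum.elim y (fun _ => t) : V ⊕ Unit → ℕ) (Sum.inr ()) 0
      = Sum.elim y (fun _ => 0) := by
    intro t
    funext v
    rcases v with v | v
    · simp [Function.update]
    · simp
  by_cases hex : ∃ t ≤ w.length + 1, R w (Sum.elim y (fun _ => t))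
  · have hb : b = true := h5.2 hex
    subst hb
    classical
    let t := Nat.find hex
    have ht := Nat.find_spec hex
    refine ⟨true, Sum.elim y (fun _ => t), ⟨rfl, Or.inl ⟨rfl, t, ht.1, ?_, ?_, ?_⟩⟩,
      ((), true), _, ⟨rfl, rfl⟩, ((), true), Sum.elim y (fun _ => 0), ⟨?_, rfl⟩, rfl, rfl⟩
    · rw [hup]; exact ht.2
    · intro s hs
      rw [hup]
      intro hR
      exact Nat.find_min hex hs ⟨by have := ht.1; omega, hR⟩
    · rw [hup]
    · rw [hfin]
  · have hb : b = false := by
      rw [← Bool.not_eq_true, h5]; exact hex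
    subst hb
    refine ⟨false, Sum.elim y (fun _ => w.length + 1), ⟨rfl, Or.inr ⟨rfl, ?_, ?_⟩⟩,
      ((), false), _, ⟨rfl, rfl⟩, ((), false), Sum.elim y (fun _ => 0), ⟨?_, rfl⟩, rfl, rfl⟩
    · intro t ht
      rw [hup]
      intro hR
      exact hex ⟨t, ht, hR⟩
    · rw [hup]
    · rw [hfin]

/-- Existential quantification over finitely many positions. -/
theorem ex [Finite U] {R : List α → (V ⊕ U → ℕ) → Prop} (h : IsL α (V ⊕ U) R) :
    IsL α V (fun w x => ∃ t : U → ℕ, (∀ u, t u ≤ w.length + 1) ∧ R w (Sum.elim x t)) := by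
  revert V
  refine Finite.induction_empty_option (P := fun U => ∀ {V : Type}
    {R : List α → (V ⊕ U → ℕ) → Prop}, IsL α (V ⊕ U) R →
    IsL α V (fun w x => ∃ t : U → ℕ, (∀ u, t u ≤ w.length + 1) ∧ R w (Sum.elim x t)))
    ?_ ?_ ?_ U
  · intro U1 U2 e ih V R h
    have h1 := ih (equiv h (Equiv.sumCongr (Equiv.refl V) e.symm))
    refine congr h1 ?_
    intro w x _
    constructor
    · rintro ⟨t, ht, hR⟩
      refine ⟨t ∘ e, fun u => ht _, ?_⟩
      convert hR using 1
      funext v
      rcases v with v | v <;> simp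
    · rintro ⟨t, ht, hR⟩
      refine ⟨t ∘ e.symm, fun u => ht _, ?_⟩
      convert hR using 1
      funext v
      rcases v with v | v <;> simp
  · intro V R h
    have h1 := equiv h (Equiv.sumEmpty V PEmpty)
    refine congr h1 ?_
    intro w x _
    constructor
    · rintro ⟨t, ht, hR⟩
      convert hR using 1
      funext v
      rcases v with v | v
      · simp
      · exact v.elim
    · intro hR
      refine ⟨fun u => u.elim, fun u => u.elim, ?_⟩
      convert hR using 1
      funext v
      rcases v with v | v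
      · simp
      · exact v.elim
  · intro U _ ih V R h
    let e : V ⊕ Option U ≃ (V ⊕ Unit) ⊕ U :=
      { toFun := fun v => match v with
          | Sum.inl v => Sum.inl (Sum.inl v)
          | Sum.inr none => Sum.inl (Sum.inr ())
          | Sum.inr (some u) => Sum.inr u
        invFun := fun v => match v with
          | Sum.inl (Sum.inl v) => Sum.inl v
          | Sum.inl (Sum.inr ()) => Sum.inr none
          | Sum.inr u => Sum.inr (some u)
        left_inv := by
          rintro (v | (_ | u)) <;> rfl
        right_inv := by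
          rintro ((v | v) | u) <;> rfl }
    have h1 := ex1 (ih (equiv h e))
    refine congr h1 ?_
    intro w x _
    constructor
    · rintro ⟨t, ht, hR⟩
      refine ⟨t none, ht none, t ∘ some, fun u => ht _, ?_⟩
      convert hR using 1
      funext v
      rcases v with v | (_ | u) <;> rfl
    · rintro ⟨s, hs, t, ht, hR⟩
      refine ⟨fun o => o.elim s t, ?_, ?_⟩
      · rintro (_ | u)
        · exact hs
        · exact ht u
      · convert hR using 1
        funext v
        rcases v with v | (_ | u) <;> rfl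

theorem all [Finite U] {R : List α → (V ⊕ U → ℕ) → Prop} (h : IsL α (V ⊕ U) R) :
    IsL α V (fun w x => ∀ t : U → ℕ, (∀ u, t u ≤ w.length + 1) → R w (Sum.elim x t)) := by
  refine congr (not (ex (not h))) ?_
  intro w x _
  push Not
  rfl

end IsL

end Pool.Agent.Helper6
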