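import Pool.Agent.Helper6.MHeadB

set_option autoImplicit false

/-!
Equality and successor of positions, assignment, bounded iteration and deterministic transitive
closure for two-way multihead deterministic finite automata.
-/

namespace Pool.Agent.Helper6

open Relation

variable {α V V' U : Type}

/-- Three head positions. -/
def tri (a b c : ℕ) : Bool ⊕ Unit → ℕ := Sum.elim (fun i => if i then b else a) (fun _ => c)

theorem tri_ext {x : Bool ⊕ Unit → ℕ} :
    x = tri (x (Sum.inl false)) (x (Sum.inl true)) (x (Sum.inr ())) := by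
  funext v
  rcases v with (_ | _) | v <;> rfl

/-- First loop for equality: walk both heads to the left, counting with the third one. -/
theorem eqLoop1 : Comp α (Bool ⊕ Unit) Unit Bool (fun w _ x b y =>
    ∃ a c, a ≤ w.length + 1 ∧ c ≤ w.length + 1 ∧ x = tri a c 0 ∧ b = decide (a = c) ∧
      y = tri (a - min a c) (c - min a c) (min a c)) := by
  have hb : Comp α (Bool ⊕ Unit) Unit (Unit ⊕ Bool) (fun w _ x b y =>
      ∃ a c m, x = tri a c m ∧ m < w.length + 1 ∧
      (((a = 0 ∨ c = 0) ∧ b = Sum.inr (decide (a = 0 ∧ c = 0)) ∧ y = tri a c m) ∨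
      ((a ≠ 0 ∧ c ≠ 0) ∧ b = Sum.inl () ∧ y = tri (a - 1) (c - 1) (m + 1))) ∨
      (x = tri a c m ∧ (a = 0 ∨ c = 0) ∧ b = Sum.inr (decide (a = 0 ∧ c = 0)) ∧
        y = tri a c m)) := by
    refine Comp.mono (Comp.basic (fun _ s =>
      if (s (Sum.inl false)).1 ∨ (s (Sum.inl true)).1 then
        (Sum.inr (decide ((s (Sum.inl false)).1 ∧ (s (Sum.inl true)).1)), fun _ => 1)
      else (Sum.inl (), fun v => match v with
        | Sum.inl _ => 0
        | Sum.inr _ => 2))) ?_
    rintro w _ x b y _ ⟨a, c, m, h⟩
    have hfin : ∀ (hh : x = tri a c m ∧ (a = 0 ∨ c = 0) ∧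
        b = Sum.inr (decide (a = 0 ∧ c = 0)) ∧ y = tri a c m),
        (b = (if (rd w (x (Sum.inl false))).1 ∨ (rd w (x (Sum.inl true))).1 then
        (Sum.inr (decide ((rd w (x (Sum.inl false))).1 ∧ (rd w (x (Sum.inl true))).1)),
          fun _ => (1 : Fin 3))
      else (Sum.inl (), fun v => match v with
        | Sum.inl _ => 0
        | Sum.inr _ => 2) : (Unit ⊕ Bool) × (Bool ⊕ Unit → Fin 3)).1 ∧
        y = fun v => mv w.length ((if (rd w (x (Sum.inl false))).1 ∨ (rd w (x (Sum.inl true))).1
        then (Sum.inr (decide ((rd w (x (Sum.inl false))).1 ∧ (rd w (x (Sum.inl true))).1)),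
          fun _ => (1 : Fin 3))
      else (Sum.inl (), fun v => match v with
        | Sum.inl _ => 0
        | Sum.inr _ => 2) : (Unit ⊕ Bool) × (Bool ⊕ Unit → Fin 3)).2 v) (x v)) := by
      rintro ⟨rfl, h1, rfl, rfl⟩
      have h2 : (rd w (tri a c m (Sum.inl false))).1 ∨ (rd w (tri a c m (Sum.inl true))).1 := by
        simpa [rd_fst, tri] using h1
      rw [if_pos h2]
      refine ⟨?_, ?_⟩
      · simp only [rd_fst]
        rfl
      · funext v
        simp
    rcases h with ⟨rfl, hm, (⟨h1, h2, h3⟩ | ⟨h1, rfl, rfl⟩)⟩ | h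
    · exact hfin ⟨rfl, h1, h2, h3⟩
    · have h2 : ¬ ((rd w (tri a c m (Sum.inl false))).1 ∨
          (rd w (tri a c m (Sum.inl true))).1) := by
        simp only [rd_fst]
        rintro (h | h)
        · exact h1.1 h
        · exact h1.2 h
      rw [if_neg h2]
      refine ⟨rfl, ?_⟩
      funext v
      rcases v with (_ | _) | v
      · simp [tri]
      · simp [tri]
      · simp [tri]; omega
    · exact hfin h
  refine Comp.mono (Comp.loop hb) ?_
  rintro w _ x b y _ ⟨a, c, ha, hc, rfl, rfl, rfl⟩
  have key : ∀ k a c m, min a c = k → m + k ≤ w.length + 1 →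
      Comp.Iter (fun (_ : Unit) (x : Bool ⊕ Unit → ℕ) (b : Unit ⊕ Bool) y =>
      ∃ a c m, x = tri a c m ∧ m < w.length + 1 ∧
      (((a = 0 ∨ c = 0) ∧ b = Sum.inr (decide (a = 0 ∧ c = 0)) ∧ y = tri a c m) ∨
      ((a ≠ 0 ∧ c ≠ 0) ∧ b = Sum.inl () ∧ y = tri (a - 1) (c - 1) (m + 1))) ∨
      (x = tri a c m ∧ (a = 0 ∨ c = 0) ∧ b = Sum.inr (decide (a = 0 ∧ c = 0)) ∧
        y = tri a c m)) () (tri a c m) (decide (a = c)) (tri (a - k) (c - k) (m + k)) := by
    intro k
    induction k with
    | zero =>
      intro a c m hk hm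
      refine Comp.Iter.done ⟨a, c, m, Or.inr ⟨rfl, by omega, ?_, rfl⟩⟩
      congr 1
      rw [decide_eq_decide]
      omega
    | succ k ih =>
      intro a c m hk hm
      have h1 := ih (a - 1) (c - 1) (m + 1) (by omega) (by omega)
      have e1 : a - 1 - k = a - (k + 1) := by omega
      have e2 : c - 1 - k = c - (k + 1) := by omega
      have e3 : m + 1 + k = m + (k + 1) := by omega
      have e4 : decide (a - 1 = c - 1) = decide (a = c) := by
        rw [decide_eq_decide]; omega
      rw [e1, e2, e3, e4] at h1
      exact Comp.Iter.more (a' := ()) ⟨a, c, m, Or.inl ⟨rfl, by omega,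
        Or.inr ⟨⟨by omega, by omega⟩, rfl, rfl⟩⟩⟩ h1
  have := key (min a c) a c 0 rfl (by omega)
  simpa using this

/-- Second loop for equality: undo the walk. -/
theorem eqLoop2 : Comp α (Bool ⊕ Unit) Bool Bool (fun w r x b y =>
    ∃ a c m, x = tri a c m ∧ a + m ≤ w.length + 1 ∧ c + m ≤ w.length + 1 ∧ b = r ∧
      y = tri (a + m) (c + m) 0) := by
  have hb : Comp α (Bool ⊕ Unit) Bool (Bool ⊕ Bool) (fun w r x b y =>
      ∃ a c m, x = tri a c m ∧
      ((m = 0 ∧ b = Sum.inr r ∧ y = tri a c m) ∨
      (m ≠ 0 ∧ a + 1 ≤ w.length + 1 ∧ c + 1 ≤ w.length + 1 ∧ b = Sum.inl r ∧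
        y = tri (a + 1) (c + 1) (m - 1)))) := by
    refine Comp.mono (Comp.basic (fun r s =>
      if (s (Sum.inr ())).1 then (Sum.inr r, fun _ => 1)
      else (Sum.inl r, fun v => match v with
        | Sum.inl _ => 2
        | Sum.inr _ => 0))) ?_
    rintro w r x b y _ ⟨a, c, m, rfl, (⟨h1, rfl, rfl⟩ | ⟨h1, ha, hc, rfl, rfl⟩)⟩
    · have h2 : (rd w (tri a c m (Sum.inr ()))).1 = true := by
        rw [rd_fst]; exact h1
      simp only [h2, if_true]
      refine ⟨trivial, ?_⟩
      funext v
      simp
    · have h2 : (rd w (tri a c m (Sum.inr ()))).1 = false := by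
        rw [rd_fst_false]; exact h1
      simp only [h2]
      refine ⟨rfl, ?_⟩
      funext v
      rcases v with (_ | _) | v
      · simp [tri]; omega
      · simp [tri]; omega
      · simp [tri]
  refine Comp.mono (Comp.loop hb) ?_
  rintro w r x b y _ ⟨a, c, m, rfl, ha, hc, rfl, rfl⟩
  induction m generalizing a c with
  | zero => exact Comp.Iter.done ⟨a, c, 0, rfl, Or.inl ⟨rfl, rfl, rfl⟩⟩
  | succ m ih =>
    have h1 := ih (a + 1) (c + 1) (by
      intro v
      rcases v with (_ | _) | v
      · simp [tri]; omega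
      · simp [tri]; omega
      · simp [tri]; omega) (by omega) (by omega)
    have e1 : a + 1 + m = a + (m + 1) := by omega
    have e2 : c + 1 + m = c + (m + 1) := by omega
    rw [e1, e2] at h1
    exact Comp.Iter.more (a' := b) ⟨a, c, m + 1, rfl, Or.inr ⟨by omega, by omega, by omega, rfl,
      rfl⟩⟩ h1

namespace IsL

theorem eqBool : IsL α Bool (fun _ x => x false = x true) := by
  refine Comp.mono (Comp.hide (Comp.seq eqLoop1 eqLoop2)) ?_
  rintro w _ x b y hx ⟨rfl, h⟩
  have hy : (Sum.elim y (fun _ => 0) : Bool ⊕ Unit → ℕ) = tri (y false) (y true) 0 := by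
    funext v
    rcases v with (_ | _) | v <;> rfl
  refine ⟨decide (y false = y true), _, ⟨y false, y true, hx _, hx _, hy, rfl, rfl⟩, ?_⟩
  have h1 := hx false
  have h2 := hx true
  refine ⟨_, _, _, rfl, by omega, by omega, ?_, ?_⟩
  · rw [Bool.eq_iff_iff, h]; simp
  · rw [hy]
    congr 1 <;> omega

theorem eq (u v : V) : IsL α V (fun _ x => x u = x v) := by
  by_cases huv : u = v
  · subst huv
    exact congr (const True) (by intro w x _; simp)
  · refine congr (lift eqBool (fun b : Bool => if b then v else u) ?_) ?_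
    · intro a b hab
      rcases a with _ | _ <;> rcases b with _ | _
      · rfl
      · exact absurd (by simpa using hab) huv
      · exact absurd (by simpa using hab.symm) huv
      · rfl
    · intro w x _
      simp

/-- Substitution of the predecessor. -/
theorem pred [DecidableEq V] (u : V) {R : List α → (V → ℕ) → Prop} (h : IsL α V R) :
    IsL α V (fun w x => x u ≠ 0 ∧ R w (Function.update x u (x u - 1))) := by
  have h1 : Comp α V Unit Bool (fun w _ x b y =>
      (x u = 0 ∧ b = false ∧ y = x) ∨
      (x u ≠ 0 ∧ b = true ∧ y = Function.update x u (x u - 1))) := by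
    refine Comp.mono (Comp.basic (fun _ s => if (s u).1 then (false, fun _ => 1)
      else (true, fun v => if v = u then 0 else 1))) ?_
    rintro w _ x b y _ (⟨h1, rfl, rfl⟩ | ⟨h1, rfl, rfl⟩)
    · have h2 : (rd w (y u)).1 = true := by rw [rd_fst]; exact h1
      simp [h2]
    · have h2 : (rd w (x u)).1 = false := by rw [rd_fst_false]; exact h1
      simp only [h2]
      refine ⟨rfl, ?_⟩
      funext v
      by_cases hv : v = u
      · subst hv; simp
      · simp [hv]
  have h2 : Comp α V Unit Bool (fun w _ x b y => (b = true ↔ R w x) ∧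
      y = Function.update x u (mv w.length 2 (x u))) := by
    refine Comp.mono (Comp.seq h (Comp.basic (fun b _ => (b, fun v => if v = u then 2 else 1)))) ?_
    rintro w _ x b y _ ⟨hb, rfl⟩
    refine ⟨b, x, ⟨rfl, hb⟩, rfl, ?_⟩
    funext v
    by_cases hv : v = u
    · subst hv; simp
    · simp [hv]
  have h3 : Comp α V Bool Bool (fun w c x b y =>
      (c = false ∧ b = false ∧ y = x) ∨ (c = true ∧ (b = true ↔ R w x) ∧
      y = Function.update x u (mv w.length 2 (x u)))) := by
    refine Comp.family (F := fun (c : Bool) w x b y =>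
      (c = false ∧ b = false ∧ y = x) ∨ (c = true ∧ (b = true ↔ R w x) ∧
      y = Function.update x u (mv w.length 2 (x u)))) ?_
    rintro (_ | _)
    · refine Comp.mono (Comp.ctl (fun _ => false)) ?_
      rintro w _ x b y _ (⟨_, rfl, rfl⟩ | ⟨h, _⟩)
      · exact ⟨rfl, rfl⟩
      · exact absurd h (by simp)
    · refine Comp.mono h2 ?_
      rintro w _ x b y _ (⟨h, _⟩ | ⟨_, h⟩)
      · exact absurd h (by simp)
      · exact h
  refine Comp.mono (Comp.seq h1 h3) ?_
  rintro w _ x b y hx ⟨rfl, hb⟩
  by_cases h0 : y u = 0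
  · refine ⟨false, y, Or.inl ⟨h0, rfl, rfl⟩, Or.inl ⟨rfl, ?_, rfl⟩⟩
    rw [← Bool.not_eq_true, hb]
    rintro ⟨h, _⟩
    exact h h0
  · refine ⟨true, _, Or.inr ⟨h0, rfl, rfl⟩, Or.inr ⟨rfl, ?_, ?_⟩⟩
    · rw [hb]
      exact ⟨fun h => h.2, fun h => ⟨h0, h⟩⟩
    · funext v
      by_cases hv : v = u
      · subst hv
        have := hx v
        simp
        omega
      · simp [hv]

theorem succ (u v : V) : IsL α V (fun _ x => x u + 1 = x v) := by
  classical
  by_cases huv : u = v
  · subst huv
    exact congr (const False) (by intro w x _; simp)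
  · refine congr (pred v (eq u v)) ?_
    intro w x _
    rw [Function.update_of_ne huv, Function.update_self]
    omega

theorem isZero (u : V) : IsL α V (fun _ x => x u = 0) := by
  refine congr (sym u (fun s => s.1 = true)) ?_
  intro w x _
  rw [rd_fst]

theorem isEnd (u : V) : IsL α V (fun w x => x u = w.length + 1) := by
  refine congr (sym u (fun s => s = (false, none))) ?_
  intro w x hx
  rw [rd_end w (hx u)]

/-- The graph of a head movement. -/
theorem mvGraph (d : Fin 3) (u v : V) : IsL α V (fun w x => x v = mv w.length d (x u)) := by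
  match d with
  | 0 =>
    refine congr (or (and (isZero u) (isZero v)) (succ v u)) ?_
    intro w x _
    simp
    omega
  | 1 =>
    refine congr (eq v u) ?_
    intro w x _
    simp
  | 2 =>
    refine congr (or (and (isEnd u) (isEnd v)) (succ u v)) ?_
    intro w x hx
    have h1 := hx u
    have h2 := hx v
    simp
    omega

/-- Arbitrary substitution of variables. -/
theorem subst [Finite V] {R : List α → (V → ℕ) → Prop} (h : IsL α V R) (e : V → V') :
    IsL α V' (fun w x => R w (x ∘ e)) := by
  have h1 : IsL α (V' ⊕ V) (fun w x => (∀ v, x (Sum.inr v) = x (Sum.inl (e v))) ∧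
      R w (x ∘ Sum.inr)) :=
    and (bigAnd (fun v => eq (Sum.inr v) (Sum.inl (e v)))) (lift h Sum.inr Sum.inr_injective)
  refine congr (ex h1) ?_
  intro w x hx
  constructor
  · intro hR
    exact ⟨x ∘ e, fun v => hx _, fun v => rfl, by simpa using hR⟩
  · rintro ⟨t, ht, heq, hR⟩
    have : t = x ∘ e := by
      funext v
      exact heq v
    subst this
    simpa using hR

end IsL

namespace Comp

/-- Move the value of head `c` to head `u`, which must be on the left endmarker. -/
theorem transfer [DecidableEq V] (c u : V) (hcu : c ≠ u) :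
    Comp α V Unit Unit (fun _ _ x _ y => x u = 0 ∧
      y = Function.update (Function.update x u (x c)) c 0) := by
  have hb : Comp α V Unit (Unit ⊕ Unit) (fun w _ x b y =>
      (x c = 0 ∧ b = Sum.inr () ∧ y = x) ∨
      (x c ≠ 0 ∧ x u < w.length + 1 ∧ b = Sum.inl () ∧
        y = Function.update (Function.update x u (x u + 1)) c (x c - 1))) := by
    refine mono (basic (fun _ s => if (s c).1 then (Sum.inr (), fun _ => 1)
      else (Sum.inl (), fun v => if v = c then 0 else if v = u then 2 else 1))) ?_
    rintro w _ x b y _ (⟨h1, rfl, rfl⟩ | ⟨h1, h2, rfl, rfl⟩)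
    · have : (rd w (y c)).1 = true := by rw [rd_fst]; exact h1
      simp [this]
    · have : (rd w (x c)).1 = false := by rw [rd_fst_false]; exact h1
      simp only [this]
      refine ⟨rfl, ?_⟩
      funext v
      by_cases hv : v = c
      · subst hv; simp
      · by_cases hv' : v = u
        · subst hv'
          simp [hv]
          omega
        · simp [hv, hv']
  refine mono (loop hb) ?_
  rintro w _ x _ y hx ⟨h0, rfl⟩
  have key : ∀ m x, (∀ v, x v ≤ w.length + 1) → x c = m → x u + x c ≤ w.length + 1 →
      Iter (fun (_ : Unit) x (b : Unit ⊕ Unit) y =>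
      (x c = 0 ∧ b = Sum.inr () ∧ y = x) ∨
      (x c ≠ 0 ∧ x u < w.length + 1 ∧ b = Sum.inl () ∧
        y = Function.update (Function.update x u (x u + 1)) c (x c - 1)))
      () x () (Function.update (Function.update x u (x u + x c)) c 0) := by
    intro m
    induction m with
    | zero =>
      intro x _ hm _
      refine Iter.done (Or.inl ⟨hm, rfl, ?_⟩)
      funext v
      by_cases hv : v = c
      · subst hv; simp [hm]
      · by_cases hv' : v = u
        · subst hv'
          simp [hv, hm]
        · simp [hv, hv']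
    | succ m ih =>
      intro x hx hm hle
      have h1 := ih (Function.update (Function.update x u (x u + 1)) c (x c - 1)) (by
        intro v
        by_cases hv : v = c
        · subst hv; simp; have := hx v; omega
        · by_cases hv' : v = u
          · subst hv'
            simp [hv]; omega
          · simp [hv, hv']; exact hx v) (by simp [hm])
          (by simp [hcu.symm]; omega)
      refine Iter.more (a' := ()) (Or.inr ⟨by omega, by omega, rfl, rfl⟩) ?_
      convert h1 using 1
      funext v
      by_cases hv : v = c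
      · subst hv; simp
      · by_cases hv' : v = u
        · subst hv'
          simp [hv]
          omega
        · simp [hv, hv']
  have := key (x c) x hx rfl (by have := hx c; omega)
  simpa [h0] using this

/-- Assign to head `u` the value `f w x`, whose graph is decidable. -/
theorem assign [DecidableEq V] (u : V) {f : List α → (V → ℕ) → ℕ}
    (hf : IsL α (V ⊕ Unit) (fun w z => z (Sum.inr ()) = f w (z ∘ Sum.inl)))
    (hbd : ∀ w x, (∀ v, x v ≤ w.length + 1) → f w x ≤ w.length + 1) :
    Comp α V Unit Unit (fun w _ x _ y => y = Function.update x u (f w x)) := by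
  have h1 := search (Sum.inr () : V ⊕ Unit) hf
  have h2 := reset (α := α) (Sum.inl u : V ⊕ Unit)
  have h3 := transfer (α := α) (Sum.inr () : V ⊕ Unit) (Sum.inl u) (by simp)
  have h4 := hide (seq h1 (seq (ctl (fun _ => ())) (seq h2 h3)))
  refine mono h4 ?_
  rintro w _ x _ y hx rfl
  have hup : ∀ t, Function.update (Sum.elim x (fun _ => 0) : V ⊕ Unit → ℕ) (Sum.inr ()) t
      = Sum.elim x (fun _ => t) := by
    intro t
    funext v
    rcases v with v | v
    · simp [Function.update]
    · simp
  refine ⟨true, Sum.elim x (fun _ => f w x), ⟨rfl, Or.inl ⟨rfl, f w x, hbd w x hx, ?_, ?_, ?_⟩⟩,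
    (), _, ⟨rfl, rfl⟩, (), _, rfl, ?_⟩
  · rw [hup]
    rfl
  · intro s hs hR
    rw [hup] at hR
    have : s = f w x := hR
    omega
  · rw [hup]
  · refine ⟨Function.update_self _ _ _, ?_⟩
    have hne : (Sum.inr () : V ⊕ Unit) ≠ Sum.inl u := by simp
    funext v
    rcases v with v | v
    · have hv1 : (Sum.inl v : V ⊕ Unit) ≠ Sum.inr () := by simp
      rw [Function.update_of_ne hv1]
      by_cases hv : v = u
      · subst hv
        rw [Function.update_self, Function.update_of_ne hne]
        simp only [Sum.elim_inl, Sum.elim_inr, Function.update_self]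
      · have hv2 : (Sum.inl v : V ⊕ Unit) ≠ Sum.inl u := by simpa using hv
        rw [Function.update_of_ne hv2, Function.update_of_ne hv2]
        simp only [Sum.elim_inl, Function.update_of_ne hv]
    · have : v = () := rfl
      subst this
      rw [Function.update_self]
      rfl

/-- Assign all heads in the second group. -/
theorem assignAll [Finite U] {f : List α → (V → ℕ) → (U → ℕ)}
    (hf : ∀ u, IsL α (V ⊕ Unit) (fun w z => z (Sum.inr ()) = f w (z ∘ Sum.inl) u))
    (hbd : ∀ w x, (∀ v, x v ≤ w.length + 1) → ∀ u, f w x u ≤ w.length + 1) :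
    Comp α (V ⊕ U) Unit Unit (fun w _ x _ y => y = Sum.elim (x ∘ Sum.inl)
      (f w (x ∘ Sum.inl))) := by
  classical
  have key : ∀ l : List U, Comp α (V ⊕ U) Unit Unit (fun w _ x _ y =>
      y = Sum.elim (x ∘ Sum.inl)
        (fun u => if u ∈ l then f w (x ∘ Sum.inl) u else x (Sum.inr u))) := by
    intro l
    induction l with
    | nil =>
      refine mono (ctl (fun _ => ())) ?_
      rintro w _ x _ y _ rfl
      refine ⟨rfl, ?_⟩
      funext v
      rcases v with v | v
      · rfl
      · simp
    | cons u l ih =>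
      have h1 : Comp α (V ⊕ U) Unit Unit (fun w _ x _ y => y = Function.update x (Sum.inr u)
          (f w (x ∘ Sum.inl) u)) := by
        refine assign (Sum.inr u) (f := fun w x => f w (x ∘ Sum.inl) u) ?_ ?_
        · exact IsL.lift (hf u) (Sum.map Sum.inl id)
            (Sum.map_injective.2 ⟨Sum.inl_injective, Function.injective_id⟩)
        · intro w x hx
          exact hbd w _ (fun v => hx _) u
      refine mono (seq ih h1) ?_
      rintro w _ x _ y _ rfl
      refine ⟨(), _, rfl, ?_⟩
      funext v
      rcases v with v | v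
      · simp [Function.update]
      · by_cases hv : v = u
        · subst hv
          simp
        · have : (Sum.inr v : V ⊕ U) ≠ Sum.inr u := by simpa using hv
          rw [Function.update_of_ne this]
          simp [hv]
  obtain ⟨l, hl⟩ : ∃ l : List U, ∀ u, u ∈ l := by
    have := Fintype.ofFinite U
    exact ⟨(Finset.univ : Finset U).toList, by simp⟩
  refine mono (key l) ?_
  rintro w _ x _ y _ rfl
  simp [hl]

end Comp

end Pool.Agent.Helper6
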