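import Pool.Agent.Helper6.MHeadC

set_option autoImplicit false

/-!
Bounded iteration and deterministic transitive closure.
-/

namespace Pool.Agent.Helper6

open Relation

variable {α V V' U : Type}

namespace Comp

/-- Replace the head positions `x` by `f w x`. -/
theorem inPlace [Finite V] {f : List α → (V → ℕ) → (V → ℕ)}
    (hf : ∀ u, IsL α (V ⊕ Unit) (fun w z => z (Sum.inr ()) = f w (z ∘ Sum.inl) u))
    (hbd : ∀ w x, (∀ v, x v ≤ w.length + 1) → ∀ u, f w x u ≤ w.length + 1) :
    Comp α V Unit Unit (fun w _ x _ y => y = f w x) := by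
  have h1 := assignAll hf hbd
  have h2' : Comp α (V ⊕ V) Unit Unit (fun _ _ x _ y => y = Sum.elim (x ∘ Sum.inl)
      (x ∘ Sum.inl)) := by
    refine assignAll (f := fun _ x => x) ?_ ?_
    · intro u
      exact IsL.eq (Sum.inr ()) (Sum.inl u)
    · intro w x hx
      exact hx
  have h2 := lift h2' (Equiv.sumComm V V) (Equiv.injective _)
  have h3 : Comp α (V ⊕ V) Unit Unit (fun _ _ x _ y => y = Sum.elim (x ∘ Sum.inl)
      (fun _ => 0)) := by
    refine assignAll (f := fun _ _ _ => 0) ?_ ?_
    · intro u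
      exact IsL.isZero (Sum.inr ())
    · intro w x _ _
      exact Nat.zero_le _
  refine mono (hide (seq h1 (seq h2 h3))) ?_
  rintro w _ x _ y _ rfl
  refine ⟨(), _, rfl, (), Sum.elim (f w x) (f w x), ⟨?_, ?_⟩, ?_⟩
  · funext v
    rcases v with v | v <;> rfl
  · intro v hv
    exact absurd (Equiv.range_eq_univ (Equiv.sumComm V V) ▸ Set.mem_univ v) hv
  · funext v
    rcases v with v | v <;> rfl

/-- Iterate a function `n + 2` times. -/
theorem iter1 {f : List α → (V → ℕ) → (V → ℕ)}
    (hf : Comp α V Unit Unit (fun w _ x _ y => y = f w x)) :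
    Comp α V Unit Unit (fun w _ x _ y => y = (f w)^[w.length + 2] x) := by
  classical
  have h1 := lift hf (Sum.inl : V → V ⊕ Unit) Sum.inl_injective
  have hb : Comp α (V ⊕ Unit) Unit (Unit ⊕ Unit) (fun w _ x b y =>
      (x (Sum.inr ()) = w.length + 1 ∧ b = Sum.inr () ∧
        y = Sum.elim (f w (x ∘ Sum.inl)) (x ∘ Sum.inr)) ∨
      (x (Sum.inr ()) < w.length + 1 ∧ b = Sum.inl () ∧
        y = Sum.elim (f w (x ∘ Sum.inl)) (fun _ => x (Sum.inr ()) + 1))) := by
    refine mono (seq h1 (basic (fun _ s => if s (Sum.inr ()) = (false, none)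
      then (Sum.inr (), fun _ => 1)
      else (Sum.inl (), fun v => match v with
        | Sum.inl _ => 1
        | Sum.inr _ => 2)))) ?_
    rintro w _ x b y hx (⟨h1, rfl, rfl⟩ | ⟨h1, rfl, rfl⟩)
    · refine ⟨(), Sum.elim (f w (x ∘ Sum.inl)) (x ∘ Sum.inr), ⟨by simp, ?_⟩, ?_⟩
      · rintro (v | v) hv
        · exact absurd ⟨v, rfl⟩ hv
        · rfl
      · have : rd w (x (Sum.inr ())) = (false, none) := (rd_end w (hx _)).2 h1
        simp [this]
    · refine ⟨(), Sum.elim (f w (x ∘ Sum.inl)) (x ∘ Sum.inr), ⟨by simp, ?_⟩, ?_⟩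
      · rintro (v | v) hv
        · exact absurd ⟨v, rfl⟩ hv
        · rfl
      · have : ¬ rd w (x (Sum.inr ())) = (false, none) := by
          rw [rd_end w (hx _)]; omega
        simp only [Sum.elim_inr, Function.comp_apply, this, if_false]
        refine ⟨trivial, ?_⟩
        funext v
        rcases v with v | v
        · simp
        · simp; omega
  have h2 := hide (seq (loop hb) (reset (Sum.inr ())))
  refine mono h2 ?_
  rintro w _ x _ y hx rfl
  refine ⟨(), Sum.elim ((f w)^[w.length + 2] x) (fun _ => w.length + 1), ?_, ?_⟩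
  · have key : ∀ m t, t + m = w.length + 1 → ∀ x : V → ℕ,
        Iter (fun (_ : Unit) (x : V ⊕ Unit → ℕ) (b : Unit ⊕ Unit) (y : V ⊕ Unit → ℕ) =>
        (x (Sum.inr ()) = w.length + 1 ∧ b = Sum.inr () ∧
          y = Sum.elim (f w (x ∘ Sum.inl)) (x ∘ Sum.inr)) ∨
        (x (Sum.inr ()) < w.length + 1 ∧ b = Sum.inl () ∧
          y = Sum.elim (f w (x ∘ Sum.inl)) (fun _ => x (Sum.inr ()) + 1)))
          () (Sum.elim x (fun _ => t)) ()
          (Sum.elim ((f w)^[m + 1] x) (fun _ => w.length + 1)) := by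
      intro m
      induction m with
      | zero =>
        intro t ht x
        refine Iter.done (Or.inl ⟨by simpa using ht, rfl, ?_⟩)
        have : t = w.length + 1 := by omega
        subst this
        rfl
      | succ m ih =>
        intro t ht x
        have h3 := ih (t + 1) (by omega) (f w x)
        refine Iter.more (a' := ()) (Or.inr ⟨by simp; omega, rfl, rfl⟩) ?_
        rw [Function.iterate_succ_apply]
        exact h3
    exact key (w.length + 1) 0 (by omega) x
  · funext v
    rcases v with v | v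
    · simp [Function.update]
    · have : v = () := rfl
      subst this
      simp

/-- Iterate a function `(n + 2) ^ m` times. -/
theorem iterPow {f : List α → (V → ℕ) → (V → ℕ)}
    (hf : Comp α V Unit Unit (fun w _ x _ y => y = f w x)) (m : ℕ) :
    Comp α V Unit Unit (fun w _ x _ y => y = (f w)^[(w.length + 2) ^ m] x) := by
  induction m with
  | zero =>
    refine mono hf ?_
    rintro w _ x _ y _ rfl
    simp
  | succ m ih =>
    have h := iter1 (f := fun w => (f w)^[(w.length + 2) ^ m]) ih
    refine mono h ?_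
    rintro w _ x _ y _ rfl
    rw [pow_succ, Function.iterate_mul]

end Comp

namespace IsL

/-- The graph of a computable function is decidable. -/
theorem ofFun [Finite V] {f : List α → (V → ℕ) → (V → ℕ)}
    (hf : Comp α V Unit Unit (fun w _ x _ y => y = f w x)) :
    IsL α (V ⊕ V) (fun w z => z ∘ Sum.inr = f w (z ∘ Sum.inl)) := by
  -- heads `(V ⊕ V) ⊕ V`
  have h1 : Comp α ((V ⊕ V) ⊕ V) Unit Unit (fun _ _ x _ y => y = Sum.elim (x ∘ Sum.inl)
      (x ∘ Sum.inl ∘ Sum.inl)) := by
    refine Comp.assignAll (f := fun _ x => x ∘ Sum.inl) ?_ ?_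
    · intro u
      exact IsL.eq (Sum.inr ()) (Sum.inl (Sum.inl u))
    · intro w x hx u
      exact hx _
  have h2 := Comp.lift hf (Sum.inr : V → (V ⊕ V) ⊕ V) Sum.inr_injective
  have h3 : IsL α ((V ⊕ V) ⊕ V) (fun _ x => ∀ v, x (Sum.inl (Sum.inr v)) = x (Sum.inr v)) :=
    bigAnd (fun v => eq _ _)
  have h4' : Comp α ((V ⊕ V) ⊕ V) Unit Unit (fun _ _ x _ y => y = Sum.elim (x ∘ Sum.inl)
      (fun _ => 0)) := by
    refine Comp.assignAll (f := fun _ _ _ => 0) ?_ ?_
    · intro u
      exact IsL.isZero (Sum.inr ())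
    · intro w x _ _
      exact Nat.zero_le _
  have h4 : Comp α ((V ⊕ V) ⊕ V) (Unit × Bool) (Unit × Bool) _ := Comp.carry (C := Bool) h4'
  refine Comp.mono (Comp.hide (Comp.seq h1 (Comp.seq h2 (Comp.seq h3 (Comp.seq
    (Comp.ctl (fun b : Bool => ((), b))) (Comp.seq h4
    (Comp.ctl (fun c : Unit × Bool => c.2)))))))) ?_
  rintro w _ x b y hx ⟨rfl, hb⟩
  refine ⟨(), _, rfl, (), Sum.elim y (f w (y ∘ Sum.inl)), ⟨rfl, ?_⟩, b, _, ⟨rfl, ?_⟩,
    ((), b), _, ⟨rfl, rfl⟩, ((), b), _, ⟨rfl, rfl⟩, rfl, rfl⟩
  · rintro (v | v) hv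
    · rfl
    · exact absurd ⟨v, rfl⟩ hv
  · rw [hb]
    constructor
    · intro h v
      exact congrFun h v
    · intro h
      funext v
      exact h v

end IsL

/-- The relation `E` restricted to genuine positions. -/
def Bd {α V : Type} (E : List α → (V ⊕ V → ℕ) → Prop) (w : List α) (x y : V → ℕ) : Prop :=
  (∀ v, x v ≤ w.length + 1) ∧ (∀ v, y v ≤ w.length + 1) ∧ E w (Sum.elim x y)

/-- Pigeonhole for orbits. -/
theorem orbit_lt {X : Type} [Finite X] (f : X → X) (x z : X) (h : ∃ k, f^[k] x = z) :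
    ∃ k < Nat.card X, f^[k] x = z := by
  classical
  let k := Nat.find h
  have hk : f^[k] x = z := Nat.find_spec h
  refine ⟨k, ?_, hk⟩
  have hinj : Function.Injective (fun i : Fin (k + 1) => f^[(i : ℕ)] x) := by
    intro i j hij
    simp only at hij
    by_contra hne
    have aux : ∀ i j : ℕ, i < j → j ≤ k → f^[i] x = f^[j] x → False := by
      intro i j hlt hj hij
      have h1 : f^[k - j] (f^[i] x) = z := by
        rw [hij, ← Function.iterate_add_apply]
        have : k - j + j = k := by omega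
        rw [this]; exact hk
      rw [← Function.iterate_add_apply] at h1
      exact Nat.find_min h (m := k - j + i) (by omega) h1
    rcases Nat.lt_trichotomy (i : ℕ) (j : ℕ) with hlt | heq | hlt
    · exact aux _ _ hlt (by omega) hij
    · exact hne (Fin.ext heq)
    · exact aux _ _ hlt (by omega) hij.symm
  have := Nat.card_le_card_of_injective _ hinj
  rw [Nat.card_fin] at this
  omega

theorem card_bounded [Finite V] (n : ℕ) :
    Nat.card {x : V → ℕ // ∀ v, x v ≤ n} = (n + 1) ^ Nat.card V := by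
  have e : {x : V → ℕ // ∀ v, x v ≤ n} ≃ (V → Fin (n + 1)) :=
    { toFun := fun x v => ⟨x.1 v, by have := x.2 v; omega⟩
      invFun := fun y => ⟨fun v => (y v : ℕ), fun v => Nat.le_of_lt_succ (y v).2⟩
      left_inv := fun x => rfl
      right_inv := fun y => rfl }
  have := Fintype.ofFinite V
  rw [Nat.card_congr e, Nat.card_fun, Nat.card_fin]

instance finite_bounded [Finite V] (n : ℕ) : Finite {x : V → ℕ // ∀ v, x v ≤ n} := by
  have e : {x : V → ℕ // ∀ v, x v ≤ n} ≃ (V → Fin (n + 1)) :=
    { toFun := fun x v => ⟨x.1 v, by have := x.2 v; omega⟩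
      invFun := fun y => ⟨fun v => (y v : ℕ), fun v => Nat.le_of_lt_succ (y v).2⟩
      left_inv := fun x => rfl
      right_inv := fun y => rfl }
  exact Finite.of_equiv _ e.symm

namespace IsL

/-- Deterministic transitive closure. -/
theorem dtc [Finite V] {E : List α → (V ⊕ V → ℕ) → Prop} (hE : IsL α (V ⊕ V) E)
    (hfun : ∀ w x y y', Bd E w x y → Bd E w x y' → y = y') :
    IsL α (V ⊕ V) (fun w z => ReflTransGen (Bd E w) (z ∘ Sum.inl) (z ∘ Sum.inr)) := by
  classical
  -- one step of the walk towards the target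
  let f : List α → (V ⊕ V → ℕ) → (V ⊕ V → ℕ) := fun w z =>
    if z ∘ Sum.inl = z ∘ Sum.inr then z
    else if h : ∃ y, Bd E w (z ∘ Sum.inl) y then Sum.elim h.choose (z ∘ Sum.inr)
    else z
  have hbd : ∀ w x, (∀ v, x v ≤ w.length + 1) → ∀ u, f w x u ≤ w.length + 1 := by
    intro w z hz u
    simp only [f]
    split_ifs with h1 h2
    · exact hz u
    · rcases u with u | u
      · exact h2.choose_spec.2.1 u
      · exact hz _
    · exact hz u
  have hEq : IsL α (V ⊕ V) (fun _ z => z ∘ Sum.inl = z ∘ Sum.inr) := by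
    refine congr (bigAnd (fun v => eq (Sum.inl v : V ⊕ V) (Sum.inr v))) ?_
    intro w x _
    exact funext_iff
  -- existence of a successor
  have hEx : IsL α (V ⊕ V) (fun w z => ∃ y : V → ℕ, (∀ v, y v ≤ w.length + 1) ∧
      E w (Sum.elim (z ∘ Sum.inl) y)) := by
    refine congr (ex (U := V) (R := fun w z => E w (Sum.elim (z ∘ Sum.inl ∘ Sum.inl)
      (z ∘ Sum.inr))) ?_) ?_
    · refine congr (lift hE (Sum.elim (Sum.inl ∘ Sum.inl) Sum.inr) ?_) ?_
      · intro a b hab
        rcases a with a | a <;> rcases b with b | b <;> simp_all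
      · intro w x _
        have : (x ∘ Sum.elim (Sum.inl ∘ Sum.inl) Sum.inr : V ⊕ V → ℕ) =
            Sum.elim (x ∘ Sum.inl ∘ Sum.inl) (x ∘ Sum.inr) := by
          funext v
          rcases v with v | v <;> rfl
        rw [this]
    · intro w x _
      rfl
  have hgraph : ∀ u, IsL α ((V ⊕ V) ⊕ Unit)
      (fun w z => z (Sum.inr ()) = f w (z ∘ Sum.inl) u) := by
    intro u
    rcases u with u | u
    · -- the walking coordinate
      have hA : IsL α ((V ⊕ V) ⊕ Unit) (fun w z => ∃ y : V → ℕ, (∀ v, y v ≤ w.length + 1) ∧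
          (E w (Sum.elim (z ∘ Sum.inl ∘ Sum.inl) y) ∧ z (Sum.inr ()) = y u)) := by
        refine congr (ex (U := V) (R := fun w (z : ((V ⊕ V) ⊕ Unit) ⊕ V → ℕ) =>
          E w (Sum.elim (z ∘ Sum.inl ∘ Sum.inl ∘ Sum.inl) (z ∘ Sum.inr)) ∧
            z (Sum.inl (Sum.inr ())) = z (Sum.inr u)) ?_) ?_
        · refine and ?_ (eq _ _)
          refine congr (lift hE (Sum.elim (Sum.inl ∘ Sum.inl ∘ Sum.inl) Sum.inr) ?_) ?_
          · intro a b hab
            rcases a with a | a <;> rcases b with b | b <;> simp_all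
          · intro w x _
            have : (x ∘ Sum.elim (Sum.inl ∘ Sum.inl ∘ Sum.inl) Sum.inr : V ⊕ V → ℕ) =
                Sum.elim (x ∘ Sum.inl ∘ Sum.inl ∘ Sum.inl) (x ∘ Sum.inr) := by
              funext v
              rcases v with v | v <;> rfl
            rw [this]
        · intro w x _
          rfl
      have hEq' := lift hEq (Sum.inl : V ⊕ V → (V ⊕ V) ⊕ Unit) Sum.inl_injective
      have hEx' := lift hEx (Sum.inl : V ⊕ V → (V ⊕ V) ⊕ Unit) Sum.inl_injective
      have hsame : IsL α ((V ⊕ V) ⊕ Unit) (fun _ z => z (Sum.inr ()) =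
        z (Sum.inl (Sum.inl u))) := eq _ _
      refine congr (or (and hEq' hsame) (and (not hEq') (or (and hEx' hA)
        (and (not hEx') hsame)))) ?_
      intro w z hz
      simp only [f]
      by_cases h1 : (z ∘ Sum.inl) ∘ Sum.inl = (z ∘ Sum.inl) ∘ (Sum.inr : V → V ⊕ V)
      · rw [if_pos h1]
        simp [h1]
      · rw [if_neg h1]
        by_cases h2 : ∃ y, Bd E w ((z ∘ Sum.inl) ∘ Sum.inl) y
        · rw [dif_pos h2]
          have hc := h2.choose_spec
          set c := h2.choose with hcdef
          have h3 : ∃ y : V → ℕ, (∀ v, y v ≤ w.length + 1) ∧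
              E w (Sum.elim ((z ∘ Sum.inl) ∘ Sum.inl) y) := ⟨c, hc.2.1, hc.2.2⟩
          simp only [h1, h3, false_and, not_false_eq_true, true_and, false_or, not_true,
            or_false, Sum.elim_inl]
          constructor
          · intro h
            exact ⟨c, hc.2.1, hc.2.2, h⟩
          · rintro ⟨y, hy1, hy2, hy3⟩
            have : y = c := hfun w _ _ _ ⟨hc.1, hy1, hy2⟩ hc
            rw [hy3, this]
        · rw [dif_neg h2]
          have h3 : ¬ ∃ y : V → ℕ, (∀ v, y v ≤ w.length + 1) ∧
              E w (Sum.elim ((z ∘ Sum.inl) ∘ Sum.inl) y) := by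
            rintro ⟨y, hy1, hy2⟩
            exact h2 ⟨y, fun v => hz _, hy1, hy2⟩
          simp only [h1, h3, false_and, not_false_eq_true, true_and, false_or]
          rfl
    · -- the target coordinate
      refine congr (eq (Sum.inr ()) (Sum.inl (Sum.inr u))) ?_
      intro w z _
      have : f w (z ∘ Sum.inl) (Sum.inr u) = z (Sum.inl (Sum.inr u)) := by
        simp only [f]
        split_ifs <;> rfl
      rw [this]
  have hcomp := Comp.inPlace hgraph hbd
  have hit := ofFun (Comp.iterPow hcomp (Nat.card V))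
  -- final formula
  have hfinal : IsL α (V ⊕ V) (fun w z => ∃ t : V ⊕ V → ℕ, (∀ v, t v ≤ w.length + 1) ∧
      (t = (f w)^[(w.length + 2) ^ Nat.card V] z ∧ t ∘ Sum.inl = t ∘ Sum.inr)) := by
    refine congr (ex (U := V ⊕ V) (R := fun w (z : (V ⊕ V) ⊕ (V ⊕ V) → ℕ) =>
      z ∘ Sum.inr = (f w)^[(w.length + 2) ^ Nat.card V] (z ∘ Sum.inl) ∧
        (z ∘ Sum.inr) ∘ Sum.inl = (z ∘ Sum.inr) ∘ Sum.inr) ?_) ?_
    · exact and hit (lift hEq (Sum.inr : V ⊕ V → (V ⊕ V) ⊕ (V ⊕ V)) Sum.inr_injective)
    · intro w x _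
      rfl
  refine congr hfinal ?_
  intro w z hz
  -- the walk stays inside bounded tuples
  have hiterbd : ∀ k, ∀ u, (f w)^[k] z u ≤ w.length + 1 := by
    intro k
    induction k with
    | zero => exact hz
    | succ k ih =>
      rw [Function.iterate_succ_apply']
      exact hbd w _ ih
  have hinr : ∀ k, (f w)^[k] z ∘ Sum.inr = z ∘ Sum.inr := by
    intro k
    induction k with
    | zero => rfl
    | succ k ih =>
      rw [Function.iterate_succ_apply', ← ih]
      generalize (f w)^[k] z = z'
      simp only [f]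
      split_ifs <;> rfl
  have hsound : ∀ k, ReflTransGen (Bd E w) (z ∘ Sum.inl) ((f w)^[k] z ∘ Sum.inl) := by
    intro k
    induction k with
    | zero => exact ReflTransGen.refl
    | succ k ih =>
      rw [Function.iterate_succ_apply']
      generalize (f w)^[k] z = z' at ih
      simp only [f]
      split_ifs with h1 h2
      · exact ih
      · exact ReflTransGen.tail ih h2.choose_spec
      · exact ih
  constructor
  · intro hr
    -- completeness
    have hreach : ∀ y, ReflTransGen (Bd E w) (z ∘ Sum.inl) y →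
        (∃ k, (f w)^[k] z = Sum.elim y (z ∘ Sum.inr)) ∨
        (∃ k, (f w)^[k] z = Sum.elim (z ∘ Sum.inr) (z ∘ Sum.inr)) := by
      intro y hy
      induction hy with
      | refl => exact Or.inl ⟨0, by simp⟩
      | @tail b c _ hbc ih =>
        rcases ih with ⟨k, hk⟩ | h
        · by_cases hbz : b = z ∘ Sum.inr
          · subst hbz
            exact Or.inr ⟨k, hk⟩
          · refine Or.inl ⟨k + 1, ?_⟩
            rw [Function.iterate_succ_apply', hk]
            simp only [f]
            have h2 : ∃ y, Bd E w ((Sum.elim b (z ∘ Sum.inr) : V ⊕ V → ℕ) ∘ Sum.inl) y :=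
              ⟨c, by simpa using hbc⟩
            rw [if_neg (by simpa using hbz), dif_pos h2]
            have : h2.choose = c := hfun w _ _ _ (by simpa using h2.choose_spec) hbc
            rw [this]
            rfl
        · exact Or.inr h
    have hk : ∃ k, (f w)^[k] z = Sum.elim (z ∘ Sum.inr) (z ∘ Sum.inr) := by
      rcases hreach _ hr with h | h <;> exact h
    -- pigeonhole on the walking coordinate
    let X := {x : V → ℕ // ∀ v, x v ≤ w.length + 1}
    let zi : X := ⟨z ∘ Sum.inl, fun v => hz _⟩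
    let zt : X := ⟨z ∘ Sum.inr, fun v => hz _⟩
    let F : X → X := fun u => ⟨f w (Sum.elim u.1 (z ∘ Sum.inr)) ∘ Sum.inl, fun v => by
      refine hbd w _ ?_ _
      rintro (v | v)
      · exact u.2 v
      · exact hz _⟩
    have hF : ∀ k, ((F^[k] zi).1 : V → ℕ) = (f w)^[k] z ∘ Sum.inl := by
      intro k
      induction k with
      | zero => rfl
      | succ k ih =>
        rw [Function.iterate_succ_apply', Function.iterate_succ_apply']
        simp only [F]
        rw [ih]
        congr 1
        congr 1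
        rw [← hinr k]
        funext v
        rcases v with v | v <;> rfl
    obtain ⟨k, hk⟩ := hk
    have hk' : ∃ k, F^[k] zi = zt := by
      refine ⟨k, Subtype.ext ?_⟩
      rw [hF, hk]
      rfl
    obtain ⟨k, hlt, hk⟩ := orbit_lt F zi zt hk'
    have hfix : ∀ m, F^[m] zt = zt := by
      intro m
      induction m with
      | zero => rfl
      | succ m ih =>
        rw [Function.iterate_succ_apply', ih]
        apply Subtype.ext
        simp only [F, f, zt]
        rw [if_pos (by rfl)]
        rfl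
    have hcard : Nat.card X = (w.length + 2) ^ Nat.card V := card_bounded _
    refine ⟨_, hiterbd _, rfl, ?_⟩
    rw [hinr, ← hF]
    have : (w.length + 2) ^ Nat.card V = ((w.length + 2) ^ Nat.card V - k) + k := by omega
    rw [this, Function.iterate_add_apply, hk, hfix]
  · rintro ⟨t, ht, rfl, h2⟩
    have := hsound ((w.length + 2) ^ Nat.card V)
    rw [h2, hinr] at this
    exact this

end IsL

end Pool.Agent.Helper6
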