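import Pool.Agent.Helper6.ThriftyHybrid

/-!
# A time-space trade-off for nondeterministic thrifty branching programs
-/

namespace Pool.Agent.Helper6.TreeEval.Lower

open Pool.Agent.Helper6.TreeEval Pool.Agent.Helper6.Pattern

variable {h k : ℕ} {B : NBP h k}

/-- The pattern of a list of states: the sequence of nodes queried. -/
def pat (B : NBP h k) (l : List B.State) (i : ℕ) : Node :=
  ((l.map B.nodeAt)[i]?).getD (List.replicate h true)

theorem pat_eq {l : List B.State} {i : ℕ} {w : Node} (hw : w.length < h) :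
    pat B l i = w ↔ ∃ u, l[i]? = some u ∧ B.nodeAt u = w := by
  unfold pat
  rw [List.getElem?_map]
  rcases hl : l[i]? with _ | u
  · simp only [Option.map_none, Option.getD_none, reduceCtorEq, false_and, exists_false,
      iff_false]
    rintro rfl
    simp at hw
  · simp

theorem vis_iff {l : List B.State} {a b : ℕ} {w : Node} (hw : w.length < h) :
    Vis (pat B l) a b w ↔ ∃ u ∈ (l.drop a).take (b - a), B.nodeAt u = w := by
  constructor
  · rintro ⟨i, h1, h2, h3⟩
    obtain ⟨u, h4, h5⟩ := (pat_eq hw).1 h3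
    refine ⟨u, ?_, h5⟩
    rw [List.mem_iff_getElem?]
    refine ⟨i - a, ?_⟩
    rw [List.getElem?_take_of_lt (by omega), List.getElem?_drop, ← h4]
    congr 1
    omega
  · rintro ⟨u, h1, h2⟩
    rw [List.mem_iff_getElem?] at h1
    obtain ⟨i, hi⟩ := h1
    have h3 : i < b - a := by
      by_contra hge
      rw [List.getElem?_take_eq_none (by omega)] at hi
      simp at hi
    rw [List.getElem?_take_of_lt h3, List.getElem?_drop] at hi
    exact ⟨a + i, by omega, by omega, (pat_eq hw).2 ⟨u, hi, h2⟩⟩

/-- The number of leaf visits of the pattern is at most the number of leaf queries. -/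
theorem lf_le (hh : 1 ≤ h) (l : List B.State) (hl : ∀ u ∈ l, ∃ q, B.label u = Sum.inl q) :
    Lf (pat B l) (h - 1) [] 0 l.length ≤ B.leafQueries l := by
  classical
  have key : ∀ l : List B.State, (∀ u ∈ l, ∃ q, B.label u = Sum.inl q) →
      ∑ i ∈ Finset.range l.length, (if (pat B l i).length = h - 1 then 1 else 0) ≤
        B.leafQueries l := by
    intro l
    induction l with
    | nil => intro _; simp
    | cons u l ih =>
      intro hl
      have h1 := ih fun v hv => hl v (List.mem_cons_of_mem _ hv)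
      obtain ⟨q, hq⟩ := hl u List.mem_cons_self
      rw [List.length_cons, Finset.sum_range_succ']
      have h2 : ∀ i, pat B (u :: l) (i + 1) = pat B l i := by
        intro i
        unfold pat
        rw [List.map_cons, List.getElem?_cons_succ]
      have h3 : pat B (u :: l) 0 = q.node := by
        unfold pat
        rw [List.map_cons, List.getElem?_cons_zero, Option.getD_some, nodeAt_inl hq]
      simp only [h2, h3]
      unfold NBP.leafQueries at h1 ⊢
      rw [List.countP_cons]
      refine Nat.add_le_add h1 ?_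
      rw [hq]
      have h4 := B.inTree u q hq
      cases q with
      | leaf p => simp only [if_true]; split_ifs <;> omega
      | fn p a b =>
        simp only [Query.InTree] at h4
        have h5 : p.length ≠ h - 1 := by omega
        simp [Query.node, h5]
  refine le_trans (le_of_eq ?_) (key l hl)
  unfold Lf
  rw [← Finset.range_eq_Ico, Finset.card_filter]
  refine Finset.sum_congr rfl fun i _ => ?_
  simp

/-- For every assignment there is a window with a large boundary. -/
theorem exists_window (hh : 1 ≤ h) (hk : 2 ≤ k) {ρ : ℕ} (hρ : 1 ≤ ρ) (hB : B.Solves)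
    (ht : B.IsThrifty) {r : ℝ}
    (hr : ∀ I : Inst k, ∃ l, B.Comp I B.start l (I.nodeVal h []) ∧
      (B.leafQueries l : ℝ) ≤ r * 2 ^ (h - 1))
    (hlow : (2 * r) ^ (6 * ρ - 3) < 2 ^ (h - 1)) (v : Node → Fin k) :
    ∃ (s t : B.State) (D : Finset Node), D ⊆ nodes (h - 1) ∧ D.card = ρ ∧
      Window B v s t (· ∈ D) := by
  classical
  obtain ⟨l, hl, hlr⟩ := hr (constInst v)
  obtain ⟨l', f, hw, hf, rfl⟩ := comp_iff_walk.1 hl
  have hq := hw.query
  -- all nodes are visited
  have hfull : Full (pat B l') (h - 1) [] 0 l'.length := by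
    intro y hy
    have h1 : (y ++ []).length < h := by omega
    rw [vis_iff h1]
    obtain ⟨u, hu, hu2⟩ := all_visited hk hB ht hw hf (y ++ []) h1
    exact ⟨u, by simpa using hu, hu2⟩
  have hlf : (Lf (pat B l') (h - 1) [] 0 l'.length : ℝ) ≤ r * 2 ^ (h - 1) := by
    refine le_trans ?_ hlr
    have h1 := lf_le hh l' hq
    have h2 : B.leafQueries l' ≤ B.leafQueries (l' ++ [f]) := by
      unfold NBP.leafQueries
      rw [List.countP_append]
      omega
    exact_mod_cast h1.trans h2
  -- a window with a large boundary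
  obtain ⟨a, b, hab⟩ : ∃ a b, ρ ≤ (Bd (pat B l') (h - 1) a b).card := by
    by_contra hno
    push Not at hno
    have h1 := leaf_visits (s := ρ - 1) (fun a b => by have := hno a b; omega) hfull
    rw [show 6 * (ρ - 1) + 4 = (6 * ρ - 3) + 1 by omega,
      show 6 * (ρ - 1) + 3 = 6 * ρ - 3 by omega] at h1
    have h2 : (2 : ℝ) ^ ((h - 1) * ((6 * ρ - 3) + 1)) ≤
        (2 * (Lf (pat B l') (h - 1) [] 0 l'.length : ℝ)) ^ (6 * ρ - 3) := by
      exact_mod_cast h1
    have h3 : (2 * (Lf (pat B l') (h - 1) [] 0 l'.length : ℝ)) ^ (6 * ρ - 3) ≤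
        ((2 * r) * 2 ^ (h - 1)) ^ (6 * ρ - 3) := by
      apply pow_le_pow_left₀ (by positivity)
      linarith
    have h4 : ((2 * r) * 2 ^ (h - 1)) ^ (6 * ρ - 3) < 2 ^ ((h - 1) * ((6 * ρ - 3) + 1)) := by
      rw [mul_pow, mul_add, mul_one, pow_add, ← pow_mul, mul_comm]
      gcongr
    linarith
  obtain ⟨D, hD, hDcard⟩ := Finset.exists_subset_card_eq hab
  have hsplit : l'.take a ++ ((l'.drop a).take (b - a) ++ (l'.drop a).drop (b - a)) = l' := by
    rw [List.take_append_drop, List.take_append_drop]
  rw [← hsplit] at hw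
  obtain ⟨s, h1, h2⟩ := hw.split
  obtain ⟨t, h3, h4⟩ := h2.split
  refine ⟨s, t, D, fun d hd => (Finset.mem_filter.1 (hD hd)).1, hDcard, _, _, _, f, _, h1, h3,
    h4, hf, fun d hd => ?_⟩
  obtain ⟨h5, h6, c, p, h7, h8⟩ := Finset.mem_filter.1 (hD hd)
  have h9 : d.length < h := by
    have := mem_nodes.1 h5
    omega
  constructor
  · intro u hu hud
    exact h6 ((vis_iff h9).2 ⟨u, hu, hud⟩)
  · refine ⟨c, p, h7, h9, (vis_iff ?_).1 h8⟩
    rw [h7] at h9
    simp only [List.length_cons] at h9
    omega

/-- **Main theorem.** Let `B` be a nondeterministic thrifty branching program which solves the tree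
evaluation problem for the complete binary tree with `h ≥ 1` levels and values in `Fin k`,
`k ≥ 2`, such that on every instance some computation with the correct output makes at most
`r * 2 ^ (h - 1)` leaf queries. Then `B` has at least `(k ^ ρ / C(2 ^ h - 1, ρ)) ^ (1 / 2)` states
for every `ρ ≥ 1` with `(2 r) ^ (6 ρ - 3) < 2 ^ (h - 1)`. -/
theorem time_space (h k ρ : ℕ) (r : ℝ) (hh : 1 ≤ h) (hk : 2 ≤ k) (hρ : 1 ≤ ρ) (B : NBP h k)
    (hB : B.Solves) (ht : B.IsThrifty)
    (hr : ∀ I : Inst k, ∃ l, B.Comp I B.start l (I.nodeVal h []) ∧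
      (B.leafQueries l : ℝ) ≤ r * 2 ^ (h - 1))
    (hlow : (2 * r) ^ (6 * ρ - 3) < 2 ^ (h - 1)) :
    k ^ ρ ≤ (2 ^ h - 1).choose ρ * Fintype.card B.State ^ 2 := by
  classical
  have hk0 : 0 < k := by omega
  let A := {p // p ∈ nodes (h - 1)} → Fin k
  let ext : A → Node → Fin k := fun v p =>
    if hp : p ∈ nodes (h - 1) then v ⟨p, hp⟩ else ⟨0, hk0⟩
  choose S T D hD1 hD2 hW using fun v : A => exists_window hh hk hρ hB ht hr hlow (ext v)
  have hN : (nodes (h - 1)).card = 2 ^ h - 1 := by
    rw [card_nodes, Nat.sub_add_cancel hh]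
  have hcardA : Fintype.card A = k ^ (2 ^ h - 1) := by
    rw [Fintype.card_fun, Fintype.card_coe, hN, Fintype.card_fin]
  have hne : Nonempty A := ⟨fun _ => ⟨0, hk0⟩⟩
  have hρN : ρ ≤ 2 ^ h - 1 := by
    obtain ⟨v⟩ := hne
    rw [← hN, ← hD2 v]
    exact Finset.card_le_card (hD1 v)
  let F : A → B.State × B.State × Finset Node := fun v => (S v, T v, D v)
  have hmaps : ∀ v ∈ (Finset.univ : Finset A), F v ∈ (Finset.univ : Finset B.State) ×ˢ
      ((Finset.univ : Finset B.State) ×ˢ Finset.powersetCard ρ (nodes (h - 1))) := by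
    intro v _
    simp only [F, Finset.mem_product, Finset.mem_univ, true_and, Finset.mem_powersetCard]
    exact ⟨hD1 v, hD2 v⟩
  have hfib : ∀ x ∈ (Finset.univ : Finset B.State) ×ˢ
      ((Finset.univ : Finset B.State) ×ˢ Finset.powersetCard ρ (nodes (h - 1))),
      ((Finset.univ : Finset A).filter fun v => F v = x).card ≤ k ^ (2 ^ h - 1 - ρ) := by
    rintro ⟨s, t, E⟩ hx
    simp only [Finset.mem_product, Finset.mem_univ, true_and, Finset.mem_powersetCard] at hx
    let res : A → ({p // p ∈ nodes (h - 1) \ E} → Fin k) := fun v p =>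
      v ⟨p.1, (Finset.mem_sdiff.1 p.2).1⟩
    have h1 : ((Finset.univ : Finset A).filter fun v => F v = (s, t, E)).card ≤
        (Finset.univ : Finset ({p // p ∈ nodes (h - 1) \ E} → Fin k)).card := by
      refine Finset.card_le_card_of_injOn res (fun _ _ => Finset.mem_coe.2 (Finset.mem_univ _)) ?_
      intro v hv v' hv' hres
      have hv1 : F v = (s, t, E) := (Finset.mem_filter.1 (Finset.mem_coe.1 hv)).2
      have hv1' : F v' = (s, t, E) := (Finset.mem_filter.1 (Finset.mem_coe.1 hv')).2
      simp only [F, Prod.mk.injEq] at hv1 hv1'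
      have hWv := hW v
      have hWv' := hW v'
      rw [hv1.1, hv1.2.1, hv1.2.2] at hWv
      rw [hv1'.1, hv1'.2.1, hv1'.2.2] at hWv'
      have hoff : ∀ p, ¬ p ∈ E → ext v p = ext v' p := by
        intro p hp
        simp only [ext]
        split_ifs with hpn
        · exact congrFun hres ⟨p, Finset.mem_sdiff.2 ⟨hpn, hp⟩⟩
        · rfl
      have hon := hybrid ht hWv hWv' hoff
      funext p
      have h2 : ext v p.1 = ext v' p.1 := by
        by_cases hp : p.1 ∈ E
        · exact hon _ hp
        · exact hoff _ hp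
      simpa only [ext, dif_pos p.2] using h2
    refine h1.trans (le_of_eq ?_)
    rw [Finset.card_univ, Fintype.card_fun, Fintype.card_coe, Fintype.card_fin,
      Finset.card_sdiff_of_subset hx.1, hN, hx.2]
  have hcount := Finset.card_le_mul_card_image_of_maps_to hmaps _ hfib
  rw [Finset.card_univ, hcardA, Finset.card_product, Finset.card_product,
    Finset.card_powersetCard, hN, Finset.card_univ] at hcount
  have h1 : k ^ (2 ^ h - 1) = k ^ (2 ^ h - 1 - ρ) * k ^ ρ := by
    rw [← pow_add, Nat.sub_add_cancel hρN]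
  rw [h1] at hcount
  have h2 := Nat.le_of_mul_le_mul_left hcount (by positivity)
  calc k ^ ρ ≤ _ := h2
    _ = _ := by ring

end Pool.Agent.Helper6.TreeEval.Lower
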