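import Pool.Agent.Helper6.ThriftyPair

/-!
# Evaluating a block of levels with few registers
-/

namespace Pool.Agent.Helper6.TreeEval

open Gadget

/-- A gadget adding `φ v` to the target, where `v` is the value of the node `p` with `n` levels
below it. -/
def Adds {k : ℕ} {E G : Type} [AddCommGroup G] (h n : ℕ) (p : Node) (K c : ℕ) (φ : Fin k → G)
    (g : Gadget k (E × G) (E × G)) : Prop :=
  (∀ s, (g.query s).InTree h) ∧ Fintype.card g.S ≤ K ∧ g.Cheap c ∧
    ∀ (I : Inst k) (x : E) (z : G), g.Good h I (x, z) (x, z + φ (I.val n p))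

/-- `CanAdd h k n N M K c`: for all nodes with `n` levels below there are such gadgets with at most
`K` states and at most `c` leaf queries per run, for all contents with at most `N` elements and
all targets with at most `M` elements. -/
def CanAdd (h k n N M K c : ℕ) : Prop :=
  ∀ p : Node, p.length + 1 + n = h → ∀ (E G : Type) [Fintype E] [Fintype G] [AddCommGroup G],
    Fintype.card E ≤ N → Fintype.card G ≤ M → ∀ φ : Fin k → G,
    ∃ g : Gadget k (E × G) (E × G), Adds h n p K c φ g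

theorem exists_pair (h k m lam M₀ n₀ Mst K₀ c₀ : ℕ) (hlam : 1 ≤ lam)
    (hmask : Mask4 k lam M₀) (hFG : CanAdd h k n₀ (Mst ^ (2 * m)) Mst K₀ c₀) :
    ∀ j, j ≤ m → ∀ p : Node, p.length + 1 + (n₀ + j) = h → ∀ M, M₀ ≤ M →
    lam ^ (2 ^ j) * M ≤ Mst → ∀ (A O G : Type) [Fintype A] [Fintype O] [Fintype G]
    [AddCommGroup G], Fintype.card A ≤ M ^ (2 * j) → Fintype.card O ≤ Mst ^ (2 * (m - j)) →
    Fintype.card G ≤ Mst → ∀ φ φ' : Fin k → G,
    ∃ (T C : Type) (_ : Fintype T) (F : Gadget k (A × O × G) (T × O × G))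
      (ρ : T × O × G → C → Prop) (B : Gadget k C (A × O × G)),
      Fintype.card T ≤ (lam ^ (2 ^ j) * M) ^ (2 * j) ∧
      (∀ s, (F.query s).InTree h) ∧ (∀ s, (B.query s).InTree h) ∧
      Fintype.card F.S + k ^ 2 * Mst ^ (2 * m + 1) ≤ 2 ^ j * (K₀ + k ^ 2 * Mst ^ (2 * m + 1)) ∧
      Fintype.card B.S + k ^ 2 * Mst ^ (2 * m + 1) ≤ 2 ^ j * (K₀ + k ^ 2 * Mst ^ (2 * m + 1)) ∧
      F.Cheap (2 ^ j * c₀) ∧ B.Cheap (2 ^ j * c₀) ∧
      ∀ I : Inst k, PairSpec h I (I.val (n₀ + j) p) φ φ' F ρ B := by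
  intro j
  induction j with
  | zero =>
    intro _ p hp M _ _ A O G _ _ _ _ hA hO hG φ φ'
    have hE : Fintype.card (A × O) ≤ Mst ^ (2 * m) := by
      rw [Fintype.card_prod]
      calc Fintype.card A * Fintype.card O ≤ 1 * Mst ^ (2 * (m - 0)) :=
            Nat.mul_le_mul (by simpa using hA) hO
        _ = Mst ^ (2 * m) := by rw [one_mul, Nat.sub_zero]
    obtain ⟨g, g1, g2, g3, g4⟩ := hFG p hp (A × O) G hE hG φ
    obtain ⟨g', g1', g2', g3', g4'⟩ := hFG p hp (A × O) G hE hG φ'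
    refine ⟨A, A × O × G, inferInstance,
      Gadget.pre (fun w => ((w.1, w.2.1), w.2.2)) (g.post fun b c => c = (b.1.1, b.1.2, b.2)),
      fun b c => c = b,
      Gadget.pre (fun w => ((w.1, w.2.1), w.2.2)) (g'.post fun b c => c = (b.1.1, b.1.2, b.2)),
      by simpa using hA, g1, g1', ?_, ?_, ?_, ?_, ?_⟩
    · have h1 : Fintype.card (Gadget.pre (fun w : A × O × G => ((w.1, w.2.1), w.2.2))
          (g.post fun b c => c = (b.1.1, b.1.2, b.2))).S = Fintype.card g.S := rfl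
      rw [h1, pow_zero, one_mul]
      exact Nat.add_le_add_right g2 _
    · have h1 : Fintype.card (Gadget.pre (fun w : A × O × G => ((w.1, w.2.1), w.2.2))
          (g'.post fun b c => c = (b.1.1, b.1.2, b.2))).S = Fintype.card g'.S := rfl
      rw [h1, pow_zero, one_mul]
      exact Nat.add_le_add_right g2' _
    · rw [pow_zero, one_mul]
      exact (g3.post _).pre _
    · rw [pow_zero, one_mul]
      exact (g3'.post _).pre _
    · intro I
      refine ⟨id, ?_, ?_⟩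
      · intro a o z
        obtain ⟨l, hl, hth, hu⟩ := g4 I (a, o) z
        refine ⟨l, (runs_pre _ _ _ _ _ _).2 ((runs_post _ _ _ _ _ _).2 ⟨_, hl, rfl⟩), hth, ?_⟩
        intro l' b hb
        obtain ⟨b', h1, h2⟩ := (runs_post _ _ _ _ _ _).1 ((runs_pre _ _ _ _ _ _).1 hb)
        obtain ⟨rfl, rfl⟩ := hu _ _ h1
        exact Or.inl ⟨rfl, h2⟩
      · intro a o w
        obtain ⟨l, hl, hth, hu⟩ := g4' I (a, o) w
        refine ⟨_, l, rfl, (runs_pre _ _ _ _ _ _).2 ((runs_post _ _ _ _ _ _).2 ⟨_, hl, rfl⟩),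
          hth, ?_⟩
        intro c' l' b' hc hb
        subst hc
        obtain ⟨b'', h1, h2⟩ := (runs_post _ _ _ _ _ _).1 ((runs_pre _ _ _ _ _ _).1 hb)
        obtain ⟨rfl, rfl⟩ := hu _ _ h1
        exact ⟨rfl, rfl, h2⟩
  | succ j ih =>
    intro hj p hp M hM hMst A O G _ _ _ _ hA hO hG φ φ'
    have hpow1 : 2 ^ (j + 1) = 2 ^ j + 2 ^ j := by rw [pow_succ]; ring
    have h2j : 1 ≤ 2 ^ j := Nat.one_le_two_pow
    have hlamj : 1 ≤ lam ^ (2 ^ j) := Nat.one_le_pow _ _ hlam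
    have hMM : M ≤ lam ^ (2 ^ j) * M := Nat.le_mul_of_pos_left _ hlamj
    have hstep : lam ^ (2 ^ j) * (lam ^ (2 ^ j) * M) = lam ^ (2 ^ (j + 1)) * M := by
      rw [hpow1, pow_add]
      ring
    have hMM2 : lam ^ (2 ^ j) * M ≤ lam ^ (2 ^ (j + 1)) * M := by
      rw [← hstep]
      exact Nat.le_mul_of_pos_left _ hlamj
    have hlam1 : lam * M ≤ lam ^ (2 ^ (j + 1)) * M := by
      refine Nat.mul_le_mul_right _ ?_
      calc lam = lam ^ 1 := (pow_one _).symm
        _ ≤ lam ^ (2 ^ (j + 1)) := Nat.pow_le_pow_right hlam Nat.one_le_two_pow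
    have hMleMst : M ≤ Mst := hMM.trans (hMM2.trans hMst)
    -- splitting off two registers
    obtain ⟨ι⟩ : Nonempty (A ↪ (Fin M × Fin M × Fin (M ^ (2 * j)))) := by
      apply Function.Embedding.nonempty_of_card_le
      rw [Fintype.card_prod, Fintype.card_prod, Fintype.card_fin, Fintype.card_fin]
      calc Fintype.card A ≤ M ^ (2 * (j + 1)) := hA
        _ = M * (M * M ^ (2 * j)) := by ring
    obtain ⟨G1, _, _, e, ψ, hG1, he⟩ := hmask M hM (Fin M) (by simp)
    have hG1' : Fintype.card G1 ≤ Mst := hG1.trans (hlam1.trans hMst)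
    have hL : (false :: p).length + 1 + (n₀ + j) = h := by simp only [List.length_cons]; omega
    have hR : (true :: p).length + 1 + (n₀ + j) = h := by simp only [List.length_cons]; omega
    have hmj : 2 * (m - j) = 2 * (m - (j + 1)) + 2 := by omega
    have hOl : Fintype.card (Fin M × O × G) ≤ Mst ^ (2 * (m - j)) := by
      rw [Fintype.card_prod, Fintype.card_prod, Fintype.card_fin, hmj, pow_add]
      calc M * (Fintype.card O * Fintype.card G) ≤ Mst * (Mst ^ (2 * (m - (j + 1))) * Mst) := by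
            gcongr
        _ = Mst ^ (2 * (m - (j + 1))) * Mst ^ 2 := by ring
    have hOr : Fintype.card (G1 × O × G) ≤ Mst ^ (2 * (m - j)) := by
      rw [Fintype.card_prod, Fintype.card_prod, hmj, pow_add]
      calc Fintype.card G1 * (Fintype.card O * Fintype.card G) ≤
            Mst * (Mst ^ (2 * (m - (j + 1))) * Mst) := by
            gcongr
        _ = Mst ^ (2 * (m - (j + 1))) * Mst ^ 2 := by ring
    obtain ⟨Tl, Cl, _, Fl, ρl, Bl, l1, l2, l3, l4, l5, l6, l7, l8⟩ :=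
      ih (by omega) (false :: p) hL M hM (hMM2.trans hMst) (Fin (M ^ (2 * j))) (Fin M × O × G) G1
        (by simp) hOl hG1' ψ (fun v => -(3 • ψ v))
    obtain ⟨Tr, Cr, _, Fr, ρr, Br, r1, r2, r3, r4, r5, r6, r7, r8⟩ :=
      ih (by omega) (true :: p) hR (lam ^ (2 ^ j) * M) (hM.trans hMM)
        (by rw [hstep]; exact hMst) Tl (G1 × O × G) G1 l1 hOr hG1' ψ (fun v => -(3 • ψ v))
    rw [hstep] at r1
    obtain ⟨Y, hY⟩ : ∃ Y, Y = k ^ 2 * Mst ^ (2 * m + 1) := ⟨_, rfl⟩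
    have hMid : Fintype.card (Mid k Tr (Fin M) O G) ≤ Y := by
      have h1 : Fintype.card (Mid k Tr (Fin M) O G) =
          Fintype.card Tr * ((M * k) * ((M * k) * (Fintype.card O * Fintype.card G))) := by
        simp only [Mid, Fintype.card_prod, Fintype.card_fin]
      rw [h1, hY]
      have h2 : Fintype.card Tr ≤ Mst ^ (2 * j) :=
        r1.trans (Nat.pow_le_pow_left hMst _)
      calc Fintype.card Tr * ((M * k) * ((M * k) * (Fintype.card O * Fintype.card G)))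
          ≤ Mst ^ (2 * j) * ((Mst * k) * ((Mst * k) * (Mst ^ (2 * (m - (j + 1))) * Mst))) := by
            gcongr
        _ = k ^ 2 * (Mst ^ (2 * j) * Mst ^ (2 * (m - (j + 1))) * Mst ^ 2 * Mst) := by ring
        _ = k ^ 2 * Mst ^ (2 * m + 1) := by
            rw [← pow_add, ← pow_add, ← pow_succ]
            congr 2
            omega
    rw [← hY] at l4 l5 r4 r5 ⊢
    refine ⟨G1 × G1 × Tr, Mid k Tr (Fin M) O G, inferInstance,
      stepF p ι e ψ φ Fl Fr, stepρ e ψ, stepB p ι e ψ φ' ρl Bl ρr Br, ?_, ?_, ?_, ?_, ?_, ?_, ?_,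
      ?_⟩
    · rw [Fintype.card_prod, Fintype.card_prod]
      calc Fintype.card G1 * (Fintype.card G1 * Fintype.card Tr)
          ≤ (lam ^ (2 ^ (j + 1)) * M) * ((lam ^ (2 ^ (j + 1)) * M) *
              (lam ^ (2 ^ (j + 1)) * M) ^ (2 * j)) := by
            gcongr
            · exact hG1.trans hlam1
            · exact hG1.trans hlam1
        _ = (lam ^ (2 ^ (j + 1)) * M) ^ (2 * (j + 1)) := by ring
    · rintro ((s | s) | s)
      · exact l2 s
      · exact r2 s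
      · change p.length + 1 < h
        omega
    · rintro ((s | s) | s)
      · change p.length + 1 < h
        omega
      · exact r3 s
      · exact l3 s
    · have h1 : Fintype.card (stepF p ι e ψ φ Fl Fr).S =
          Fintype.card Fl.S + Fintype.card Fr.S + Fintype.card (Mid k Tr (Fin M) O G) := by
        change Fintype.card ((Fl.S ⊕ Fr.S) ⊕ Mid k Tr (Fin M) O G) = _
        rw [Fintype.card_sum, Fintype.card_sum]
      rw [h1, pow_succ]
      have h3 : 2 ^ j * 2 * (K₀ + Y) = 2 ^ j * (K₀ + Y) + 2 ^ j * (K₀ + Y) := by ring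
      rw [h3]
      omega
    · have h1 : Fintype.card (stepB p ι e ψ φ' ρl Bl ρr Br).S =
          Fintype.card (Mid k Tr (Fin M) O G) + Fintype.card Br.S + Fintype.card Bl.S := by
        change Fintype.card ((Mid k Tr (Fin M) O G ⊕ Br.S) ⊕ Bl.S) = _
        rw [Fintype.card_sum, Fintype.card_sum]
      rw [h1, pow_succ]
      have h3 : 2 ^ j * 2 * (K₀ + Y) = 2 ^ j * (K₀ + Y) + 2 ^ j * (K₀ + Y) := by ring
      rw [h3]
      omega
    · have h1 : (stepF p ι e ψ φ Fl Fr).Cheap ((2 ^ j * c₀ + 2 ^ j * c₀) + 0) := by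
        refine (((l6.comp (R12 e) r6).comp (R23 e ψ)
          (cheap_ask_fn _ (fun _ => rfl) _ : (stepQ1 p e ψ φ).Cheap 0))).pre _
      have h2 : 2 ^ (j + 1) * c₀ = (2 ^ j * c₀ + 2 ^ j * c₀) + 0 := by rw [pow_succ]; ring
      rw [h2]
      exact h1
    · have h1 : (stepB p ι e ψ φ' ρl Bl ρr Br).Cheap ((0 + 2 ^ j * c₀) + 2 ^ j * c₀) := by
        refine (((cheap_ask_fn _ (fun _ => rfl) _ : (stepQ2 p φ').Cheap 0).comp (R34 e ψ ρr)
          r7).comp (R45 e ρl) l7).post _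
      have h2 : 2 ^ (j + 1) * c₀ = (0 + 2 ^ j * c₀) + 2 ^ j * c₀ := by rw [pow_succ]; ring
      rw [h2]
      exact h1
    · intro I
      have hval : I.val (n₀ + (j + 1)) p =
          I.fn p (I.val (n₀ + j) (false :: p)) (I.val (n₀ + j) (true :: p)) := rfl
      rw [hval]
      refine step_spec p ι e ψ φ φ' Fl ρl Bl Fr ρr Br ι.injective he ?_ (l8 I) (r8 I)
      refine ⟨?_, ?_⟩
      · unfold Inst.nodeVal
        have : h - ((false :: p).length + 1) = n₀ + j := by omega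
        rw [this]
      · unfold Inst.nodeVal
        have : h - ((true :: p).length + 1) = n₀ + j := by omega
        rw [this]

/-- The full gadgets, with `b` blocks of `m` levels. -/
theorem canAdd (h k m lam M₀ : ℕ) (hk : 1 ≤ k) (hlam : 1 ≤ lam) (hM₀ : 1 ≤ M₀)
    (hmask : Mask4 k lam M₀) : ∀ b n, n ≤ b * m → ∀ M, M₀ ≤ M →
    CanAdd h k n (M ^ (2 * m)) M
      (2 ^ ((m + 2) * b) * (k ^ 2 * (lam ^ (2 ^ m * b) * M) ^ (2 * m + 1))) (2 ^ b * 2 ^ n) := by
  -- leaves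
  have hleaf : ∀ b M, M₀ ≤ M → CanAdd h k 0 (M ^ (2 * m)) M
      (2 ^ ((m + 2) * b) * (k ^ 2 * (lam ^ (2 ^ m * b) * M) ^ (2 * m + 1))) (2 ^ b * 2 ^ 0) := by
    intro b M _ p hp E G _ _ _ hE hG φ
    refine ⟨ask (fun _ => Query.leaf p) (fun w v => (w.1, w.2 + φ v)), fun _ => hp, ?_, ?_, ?_⟩
    · have h1 : Fintype.card (ask (k := k) (A := E × G) (B := E × G)
          (fun _ => Query.leaf p) (fun w v => (w.1, w.2 + φ v))).S =
          Fintype.card E * Fintype.card G := by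
        change Fintype.card (E × G) = _
        rw [Fintype.card_prod]
      rw [h1]
      have h2 : 1 ≤ k ^ 2 := Nat.one_le_pow _ _ hk
      have h3 : 1 ≤ lam ^ (2 ^ m * b) := Nat.one_le_pow _ _ hlam
      have h4 : 1 ≤ 2 ^ ((m + 2) * b) := Nat.one_le_two_pow
      calc Fintype.card E * Fintype.card G ≤ M ^ (2 * m) * M := by gcongr
        _ = 1 * (1 * (1 * M) ^ (2 * m + 1)) := by ring
        _ ≤ 2 ^ ((m + 2) * b) * (k ^ 2 * (lam ^ (2 ^ m * b) * M) ^ (2 * m + 1)) := by gcongr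
    · intro I a l c hr
      exact (cheap_ask _ _ I a l c hr).trans (by
        rw [pow_zero, mul_one]
        exact Nat.one_le_two_pow)
    · intro I x z
      refine ⟨[(x, z)], (runs_ask _ _ _ _ _ _).2 ⟨rfl, rfl⟩, fun _ _ => trivial, ?_⟩
      intro l' b' hr
      exact (runs_ask _ _ _ _ _ _).1 hr
  intro b
  induction b with
  | zero =>
    intro n hn M hM
    have hn0 : n = 0 := by omega
    subst hn0
    exact hleaf 0 M hM
  | succ b ih =>
    intro n hn M hM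
    rcases Nat.eq_zero_or_pos n with rfl | hn1
    · exact hleaf (b + 1) M hM
    intro p hp E G _ _ _ hE hG φ
    obtain ⟨j, n₀, hj, hj1, rfl, hn₀⟩ : ∃ j n₀, j ≤ m ∧ 0 ≤ j ∧ n = n₀ + j ∧ n₀ ≤ b * m := by
      rcases le_total n m with h1 | h1
      · exact ⟨n, 0, h1, Nat.zero_le _, by omega, Nat.zero_le _⟩
      · refine ⟨m, n - m, le_rfl, Nat.zero_le _, by omega, ?_⟩
        rw [add_mul] at hn
        omega
    obtain ⟨Mst, hMst⟩ : ∃ Mst, Mst = lam ^ (2 ^ m) * M := ⟨_, rfl⟩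
    have hM1 : 1 ≤ M := hM₀.trans hM
    have hMMst : M ≤ Mst := by
      rw [hMst]
      exact Nat.le_mul_of_pos_left _ (Nat.one_le_pow _ _ hlam)
    obtain ⟨K₀, hK₀⟩ : ∃ K₀, K₀ =
      2 ^ ((m + 2) * b) * (k ^ 2 * (lam ^ (2 ^ m * b) * Mst) ^ (2 * m + 1)) := ⟨_, rfl⟩
    have hFG := ih n₀ hn₀ Mst (hM.trans hMMst)
    rw [← hK₀] at hFG
    have hjMst : lam ^ (2 ^ j) * M ≤ Mst := by
      rw [hMst]
      exact Nat.mul_le_mul_right _ (Nat.pow_le_pow_right hlam
        (Nat.pow_le_pow_right (by norm_num) hj))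
    obtain ⟨ι⟩ : Nonempty (E ↪ (Fin (M ^ (2 * j)) × Fin (M ^ (2 * (m - j))))) := by
      apply Function.Embedding.nonempty_of_card_le
      rw [Fintype.card_prod, Fintype.card_fin, Fintype.card_fin, ← pow_add]
      refine hE.trans (le_of_eq ?_)
      congr 1
      omega
    obtain ⟨T, C, _, F, ρ, B, f1, f2, f3, f4, f5, f6, f7, f8⟩ :=
      exists_pair h k m lam M₀ n₀ Mst K₀ (2 ^ b * 2 ^ n₀) hlam hmask hFG j hj p hp M hM hjMst
        (Fin (M ^ (2 * j))) (Fin (M ^ (2 * (m - j)))) G (by simp)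
        (by
          rw [Fintype.card_fin]
          exact Nat.pow_le_pow_left hMMst _) (hG.trans hMMst) φ (fun _ => 0)
    refine ⟨Gadget.pre (fun w : E × G => ((ι w.1).1, (ι w.1).2, w.2))
      ((F.comp ρ B).post fun b (c : E × G) => ι c.1 = (b.1, b.2.1) ∧ c.2 = b.2.2), ?_, ?_, ?_, ?_⟩
    · rintro (s | s)
      · exact f2 s
      · exact f3 s
    · have h1 : Fintype.card (Gadget.pre (fun w : E × G => ((ι w.1).1, (ι w.1).2, w.2))
          ((F.comp ρ B).post fun b (c : E × G) => ι c.1 = (b.1, b.2.1) ∧ c.2 = b.2.2)).S =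
          Fintype.card F.S + Fintype.card B.S := by
        change Fintype.card (F.S ⊕ B.S) = _
        rw [Fintype.card_sum]
      rw [h1]
      obtain ⟨Y, hY⟩ : ∃ Y, Y = k ^ 2 * Mst ^ (2 * m + 1) := ⟨_, rfl⟩
      rw [← hY] at f4 f5
      have h2 : Y ≤ K₀ := by
        have h3 : 1 ≤ lam ^ (2 ^ m * b) := Nat.one_le_pow _ _ hlam
        have h4 : 1 ≤ 2 ^ ((m + 2) * b) := Nat.one_le_two_pow
        rw [hY, hK₀]
        calc k ^ 2 * Mst ^ (2 * m + 1) = 1 * (k ^ 2 * (1 * Mst) ^ (2 * m + 1)) := by ring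
          _ ≤ _ := by gcongr
      have h3 : 2 ^ j * (K₀ + Y) ≤ 2 ^ m * (2 * K₀) := by
        apply Nat.mul_le_mul (Nat.pow_le_pow_right (by norm_num) hj)
        omega
      have h4 : 2 ^ ((m + 2) * (b + 1)) *
          (k ^ 2 * (lam ^ (2 ^ m * (b + 1)) * M) ^ (2 * m + 1)) =
          2 ^ m * (2 * K₀) + 2 ^ m * (2 * K₀) := by
        have h5 : lam ^ (2 ^ m * (b + 1)) * M = lam ^ (2 ^ m * b) * Mst := by
          rw [hMst]
          ring
        rw [h5, hK₀]
        ring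
      rw [h4]
      omega
    · have h1 : (F.comp ρ B).Cheap (2 ^ j * (2 ^ b * 2 ^ n₀) + 2 ^ j * (2 ^ b * 2 ^ n₀)) :=
        f6.comp ρ f7
      have h2 : 2 ^ (b + 1) * 2 ^ (n₀ + j) =
          2 ^ j * (2 ^ b * 2 ^ n₀) + 2 ^ j * (2 ^ b * 2 ^ n₀) := by
        ring
      rw [h2]
      exact (h1.post _).pre _
    · intro I x z
      obtain ⟨τ, s1, s2⟩ := f8 I
      obtain ⟨l1, p1, p2, p3⟩ := s1 (ι x).1 (ι x).2 z
      obtain ⟨c, l2, q1, q2, q3, q4⟩ := s2 (ι x).1 (ι x).2 (z + φ (I.val (n₀ + j) p))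
      refine ⟨(l1.map Sum.inl ++ l2.map Sum.inr : List (F.S ⊕ B.S)),
        (runs_pre _ _ _ _ _ _).2 ((runs_post _ _ _ _ _ _).2
        ⟨_, (runs_comp _ _ _ _ _ _ _).2 ⟨l1, _, c, l2, p1, q1, q2, rfl⟩, rfl, by simp⟩),
        th_comp F ρ B h I p2 q3, ?_⟩
      intro l' b' hr
      obtain ⟨b3, h1, h2, h3⟩ := (runs_post _ _ _ _ _ _).1 ((runs_pre _ _ _ _ _ _).1 hr)
      obtain ⟨l1', b1, c', l2', h4, h5, h6, rfl⟩ := (runs_comp _ _ _ _ _ _ _).1 h1
      rcases p3 _ _ h4 with ⟨rfl, rfl⟩ | hdead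
      · obtain ⟨rfl, rfl, rfl⟩ := q4 _ _ _ h5 h6
        refine ⟨rfl, Prod.ext (ι.injective h2) ?_⟩
        rw [h3, add_zero]
      · exact absurd h6 (hdead _ _ _ _ _ h5)

end Pool.Agent.Helper6.TreeEval
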