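import Mathlib

/-!
# The tree evaluation problem and nondeterministic thrifty branching programs

Definitions after Cook, McKenzie, Wehr, Braverman, Santhanam,
*Pebbles and branching programs for tree evaluation* (2012).
-/

namespace Pool.Agent.Helper6.TreeEval

/-- Nodes of the complete binary tree: the root is `[]`, the left child of `p` is
`false :: p` and its right child is `true :: p`. -/
abbrev Node := List Bool

/-- An instance of the tree evaluation problem with values in `Fin k`: a value for every leaf
and a binary function for every internal node. (Only the entries at nodes of the tree of the
height under consideration matter.) -/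
structure Inst (k : ℕ) where
  leaf : Node → Fin k
  fn : Node → Fin k → Fin k → Fin k

/-- `I.val n p` is the value of the node `p` if the tree has `n` further levels below `p`
(so that `p` is a leaf if `n = 0`). -/
def Inst.val {k : ℕ} (I : Inst k) : ℕ → Node → Fin k
  | 0, p => I.leaf p
  | n + 1, p => I.fn p (I.val n (false :: p)) (I.val n (true :: p))

/-- The value of the node `p` in the complete binary tree with `h` levels of nodes. -/
def Inst.nodeVal {k : ℕ} (I : Inst k) (h : ℕ) (p : Node) : Fin k :=
  I.val (h - (p.length + 1)) p

/-- A query to the input: the value of a leaf, or one value of the function of an internal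
node. -/
inductive Query (k : ℕ) where
  | leaf (p : Node) : Query k
  | fn (p : Node) (a b : Fin k) : Query k

/-- The answer of an instance to a query. -/
def Inst.answer {k : ℕ} (I : Inst k) : Query k → Fin k
  | .leaf p => I.leaf p
  | .fn p a b => I.fn p a b

/-- The query asks for an entry of the input of the tree with `h` levels of nodes. -/
def Query.InTree {k : ℕ} (h : ℕ) : Query k → Prop
  | .leaf p => p.length + 1 = h
  | .fn p _ _ => p.length + 1 < h

/-- The query is thrifty for the instance `I`: the function of an internal node is only queried
at the correct values of its two children. -/
def Query.Thrifty {k : ℕ} (h : ℕ) (I : Inst k) : Query k → Prop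
  | .leaf _ => True
  | .fn p a b => a = I.nodeVal h (false :: p) ∧ b = I.nodeVal h (true :: p)

/-- A nondeterministic `k`-way branching program for trees with `h` levels of nodes.
A state is either a query state or a final state labelled with an output value; a query
state has, for each possible answer, an arbitrary set of successors. -/
structure NBP (h k : ℕ) where
  State : Type
  [fin : Fintype State]
  start : State
  label : State → Query k ⊕ Fin k
  next : State → Fin k → Set State
  inTree : ∀ s q, label s = Sum.inl q → q.InTree h

attribute [instance] NBP.fin

/-- `B.Comp I s l v`: on the instance `I`, `l` is the sequence of states of a computation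
starting in `s` and ending in a final state labelled `v`. -/
inductive NBP.Comp {h k : ℕ} (B : NBP h k) (I : Inst k) :
    B.State → List B.State → Fin k → Prop
  | final {s : B.State} {v : Fin k} (hs : B.label s = Sum.inr v) : B.Comp I s [s] v
  | step {s t : B.State} {q : Query k} {l : List B.State} {v : Fin k}
      (hs : B.label s = Sum.inl q) (ht : t ∈ B.next s (I.answer q)) (hl : B.Comp I t l v) :
      B.Comp I s (s :: l) v

/-- The program solves the tree evaluation problem: on every instance some computation
from the start state reaches a final state, and every such computation outputs the value of
the root. -/
def NBP.Solves {h k : ℕ} (B : NBP h k) : Prop :=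
  ∀ I : Inst k, (∃ l, B.Comp I B.start l (I.nodeVal h [])) ∧
    ∀ l v, B.Comp I B.start l v → v = I.nodeVal h []

/-- The program is thrifty: on every instance, every computation which reaches a final state
makes only thrifty queries. -/
def NBP.IsThrifty {h k : ℕ} (B : NBP h k) : Prop :=
  ∀ (I : Inst k) l v, B.Comp I B.start l v →
    ∀ s ∈ l, ∀ q, B.label s = Sum.inl q → q.Thrifty h I

/-- The program is unambiguous: on every instance at most one computation from the start
state reaches a final state. -/
def NBP.Unambiguous {h k : ℕ} (B : NBP h k) : Prop :=
  ∀ (I : Inst k) l l' v v', B.Comp I B.start l v → B.Comp I B.start l' v' → l = l'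

end Pool.Agent.Helper6.TreeEval
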