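import Pool.Agent.Helper6.ThriftyDefs

/-!
# Gadgets: branching programs with many entries and exits
-/

namespace Pool.Agent.Helper6.TreeEval

/-- A gadget with entries `A` and exits `B`. -/
structure Gadget (k : ℕ) (A B : Type) where
  S : Type
  [fin : Fintype S]
  start : A → S
  query : S → Query k
  step : S → Fin k → Set (S ⊕ B)

attribute [instance] Gadget.fin

namespace Gadget

variable {k : ℕ} {A B C D : Type}

/-- Paths through a gadget. -/
inductive Path (g : Gadget k A B) (I : Inst k) : g.S → List g.S → B → Prop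
  | exit {s : g.S} {b : B} (hb : Sum.inr b ∈ g.step s (I.answer (g.query s))) :
      Path g I s [s] b
  | cons {s t : g.S} {l : List g.S} {b : B}
      (ht : Sum.inl t ∈ g.step s (I.answer (g.query s))) (hl : Path g I t l b) :
      Path g I s (s :: l) b

/-- `g.Runs I a l b`: on the instance `I` there is a path from the entry `a` to the exit `b`
with sequence of states `l`. -/
def Runs (g : Gadget k A B) (I : Inst k) (a : A) (l : List g.S) (b : B) : Prop :=
  g.Path I (g.start a) l b

/-- Sequential composition, with a relation from the exits of the first gadget to the entries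
of the second. -/
def comp (g : Gadget k A B) (R : B → C → Prop) (g' : Gadget k C D) : Gadget k A D where
  S := g.S ⊕ g'.S
  start a := Sum.inl (g.start a)
  query := Sum.elim g.query g'.query
  step := fun s v => match s with
    | Sum.inl s => {w | (∃ t, w = Sum.inl (Sum.inl t) ∧ Sum.inl t ∈ g.step s v) ∨
        ∃ b c, w = Sum.inl (Sum.inr (g'.start c)) ∧ Sum.inr b ∈ g.step s v ∧ R b c}
    | Sum.inr s => {w | (∃ t, w = Sum.inl (Sum.inr t) ∧ Sum.inl t ∈ g'.step s v) ∨
        ∃ d, w = Sum.inr d ∧ Sum.inr d ∈ g'.step s v}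

/-- Relabelling of the exits. -/
def post (g : Gadget k A B) (R : B → C → Prop) : Gadget k A C where
  S := g.S
  start := g.start
  query := g.query
  step := fun s v => {w | (∃ t, w = Sum.inl t ∧ Sum.inl t ∈ g.step s v) ∨
        ∃ b c, w = Sum.inr c ∧ Sum.inr b ∈ g.step s v ∧ R b c}

/-- A gadget which asks one query. -/
def ask [Fintype A] (q : A → Query k) (f : A → Fin k → B) : Gadget k A B where
  S := A
  start := id
  query := q
  step := fun s v => {Sum.inr (f s v)}

/-- Relabelling of the entries. -/
def pre (f : A → B) (g : Gadget k B C) : Gadget k A C where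
  S := g.S
  start a := g.start (f a)
  query := g.query
  step := g.step

theorem runs_pre (f : A → B) (g : Gadget k B C) (I : Inst k) (a : A) (l : List g.S) (c : C) :
    (pre f g).Runs I a l c ↔ g.Runs I (f a) l c := by
  have key1 : ∀ (s : (pre f g).S) (l : List (pre f g).S) (c : C), (pre f g).Path I s l c →
      g.Path I s l c := by
    intro s l c hp
    induction hp with
    | exit hb => exact Path.exit hb
    | cons ht _ ih => exact Path.cons ht ih
  have key2 : ∀ (s : g.S) (l : List g.S) (c : C), g.Path I s l c → (pre f g).Path I s l c := by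
    intro s l c hp
    induction hp with
    | exit hb => exact Path.exit (g := pre f g) hb
    | cons ht _ ih => exact Path.cons (g := pre f g) ht ih
  exact ⟨key1 _ _ _, key2 _ _ _⟩

theorem runs_ask [Fintype A] (q : A → Query k) (f : A → Fin k → B) (I : Inst k) (a : A)
    (l : List A) (b : B) :
    (ask q f).Runs I a l b ↔ l = [a] ∧ b = f a (I.answer (q a)) := by
  constructor
  · intro hp
    have key : ∀ (s : (ask q f).S) (l : List (ask q f).S) (b : B), (ask q f).Path I s l b →
        l = [s] ∧ b = f s (I.answer (q s)) := by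
      intro s l b hp
      induction hp with
      | exit hb => exact ⟨rfl, Sum.inr_injective hb⟩
      | cons ht hl => exact absurd ht (by intro h; cases h)
    exact key _ _ _ hp
  · rintro ⟨rfl, rfl⟩
    exact Path.exit (g := ask q f) rfl

theorem runs_post (g : Gadget k A B) (R : B → C → Prop) (I : Inst k) (a : A) (l : List g.S)
    (c : C) : (g.post R).Runs I a l c ↔ ∃ b, g.Runs I a l b ∧ R b c := by
  have key1 : ∀ (s : (g.post R).S) (l : List (g.post R).S) (c : C),
      (g.post R).Path I s l c → ∃ b, g.Path I s l b ∧ R b c := by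
    intro s l c hp
    induction hp with
    | exit hb =>
      rcases hb with ⟨t, h1, _⟩ | ⟨b, c', h1, hb, hR⟩
      · exact absurd h1 (by simp)
      · cases h1
        exact ⟨b, Path.exit hb, hR⟩
    | cons ht _ ih =>
      obtain ⟨b, hb, hR⟩ := ih
      rcases ht with ⟨t', h1, ht⟩ | ⟨b', c', h1, _, _⟩
      · cases h1
        exact ⟨b, Path.cons ht hb, hR⟩
      · exact absurd h1 (by simp)
  have key2 : ∀ (s : g.S) (l : List g.S) (b : B), g.Path I s l b → ∀ c, R b c →
      (g.post R).Path I s l c := by
    intro s l b hp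
    induction hp with
    | exit hb =>
      intro c hR
      refine Path.exit (g := g.post R) ?_
      exact Or.inr ⟨_, _, rfl, hb, hR⟩
    | cons ht _ ih =>
      intro c hR
      refine Path.cons (g := g.post R) ?_ (ih c hR)
      exact Or.inl ⟨_, rfl, ht⟩
  constructor
  · intro hp
    exact key1 _ _ _ hp
  · rintro ⟨b, hb, hR⟩
    exact key2 _ _ _ hb c hR

theorem runs_comp (g : Gadget k A B) (R : B → C → Prop) (g' : Gadget k C D) (I : Inst k)
    (a : A) (l : List (g.S ⊕ g'.S)) (d : D) :
    (g.comp R g').Runs I a l d ↔ ∃ l₁ b c l₂, g.Runs I a l₁ b ∧ R b c ∧ g'.Runs I c l₂ d ∧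
      l = l₁.map Sum.inl ++ l₂.map Sum.inr := by
  have key2 : ∀ (u : (g.comp R g').S) (l : List (g.comp R g').S) (d : D),
      (g.comp R g').Path I u l d → ∀ s : g'.S, u = Sum.inr s →
      ∃ l₂, g'.Path I s l₂ d ∧ l = l₂.map Sum.inr := by
    intro u l d hp
    induction hp with
    | @exit u d hb =>
      rintro s rfl
      have hb' : Sum.inr d ∈ g'.step s (I.answer (g'.query s)) := by
        rcases hb with ⟨t, h1, _⟩ | ⟨d', h1, h2⟩
        · exact absurd h1 (by simp)
        · cases h1; exact h2
      exact ⟨[s], Path.exit hb', rfl⟩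
    | @cons u t l d ht _ ih =>
      rintro s rfl
      rcases ht with ⟨t', h1, h2⟩ | ⟨d', h1, _⟩
      · have h1' : t = Sum.inr t' := Sum.inl_injective h1
        obtain ⟨l₂, hl₂, rfl⟩ := ih t' h1'
        exact ⟨s :: l₂, Path.cons h2 hl₂, rfl⟩
      · exact absurd h1 (by simp)
  have key1 : ∀ (u : (g.comp R g').S) (l : List (g.comp R g').S) (d : D),
      (g.comp R g').Path I u l d → ∀ s : g.S, u = Sum.inl s →
      ∃ l₁ b c l₂, g.Path I s l₁ b ∧ R b c ∧ g'.Path I (g'.start c) l₂ d ∧
      l = l₁.map Sum.inl ++ l₂.map Sum.inr := by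
    intro u l d hp
    induction hp with
    | @exit u d hb =>
      rintro s rfl
      rcases hb with ⟨t, h1, _⟩ | ⟨b, c, h1, _⟩
      · exact absurd h1 (by simp)
      · exact absurd h1 (by simp)
    | @cons u t l d ht hl ih =>
      rintro s rfl
      rcases ht with ⟨t', h1, h2⟩ | ⟨b, c, h1, h2, h3⟩
      · have h1' : t = Sum.inl t' := Sum.inl_injective h1
        obtain ⟨l₁, b, c, l₂, ha, hb, hc, rfl⟩ := ih t' h1'
        exact ⟨s :: l₁, b, c, l₂, Path.cons h2 ha, hb, hc, rfl⟩
      · have h1' : t = Sum.inr (g'.start c) := Sum.inl_injective h1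
        obtain ⟨l₂, hl₂, rfl⟩ := key2 _ _ _ hl _ h1'
        exact ⟨[s], b, c, l₂, Path.exit h2, h3, hl₂, rfl⟩
  have key3 : ∀ (s : g'.S) (l₂ : List g'.S) (d : D), g'.Path I s l₂ d →
      (g.comp R g').Path I (Sum.inr s) (l₂.map Sum.inr) d := by
    intro s l₂ d hp
    induction hp with
    | exit hb =>
      refine Path.exit (g := g.comp R g') ?_
      exact Or.inr ⟨_, rfl, hb⟩
    | cons ht _ ih =>
      refine Path.cons (g := g.comp R g') ?_ ih
      exact Or.inl ⟨_, rfl, ht⟩
  have key4 : ∀ (s : g.S) (l₁ : List g.S) (b : B), g.Path I s l₁ b → ∀ c l₂ d, R b c →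
      g'.Path I (g'.start c) l₂ d →
      (g.comp R g').Path I (Sum.inl s) (l₁.map Sum.inl ++ l₂.map Sum.inr) d := by
    intro s l₁ b hp
    induction hp with
    | @exit s b hb =>
      intro c l₂ d hR hp'
      refine Path.cons (g := g.comp R g') ?_ (key3 _ _ _ hp')
      exact Or.inr ⟨b, c, rfl, hb, hR⟩
    | @cons s t l b ht _ ih =>
      intro c l₂ d hR hp'
      refine Path.cons (g := g.comp R g') ?_ (ih c l₂ d hR hp')
      exact Or.inl ⟨_, rfl, ht⟩
  constructor
  · intro hp
    exact key1 _ _ _ hp _ rfl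
  · rintro ⟨l₁, b, c, l₂, ha, hb, hc, rfl⟩
    exact key4 _ _ _ ha _ _ _ hb hc

end Gadget

end Pool.Agent.Helper6.TreeEval
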