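import Mathlib

/-!
# Visiting patterns of the complete binary tree

`P : ℕ → List Bool` is a sequence of nodes; `c :: p` is a child of `p`.
-/

namespace Pool.Agent.Helper6.Pattern

open Finset

/-- The node `w` is visited in the window `[a, b)`. -/
def Vis (P : ℕ → List Bool) (a b : ℕ) (w : List Bool) : Prop :=
  ∃ i, a ≤ i ∧ i < b ∧ P i = w

/-- All nodes below `z` (of depth at most `H`) are visited in the window `[a, b)`. -/
def Full (P : ℕ → List Bool) (H : ℕ) (z : List Bool) (a b : ℕ) : Prop :=
  ∀ y : List Bool, (y ++ z).length ≤ H → Vis P a b (y ++ z)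

/-- The nodes of depth at most `H`. -/
def nodes : ℕ → Finset (List Bool)
  | 0 => {[]}
  | H + 1 => insert [] ((nodes H).image (List.cons false) ∪ (nodes H).image (List.cons true))

theorem mem_nodes {H : ℕ} {w : List Bool} : w ∈ nodes H ↔ w.length ≤ H := by
  induction H generalizing w with
  | zero => simp [nodes]
  | succ H ih =>
    rcases w with _ | ⟨c, w⟩
    · simp [nodes]
    · cases c <;> simp [nodes, ih]

theorem card_nodes (H : ℕ) : (nodes H).card = 2 ^ (H + 1) - 1 := by
  induction H with
  | zero => simp [nodes]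
  | succ H ih =>
    have h1 : Disjoint ((nodes H).image (List.cons false)) ((nodes H).image (List.cons true)) := by
      rw [Finset.disjoint_left]
      intro w hw hw'
      obtain ⟨x, -, rfl⟩ := Finset.mem_image.1 hw
      obtain ⟨y, -, hy⟩ := Finset.mem_image.1 hw'
      simp at hy
    have h2 : ([] : List Bool) ∉
        (nodes H).image (List.cons false) ∪ (nodes H).image (List.cons true) := by simp
    rw [nodes, Finset.card_insert_of_notMem h2, Finset.card_union_of_disjoint h1,
      Finset.card_image_of_injective _ List.cons_injective,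
      Finset.card_image_of_injective _ List.cons_injective, ih]
    have : 1 ≤ 2 ^ (H + 1) := Nat.one_le_two_pow
    rw [pow_succ 2 (H + 1)]
    omega

open Classical in
/-- The boundary of a window: the nodes which are not visited in the window although their
parent is. -/
noncomputable def Bd (P : ℕ → List Bool) (H a b : ℕ) : Finset (List Bool) :=
  (nodes H).filter fun w => ¬ Vis P a b w ∧ ∃ c p, w = c :: p ∧ Vis P a b p

open Classical in
/-- The number of visits of leaves below `z` in the window. -/
noncomputable def Lf (P : ℕ → List Bool) (H : ℕ) (z : List Bool) (a b : ℕ) : ℕ :=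
  ((Finset.Ico a b).filter fun i => (P i).length = H ∧ z <:+ P i).card

variable {P : ℕ → List Bool} {H : ℕ}

theorem Vis.mono {a b a' b' : ℕ} {w : List Bool} (h : Vis P a b w) (ha : a' ≤ a) (hb : b ≤ b') :
    Vis P a' b' w := by
  obtain ⟨i, h1, h2, h3⟩ := h
  exact ⟨i, ha.trans h1, h2.trans_le hb, h3⟩

theorem Full.mono {a b a' b' : ℕ} {z : List Bool} (h : Full P H z a b) (ha : a' ≤ a)
    (hb : b ≤ b') : Full P H z a' b' := fun y hy => (h y hy).mono ha hb

theorem Full.child {a b : ℕ} {z : List Bool} (h : Full P H z a b) (c : Bool) :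
    Full P H (c :: z) a b := by
  intro y hy
  have h1 := h (y ++ [c]) (by simpa using hy)
  simpa using h1

theorem Full.of_suffix {a b : ℕ} {z w : List Bool} (h : Full P H z a b) (hw : z <:+ w) :
    Full P H w a b := by
  obtain ⟨t, rfl⟩ := hw
  intro y hy
  have h1 := h (y ++ t) (by simpa using hy)
  simpa using h1

theorem Full.vis {a b : ℕ} {z : List Bool} (h : Full P H z a b) (hz : z.length ≤ H) :
    Vis P a b z := h [] (by simpa using hz)

theorem Lf_add {z : List Bool} {a b c : ℕ} (hab : a ≤ b) (hbc : b ≤ c) :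
    Lf P H z a b + Lf P H z b c = Lf P H z a c := by
  classical
  unfold Lf
  rw [← Finset.card_union_of_disjoint, ← Finset.filter_union,
    Finset.Ico_union_Ico_eq_Ico hab hbc]
  exact Finset.disjoint_filter_filter (Finset.Ico_disjoint_Ico_consecutive a b c)

theorem Lf_child {z : List Bool} {a b : ℕ} :
    Lf P H (false :: z) a b + Lf P H (true :: z) a b ≤ Lf P H z a b := by
  classical
  unfold Lf
  rw [← Finset.card_union_of_disjoint]
  · apply Finset.card_le_card
    intro i hi
    simp only [Finset.mem_union, Finset.mem_filter] at hi ⊢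
    rcases hi with ⟨h1, h2, h3⟩ | ⟨h1, h2, h3⟩
    · exact ⟨h1, h2, (List.suffix_cons _ _).trans h3⟩
    · exact ⟨h1, h2, (List.suffix_cons _ _).trans h3⟩
  · rw [Finset.disjoint_filter]
    intro i _ h1 h2
    have h3 := List.suffix_of_suffix_length_le h1.2 h2.2 (by simp)
    have h4 := h3.eq_of_length (by simp)
    simp at h4

/-- Every full window contains a visit to every leaf. -/
theorem Lf_base (n : ℕ) : ∀ {z : List Bool} {a b : ℕ}, z.length + n = H → Full P H z a b →
    2 ^ n ≤ Lf P H z a b := by
  induction n with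
  | zero =>
    intro z a b hz hf
    obtain ⟨i, h1, h2, h3⟩ := hf.vis (by omega)
    unfold Lf
    rw [pow_zero, Nat.one_le_iff_ne_zero, Finset.card_ne_zero]
    refine ⟨i, Finset.mem_filter.2 ⟨Finset.mem_Ico.2 ⟨h1, h2⟩, ?_, ?_⟩⟩
    · rw [h3]; omega
    · rw [h3]
  | succ n ih =>
    intro z a b hz hf
    have h1 := ih (z := false :: z) (by simp; omega) (hf.child false)
    have h2 := ih (z := true :: z) (by simp; omega) (hf.child true)
    have h3 := Lf_child (P := P) (H := H) (z := z) (a := a) (b := b)
    rw [pow_succ]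
    omega

/-! ### First and last completion -/

section window

variable (P H)
variable (a b : ℕ)

/-- The first `v` such that the subtree below `z` is visited completely in `[a, v)`. -/
noncomputable def be (z : List Bool) : ℕ := sInf {v | Full P H z a v}

/-- The last `u` such that the subtree below `z` is visited completely in `[u, b)`. -/
noncomputable def al (z : List Bool) : ℕ := sSup {u | Full P H z u b}

end window

variable {a b : ℕ}

theorem full_be {z : List Bool} (hf : Full P H z a b) : Full P H z a (be P H a z) :=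
  Nat.sInf_mem (s := {v | Full P H z a v}) ⟨b, hf⟩

theorem be_le {z : List Bool} {v : ℕ} (hf : Full P H z a v) : be P H a z ≤ v :=
  Nat.sInf_le (s := {v | Full P H z a v}) hf

theorem bdd_al {z : List Bool} (hz : z.length ≤ H) : BddAbove {u | Full P H z u b} := by
  refine ⟨b, fun u hu => ?_⟩
  obtain ⟨i, h1, h2, -⟩ := Full.vis hu hz
  omega

theorem full_al {z : List Bool} (hz : z.length ≤ H) (hf : Full P H z a b) :
    Full P H z (al P H b z) b :=
  Nat.sSup_mem (s := {u | Full P H z u b}) ⟨a, hf⟩ (bdd_al hz)

theorem le_al {z : List Bool} (hz : z.length ≤ H) {u : ℕ} (hf : Full P H z u b) :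
    u ≤ al P H b z :=
  le_csSup (bdd_al hz) hf

theorem be_mono {z w : List Bool} (hw : z <:+ w) (hf : Full P H z a b) :
    be P H a w ≤ be P H a z := be_le ((full_be hf).of_suffix hw)

theorem al_mono {z w : List Bool} (hw : z <:+ w) (hz : w.length ≤ H) (hf : Full P H z a b) :
    al P H b z ≤ al P H b w :=
  le_al hz ((full_al (hw.length_le.trans hz) hf).of_suffix hw)

theorem be_spec {z : List Bool} (hz : z.length ≤ H) (hf : Full P H z a b) :
    ∃ i, i + 1 = be P H a z ∧ z <:+ P i := by
  have h1 := full_be hf
  obtain ⟨j, hj1, hj2, -⟩ := h1.vis hz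
  obtain ⟨i, hi⟩ : ∃ i, i + 1 = be P H a z := ⟨be P H a z - 1, by omega⟩
  refine ⟨i, hi, ?_⟩
  have h2 : ¬ Full P H z a i := fun h => by
    have := be_le h
    omega
  unfold Full at h2
  push Not at h2
  obtain ⟨y, hy1, hy2⟩ := h2
  obtain ⟨j', h3, h4, h5⟩ := h1 y hy1
  have h6 : j' = i := by
    by_contra hne
    exact hy2 ⟨j', h3, by omega, h5⟩
  subst h6
  exact ⟨y, h5.symm⟩

theorem al_spec {z : List Bool} (hz : z.length ≤ H) (hf : Full P H z a b) :
    z <:+ P (al P H b z) := by
  have h1 := full_al hz hf
  have h2 : ¬ Full P H z (al P H b z + 1) b := fun h => by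
    have := le_al hz h
    omega
  unfold Full at h2
  push Not at h2
  obtain ⟨y, hy1, hy2⟩ := h2
  obtain ⟨j', h3, h4, h5⟩ := h1 y hy1
  have h6 : j' = al P H b z := by
    by_contra hne
    exact hy2 ⟨j', by omega, h4, h5⟩
  subst h6
  exact ⟨y, h5.symm⟩

theorem not_both {c : Bool} {z w : List Bool} (h1 : (c :: z) <:+ w) (h2 : ((!c) :: z) <:+ w) :
    False := by
  have h3 := List.suffix_of_suffix_length_le h1 h2 (by simp)
  have h4 := h3.eq_of_length (by simp)
  simp at h4

theorem be_ne {c : Bool} {z : List Bool} (hz : z.length + 1 ≤ H) (hf : Full P H z a b) :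
    be P H a (c :: z) ≠ be P H a ((!c) :: z) := by
  intro h
  obtain ⟨i, h1, h2⟩ := be_spec (z := c :: z) (by simpa using hz) (hf.child c)
  obtain ⟨j, h3, h4⟩ := be_spec (z := (!c) :: z) (by simpa using hz) (hf.child (!c))
  have h5 : i = j := by omega
  subst h5
  exact not_both h2 h4

theorem al_ne {c : Bool} {z : List Bool} (hz : z.length + 1 ≤ H) (hf : Full P H z a b) :
    al P H b (c :: z) ≠ al P H b ((!c) :: z) := by
  intro h
  have h2 := al_spec (z := c :: z) (by simpa using hz) (hf.child c)
  have h4 := al_spec (z := (!c) :: z) (by simpa using hz) (hf.child (!c))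
  rw [← h] at h4
  exact not_both h2 h4

/-! ### Boundary edges -/

/-- The boundary nodes which are not proper descendants of `z`. -/
noncomputable def Bout (P : ℕ → List Bool) (H : ℕ) (z : List Bool) (a b : ℕ) :
    Finset (List Bool) :=
  (Bd P H a b).filter fun w => ¬ (z <:+ w ∧ z ≠ w)

theorem Bout_subset {z : List Bool} : Bout P H z a b ⊆ Bd P H a b := Finset.filter_subset _ _

/-- On the way from a visited node to an unvisited node below it there is a boundary node. -/
theorem exists_boundary {p : List Bool} (hp : Vis P a b p) :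
    ∀ y : List Bool, (y ++ p).length ≤ H → ¬ Vis P a b (y ++ p) →
      ∃ w ∈ Bd P H a b, p <:+ w ∧ p ≠ w ∧ w <:+ (y ++ p) := by
  classical
  intro y
  induction y with
  | nil => exact fun _ h => absurd hp h
  | cons c y ih =>
    intro hlen hnot
    by_cases hv : Vis P a b (y ++ p)
    · refine ⟨c :: (y ++ p), ?_, ⟨c :: y, rfl⟩, ?_, List.suffix_refl _⟩
      · exact Finset.mem_filter.2 ⟨mem_nodes.2 hlen, hnot, c, y ++ p, rfl, hv⟩
      · intro h
        have := congrArg List.length h
        simp at this
        omega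
    · obtain ⟨w, h1, h2, h3, h4⟩ := ih (by simp at hlen ⊢; omega) hv
      exact ⟨w, h1, h2, h3, h4.trans (List.suffix_cons _ _)⟩

theorem Bout_mono {z y : List Bool} (h : z <:+ y) : Bout P H z a b ⊆ Bout P H y a b := by
  intro w hw
  obtain ⟨h1, h2⟩ := Finset.mem_filter.1 hw
  refine Finset.mem_filter.2 ⟨h1, fun ⟨h3, h4⟩ => h2 ⟨h.trans h3, ?_⟩⟩
  rintro rfl
  exact h4 (h3.eq_of_length_le h.length_le)

/-- If `z₀` is visited in the window, `z₀` is an ancestor of `z` and the tree below the child
`!d` of `z` is not visited completely, then there is a boundary node in the tree below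
`z₀`, outside the tree below `d :: z`. -/
theorem Bout_gain {z₀ z : List Bool} {d : Bool} (hz : Vis P a b z₀) (h0 : z₀ <:+ z)
    (h : ¬ Full P H ((!d) :: z) a b) :
    (Bout P H z₀ a b).card + 1 ≤ (Bout P H (d :: z) a b).card := by
  classical
  unfold Full at h
  push Not at h
  obtain ⟨y, hy1, hy2⟩ := h
  obtain ⟨t, ht⟩ : z₀ <:+ y ++ ((!d) :: z) :=
    (h0.trans (List.suffix_cons _ _)).trans ⟨y, rfl⟩
  rw [← ht] at hy1 hy2
  obtain ⟨w, hw1, hw2, hw3, hw4⟩ := exists_boundary hz t hy1 hy2
  have hwn : w ∉ Bout P H z₀ a b := fun h => (Finset.mem_filter.1 h).2 ⟨hw2, hw3⟩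
  have hwy : w ∈ Bout P H (d :: z) a b := by
    refine Finset.mem_filter.2 ⟨hw1, fun h => ?_⟩
    refine not_both (c := d) (z := z) (h.1.trans hw4) ?_
    rw [ht]
    exact ⟨y, rfl⟩
  have hsub : insert w (Bout P H z₀ a b) ⊆ Bout P H (d :: z) a b := by
    intro v hv
    rcases Finset.mem_insert.1 hv with rfl | hv
    · exact hwy
    · exact Bout_mono (h0.trans (List.suffix_cons _ _)) hv
  calc (Bout P H z₀ a b).card + 1 = (insert w (Bout P H z₀ a b)).card :=
        (Finset.card_insert_of_notMem hwn).symm
    _ ≤ _ := Finset.card_le_card hsub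

/-! ### The invariants -/

variable (P H a b) in
/-- The number of boundary nodes outside the tree below `z`, in the two parts of the window
`[a, b)` cut at `c`. -/
noncomputable def S (z : List Bool) (c : ℕ) : ℕ :=
  (Bout P H z a c).card + (Bout P H z c b).card

theorem S_mono {z w : List Bool} (h : z <:+ w) (c : ℕ) : S P H a b z c ≤ S P H a b w c :=
  Nat.add_le_add (Finset.card_le_card (Bout_mono h)) (Finset.card_le_card (Bout_mono h))

variable (P H a b) in
/-- The invariant: for each cut `c` between the last and the first completion of `z` there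
are at least `n` boundary nodes outside the tree below `z`. -/
def Inv (z : List Bool) (n : ℕ) : Prop :=
  ∀ c, al P H b z ≤ c → c ≤ be P H a z → n ≤ S P H a b z c

variable (P H a b) in
/-- The invariant with a pending gain in the second half. -/
def InvP (z : List Bool) (n : ℕ) : Prop :=
  ∀ c, al P H b z ≤ c → c ≤ be P H a z →
    n + 1 ≤ S P H a b z c ∨ ∃ z₀, z₀ <:+ z ∧ Vis P c b z₀ ∧ n ≤ S P H a b z₀ c

variable (P H a b) in
/-- The invariant with a pending gain in the first half. -/
def InvM (z : List Bool) (n : ℕ) : Prop :=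
  ∀ c, al P H b z ≤ c → c ≤ be P H a z →
    n + 1 ≤ S P H a b z c ∨ ∃ z₀, z₀ <:+ z ∧ Vis P a c z₀ ∧ n ≤ S P H a b z₀ c

variable (P H a b) in
/-- The child `d :: z` is completed before its sibling. -/
def bp (d : Bool) (z : List Bool) : Prop := be P H a (d :: z) < be P H a ((!d) :: z)

variable (P H a b) in
/-- The last completion of the child `d :: z` starts after that of its sibling. -/
def bm (d : Bool) (z : List Bool) : Prop := al P H b ((!d) :: z) < al P H b (d :: z)

/-- A cut between the last and the first completion of a child is one for the parent, and the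
sibling subtree is incomplete on the relevant sides. -/
theorem cut {z : List Bool} {d : Bool} (hz : z.length + 1 ≤ H) (hf : Full P H z a b) {c : ℕ}
    (h1 : al P H b (d :: z) ≤ c) (h2 : c ≤ be P H a (d :: z)) :
    al P H b z ≤ c ∧ c ≤ be P H a z ∧ (bp P H a d z → ¬ Full P H ((!d) :: z) a c) ∧
      (bm P H b d z → ¬ Full P H ((!d) :: z) c b) := by
  have h3 : z <:+ d :: z := List.suffix_cons _ _
  refine ⟨(al_mono h3 (by simpa using hz) hf).trans h1, h2.trans (be_mono h3 hf), ?_, ?_⟩
  · intro hp hfull
    have h4 := be_le hfull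
    unfold bp at hp
    omega
  · intro hp hfull
    have h4 := le_al (by simpa using hz) hfull
    unfold bm at hp
    omega

theorem Inv.child {z : List Bool} {d : Bool} {n : ℕ} (h : Inv P H a b z n)
    (hz : z.length + 1 ≤ H) (hf : Full P H z a b) : Inv P H a b (d :: z) n := by
  intro c h1 h2
  obtain ⟨h3, h4, -, -⟩ := cut hz hf h1 h2
  exact (h c h3 h4).trans (S_mono (List.suffix_cons _ _) c)

theorem Inv.both {z : List Bool} {d : Bool} {n : ℕ} (h : Inv P H a b z n)
    (hz : z.length + 1 ≤ H) (hf : Full P H z a b) (hp : bp P H a d z) (hm : bm P H b d z) :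
    Inv P H a b (d :: z) (n + 1) := by
  intro c h1 h2
  obtain ⟨h3, h4, h5, h6⟩ := cut hz hf h1 h2
  have h7 := h c h3 h4
  obtain ⟨i, hi1, hi2, hi3⟩ := hf.vis (by omega)
  have h9 := Finset.card_le_card (Bout_mono (P := P) (H := H) (a := a) (b := c)
    (List.suffix_cons d z))
  have h10 := Finset.card_le_card (Bout_mono (P := P) (H := H) (a := c) (b := b)
    (List.suffix_cons d z))
  unfold S at h7 ⊢
  rcases lt_or_ge i c with hic | hic
  · have h8 := Bout_gain (P := P) (H := H) (a := a) (b := c) ⟨i, hi1, hic, hi3⟩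
      (List.suffix_refl z) (h5 hp)
    omega
  · have h8 := Bout_gain (P := P) (H := H) (a := c) (b := b) ⟨i, hic, hi2, hi3⟩
      (List.suffix_refl z) (h6 hm)
    omega

theorem Inv.pending {z : List Bool} {d : Bool} {n : ℕ} (h : Inv P H a b z n)
    (hz : z.length + 1 ≤ H) (hf : Full P H z a b) (hp : bp P H a d z) :
    InvP P H a b (d :: z) n := by
  intro c h1 h2
  obtain ⟨h3, h4, h5, h6⟩ := cut hz hf h1 h2
  have h7 := h c h3 h4
  obtain ⟨i, hi1, hi2, hi3⟩ := hf.vis (by omega)
  have h10 := Finset.card_le_card (Bout_mono (P := P) (H := H) (a := c) (b := b)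
    (List.suffix_cons d z))
  rcases lt_or_ge i c with hic | hic
  · left
    unfold S at h7 ⊢
    have h8 := Bout_gain (P := P) (H := H) (a := a) (b := c) ⟨i, hi1, hic, hi3⟩
      (List.suffix_refl z) (h5 hp)
    omega
  · right
    exact ⟨z, List.suffix_cons _ _, ⟨i, hic, hi2, hi3⟩, h7⟩

theorem Inv.pendingM {z : List Bool} {d : Bool} {n : ℕ} (h : Inv P H a b z n)
    (hz : z.length + 1 ≤ H) (hf : Full P H z a b) (hp : bm P H b d z) :
    InvM P H a b (d :: z) n := by
  intro c h1 h2
  obtain ⟨h3, h4, h5, h6⟩ := cut hz hf h1 h2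
  have h7 := h c h3 h4
  obtain ⟨i, hi1, hi2, hi3⟩ := hf.vis (by omega)
  have h10 := Finset.card_le_card (Bout_mono (P := P) (H := H) (a := a) (b := c)
    (List.suffix_cons d z))
  rcases lt_or_ge i c with hic | hic
  · right
    exact ⟨z, List.suffix_cons _ _, ⟨i, hi1, hic, hi3⟩, h7⟩
  · left
    unfold S at h7 ⊢
    have h8 := Bout_gain (P := P) (H := H) (a := c) (b := b) ⟨i, hic, hi2, hi3⟩
      (List.suffix_refl z) (h6 hp)
    omega

theorem InvP.child {z : List Bool} {d : Bool} {n : ℕ} (h : InvP P H a b z n)
    (hz : z.length + 1 ≤ H) (hf : Full P H z a b) : InvP P H a b (d :: z) n := by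
  intro c h1 h2
  obtain ⟨h3, h4, -, -⟩ := cut hz hf h1 h2
  rcases h c h3 h4 with h5 | ⟨z₀, h5, h6, h7⟩
  · exact Or.inl (h5.trans (S_mono (List.suffix_cons _ _) c))
  · exact Or.inr ⟨z₀, h5.trans (List.suffix_cons _ _), h6, h7⟩

theorem InvM.child {z : List Bool} {d : Bool} {n : ℕ} (h : InvM P H a b z n)
    (hz : z.length + 1 ≤ H) (hf : Full P H z a b) : InvM P H a b (d :: z) n := by
  intro c h1 h2
  obtain ⟨h3, h4, -, -⟩ := cut hz hf h1 h2
  rcases h c h3 h4 with h5 | ⟨z₀, h5, h6, h7⟩
  · exact Or.inl (h5.trans (S_mono (List.suffix_cons _ _) c))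
  · exact Or.inr ⟨z₀, h5.trans (List.suffix_cons _ _), h6, h7⟩

theorem InvP.gain {z : List Bool} {d : Bool} {n : ℕ} (h : InvP P H a b z n)
    (hz : z.length + 1 ≤ H) (hf : Full P H z a b) (hm : bm P H b d z) :
    Inv P H a b (d :: z) (n + 1) := by
  intro c h1 h2
  obtain ⟨h3, h4, -, h9⟩ := cut hz hf h1 h2
  rcases h c h3 h4 with h5 | ⟨z₀, h5, h6, h7⟩
  · exact h5.trans (S_mono (List.suffix_cons _ _) c)
  · have h8 := Bout_gain h6 h5 (h9 hm)
    have h10 := Finset.card_le_card (Bout_mono (P := P) (H := H) (a := a) (b := c)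
      (h5.trans (List.suffix_cons d z)))
    unfold S at h7 ⊢
    omega

theorem InvM.gain {z : List Bool} {d : Bool} {n : ℕ} (h : InvM P H a b z n)
    (hz : z.length + 1 ≤ H) (hf : Full P H z a b) (hm : bp P H a d z) :
    Inv P H a b (d :: z) (n + 1) := by
  intro c h1 h2
  obtain ⟨h3, h4, h9, -⟩ := cut hz hf h1 h2
  rcases h c h3 h4 with h5 | ⟨z₀, h5, h6, h7⟩
  · exact h5.trans (S_mono (List.suffix_cons _ _) c)
  · have h8 := Bout_gain h6 h5 (h9 hm)
    have h10 := Finset.card_le_card (Bout_mono (P := P) (H := H) (a := c) (b := b)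
      (h5.trans (List.suffix_cons d z)))
    unfold S at h7 ⊢
    omega

/-- The invariant at a node whose subtree is not completed twice. -/
theorem Inv.le {z : List Bool} {n s : ℕ} (h : Inv P H a b z n) (hz : z.length ≤ H)
    (hf : Full P H z a b) (hs : ∀ a b, (Bd P H a b).card ≤ s)
    (hnd : ¬ ∃ c, Full P H z a c ∧ Full P H z c b) : n ≤ 2 * s := by
  have h0 : al P H b z ≤ be P H a z := by
    by_contra hle
    push Not at hle
    exact hnd ⟨al P H b z, (full_be hf).mono le_rfl hle.le, full_al hz hf⟩
  have h1 := h (be P H a z) h0 le_rfl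
  have h2 := Finset.card_le_card (Bout_subset (P := P) (H := H) (z := z) (a := a)
    (b := be P H a z))
  have h3 := Finset.card_le_card (Bout_subset (P := P) (H := H) (z := z) (a := be P H a z)
    (b := b))
  have h4 := hs a (be P H a z)
  have h5 := hs (be P H a z) b
  unfold S at h1
  omega

/-! ### The potential argument -/

theorem main_bound {s : ℕ} (hs : ∀ a b, (Bd P H a b).card ≤ s) {lam : ℝ} (hlam : 1 ≤ lam)
    (hpow : lam ^ (3 * (2 * s + 1)) = 2) (t : ℕ) :
    ∀ (m : ℕ) (z : List Bool) (a b : ℕ), b ≤ a + m → z.length + t = H → Full P H z a b →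
      (∀ n, n ≤ 2 * s + 1 → Inv P H a b z n →
        (2 * lam) ^ t * lam ^ (3 * n) ≤ 2 * Lf P H z a b) ∧
      (∀ n, n < 2 * s + 1 → InvP P H a b z n ∨ InvM P H a b z n →
        (2 * lam) ^ t * lam ^ (3 * n + 1) ≤ 2 * Lf P H z a b) := by
  have hlam0 : 0 < lam := by linarith
  have hle : ∀ n, n ≤ 3 * (2 * s + 1) → lam ^ n ≤ 2 := fun n hn =>
    (pow_le_pow_right₀ hlam hn).trans hpow.le
  have key1 : 2 * lam ≤ lam ^ 3 + 1 := by
    nlinarith [mul_nonneg (sub_nonneg.2 hlam) (sub_nonneg.2 hlam),
      mul_nonneg (mul_nonneg (sub_nonneg.2 hlam) (sub_nonneg.2 hlam)) hlam0.le]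
  have key2 : 2 * lam ≤ lam ^ 2 + 1 := by nlinarith [sq_nonneg (lam - 1)]
  induction t with
  | zero =>
    intro m z a b _ hz hf
    have h1 : (1 : ℝ) ≤ Lf P H z a b := by
      have := Lf_base 0 hz hf
      rw [pow_zero] at this
      exact_mod_cast this
    constructor
    · intro n hn _
      have := hle (3 * n) (by omega)
      rw [pow_zero]
      linarith
    · intro n hn _
      have := hle (3 * n + 1) (by omega)
      rw [pow_zero]
      linarith
  | succ t iht =>
    intro m
    induction m with
    | zero =>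
      intro z a b hab hz hf
      obtain ⟨i, h1, h2, -⟩ := hf.vis (by omega)
      omega
    | succ m ihm =>
      intro z a b hab hz hf
      by_cases hd : ∃ c, Full P H z a c ∧ Full P H z c b
      · -- the subtree is completed twice
        obtain ⟨c, h1, h2⟩ := hd
        obtain ⟨i, hi1, hi2, -⟩ := h1.vis (by omega)
        obtain ⟨j, hj1, hj2, -⟩ := h2.vis (by omega)
        have h3 := (ihm z a c (by omega) hz h1).1 0 (by omega) (fun _ _ _ => Nat.zero_le _)
        have h4 := (ihm z c b (by omega) hz h2).1 0 (by omega) (fun _ _ _ => Nat.zero_le _)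
        have h5 : (Lf P H z a b : ℝ) = Lf P H z a c + Lf P H z c b := by
          rw [← Lf_add (P := P) (H := H) (z := z) (a := a) (b := c) (c := b) (by omega)
            (by omega)]
          push_cast
          ring
        rw [mul_zero, pow_zero, mul_one] at h3 h4
        have h6 : ∀ n, n ≤ 3 * (2 * s + 1) → (2 * lam) ^ (t + 1) * lam ^ n ≤
            2 * (Lf P H z a b : ℝ) := by
          intro n hn
          calc (2 * lam) ^ (t + 1) * lam ^ n ≤ (2 * lam) ^ (t + 1) * 2 := by
                gcongr
                exact hle n hn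
            _ ≤ 2 * (Lf P H z a b : ℝ) := by
                rw [h5]
                linarith
        exact ⟨fun n hn _ => h6 _ (by omega), fun n hn _ => h6 _ (by omega)⟩
      · have hzH : z.length + 1 ≤ H := by omega
        have hbe : be P H a (true :: z) ≠ be P H a (false :: z) := be_ne (c := true) hzH hf
        have hal : al P H b (true :: z) ≠ al P H b (false :: z) := al_ne (c := true) hzH hf
        have hbp : bp P H a true z ∨ bp P H a false z := by
          unfold bp
          simp only [Bool.not_true, Bool.not_false]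
          omega
        have hbm : bm P H b true z ∨ bm P H b false z := by
          unfold bm
          simp only [Bool.not_true, Bool.not_false]
          omega
        have hsum : (Lf P H (false :: z) a b : ℝ) + Lf P H (true :: z) a b ≤ Lf P H z a b := by
          exact_mod_cast Lf_child (P := P) (H := H) (z := z) (a := a) (b := b)
        have hch : ∀ d : Bool, _ := fun d => iht (b - a) (d :: z) a b (by omega)
          (by simp only [List.length_cons]; omega) (hf.child d)
        have hA : 0 ≤ (2 * lam) ^ t := by positivity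
        constructor
        · intro n hn hinv
          have hn2 : n ≤ 2 * s := hinv.le (by omega) hf hs hd
          have hB : 0 ≤ (2 * lam) ^ t * lam ^ (3 * n) := by positivity
          -- one child has both
          have hsame : ∀ d : Bool, bp P H a d z → bm P H b d z →
              (2 * lam) ^ (t + 1) * lam ^ (3 * n) ≤ 2 * (Lf P H z a b : ℝ) := by
            intro d hp hm
            have h1 := (hch d).1 (n + 1) (by omega) (hinv.both hzH hf hp hm)
            have h2 := (hch (!d)).1 n (by omega) (hinv.child hzH hf)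
            have h3 : (Lf P H (d :: z) a b : ℝ) + Lf P H ((!d) :: z) a b ≤ Lf P H z a b := by
              cases d
              · exact hsum
              · rw [add_comm]
                exact hsum
            have h4 : lam ^ (3 * (n + 1)) = lam ^ (3 * n) * lam ^ 3 := by
              rw [← pow_add]
              congr 1
            rw [h4] at h1
            calc (2 * lam) ^ (t + 1) * lam ^ (3 * n)
                = ((2 * lam) ^ t * lam ^ (3 * n)) * (2 * lam) := by ring
              _ ≤ ((2 * lam) ^ t * lam ^ (3 * n)) * (lam ^ 3 + 1) := by gcongr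
              _ = (2 * lam) ^ t * (lam ^ (3 * n) * lam ^ 3) +
                  (2 * lam) ^ t * lam ^ (3 * n) := by ring
              _ ≤ 2 * (Lf P H (d :: z) a b : ℝ) + 2 * Lf P H ((!d) :: z) a b := add_le_add h1 h2
              _ ≤ 2 * (Lf P H z a b : ℝ) := by linarith
          -- two children, one each
          have hdiff : ∀ d : Bool, bp P H a d z → bm P H b (!d) z →
              (2 * lam) ^ (t + 1) * lam ^ (3 * n) ≤ 2 * (Lf P H z a b : ℝ) := by
            intro d hp hm
            have h1 := (hch d).2 n (by omega) (Or.inl (hinv.pending hzH hf hp))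
            have h2 := (hch (!d)).2 n (by omega) (Or.inr (hinv.pendingM hzH hf hm))
            have h3 : (Lf P H (d :: z) a b : ℝ) + Lf P H ((!d) :: z) a b ≤ Lf P H z a b := by
              cases d
              · exact hsum
              · rw [add_comm]
                exact hsum
            calc (2 * lam) ^ (t + 1) * lam ^ (3 * n)
                = (2 * lam) ^ t * lam ^ (3 * n + 1) + (2 * lam) ^ t * lam ^ (3 * n + 1) := by
                  ring
              _ ≤ 2 * (Lf P H (d :: z) a b : ℝ) + 2 * Lf P H ((!d) :: z) a b := add_le_add h1 h2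
              _ ≤ 2 * (Lf P H z a b : ℝ) := by linarith
          rcases hbp with h1 | h1 <;> rcases hbm with h2 | h2
          · exact hsame true h1 h2
          · exact hdiff true h1 h2
          · exact hdiff false h1 h2
          · exact hsame false h1 h2
        · intro n hn hinv
          have hB : 0 ≤ (2 * lam) ^ t * lam ^ (3 * n + 1) := by positivity
          have hstep : ∀ d : Bool, Inv P H a b (d :: z) (n + 1) →
              (InvP P H a b ((!d) :: z) n ∨ InvM P H a b ((!d) :: z) n) →
              (2 * lam) ^ (t + 1) * lam ^ (3 * n + 1) ≤ 2 * (Lf P H z a b : ℝ) := by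
            intro d hp hm
            have h1 := (hch d).1 (n + 1) (by omega) hp
            have h2 := (hch (!d)).2 n (by omega) hm
            have h3 : (Lf P H (d :: z) a b : ℝ) + Lf P H ((!d) :: z) a b ≤ Lf P H z a b := by
              cases d
              · exact hsum
              · rw [add_comm]
                exact hsum
            have h4 : lam ^ (3 * (n + 1)) = lam ^ (3 * n + 1) * lam ^ 2 := by
              rw [← pow_add]
              congr 1
            rw [h4] at h1
            calc (2 * lam) ^ (t + 1) * lam ^ (3 * n + 1)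
                = ((2 * lam) ^ t * lam ^ (3 * n + 1)) * (2 * lam) := by ring
              _ ≤ ((2 * lam) ^ t * lam ^ (3 * n + 1)) * (lam ^ 2 + 1) := by gcongr
              _ = (2 * lam) ^ t * (lam ^ (3 * n + 1) * lam ^ 2) +
                  (2 * lam) ^ t * lam ^ (3 * n + 1) := by ring
              _ ≤ 2 * (Lf P H (d :: z) a b : ℝ) + 2 * Lf P H ((!d) :: z) a b := add_le_add h1 h2
              _ ≤ 2 * (Lf P H z a b : ℝ) := by linarith
          rcases hinv with hinv | hinv
          · rcases hbm with h2 | h2
            · exact hstep true (hinv.gain hzH hf h2) (Or.inl (hinv.child hzH hf))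
            · exact hstep false (hinv.gain hzH hf h2) (Or.inl (hinv.child hzH hf))
          · rcases hbp with h2 | h2
            · exact hstep true (hinv.gain hzH hf h2) (Or.inr (hinv.child hzH hf))
            · exact hstep false (hinv.gain hzH hf h2) (Or.inr (hinv.child hzH hf))

/-- **Pattern lemma.** If all windows have at most `s` boundary nodes, then a window in which the
whole tree is visited contains many visits to leaves. -/
theorem leaf_visits {s : ℕ} (hs : ∀ a b, (Bd P H a b).card ≤ s) {a b : ℕ}
    (hf : Full P H [] a b) :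
    2 ^ (H * (6 * s + 4)) ≤ (2 * Lf P H [] a b) ^ (6 * s + 3) := by
  set N : ℕ := 3 * (2 * s + 1) with hN
  have hN0 : (N : ℝ) ≠ 0 := by
    have : 0 < N := by omega
    positivity
  set lam : ℝ := 2 ^ (1 / (N : ℝ)) with hlamdef
  have hlam : 1 ≤ lam := Real.one_le_rpow (by norm_num) (by positivity)
  have hpow : lam ^ N = 2 := by
    rw [hlamdef, ← Real.rpow_natCast, ← Real.rpow_mul (by norm_num), one_div,
      inv_mul_cancel₀ hN0, Real.rpow_one]
  have h1 := (main_bound hs hlam hpow H b [] a b (by omega) (by simp) hf).1 0 (by omega)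
    (fun _ _ _ => Nat.zero_le _)
  rw [mul_zero, pow_zero, mul_one] at h1
  have h2 : ((2 : ℝ) ^ (H * (6 * s + 4))) ≤ (2 * (Lf P H [] a b : ℝ)) ^ (6 * s + 3) := by
    calc ((2 : ℝ) ^ (H * (6 * s + 4))) = ((2 * lam) ^ H) ^ (6 * s + 3) := by
          rw [show 6 * s + 3 = N by omega, show 6 * s + 4 = N + 1 by omega, ← pow_mul,
            mul_comm H N, pow_mul (2 * lam), mul_pow 2 lam, hpow, ← pow_succ, ← pow_mul, mul_comm]
      _ ≤ _ := pow_le_pow_left₀ (by positivity) h1 _
  exact_mod_cast h2

end Pool.Agent.Helper6.Pattern
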