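import Pool.Agent.Helper6.ThriftyDefs
import Pool.Agent.Helper6.ThriftyPattern

/-!
# Exchanging windows of computations of thrifty branching programs
-/

namespace Pool.Agent.Helper6.TreeEval

open Pool.Agent.Helper6.Pattern

/-- The number of queries of leaves made by the states of the list `l`. -/
def NBP.leafQueries {h k : ℕ} (B : NBP h k) (l : List B.State) : ℕ :=
  l.countP fun s => match B.label s with
    | Sum.inl (Query.leaf _) => true
    | _ => false

/-- The node asked by a query. -/
def Query.node {k : ℕ} : Query k → Node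
  | .leaf p => p
  | .fn p _ _ => p

/-- `B.Walk I s l t`: on the instance `I`, the program can go from `s` to `t` through the query
states `l` (`s` is the first entry of `l ++ [t]`). -/
inductive NBP.Walk {h k : ℕ} (B : NBP h k) (I : Inst k) :
    B.State → List B.State → B.State → Prop
  | nil (s : B.State) : B.Walk I s [] s
  | cons {s t u : B.State} {q : Query k} {l : List B.State}
      (hs : B.label s = Sum.inl q) (ht : t ∈ B.next s (I.answer q)) (hl : B.Walk I t l u) :
      B.Walk I s (s :: l) u

variable {h k : ℕ} {B : NBP h k} {I : Inst k}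

theorem comp_iff_walk {s : B.State} {l : List B.State} {v : Fin k} :
    B.Comp I s l v ↔ ∃ l' t, B.Walk I s l' t ∧ B.label t = Sum.inr v ∧ l = l' ++ [t] := by
  constructor
  · intro hc
    induction hc with
    | final hs => exact ⟨[], _, .nil _, hs, rfl⟩
    | step hs ht _ ih =>
      obtain ⟨l', t', h1, h2, rfl⟩ := ih
      exact ⟨_ :: l', t', .cons hs ht h1, h2, rfl⟩
  · rintro ⟨l', t, hw, ht, rfl⟩
    induction hw with
    | nil s => exact .final ht
    | cons hs ht' _ ih => exact .step hs ht' (ih ht)

theorem NBP.Walk.append {s t u : B.State} {l₁ l₂ : List B.State} (h1 : B.Walk I s l₁ t)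
    (h2 : B.Walk I t l₂ u) : B.Walk I s (l₁ ++ l₂) u := by
  induction h1 with
  | nil s => exact h2
  | cons hs ht _ ih => exact .cons hs ht (ih h2)

theorem NBP.Walk.split {s u : B.State} {l₁ l₂ : List B.State} (h1 : B.Walk I s (l₁ ++ l₂) u) :
    ∃ t, B.Walk I s l₁ t ∧ B.Walk I t l₂ u := by
  induction l₁ generalizing s with
  | nil => exact ⟨s, .nil s, h1⟩
  | cons a l₁ ih =>
    cases h1 with
    | cons hs ht hl =>
      obtain ⟨t, h2, h3⟩ := ih hl
      exact ⟨t, .cons hs ht h2, h3⟩

theorem NBP.Walk.congr {I' : Inst k} {s t : B.State} {l : List B.State} (h1 : B.Walk I s l t)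
    (h2 : ∀ u ∈ l, ∀ q, B.label u = Sum.inl q → I.answer q = I'.answer q) :
    B.Walk I' s l t := by
  induction h1 with
  | nil s => exact .nil s
  | cons hs ht _ ih =>
    refine .cons hs ?_ (ih fun u hu => h2 u (List.mem_cons_of_mem _ hu))
    rw [← h2 _ List.mem_cons_self _ hs]
    exact ht

theorem NBP.Walk.query {s t : B.State} {l : List B.State} (h1 : B.Walk I s l t) :
    ∀ u ∈ l, ∃ q, B.label u = Sum.inl q := by
  induction h1 with
  | nil s => simp
  | cons hs _ _ ih =>
    intro u hu
    rcases List.mem_cons.1 hu with rfl | hu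
    · exact ⟨_, hs⟩
    · exact ih u hu

/-! ### Constant instances -/

/-- The instance whose internal functions are constant; the node `p` has the value `v p`. -/
def constInst (v : Node → Fin k) : Inst k := ⟨v, fun p _ _ => v p⟩

theorem constInst_answer (v : Node → Fin k) (q : Query k) :
    (constInst v).answer q = v q.node := by
  cases q <;> rfl

theorem constInst_nodeVal (v : Node → Fin k) (h : ℕ) (p : Node) :
    (constInst v).nodeVal h p = v p := by
  unfold Inst.nodeVal
  cases h - (p.length + 1) <;> rfl

variable (B) in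
/-- The node asked in the state `s` (a dummy node outside the tree for final states). -/
def NBP.nodeAt (s : B.State) : Node :=
  match B.label s with
  | Sum.inl q => q.node
  | Sum.inr _ => List.replicate h true

theorem nodeAt_inl {s : B.State} {q : Query k} (hs : B.label s = Sum.inl q) :
    B.nodeAt s = q.node := by
  unfold NBP.nodeAt
  rw [hs]

/-- If `s` asks an internal node then by thriftiness it knows the values of the children. -/
theorem internal_query {s : B.State} {q : Query k} {p : Node} (hs : B.label s = Sum.inl q)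
    (hp : B.nodeAt s = p) (hlen : p.length + 1 < h) : ∃ a b, q = Query.fn p a b := by
  rw [nodeAt_inl hs] at hp
  have h1 := B.inTree s q hs
  cases q with
  | leaf p' =>
    simp only [Query.node] at hp
    subst hp
    simp only [Query.InTree] at h1
    omega
  | fn p' a b =>
    simp only [Query.node] at hp
    subst hp
    exact ⟨a, b, rfl⟩

/-- An accepting computation on a constant instance, in terms of walks. -/
theorem thrifty_walk (ht : B.IsThrifty) {v : Node → Fin k} {l : List B.State} {f : B.State}
    {a : Fin k} (hw : B.Walk (constInst v) B.start l f) (hf : B.label f = Sum.inr a)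
    {s : B.State} (hs : s ∈ l) {p : Node} (hp : B.nodeAt s = p) (hlen : p.length + 1 < h) :
    B.label s = Sum.inl (Query.fn p (v (false :: p)) (v (true :: p))) := by
  obtain ⟨q, hq⟩ := hw.query s hs
  obtain ⟨x, y, rfl⟩ := internal_query hq hp hlen
  have h1 := ht _ _ _ (comp_iff_walk.2 ⟨l, f, hw, hf, rfl⟩) s
    (List.mem_append_left _ hs) _ hq
  simp only [Query.Thrifty, constInst_nodeVal] at h1
  rw [hq, h1.1, h1.2]

/-- Accepting computations on constant instances visit all nodes. -/
theorem all_visited (hk : 2 ≤ k) (hB : B.Solves) (ht : B.IsThrifty) {v : Node → Fin k}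
    {l : List B.State} {f : B.State} {a : Fin k}
    (hw : B.Walk (constInst v) B.start l f) (hf : B.label f = Sum.inr a) :
    ∀ p : Node, p.length + 1 ≤ h → ∃ s ∈ l, B.nodeAt s = p := by
  have hother : ∀ x : Fin k, ∃ y : Fin k, y ≠ x := by
    intro x
    have : Nontrivial (Fin k) := Fin.nontrivial_iff_two_le.2 hk
    exact exists_ne x
  -- changing the value of an unvisited node
  have hchange : ∀ (p : Node), (¬ ∃ s ∈ l, B.nodeAt s = p) → ∀ y : Fin k,
      B.Walk (constInst (Function.update v p y)) B.start l f := by
    intro p hp y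
    refine hw.congr fun u hu q hq => ?_
    rw [constInst_answer, constInst_answer]
    have h1 : q.node ≠ p := by
      intro h2
      exact hp ⟨u, hu, by rw [nodeAt_inl hq, h2]⟩
    rw [Function.update_of_ne h1]
  intro p
  induction p with
  | nil =>
    intro _
    by_contra hno
    obtain ⟨y, hy⟩ := hother (v [])
    have h1 := hchange [] hno y
    have h2 := (hB _).2 _ _ (comp_iff_walk.2 ⟨l, f, h1, hf, rfl⟩)
    have h3 := (hB _).2 _ _ (comp_iff_walk.2 ⟨l, f, hw, hf, rfl⟩)
    rw [constInst_nodeVal] at h2 h3
    rw [Function.update_self] at h2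
    exact hy (h2.symm.trans h3)
  | cons c p ih =>
    intro hlen
    simp only [List.length_cons] at hlen
    obtain ⟨s, hs, hsp⟩ := ih (by omega)
    by_contra hno
    obtain ⟨y, hy⟩ := hother (v (c :: p))
    have h1 := hchange (c :: p) hno y
    have h2 := thrifty_walk ht h1 hf hs hsp (by omega)
    have h3 := thrifty_walk ht hw hf hs hsp (by omega)
    rw [h3] at h2
    simp only [Sum.inl.injEq, Query.fn.injEq, true_and] at h2
    cases c
    · rw [Function.update_self] at h2
      exact hy h2.1.symm
    · rw [Function.update_self] at h2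
      exact hy h2.2.symm

/-! ### Hybrids -/

variable (B) in
/-- The window `l₂` of an accepting computation on the constant instance `v`, from `s` to `t`, has
the nodes of `D` in its boundary. -/
def Window (v : Node → Fin k) (s t : B.State) (D : Node → Prop) : Prop :=
  ∃ (l₁ l₂ l₃ : List B.State) (f : B.State) (a : Fin k),
    B.Walk (constInst v) B.start l₁ s ∧ B.Walk (constInst v) s l₂ t ∧
    B.Walk (constInst v) t l₃ f ∧ B.label f = Sum.inr a ∧
    ∀ d, D d → (∀ u ∈ l₂, B.nodeAt u ≠ d) ∧
      ∃ c p, d = c :: p ∧ d.length + 1 ≤ h ∧ ∃ u ∈ l₂, B.nodeAt u = p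

/-- Two assignments with windows of the same kind which agree outside the boundary `D` are
equal on `D`. -/
theorem hybrid (ht : B.IsThrifty) {v v' : Node → Fin k} {s t : B.State} {D : Node → Prop}
    (hv : Window B v s t D) (hv' : Window B v' s t D) (hoff : ∀ p, ¬ D p → v p = v' p) :
    ∀ p, D p → v p = v' p := by
  obtain ⟨l₁, l₂, l₃, f, a, h1, h2, h3, h4, h5⟩ := hv
  obtain ⟨l₁', l₂', l₃', f', a', h1', h2', h3', h4', h5'⟩ := hv'
  -- the window of `v'` is also a walk for `v`
  have h6 : B.Walk (constInst v) s l₂' t := by
    refine h2'.congr fun u hu q hq => ?_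
    rw [constInst_answer, constInst_answer]
    refine (hoff _ fun hD => ?_).symm
    exact (h5' _ hD).1 u hu (nodeAt_inl hq)
  have h7 : B.Walk (constInst v) B.start (l₁ ++ (l₂' ++ l₃)) f := h1.append (h6.append h3)
  have h8 : B.Walk (constInst v') B.start (l₁' ++ (l₂' ++ l₃')) f' :=
    h1'.append (h2'.append h3')
  intro d hd
  obtain ⟨-, c, p, rfl, hlen, u, hu, hup⟩ := h5' d hd
  simp only [List.length_cons] at hlen
  have h9 := thrifty_walk ht h7 h4 (s := u) (by simp [hu]) hup (by omega)
  have h10 := thrifty_walk ht h8 h4' (s := u) (by simp [hu]) hup (by omega)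
  rw [h10] at h9
  simp only [Sum.inl.injEq, Query.fn.injEq, true_and] at h9
  cases c
  · exact h9.1.symm
  · exact h9.2.symm

end Pool.Agent.Helper6.TreeEval
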