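import Pool.Agent.Helper6.ThriftyGadget
import Pool.Agent.Helper6.ThriftyMaskProp

/-!
# The adding gadget
-/

namespace Pool.Agent.Helper6.TreeEval

open Gadget

/-- On the instance `I` the gadget has exactly one path from the entry `a` to an exit; it ends in
`b` and makes only thrifty queries. -/
def Gadget.Good {k : ℕ} {A B : Type} (g : Gadget k A B) (h : ℕ) (I : Inst k) (a : A) (b : B) :
    Prop :=
  ∃ l, g.Runs I a l b ∧ (∀ s ∈ l, (g.query s).Thrifty h I) ∧
    ∀ l' b', g.Runs I a l' b' → l' = l ∧ b' = b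

theorem exists_add (h k lam M₀ : ℕ) (hk : 1 ≤ k) (hlam : 1 ≤ lam) (hmask : MaskProp k lam M₀) :
    ∀ (n : ℕ) (p : Node), p.length + 1 + n = h →
    ∀ (M : ℕ), M₀ ≤ M → ∀ (X Y G : Type) [Fintype X] [Fintype Y] [Fintype G] [AddCommGroup G],
    Fintype.card X ≤ M → Fintype.card Y ≤ M → Fintype.card G ≤ M → ∀ φ : Fin k → G,
    ∃ g : Gadget k (X × Y × G) (X × Y × G), (∀ s, (g.query s).InTree h) ∧
      Fintype.card g.S ≤ 5 ^ n * k ^ 2 * (lam ^ n * M) ^ 3 ∧
      ∀ (I : Inst k) (x : X) (y : Y) (z : G), g.Good h I (x, y, z) (x, y, z + φ (I.val n p)) := by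
  intro n
  induction n with
  | zero =>
    intro p hp M hkM X Y G _ _ _ _ hX hY hG φ
    refine ⟨ask (fun _ => Query.leaf p) (fun w v => (w.1, w.2.1, w.2.2 + φ v)), ?_, ?_, ?_⟩
    · intro s
      exact hp
    · have h1 : Fintype.card (ask (k := k) (A := X × Y × G) (B := X × Y × G)
          (fun _ => Query.leaf p) (fun w v => (w.1, w.2.1, w.2.2 + φ v))).S =
          Fintype.card X * (Fintype.card Y * Fintype.card G) := by
        change Fintype.card (X × Y × G) = _
        rw [Fintype.card_prod, Fintype.card_prod]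
      rw [h1]
      have h2 : 1 ≤ k ^ 2 := Nat.one_le_pow _ _ hk
      calc Fintype.card X * (Fintype.card Y * Fintype.card G) ≤ M * (M * M) := by gcongr
        _ = 1 * M ^ 3 := by ring
        _ ≤ k ^ 2 * M ^ 3 := Nat.mul_le_mul_right _ h2
        _ = 5 ^ 0 * k ^ 2 * (lam ^ 0 * M) ^ 3 := by ring
    · intro I x y z
      refine ⟨[(x, y, z)], ?_, ?_, ?_⟩
      · exact (runs_ask _ _ _ _ _ _).2 ⟨rfl, rfl⟩
      · intro s _
        exact trivial
      · intro l' b' hr
        exact (runs_ask _ _ _ _ _ _).1 hr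
  | succ n ih =>
    intro p hp M hkM X Y G _ _ _ _ hX hY hG φ
    obtain ⟨M', hM'⟩ : ∃ M', M' = lam * M := ⟨_, rfl⟩
    have hMM' : M ≤ M' := by
      rw [hM']
      exact Nat.le_mul_of_pos_left _ hlam
    obtain ⟨G1, _, _, e1, ψ1, hG1, he1⟩ := hmask M hkM X hX
    obtain ⟨G2, _, _, e2, ψ2, hG2, he2⟩ := hmask M hkM Y hY
    rw [← hM'] at hG1 hG2
    have hL : (false :: p).length + 1 + n = h := by simp only [List.length_cons]; omega
    have hR : (true :: p).length + 1 + n = h := by simp only [List.length_cons]; omega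
    obtain ⟨g1, t1, c1, r1⟩ := ih (false :: p) hL M' (hkM.trans hMM') Y G G1
      (hY.trans hMM') (hG.trans hMM') hG1 ψ1
    obtain ⟨g2, t2, c2, r2⟩ := ih (true :: p) hR M' (hkM.trans hMM') G1 G G2
      hG1 (hG.trans hMM') hG2 ψ2
    obtain ⟨g4, t4, c4, r4⟩ := ih (false :: p) hL M' (hkM.trans hMM') G2 G G1
      hG2 (hG.trans hMM') hG1 (fun v => -(2 • ψ1 v))
    obtain ⟨g5, t5, c5, r5⟩ := ih (true :: p) hR M' (hkM.trans hMM') X G G2
      (hX.trans hMM') (hG.trans hMM') hG2 (fun v => -(2 • ψ2 v))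
    let g3 : Gadget k (X × Y × G × Fin k × Fin k) (X × Y × G × Fin k × Fin k) :=
      ask (fun w => Query.fn p w.2.2.2.1 w.2.2.2.2)
        (fun w v => (w.1, w.2.1, w.2.2.1 + φ v, w.2.2.2.1, w.2.2.2.2))
    let R12 : Y × G × G1 → G1 × G × G2 → Prop := fun b c =>
      c = (b.2.2, b.2.1, e2 b.1)
    let R23 : G1 × G × G2 → X × Y × G × Fin k × Fin k → Prop := fun b c =>
      b = (e1 c.1 + ψ1 c.2.2.2.1, c.2.2.1, e2 c.2.1 + ψ2 c.2.2.2.2)
    let R34 : X × Y × G × Fin k × Fin k → G2 × G × G1 → Prop := fun b c =>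
      c = (e2 b.2.1 + 2 • ψ2 b.2.2.2.2, b.2.2.1, e1 b.1 + 2 • ψ1 b.2.2.2.1)
    let R45 : G2 × G × G1 → X × G × G2 → Prop := fun b c =>
      b = (c.2.2, c.2.1, e1 c.1)
    let R5 : X × G × G2 → X × Y × G → Prop := fun b c =>
      b = (c.1, c.2.2, e2 c.2.1)
    refine ⟨pre (fun w => (w.2.1, w.2.2, e1 w.1))
      (((((g1.comp R12 g2).comp R23 g3).comp R34 g4).comp R45 g5).post R5), ?_, ?_, ?_⟩
    · rintro ((((s | s) | s) | s) | s)
      · exact t1 s
      · exact t2 s
      · change p.length + 1 < h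
        omega
      · exact t4 s
      · exact t5 s
    · have hcS : Fintype.card (pre (fun w : X × Y × G => (w.2.1, w.2.2, e1 w.1))
          (((((g1.comp R12 g2).comp R23 g3).comp R34 g4).comp R45 g5).post R5)).S =
          Fintype.card g1.S + Fintype.card g2.S +
            Fintype.card X * (Fintype.card Y * (Fintype.card G * (k * k))) +
            Fintype.card g4.S + Fintype.card g5.S := by
        change Fintype.card ((((g1.S ⊕ g2.S) ⊕ (X × Y × G × Fin k × Fin k)) ⊕ g4.S) ⊕ g5.S) = _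
        simp only [Fintype.card_sum, Fintype.card_prod, Fintype.card_fin]
      rw [hcS]
      have h3 : Fintype.card X * (Fintype.card Y * (Fintype.card G * (k * k))) ≤
          5 ^ n * k ^ 2 * (lam ^ n * M') ^ 3 := by
        calc Fintype.card X * (Fintype.card Y * (Fintype.card G * (k * k)))
            ≤ M' * (M' * (M' * (k * k))) := by
              gcongr
              · exact hX.trans hMM'
              · exact hY.trans hMM'
              · exact hG.trans hMM'
          _ = 1 * k ^ 2 * (1 * M') ^ 3 := by ring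
          _ ≤ 5 ^ n * k ^ 2 * (lam ^ n * M') ^ 3 := by
              gcongr
              · exact Nat.one_le_pow _ _ (by norm_num)
              · exact Nat.one_le_pow _ _ hlam
      calc Fintype.card g1.S + Fintype.card g2.S +
            Fintype.card X * (Fintype.card Y * (Fintype.card G * (k * k))) +
            Fintype.card g4.S + Fintype.card g5.S
          ≤ 5 ^ n * k ^ 2 * (lam ^ n * M') ^ 3 + 5 ^ n * k ^ 2 * (lam ^ n * M') ^ 3 +
            5 ^ n * k ^ 2 * (lam ^ n * M') ^ 3 + 5 ^ n * k ^ 2 * (lam ^ n * M') ^ 3 +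
            5 ^ n * k ^ 2 * (lam ^ n * M') ^ 3 := by gcongr
        _ = 5 ^ (n + 1) * k ^ 2 * (lam ^ (n + 1) * M) ^ 3 := by
            rw [hM']
            ring
    · intro I x y z
      set a := I.val n (false :: p) with ha
      set b := I.val n (true :: p) with hb
      have hval : I.val (n + 1) p = I.fn p a b := rfl
      obtain ⟨l1, p1, q1, u1⟩ := r1 I y z (e1 x)
      obtain ⟨l2, p2, q2, u2⟩ := r2 I (e1 x + ψ1 a) z (e2 y)
      obtain ⟨l4, p4, q4, u4⟩ := r4 I (e2 y + 2 • ψ2 b) (z + φ (I.fn p a b))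
        (e1 x + 2 • ψ1 a)
      obtain ⟨l5, p5, q5, u5⟩ := r5 I x (z + φ (I.fn p a b)) (e2 y + 2 • ψ2 b)
      have hx4 : e1 x + 2 • ψ1 a + -(2 • ψ1 a) = e1 x := by abel
      have hy5 : e2 y + 2 • ψ2 b + -(2 • ψ2 b) = e2 y := by abel
      rw [← ha, hx4] at p4
      rw [← hb, hy5] at p5
      have p3 : g3.Runs I (x, y, z, a, b) [(x, y, z, a, b)] (x, y, z + φ (I.fn p a b), a, b) :=
        (runs_ask _ _ _ _ _ _).2 ⟨rfl, rfl⟩
      refine ⟨_, (runs_pre _ _ _ _ _ _).2 ((runs_post _ _ _ _ _ _).2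
        ⟨(x, z + φ (I.fn p a b), e2 y), (runs_comp _ _ _ _ _ _ _).2
          ⟨_, (e2 y + 2 • ψ2 b, z + φ (I.fn p a b), e1 x), _, l5,
          (runs_comp _ _ _ _ _ _ _).2 ⟨_, (x, y, z + φ (I.fn p a b), a, b), _, l4,
          (runs_comp _ _ _ _ _ _ _).2 ⟨_, (e1 x + ψ1 a, z, e2 y + ψ2 b), _, _,
          (runs_comp _ _ _ _ _ _ _).2 ⟨l1, (y, z, e1 x + ψ1 a), _, l2, p1, rfl, p2, rfl⟩,
            rfl, p3, rfl⟩, rfl, p4, rfl⟩, rfl, p5, rfl⟩, ?_⟩), ?_, ?_⟩
      · rfl
      · have hth : (Query.fn (k := k) p a b).Thrifty h I := by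
          refine ⟨?_, ?_⟩
          · unfold Inst.nodeVal
            have : h - ((false :: p).length + 1) = n := by omega
            rw [this]
          · unfold Inst.nodeVal
            have : h - ((true :: p).length + 1) = n := by omega
            rw [this]
        intro s hs
        rcases List.mem_append.1 hs with h1 | h1
        · obtain ⟨s1, hs1, rfl⟩ := List.mem_map.1 h1
          rcases List.mem_append.1 hs1 with h2 | h2
          · obtain ⟨s2, hs2, rfl⟩ := List.mem_map.1 h2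
            rcases List.mem_append.1 hs2 with h3 | h3
            · obtain ⟨s3, hs3, rfl⟩ := List.mem_map.1 h3
              rcases List.mem_append.1 hs3 with h4 | h4
              · obtain ⟨s4, hs4, rfl⟩ := List.mem_map.1 h4
                exact q1 s4 hs4
              · obtain ⟨s4, hs4, rfl⟩ := List.mem_map.1 h4
                exact q2 s4 hs4
            · obtain ⟨s3, hs3, rfl⟩ := List.mem_map.1 h3
              have hs' : s3 = (x, y, z, a, b) := List.mem_singleton.1 hs3
              subst hs'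
              exact hth
          · obtain ⟨s2, hs2, rfl⟩ := List.mem_map.1 h2
            exact q4 s2 hs2
        · obtain ⟨s1, hs1, rfl⟩ := List.mem_map.1 h1
          exact q5 s1 hs1
      · intro l' w hw
        obtain ⟨w5, hw5, hR5⟩ := (runs_post _ _ _ _ _ _).1 ((runs_pre _ _ _ _ _ _).1 hw)
        obtain ⟨l1234', w4, v5, l5', hw4, hR45, hr5, rfl⟩ := (runs_comp _ _ _ _ _ _ _).1 hw5
        obtain ⟨l123', w3, v4, l4', hw3, hR34, hr4, rfl⟩ := (runs_comp _ _ _ _ _ _ _).1 hw4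
        obtain ⟨l12', w2, v3, l3', hw2, hR23, hr3, rfl⟩ := (runs_comp _ _ _ _ _ _ _).1 hw3
        obtain ⟨l1', w1, v2, l2', hw1, hR12, hr2, rfl⟩ := (runs_comp _ _ _ _ _ _ _).1 hw2
        obtain ⟨rfl, rfl⟩ := u1 _ _ hw1
        have hv2 : v2 = (e1 x + ψ1 a, z, e2 y) := hR12
        subst hv2
        obtain ⟨rfl, rfl⟩ := u2 _ _ hr2
        obtain ⟨x', y', z', a', b'⟩ := v3
        simp only [R23, Prod.mk.injEq] at hR23
        obtain ⟨hA, hz, hB⟩ := hR23
        subst hz
        obtain ⟨rfl, rfl⟩ := (runs_ask _ _ _ _ _ _).1 hr3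
        have hv4 : v4 = (e2 y' + 2 • ψ2 b', z + φ (I.fn p a' b'), e1 x' + 2 • ψ1 a') := hR34
        subst hv4
        obtain ⟨l4'', _, _, u4'⟩ := r4 I (e2 y' + 2 • ψ2 b')
          (z + φ (I.fn p a' b')) (e1 x' + 2 • ψ1 a')
        obtain ⟨-, rfl⟩ := u4' _ _ hr4
        obtain ⟨x'', z'', F''⟩ := v5
        simp only [R45, Prod.mk.injEq] at hR45
        obtain ⟨rfl, rfl, hx''⟩ := hR45
        obtain ⟨rfl, rfl, rfl⟩ := he1 x x' x'' a a' hA hx''
        obtain ⟨l5'', _, _, u5'⟩ := r5 I x'' (z + φ (I.fn p a b'))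
          (e2 y' + 2 • ψ2 b')
        obtain ⟨-, rfl⟩ := u5' _ _ hr5
        obtain ⟨x3, y'', z3⟩ := w
        simp only [R5, Prod.mk.injEq] at hR5
        obtain ⟨rfl, rfl, hy''⟩ := hR5
        obtain ⟨rfl, rfl, rfl⟩ := he2 y y' y'' b b' hB hy''
        obtain ⟨rfl, -⟩ := u4 _ _ hr4
        obtain ⟨rfl, -⟩ := u5 _ _ hr5
        exact ⟨rfl, rfl⟩

end Pool.Agent.Helper6.TreeEval
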