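import Pool.Agent.Helper6.ThriftyMaskProp

/-!
# Masks which can be read twice
-/

namespace Pool.Agent.Helper6.TreeEval

/-- `Mask4 k lam M₀`: masks as in `MaskProp`, but the hidden value may be read twice. -/
def Mask4 (k lam M₀ : ℕ) : Prop :=
  ∀ M, M₀ ≤ M → ∀ (X : Type) [Fintype X], Fintype.card X ≤ M →
    ∃ (G : Type) (_ : AddCommGroup G) (_ : Fintype G) (e : X → G) (φ : Fin k → G),
      Fintype.card G ≤ lam * M ∧ ∀ (x x' x'' x₃ : X) (a c c' : Fin k),
        e x + φ a = e x' + φ c → e x' + 2 • φ c = e x'' + 2 • φ c' →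
        e x'' + 3 • φ c' + -(3 • φ a) = e x₃ →
        x' = x ∧ x'' = x ∧ x₃ = x ∧ c = a ∧ c' = a

theorem pow_ratio3 (d : ℕ) (hd : 1 ≤ d) : (d + 3) ^ d ≤ 21 * d ^ d := by
  have hd0 : (0 : ℝ) < d := by exact_mod_cast hd
  have h1 : ((d : ℝ) + 3) ^ d ≤ 21 * (d : ℝ) ^ d := by
    have h2 : ((d : ℝ) + 3) = d * (1 + 3 / d) := by field_simp
    rw [h2, mul_pow]
    have h3 : (1 + 3 / (d : ℝ)) ^ d ≤ 21 := by
      calc (1 + 3 / (d : ℝ)) ^ d ≤ (Real.exp (3 / d)) ^ d := by
            apply pow_le_pow_left₀ (by positivity)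
            have := Real.add_one_le_exp (3 / (d : ℝ))
            linarith
        _ = Real.exp 3 := by
            rw [← Real.exp_nat_mul]
            congr 1
            field_simp
        _ = Real.exp 1 ^ 3 := by rw [← Real.exp_nat_mul]; norm_num
        _ ≤ 2.75 ^ 3 := by
            have h4 := Real.exp_one_lt_d9
            apply pow_le_pow_left₀ (Real.exp_pos 1).le
            linarith
        _ ≤ 21 := by norm_num
    nlinarith [pow_pos hd0 d]
  exact_mod_cast h1

/-- The vector mask. -/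
theorem mask4_vector (k d q : ℕ) (hd : 1 ≤ d) (hq : 1 ≤ q) (hk : k ≤ q ^ d) :
    Mask4 k (42 * d ^ 3 * q ^ 2) ((d * q) ^ d) := by
  classical
  intro M hM X _ hX
  set L := d * q with hL
  have hL1 : 1 ≤ L := Nat.mul_pos hd hq
  obtain ⟨R, hR⟩ := exists_sphere d L hd hL1
  set S := Finset.univ.filter (fun v : Fin d → Fin L => ∑ i, (v i : ℕ) ^ 2 = R) with hS
  obtain ⟨r, hr⟩ : ∃ r, r = S.card := ⟨_, rfl⟩
  rw [← hr] at hR
  have hr1 : 1 ≤ r := by
    rcases Nat.eq_zero_or_pos r with h0 | h0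
    · rw [h0, zero_mul] at hR
      have : 0 < L ^ d := by positivity
      omega
    · exact h0
  have hrL : r ≤ L ^ d := by
    rw [hr]
    calc S.card ≤ (Finset.univ : Finset (Fin d → Fin L)).card := Finset.card_le_univ _
      _ = L ^ d := by simp
  have hrM : r ≤ M := hrL.trans hM
  let m := L + 3 * q
  have hm0 : NeZero m := ⟨by
    have h1 : 1 ≤ m := le_trans hL1 (Nat.le_add_right _ _)
    omega⟩
  let T := M / r + 1
  have hT0 : NeZero T := ⟨Nat.succ_ne_zero _⟩
  -- enumeration of `S`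
  let s : Fin r ≃ S := (Finset.equivFinOfCardEq hr.symm).symm
  obtain ⟨ι⟩ : Nonempty (Fin k ↪ (Fin d → Fin q)) := by
    apply Function.Embedding.nonempty_of_card_le
    simpa using hk
  let f : X ≃ Fin (Fintype.card X) := Fintype.equivFin X
  have hmod : ∀ x : X, (f x : ℕ) % r < r := fun x => Nat.mod_lt _ hr1
  let vec : X → Fin d → ℕ := fun x i => ((s ⟨(f x : ℕ) % r, hmod x⟩ : Fin d → Fin L) i : ℕ)
  have hvecL : ∀ x i, vec x i < L := fun x i =>
    ((s ⟨(f x : ℕ) % r, hmod x⟩ : Fin d → Fin L) i).2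
  have hvecR : ∀ x, ∑ i, (vec x i) ^ 2 = R := by
    intro x
    exact (Finset.mem_filter.1 (s ⟨(f x : ℕ) % r, hmod x⟩).2).2
  have hvecinj : ∀ x y, (∀ i, vec x i = vec y i) → (f x : ℕ) % r = (f y : ℕ) % r := by
    intro x y h
    have h1 : (s ⟨(f x : ℕ) % r, hmod x⟩ : Fin d → Fin L) = s ⟨(f y : ℕ) % r, hmod y⟩ := by
      funext i
      exact Fin.ext (h i)
    have h2 := s.injective (Subtype.ext h1)
    simpa using h2
  have hdiv : ∀ x : X, (f x : ℕ) / r < T := by
    intro x
    have h1 : (f x : ℕ) / r ≤ M / r := Nat.div_le_div_right (le_trans (f x).2.le hX)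
    exact Nat.lt_succ_of_le h1
  refine ⟨(Fin d → ZMod m) × ZMod T, inferInstance, inferInstance,
    fun x => (fun i => ((vec x i : ℕ) : ZMod m), (((f x : ℕ) / r : ℕ) : ZMod T)),
    fun a => (fun i => (((ι a i : Fin q) : ℕ) : ZMod m), 0), ?_, ?_⟩
  · have hcard : Fintype.card ((Fin d → ZMod m) × ZMod T) = m ^ d * T := by
      rw [Fintype.card_prod, Fintype.card_fun, Fintype.card_fin, ZMod.card, ZMod.card]
    rw [hcard]
    have h1 : m ^ d ≤ 21 * L ^ d := by
      have h2 : m = q * (d + 3) := by simp only [m, hL]; ring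
      rw [h2, hL, mul_pow, mul_pow]
      calc q ^ d * (d + 3) ^ d ≤ q ^ d * (21 * d ^ d) := Nat.mul_le_mul_left _ (pow_ratio3 d hd)
        _ = 21 * (d ^ d * q ^ d) := by ring
    have h3 : r * T ≤ 2 * M := by
      simp only [T]
      have := Nat.mul_div_le M r
      nlinarith
    have h4 : r * (m ^ d * T) ≤ r * (42 * d ^ 3 * q ^ 2 * M) := by
      calc r * (m ^ d * T) = m ^ d * (r * T) := by ring
        _ ≤ (21 * L ^ d) * (2 * M) := Nat.mul_le_mul h1 h3
        _ ≤ (21 * (r * (d * L ^ 2))) * (2 * M) := by gcongr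
        _ = r * (42 * d ^ 3 * q ^ 2 * M) := by rw [hL]; ring
    exact Nat.le_of_mul_le_mul_left h4 hr1
  · intro x x' x'' x₃ a c c' h1 h2 h3
    simp only [Prod.mk_add_mk, Prod.mk.injEq, add_zero, Prod.smul_mk, smul_zero, Prod.neg_mk,
      neg_zero] at h1 h2 h3
    obtain ⟨h1v, h1q⟩ := h1
    obtain ⟨h2v, h2q⟩ := h2
    obtain ⟨h3v, h3q⟩ := h3
    have hlift : ∀ (N : ℕ) (u v : ℕ), u < N → v < N → ((u : ZMod N) = (v : ZMod N)) → u = v := by
      intro N u v hu hv h
      rw [ZMod.natCast_eq_natCast_iff'] at h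
      rwa [Nat.mod_eq_of_lt hu, Nat.mod_eq_of_lt hv] at h
    have q01 := hlift T _ _ (hdiv x) (hdiv x') h1q
    have q12 := hlift T _ _ (hdiv x') (hdiv x'') h2q
    have q23 := hlift T _ _ (hdiv x'') (hdiv x₃) h3q
    have c01 : ∀ i, vec x i + (ι a i : ℕ) = vec x' i + (ι c i : ℕ) := by
      intro i
      have hx := hvecL x i
      have hx' := hvecL x' i
      have ha := (ι a i).2
      have ha' := (ι c i).2
      apply hlift m _ _ (by simp only [m]; omega) (by simp only [m]; omega)
      push_cast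
      exact congrFun h1v i
    have c12 : ∀ i, vec x' i + 2 * (ι c i : ℕ) = vec x'' i + 2 * (ι c' i : ℕ) := by
      intro i
      have hx := hvecL x'' i
      have hx' := hvecL x' i
      have ha := (ι c i).2
      have ha' := (ι c' i).2
      apply hlift m _ _ (by simp only [m]; omega) (by simp only [m]; omega)
      push_cast
      have h3 := congrFun h2v i
      simp only [Pi.add_apply, Pi.smul_apply] at h3
      simp only [nsmul_eq_mul, Nat.cast_ofNat] at h3
      exact h3
    have c23 : ∀ i, vec x'' i + 3 * (ι c' i : ℕ) = vec x₃ i + 3 * (ι a i : ℕ) := by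
      intro i
      have hx := hvecL x'' i
      have hx' := hvecL x₃ i
      have ha := (ι a i).2
      have ha' := (ι c' i).2
      apply hlift m _ _ (by simp only [m]; omega) (by simp only [m]; omega)
      push_cast
      have h3 := congrFun h3v i
      simp only [Pi.add_apply, Pi.smul_apply, Pi.neg_apply] at h3
      simp only [nsmul_eq_mul, Nat.cast_ofNat] at h3
      rw [← h3]
      ring
    have hsum : ∀ i, 3 * (vec x' i : ℤ) + vec x'' i + 2 * vec x₃ i = 6 * vec x i := by
      intro i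
      have e1 := c01 i
      have e2 := c12 i
      have e3 := c23 i
      omega
    have hzero : ∑ i, (3 * ((vec x' i : ℤ) - vec x'' i) ^ 2 + 6 * ((vec x' i : ℤ) - vec x₃ i) ^ 2 +
        2 * ((vec x'' i : ℤ) - vec x₃ i) ^ 2) = 0 := by
      have e0 : ∑ i, (vec x i : ℤ) ^ 2 = R := by exact_mod_cast hvecR x
      have e1 : ∑ i, (vec x' i : ℤ) ^ 2 = R := by exact_mod_cast hvecR x'
      have e2 : ∑ i, (vec x'' i : ℤ) ^ 2 = R := by exact_mod_cast hvecR x''
      have e3 : ∑ i, (vec x₃ i : ℤ) ^ 2 = R := by exact_mod_cast hvecR x₃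
      have e4 : ∀ i, (3 * ((vec x' i : ℤ) - vec x'' i) ^ 2 + 6 * ((vec x' i : ℤ) - vec x₃ i) ^ 2 +
          2 * ((vec x'' i : ℤ) - vec x₃ i) ^ 2) =
          18 * (vec x' i : ℤ) ^ 2 + 6 * (vec x'' i : ℤ) ^ 2 + 12 * (vec x₃ i : ℤ) ^ 2 -
            36 * (vec x i : ℤ) ^ 2 := by
        intro i
        have h4 : (vec x i : ℤ) ^ 2 * 36 = (3 * (vec x' i : ℤ) + vec x'' i + 2 * vec x₃ i) ^ 2 := by
          rw [hsum i]; ring
        linear_combination h4
      rw [Finset.sum_congr rfl (fun i _ => e4 i), Finset.sum_sub_distrib, Finset.sum_add_distrib,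
        Finset.sum_add_distrib, ← Finset.mul_sum, ← Finset.mul_sum, ← Finset.mul_sum,
        ← Finset.mul_sum, e0, e1, e2, e3]
      ring
    have hall : ∀ i, vec x' i = vec x'' i ∧ vec x' i = vec x₃ i := by
      intro i
      have h3 := (Finset.sum_eq_zero_iff_of_nonneg (fun i _ => by positivity)).1 hzero i
        (Finset.mem_univ i)
      have h5 : ((vec x' i : ℤ) - vec x'' i) ^ 2 = 0 := by
        nlinarith [sq_nonneg ((vec x' i : ℤ) - vec x'' i), sq_nonneg ((vec x' i : ℤ) - vec x₃ i),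
          sq_nonneg ((vec x'' i : ℤ) - vec x₃ i)]
      have h6 : ((vec x' i : ℤ) - vec x₃ i) ^ 2 = 0 := by
        nlinarith [sq_nonneg ((vec x' i : ℤ) - vec x'' i), sq_nonneg ((vec x' i : ℤ) - vec x₃ i),
          sq_nonneg ((vec x'' i : ℤ) - vec x₃ i)]
      have h7 : (vec x' i : ℤ) - vec x'' i = 0 := pow_eq_zero_iff (two_ne_zero) |>.1 h5
      have h8 : (vec x' i : ℤ) - vec x₃ i = 0 := pow_eq_zero_iff (two_ne_zero) |>.1 h6
      constructor <;> omega
    have hx'x : ∀ i, vec x' i = vec x i := fun i => by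
      have := hsum i
      have := hall i
      omega
    have hx''x : ∀ i, vec x'' i = vec x i := fun i => by rw [← (hall i).1, hx'x i]
    have hx3x : ∀ i, vec x₃ i = vec x i := fun i => by rw [← (hall i).2, hx'x i]
    have haa : c = a := by
      apply ι.injective
      funext i
      apply Fin.ext
      have := c01 i
      have := hx'x i
      omega
    have haa' : c' = a := by
      apply ι.injective
      funext i
      apply Fin.ext
      have := c23 i
      have := hx3x i
      have := hx''x i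
      omega
    have hfx : ∀ y z : X, (f y : ℕ) / r = (f z : ℕ) / r → (f y : ℕ) % r = (f z : ℕ) % r →
        y = z := by
      intro y z hd hm
      apply f.injective
      apply Fin.ext
      rw [← Nat.div_add_mod (f y : ℕ) r, ← Nat.div_add_mod (f z : ℕ) r, hd, hm]
    exact ⟨hfx _ _ q01.symm (hvecinj _ _ hx'x), hfx _ _ (by rw [← q12, ← q01])
      (hvecinj _ _ hx''x), hfx _ _ (by rw [← q23, ← q12, ← q01]) (hvecinj _ _ hx3x), haa, haa'⟩

end Pool.Agent.Helper6.TreeEval
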