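import Pool.Agent.Helper6.ThriftyMain
import Pool.Agent.Helper6.ThriftyMaskFour

/-!
# Pairs of gadgets: computing with traces and cleaning the traces
-/

namespace Pool.Agent.Helper6.TreeEval

open Gadget

/-- The query asks for a leaf. -/
def Query.isLeaf {k : ℕ} : Query k → Bool
  | .leaf _ => true
  | .fn _ _ _ => false

namespace Gadget

variable {k : ℕ} {A B C D : Type}

/-- The number of leaf queries on a path. -/
def leafCount (g : Gadget k A B) (l : List g.S) : ℕ := l.countP fun s => (g.query s).isLeaf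

/-- Every run makes at most `c` leaf queries. -/
def Cheap (g : Gadget k A B) (c : ℕ) : Prop :=
  ∀ I a l b, g.Runs I a l b → g.leafCount l ≤ c

/-- All queries on the path are thrifty. -/
def Th (g : Gadget k A B) (h : ℕ) (I : Inst k) (l : List g.S) : Prop :=
  ∀ s ∈ l, (g.query s).Thrifty h I

theorem leafCount_comp (g : Gadget k A B) (R : B → C → Prop) (g' : Gadget k C D)
    (l : List g.S) (l' : List g'.S) :
    (g.comp R g').leafCount (l.map Sum.inl ++ l'.map Sum.inr) = g.leafCount l + g'.leafCount l' := by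
  change List.countP (fun s : g.S ⊕ g'.S => (Sum.elim g.query g'.query s).isLeaf)
    (l.map Sum.inl ++ l'.map Sum.inr) = _
  rw [List.countP_append, List.countP_map, List.countP_map]
  rfl

theorem th_comp (g : Gadget k A B) (R : B → C → Prop) (g' : Gadget k C D) (h : ℕ) (I : Inst k)
    {l : List g.S} {l' : List g'.S} (h1 : g.Th h I l) (h2 : g'.Th h I l') :
    (g.comp R g').Th h I (l.map Sum.inl ++ l'.map Sum.inr) := by
  intro s hs
  rcases List.mem_append.1 hs with hs | hs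
  · obtain ⟨t, ht, rfl⟩ := List.mem_map.1 hs
    exact h1 t ht
  · obtain ⟨t, ht, rfl⟩ := List.mem_map.1 hs
    exact h2 t ht

theorem Cheap.comp {g : Gadget k A B} {g' : Gadget k C D} {c c' : ℕ} (h1 : g.Cheap c)
    (R : B → C → Prop) (h2 : g'.Cheap c') : (g.comp R g').Cheap (c + c') := by
  intro I a l b hr
  obtain ⟨l₁, b', c'', l₂, h3, -, h4, rfl⟩ := (runs_comp _ _ _ _ _ _ _).1 hr
  exact (leafCount_comp g R g' l₁ l₂).le.trans (Nat.add_le_add (h1 _ _ _ _ h3) (h2 _ _ _ _ h4))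

theorem Cheap.post {g : Gadget k A B} {c : ℕ} (h1 : g.Cheap c) (R : B → C → Prop) :
    (g.post R).Cheap c := by
  intro I a l b hr
  obtain ⟨b', h2, -⟩ := (runs_post _ _ _ _ _ _).1 hr
  exact h1 _ _ _ _ h2

theorem Cheap.pre {g : Gadget k A B} {c : ℕ} (h1 : g.Cheap c) (f : C → A) :
    (Gadget.pre f g).Cheap c := by
  intro I a l b hr
  exact h1 _ _ _ _ ((runs_pre _ _ _ _ _ _).1 hr)

theorem cheap_ask_fn [Fintype A] (q : A → Query k) (hq : ∀ a, (q a).isLeaf = false)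
    (f : A → Fin k → B) : (ask q f).Cheap 0 := by
  intro I a l b hr
  obtain ⟨rfl, -⟩ := (runs_ask _ _ _ _ _ _).1 hr
  change List.countP (fun s : A => (q s).isLeaf) [a] ≤ 0
  simp [hq a]

theorem cheap_ask [Fintype A] (q : A → Query k) (f : A → Fin k → B) : (ask q f).Cheap 1 := by
  intro I a l b hr
  obtain ⟨rfl, -⟩ := (runs_ask _ _ _ _ _ _).1 hr
  unfold leafCount
  exact List.countP_le_length

end Gadget

/-- The trace `t` cannot be cleaned by `B` on the instance `I`. -/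
def Dead {k : ℕ} {T O G C D : Type} (I : Inst k) (ρ : T × O × G → C → Prop)
    (B : Gadget k C D) (t : T) : Prop :=
  ∀ o w c l b, ρ (t, o, w) c → ¬ B.Runs I c l b

/-- `F` adds `φ v` to the target and turns the content `a` into a trace, `B` (entered through the
relation `ρ`) adds `φ' v` to the target and cleans the trace; a wrong run of `F` leaves
a dead trace. -/
def PairSpec {k : ℕ} {A O G T C : Type} [AddCommGroup G] (h : ℕ) (I : Inst k) (v : Fin k)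
    (φ φ' : Fin k → G) (F : Gadget k (A × O × G) (T × O × G)) (ρ : T × O × G → C → Prop)
    (B : Gadget k C (A × O × G)) : Prop :=
  ∃ τ : A → T,
    (∀ a o z, ∃ l, F.Runs I (a, o, z) l (τ a, o, z + φ v) ∧ F.Th h I l ∧
      ∀ l' b, F.Runs I (a, o, z) l' b → (l' = l ∧ b = (τ a, o, z + φ v)) ∨ Dead I ρ B b.1) ∧
    (∀ a o w, ∃ c l, ρ (τ a, o, w) c ∧ B.Runs I c l (a, o, w + φ' v) ∧ B.Th h I l ∧
      ∀ c' l' b', ρ (τ a, o, w) c' → B.Runs I c' l' b' →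
        c' = c ∧ l' = l ∧ b' = (a, o, w + φ' v))

section step

variable {k : ℕ} {X A A' O G G1 Tl Tr Cl Cr : Type} [Fintype X] [Fintype O] [Fintype G]
  [Fintype Tr] [AddCommGroup G] [AddCommGroup G1]

/-- The states of the two queries of an internal node. -/
abbrev Mid (k : ℕ) (Tr X O G : Type) : Type := Tr × (X × Fin k) × (X × Fin k) × O × G

variable (p : Node) (ι : A → X × X × A') (e : X → G1) (ψ : Fin k → G1) (φ φ' : Fin k → G)
  (Fl : Gadget k (A' × (X × O × G) × G1) (Tl × (X × O × G) × G1))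
  (ρl : Tl × (X × O × G) × G1 → Cl → Prop)
  (Bl : Gadget k Cl (A' × (X × O × G) × G1))
  (Fr : Gadget k (Tl × (G1 × O × G) × G1) (Tr × (G1 × O × G) × G1))
  (ρr : Tr × (G1 × O × G) × G1 → Cr → Prop)
  (Br : Gadget k Cr (Tl × (G1 × O × G) × G1))

/-- The first query of the node. -/
def stepQ1 : Gadget k (Mid k Tr X O G) ((G1 × G1 × Tr) × O × G) :=
  ask (fun w => Query.fn p w.2.1.2 w.2.2.1.2)
    (fun w ans => ((e w.2.1.1 + 2 • ψ w.2.1.2, e w.2.2.1.1 + 2 • ψ w.2.2.1.2, w.1), w.2.2.2.1,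
      w.2.2.2.2 + φ ans))

/-- The second query of the node. -/
def stepQ2 : Gadget k (Mid k Tr X O G) (Mid k Tr X O G) :=
  ask (fun w => Query.fn p w.2.1.2 w.2.2.1.2)
    (fun w ans => (w.1, w.2.1, w.2.2.1, w.2.2.2.1, w.2.2.2.2 + φ' ans))

/-- Between the left and the right forward gadget. -/
def R12 : Tl × (X × O × G) × G1 → Tl × (G1 × O × G) × G1 → Prop :=
  fun b c => c = (b.1, (b.2.2, b.2.1.2.1, b.2.1.2.2), e b.2.1.1)

/-- The guess before the first query. -/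
def R23 : Tr × (G1 × O × G) × G1 → Mid k Tr X O G → Prop :=
  fun b c => b = (c.1, (e c.2.1.1 + ψ c.2.1.2, c.2.2.2.1, c.2.2.2.2), e c.2.2.1.1 + ψ c.2.2.1.2)

/-- The forward gadget of an internal node. -/
def stepF : Gadget k (A × O × G) ((G1 × G1 × Tr) × O × G) :=
  Gadget.pre (fun w => ((ι w.1).2.2, ((ι w.1).2.1, w.2.1, w.2.2), e (ι w.1).1))
    ((Fl.comp (R12 e) Fr).comp (R23 e ψ) (stepQ1 p e ψ φ))

/-- The entry relation of the backward gadget. -/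
def stepρ : (G1 × G1 × Tr) × O × G → Mid k Tr X O G → Prop := fun b c =>
  b = ((e c.2.1.1 + 2 • ψ c.2.1.2, e c.2.2.1.1 + 2 • ψ c.2.2.1.2, c.1), c.2.2.2.1, c.2.2.2.2)

/-- After the second query. -/
def R34 : Mid k Tr X O G → Cr → Prop :=
  fun b c => ρr (b.1, (e b.2.1.1 + 3 • ψ b.2.1.2, b.2.2.2.1, b.2.2.2.2),
    e b.2.2.1.1 + 3 • ψ b.2.2.1.2) c

/-- Between the right and the left backward gadget. -/
def R45 : Tl × (G1 × O × G) × G1 → Cl → Prop :=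
  fun b c => ∃ y, b.2.2 = e y ∧ ρl (b.1, (y, b.2.1.2.1, b.2.1.2.2), b.2.1.1) c

/-- The exit relation of the backward gadget. -/
def R5 : A' × (X × O × G) × G1 → A × O × G → Prop :=
  fun b c => ∃ x, b.2.2 = e x ∧ ι c.1 = (x, b.2.1.1, b.1) ∧ c.2.1 = b.2.1.2.1 ∧
    c.2.2 = b.2.1.2.2

/-- The backward gadget of an internal node. -/
def stepB : Gadget k (Mid k Tr X O G) (A × O × G) :=
  (((stepQ2 p φ').comp (R34 e ψ ρr) Br).comp (R45 e ρl) Bl).post (R5 ι e)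

theorem runs_stepF (I : Inst k) (a : A) (o : O) (z : G)
    (l : List (stepF p ι e ψ φ Fl Fr).S) (b : (G1 × G1 × Tr) × O × G) :
    (stepF p ι e ψ φ Fl Fr).Runs I (a, o, z) l b ↔ ∃ l1 b1 l2 b2 c,
      Fl.Runs I ((ι a).2.2, ((ι a).2.1, o, z), e (ι a).1) l1 b1 ∧
      Fr.Runs I (b1.1, (b1.2.2, b1.2.1.2.1, b1.2.1.2.2), e b1.2.1.1) l2 b2 ∧
      b2 = (c.1, (e c.2.1.1 + ψ c.2.1.2, c.2.2.2.1, c.2.2.2.2), e c.2.2.1.1 + ψ c.2.2.1.2) ∧
      b = ((e c.2.1.1 + 2 • ψ c.2.1.2, e c.2.2.1.1 + 2 • ψ c.2.2.1.2, c.1), c.2.2.2.1,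
        c.2.2.2.2 + φ (I.fn p c.2.1.2 c.2.2.1.2)) ∧
      l = ((l1.map Sum.inl ++ l2.map Sum.inr).map Sum.inl ++ [c].map Sum.inr :
        List ((Fl.S ⊕ Fr.S) ⊕ Mid k Tr X O G)) := by
  constructor
  · intro hrun
    obtain ⟨l12, b2, c, l3, h1, h2, h3, rfl⟩ :=
      (runs_comp _ _ _ _ _ _ _).1 ((runs_pre _ _ _ _ _ _).1 hrun)
    obtain ⟨l1, b1, c1, l2, h4, h5, h6, rfl⟩ := (runs_comp _ _ _ _ _ _ _).1 h1
    have h5' : c1 = (b1.1, (b1.2.2, b1.2.1.2.1, b1.2.1.2.2), e b1.2.1.1) := h5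
    subst h5'
    obtain ⟨rfl, h7⟩ := (runs_ask _ _ _ _ _ _).1 h3
    exact ⟨l1, b1, l2, b2, c, h4, h6, h2, h7, rfl⟩
  · rintro ⟨l1, b1, l2, b2, c, h1, h2, h3, h4, rfl⟩
    exact (runs_pre _ _ _ _ _ _).2 ((runs_comp _ _ _ _ _ _ _).2 ⟨_, b2, c, [c],
      (runs_comp _ _ _ _ _ _ _).2 ⟨l1, b1, _, l2, h1, rfl, h2, rfl⟩, h3,
      (runs_ask _ _ _ _ _ _).2 ⟨rfl, h4⟩, rfl⟩)

theorem runs_stepB (I : Inst k) (c : Mid k Tr X O G)
    (l : List (stepB p ι e ψ φ' ρl Bl ρr Br).S) (b : A × O × G) :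
    (stepB p ι e ψ φ' ρl Bl ρr Br).Runs I c l b ↔ ∃ cr lr b2 cl ll b3 y x,
      ρr (c.1, (e c.2.1.1 + 3 • ψ c.2.1.2, c.2.2.2.1,
        c.2.2.2.2 + φ' (I.fn p c.2.1.2 c.2.2.1.2)), e c.2.2.1.1 + 3 • ψ c.2.2.1.2) cr ∧
      Br.Runs I cr lr b2 ∧ b2.2.2 = e y ∧
      ρl (b2.1, (y, b2.2.1.2.1, b2.2.1.2.2), b2.2.1.1) cl ∧
      Bl.Runs I cl ll b3 ∧ b3.2.2 = e x ∧ ι b.1 = (x, b3.2.1.1, b3.1) ∧
      b.2.1 = b3.2.1.2.1 ∧ b.2.2 = b3.2.1.2.2 ∧
      l = (([c].map Sum.inl ++ lr.map Sum.inr).map Sum.inl ++ ll.map Sum.inr :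
        List ((Mid k Tr X O G ⊕ Br.S) ⊕ Bl.S)) := by
  constructor
  · intro hrun
    obtain ⟨b3, h1, x, h2, h3, h4, h5⟩ := (runs_post _ _ _ _ _ _).1 hrun
    obtain ⟨l12, b2, cl, ll, h6, ⟨y, h7, h8⟩, h9, rfl⟩ := (runs_comp _ _ _ _ _ _ _).1 h1
    obtain ⟨l1, b1, cr, lr, h10, h11, h12, rfl⟩ := (runs_comp _ _ _ _ _ _ _).1 h6
    obtain ⟨rfl, rfl⟩ := (runs_ask _ _ _ _ _ _).1 h10
    exact ⟨cr, lr, b2, cl, ll, b3, y, x, h11, h12, h7, h8, h9, h2, h3, h4, h5, rfl⟩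
  · rintro ⟨cr, lr, b2, cl, ll, b3, y, x, h11, h12, h7, h8, h9, h2, h3, h4, h5, rfl⟩
    exact (runs_post _ _ _ _ _ _).2 ⟨b3, (runs_comp _ _ _ _ _ _ _).2 ⟨_, b2, cl, ll,
      (runs_comp _ _ _ _ _ _ _).2 ⟨[c], _, cr, lr, (runs_ask _ _ _ _ _ _).2 ⟨rfl, rfl⟩, h11, h12,
        rfl⟩, ⟨y, h7, h8⟩, h9, rfl⟩, x, h2, h3, h4, h5⟩

theorem th_stepF {h : ℕ} {I : Inst k} {l1 : List Fl.S} {l2 : List Fr.S} {c : Mid k Tr X O G}
    (h1 : Fl.Th h I l1) (h2 : Fr.Th h I l2)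
    (h3 : (Query.fn p c.2.1.2 c.2.2.1.2).Thrifty h I) :
    (stepF p ι e ψ φ Fl Fr).Th h I
      ((l1.map Sum.inl ++ l2.map Sum.inr).map Sum.inl ++ [c].map Sum.inr :
        List ((Fl.S ⊕ Fr.S) ⊕ Mid k Tr X O G)) := by
  have h4 : (stepQ1 (X := X) (O := O) (Tr := Tr) p e ψ φ).Th h I [c] := by
    intro s hs
    have hs' := List.mem_singleton.1 hs
    subst hs'
    exact h3
  have h5 : (Fl.comp (R12 e) Fr).Th h I (l1.map Sum.inl ++ l2.map Sum.inr) :=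
    th_comp Fl (R12 e) Fr h I h1 h2
  exact th_comp (Fl.comp (R12 e) Fr) (R23 e ψ) (stepQ1 p e ψ φ) h I h5 h4

theorem th_stepB {h : ℕ} {I : Inst k} {ll : List Bl.S} {lr : List Br.S} {c : Mid k Tr X O G}
    (h1 : Bl.Th h I ll) (h2 : Br.Th h I lr)
    (h3 : (Query.fn p c.2.1.2 c.2.2.1.2).Thrifty h I) :
    (stepB p ι e ψ φ' ρl Bl ρr Br).Th h I
      (([c].map Sum.inl ++ lr.map Sum.inr).map Sum.inl ++ ll.map Sum.inr :
        List ((Mid k Tr X O G ⊕ Br.S) ⊕ Bl.S)) := by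
  have h4 : (stepQ2 (X := X) (O := O) (Tr := Tr) p φ').Th h I [c] := by
    intro s hs
    have hs' := List.mem_singleton.1 hs
    subst hs'
    exact h3
  have h5 : ((stepQ2 p φ').comp (R34 e ψ ρr) Br).Th h I ([c].map Sum.inl ++ lr.map Sum.inr) :=
    th_comp (stepQ2 p φ') (R34 e ψ ρr) Br h I h4 h2
  exact th_comp ((stepQ2 p φ').comp (R34 e ψ ρr) Br) (R45 e ρl) Bl h I h5 h1

/-- The pair of an internal node is correct if the pairs of its children are. -/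
theorem step_spec {h : ℕ} {I : Inst k} {vl vr : Fin k} (hι : Function.Injective ι)
    (hmask : ∀ (x x' x'' x₃ : X) (a c c' : Fin k),
        e x + ψ a = e x' + ψ c → e x' + 2 • ψ c = e x'' + 2 • ψ c' →
        e x'' + 3 • ψ c' + -(3 • ψ a) = e x₃ →
        x' = x ∧ x'' = x ∧ x₃ = x ∧ c = a ∧ c' = a)
    (hth : (Query.fn p vl vr).Thrifty h I)
    (hl : PairSpec h I vl ψ (fun v => -(3 • ψ v)) Fl ρl Bl)
    (hr : PairSpec h I vr ψ (fun v => -(3 • ψ v)) Fr ρr Br) :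
    PairSpec h I (I.fn p vl vr) φ φ' (stepF p ι e ψ φ Fl Fr) (stepρ e ψ)
      (stepB p ι e ψ φ' ρl Bl ρr Br) := by
  obtain ⟨τl, hFl, hBl⟩ := hl
  obtain ⟨τr, hFr, hBr⟩ := hr
  refine ⟨fun a => (e (ι a).1 + 2 • ψ vl, e (ι a).2.1 + 2 • ψ vr, τr (τl (ι a).2.2)), ?_, ?_⟩
  · -- the forward gadget
    intro a o z
    obtain ⟨l1, r1, t1, u1⟩ := hFl (ι a).2.2 ((ι a).2.1, o, z) (e (ι a).1)
    obtain ⟨l2, r2, t2, u2⟩ := hFr (τl (ι a).2.2) (e (ι a).1 + ψ vl, o, z) (e (ι a).2.1)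
    refine ⟨_, (runs_stepF p ι e ψ φ Fl Fr I a o z _ _).2 ⟨l1, _, l2, _,
      (τr (τl (ι a).2.2), ((ι a).1, vl), ((ι a).2.1, vr), o, z), r1, r2, rfl, rfl, rfl⟩, ?_, ?_⟩
    · exact th_stepF p ι e ψ φ Fl Fr t1 t2 hth
    · intro l' b hrun
      obtain ⟨l1', b1, l2', b2, c, h1, h2, h3, rfl, rfl⟩ :=
        (runs_stepF p ι e ψ φ Fl Fr I a o z _ _).1 hrun
      rcases u1 _ _ h1 with ⟨rfl, rfl⟩ | hdead
      · -- the left run is right
        rcases u2 _ _ h2 with ⟨rfl, rfl⟩ | hdead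
        · -- the right run is right
          obtain ⟨tr, ⟨x', cl⟩, ⟨y', cr⟩, o', z'⟩ := c
          simp only [Prod.mk.injEq] at h3
          obtain ⟨rfl, ⟨hx, rfl, rfl⟩, hy⟩ := h3
          by_cases hcase : x' = (ι a).1 ∧ cl = vl ∧ y' = (ι a).2.1 ∧ cr = vr
          · obtain ⟨rfl, rfl, rfl, rfl⟩ := hcase
            exact Or.inl ⟨rfl, rfl⟩
          · right
            intro o₂ w c l b hρ hB
            obtain ⟨tr'', ⟨x'', cl''⟩, ⟨y'', cr''⟩, o'', w''⟩ := c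
            simp only [stepρ, Prod.mk.injEq] at hρ
            obtain ⟨⟨hx2, hy2, rfl⟩, rfl, rfl⟩ := hρ
            obtain ⟨dr, lr, b2, dl, ll, b3, y₃, x₃, g1, g2, g3, g4, g5, g6, g7, g8, g9, -⟩ :=
              (runs_stepB p ι e ψ φ' ρl Bl ρr Br I _ _ _).1 hB
            obtain ⟨_, _, _, _, _, ur⟩ := hBr (τl (ι a).2.2) _ _
            obtain ⟨-, -, rfl⟩ := ur _ _ _ g1 g2
            obtain ⟨_, _, _, _, _, ul⟩ := hBl (ι a).2.2 _ _
            obtain ⟨-, -, rfl⟩ := ul _ _ _ g4 g5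
            obtain ⟨k1, k2, k3, k4, k5⟩ := hmask _ _ _ _ _ _ _ hx hx2 g6
            obtain ⟨j1, j2, j3, j4, j5⟩ := hmask _ _ _ _ _ _ _ hy hy2 g3
            exact hcase ⟨k1, k4, j1, j4⟩
        · -- the trace of the right child is dead
          right
          intro o₂ w c' l b hρ hB
          obtain ⟨dr, lr, b2', dl, ll, b3, y₃, x₃, g1, g2, -⟩ :=
            (runs_stepB p ι e ψ φ' ρl Bl ρr Br I _ _ _).1 hB
          have h5 : b2.1 = c'.1 := by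
            rw [h3]
            simp only [stepρ, Prod.mk.injEq] at hρ
            exact hρ.1.2.2
          rw [← h5] at g1
          exact hdead _ _ _ _ _ g1 g2
      · -- the trace of the left child is dead
        right
        intro o₂ w c' l b hρ hB
        obtain ⟨dr, lr, b2', dl, ll, b3, y₃, x₃, g1, g2, g3, g4, g5, -⟩ :=
          (runs_stepB p ι e ψ φ' ρl Bl ρr Br I _ _ _).1 hB
        have h5 : b2.1 = c'.1 := by
          rw [h3]
          simp only [stepρ, Prod.mk.injEq] at hρ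
          exact hρ.1.2.2
        rw [← h5] at g1
        obtain ⟨_, _, _, u2'⟩ := hFr b1.1 (b1.2.2, b1.2.1.2.1, b1.2.1.2.2) (e b1.2.1.1)
        rcases u2' _ _ h2 with ⟨-, hb2⟩ | hdead'
        · rw [hb2] at g1
          obtain ⟨_, _, _, _, _, ur⟩ := hBr b1.1 _ _
          obtain ⟨-, -, rfl⟩ := ur _ _ _ g1 g2
          exact hdead _ _ _ _ _ g4 g5
        · exact hdead' _ _ _ _ _ g1 g2
  · -- the backward gadget
    intro a o w
    obtain ⟨dr, lr, p1, p2, p3, ur⟩ := hBr (τl (ι a).2.2)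
      (e (ι a).1 + 3 • ψ vl, o, w + φ' (I.fn p vl vr)) (e (ι a).2.1 + 3 • ψ vr)
    obtain ⟨dl, ll, q1, q2, q3, ul⟩ := hBl (ι a).2.2
      ((ι a).2.1, o, w + φ' (I.fn p vl vr)) (e (ι a).1 + 3 • ψ vl)
    have hy : e (ι a).2.1 + 3 • ψ vr + -(3 • ψ vr) = e (ι a).2.1 := by abel
    have hx : e (ι a).1 + 3 • ψ vl + -(3 • ψ vl) = e (ι a).1 := by abel
    refine ⟨(τr (τl (ι a).2.2), ((ι a).1, vl), ((ι a).2.1, vr), o, w), _, rfl,
      (runs_stepB p ι e ψ φ' ρl Bl ρr Br I _ _ _).2 ⟨dr, lr, _, dl, ll, _, (ι a).2.1, (ι a).1,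
        p1, p2, hy, q1, q2, hx, rfl, rfl, rfl, rfl⟩, ?_, ?_⟩
    · exact th_stepB p ι e ψ φ' ρl Bl ρr Br q3 p3 hth
    · intro c' l' b' hρ hB
      obtain ⟨tr'', ⟨x'', cl''⟩, ⟨y'', cr''⟩, o'', w''⟩ := c'
      simp only [stepρ, Prod.mk.injEq] at hρ
      obtain ⟨⟨hx2, hy2, rfl⟩, rfl, rfl⟩ := hρ
      obtain ⟨dr', lr', b2, dl', ll', b3, y₃, x₃, g1, g2, g3, g4, g5, g6, g7, g8, g9, rfl⟩ :=
        (runs_stepB p ι e ψ φ' ρl Bl ρr Br I _ _ _).1 hB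
      obtain ⟨_, _, _, _, _, ur'⟩ := hBr (τl (ι a).2.2)
        (e x'' + 3 • ψ cl'', o, w + φ' (I.fn p cl'' cr'')) (e y'' + 3 • ψ cr'')
      obtain ⟨-, -, hb2⟩ := ur' _ _ _ g1 g2
      rw [hb2] at g3 g4
      obtain ⟨_, _, _, _, _, ul'⟩ := hBl (ι a).2.2
        (y₃, o, w + φ' (I.fn p cl'' cr'')) (e x'' + 3 • ψ cl'')
      obtain ⟨-, -, hb3⟩ := ul' _ _ _ g4 g5
      rw [hb3] at g6 g7 g8 g9
      obtain ⟨-, rfl, rfl, -, rfl⟩ := hmask (ι a).1 (ι a).1 x'' x₃ vl vl cl'' rfl hx2 g6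
      obtain ⟨-, rfl, rfl, -, rfl⟩ := hmask (ι a).2.1 (ι a).2.1 y'' y₃ vr vr cr'' rfl hy2 g3
      obtain ⟨rfl, rfl, -⟩ := ur _ _ _ g1 g2
      obtain ⟨rfl, rfl, -⟩ := ul _ _ _ g4 g5
      refine ⟨rfl, rfl, ?_⟩
      have h7 : b'.1 = a := hι g7
      refine Prod.ext h7 (Prod.ext g8 g9)

end step

end Pool.Agent.Helper6.TreeEval
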