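import Pool.Agent.Helper6.ThriftyMain

/-!
# Small unambiguous thrifty branching programs for tree evaluation
-/

namespace Pool.Agent.Results.MP_4e849b_lc.ThriftyTreeEvaluation

open Pool.Agent.Helper6.TreeEval

/-- The branching program obtained from a gadget for the root. -/
def ofGadget {h k : ℕ} (g : Gadget k (Unit × Unit × ZMod k) (Unit × Unit × ZMod k))
    (ht : ∀ s, (g.query s).InTree h) : NBP h k where
  State := g.S ⊕ Fin k
  start := Sum.inl (g.start ((), (), 0))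
  label := Sum.elim (fun s => Sum.inl (g.query s)) Sum.inr
  next := fun s v => match s with
    | Sum.inl s => {w | (∃ t, w = Sum.inl t ∧ Sum.inl t ∈ g.step s v) ∨
        ∃ c : Fin k, w = Sum.inr c ∧ Sum.inr ((), (), ((c : ℕ) : ZMod k)) ∈ g.step s v}
    | Sum.inr _ => ∅
  inTree := by
    rintro (s | s) q hq
    · cases hq
      exact ht s
    · exact absurd hq (by simp)

theorem comp_ofGadget {h k : ℕ} (g : Gadget k (Unit × Unit × ZMod k) (Unit × Unit × ZMod k))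
    (ht : ∀ s, (g.query s).InTree h) (I : Inst k) (l : List (g.S ⊕ Fin k)) (v : Fin k) :
    (ofGadget g ht).Comp I (ofGadget g ht).start l v ↔
      ∃ l', g.Runs I ((), (), 0) l' ((), (), ((v : ℕ) : ZMod k)) ∧
        l = l'.map Sum.inl ++ [Sum.inr v] := by
  have key1 : ∀ (u : (ofGadget g ht).State) (l : List (ofGadget g ht).State) (v : Fin k),
      (ofGadget g ht).Comp I u l v → ∀ s : g.S, u = Sum.inl s →
      ∃ l', g.Path I s l' ((), (), ((v : ℕ) : ZMod k)) ∧ l = l'.map Sum.inl ++ [Sum.inr v] := by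
    intro u l v hc
    induction hc with
    | final hs =>
      rintro s rfl
      exact absurd hs (by simp [ofGadget])
    | @step u t q l v hs ht' hl ih =>
      rintro s rfl
      have hq : g.query s = q := Sum.inl_injective hs
      subst hq
      rcases ht' with ⟨t', rfl, h2⟩ | ⟨c, rfl, h2⟩
      · obtain ⟨l', hp, rfl⟩ := ih t' rfl
        exact ⟨s :: l', Gadget.Path.cons h2 hp, rfl⟩
      · have key0 : ∀ (u : (ofGadget g ht).State) (l : List (ofGadget g ht).State) (v : Fin k),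
            (ofGadget g ht).Comp I u l v → u = Sum.inr c → c = v ∧ l = [Sum.inr v] := by
          intro u l v hc
          cases hc with
          | final hs' =>
            rintro rfl
            have hcv : c = v := Sum.inr_injective hs'
            subst hcv
            exact ⟨rfl, rfl⟩
          | step hs' _ _ =>
            rintro rfl
            exact absurd hs' (by simp [ofGadget])
        obtain ⟨rfl, rfl⟩ := key0 _ _ _ hl rfl
        exact ⟨[s], Gadget.Path.exit h2, rfl⟩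
  have key2 : ∀ (s : g.S) (l' : List g.S) (b : Unit × Unit × ZMod k), g.Path I s l' b →
      ∀ v : Fin k, b = ((), (), ((v : ℕ) : ZMod k)) →
      (ofGadget g ht).Comp I (Sum.inl s) (l'.map Sum.inl ++ [Sum.inr v]) v := by
    intro s l' b hp
    induction hp with
    | @exit s b hb =>
      rintro v rfl
      exact NBP.Comp.step (B := ofGadget g ht) (s := Sum.inl s) (t := Sum.inr v) rfl
        (Or.inr ⟨v, rfl, hb⟩) (NBP.Comp.final (B := ofGadget g ht) rfl)
    | @cons s t l b ht' _ ih =>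
      rintro v rfl
      exact NBP.Comp.step (B := ofGadget g ht) (s := Sum.inl s) (t := Sum.inl t) rfl
        (Or.inl ⟨t, rfl, ht'⟩) (ih v rfl)
  constructor
  · intro hc
    exact key1 _ _ _ hc _ rfl
  · rintro ⟨l', hp, rfl⟩
    exact key2 _ _ _ hp _ rfl

/-- The program obtained from a mask. -/
theorem exists_program (h k lam M₀ : ℕ) (hh : 1 ≤ h) (hk : 2 ≤ k) (hlam : 1 ≤ lam)
    (hkM : k ≤ M₀) (hmask : MaskProp k lam M₀) :
    ∃ B : NBP h k, B.Solves ∧ B.IsThrifty ∧ B.Unambiguous ∧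
      Fintype.card B.State ≤ 2 * 5 ^ h * k ^ 2 * (lam ^ h * M₀) ^ 3 := by
  obtain ⟨n, rfl⟩ : ∃ n, h = n + 1 := ⟨h - 1, by omega⟩
  have : NeZero k := ⟨by omega⟩
  obtain ⟨g, ht, hcard, hg⟩ := exists_add (n + 1) k lam M₀ (by omega) hlam hmask n []
    (by simp; omega) M₀ le_rfl Unit Unit (ZMod k) (by simp; omega) (by simp; omega)
    ((ZMod.card k).le.trans hkM) (fun v => ((v : ℕ) : ZMod k))
  have hroot : ∀ I : Inst k, I.nodeVal (n + 1) [] = I.val n [] := by
    intro I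
    unfold Inst.nodeVal
    simp
  have hinj : ∀ v w : Fin k, ((v : ℕ) : ZMod k) = ((w : ℕ) : ZMod k) → v = w := by
    intro v w hvw
    rw [ZMod.natCast_eq_natCast_iff', Nat.mod_eq_of_lt v.2, Nat.mod_eq_of_lt w.2] at hvw
    exact Fin.ext hvw
  have hall : ∀ (I : Inst k), ∃ l, ((ofGadget g ht).Comp I (ofGadget g ht).start l
      (I.nodeVal (n + 1) [])) ∧ (∀ s ∈ l, ∀ q, (ofGadget g ht).label s = Sum.inl q →
        q.Thrifty (n + 1) I) ∧ ∀ l' v, (ofGadget g ht).Comp I (ofGadget g ht).start l' v →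
        l' = l ∧ v = I.nodeVal (n + 1) [] := by
    intro I
    obtain ⟨l, hl, hth, hu⟩ := hg I () () 0
    rw [zero_add] at hl
    refine ⟨l.map Sum.inl ++ [Sum.inr (I.nodeVal (n + 1) [])], ?_, ?_, ?_⟩
    · refine (comp_ofGadget g ht I _ _).2 ⟨l, ?_, rfl⟩
      rw [hroot]
      exact hl
    · intro s hs q hq
      rcases List.mem_append.1 hs with h1 | h1
      · obtain ⟨s1, hs1, rfl⟩ := List.mem_map.1 h1
        have hq' : g.query s1 = q := Sum.inl_injective hq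
        rw [← hq']
        exact hth s1 hs1
      · have h2 := List.mem_singleton.1 h1
        subst h2
        exact absurd hq (by simp [ofGadget])
    · intro l' v hv
      obtain ⟨l1, h1, rfl⟩ := (comp_ofGadget g ht I l' v).1 hv
      obtain ⟨rfl, h2⟩ := hu l1 _ h1
      simp only [Prod.mk.injEq, true_and, zero_add] at h2
      have h3 := hinj _ _ h2
      rw [hroot]
      subst h3
      exact ⟨rfl, rfl⟩
  refine ⟨ofGadget g ht, ?_, ?_, ?_, ?_⟩
  · intro I
    obtain ⟨l, h1, _, h3⟩ := hall I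
    exact ⟨⟨l, h1⟩, fun l' v hv => (h3 l' v hv).2⟩
  · intro I l v hl
    obtain ⟨l', h1, h2, h3⟩ := hall I
    obtain ⟨rfl, -⟩ := h3 l v hl
    exact h2
  · intro I l l' v v' hl hl'
    obtain ⟨l0, h1, h2, h3⟩ := hall I
    rw [(h3 l v hl).1, (h3 l' v' hl').1]
  · have hcS : Fintype.card (ofGadget g ht).State = Fintype.card g.S + k := by
      change Fintype.card (g.S ⊕ Fin k) = _
      simp only [Fintype.card_sum, Fintype.card_fin]
    rw [hcS]
    have h1 : 5 ^ n * k ^ 2 * (lam ^ n * M₀) ^ 3 ≤ 5 ^ (n + 1) * k ^ 2 * (lam ^ (n + 1) * M₀) ^ 3 := by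
      gcongr <;> omega
    have h2 : k ≤ 5 ^ (n + 1) * k ^ 2 * (lam ^ (n + 1) * M₀) ^ 3 := by
      calc k = 1 * k ^ 1 * (1 * 1) ^ 3 := by ring
        _ ≤ 5 ^ (n + 1) * k ^ 2 * (lam ^ (n + 1) * M₀) ^ 3 := by
          gcongr
          · exact Nat.one_le_pow _ _ (by norm_num)
          · omega
          · norm_num
          · exact Nat.one_le_pow _ _ hlam
          · omega
    calc Fintype.card g.S + k ≤ 5 ^ (n + 1) * k ^ 2 * (lam ^ (n + 1) * M₀) ^ 3 +
          5 ^ (n + 1) * k ^ 2 * (lam ^ (n + 1) * M₀) ^ 3 := by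
          exact Nat.add_le_add (hcard.trans h1) h2
      _ = 2 * 5 ^ (n + 1) * k ^ 2 * (lam ^ (n + 1) * M₀) ^ 3 := by ring

/-- **Main theorem.** For all `h ≥ 1`, `k ≥ 2` and `0 < ε ≤ 1` the tree evaluation problem for the
complete binary tree with `h` levels and values in `Fin k` is solved by an unambiguous
nondeterministic thrifty branching program with at most
`k ^ (5 + ε) * (60 m) ^ (60 h / ε)` states, where `m = min (h / ε) (log k + 1)`. -/
theorem result (h k : ℕ) (ε : ℝ) (hh : 1 ≤ h) (hk : 2 ≤ k) (hε : 0 < ε) (hε1 : ε ≤ 1) :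
    ∃ B : NBP h k, B.Solves ∧ B.IsThrifty ∧ B.Unambiguous ∧
      (Fintype.card B.State : ℝ) ≤
        (k : ℝ) ^ (5 + ε) * (60 * min (h / ε) (Real.log k + 1)) ^ (60 * h / ε) := by
  have hk0 : (0 : ℝ) < k := by positivity
  have hk1 : (1 : ℝ) ≤ k := by exact_mod_cast (by omega : 1 ≤ k)
  have hh1 : (1 : ℝ) ≤ h := by exact_mod_cast hh
  set t : ℝ := h / ε with ht
  have ht1 : 1 ≤ t := by
    rw [ht, le_div_iff₀ hε]
    linarith
  have hht : (h : ℝ) ≤ t := by
    rw [ht, le_div_iff₀ hε]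
    nlinarith
  have hlogk : 0 ≤ Real.log k := Real.log_nonneg hk1
  set μ : ℝ := min t (Real.log k + 1) with hμ
  have hμ1 : 1 ≤ μ := le_min ht1 (by linarith)
  set A : ℝ := 60 * μ with hA
  have hA60 : 60 ≤ A := by rw [hA]; linarith
  have hA0 : 0 < A := by linarith
  have hA1 : 1 ≤ A := by linarith
  -- the dimension
  let N : ℕ := ⌈12 * t⌉₊
  let d : ℕ := min N (Nat.clog 2 k)
  have hN1 : 1 ≤ N := Nat.one_le_ceil_iff.2 (by positivity)
  have hclog1 : 1 ≤ Nat.clog 2 k := Nat.clog_pos (by norm_num) hk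
  have hd1 : 1 ≤ d := le_min hN1 hclog1
  have hd0 : (0 : ℝ) < d := by exact_mod_cast hd1
  have hNt : (N : ℝ) ≤ 13 * t := by
    have := Nat.ceil_lt_add_one (show (0 : ℝ) ≤ 12 * t by positivity)
    linarith
  have hdt : (d : ℝ) ≤ 13 * t := le_trans (by exact_mod_cast min_le_left _ _) hNt
  have hdk : (d : ℝ) ≤ 13 * (Real.log k + 1) := by
    have h1 : (d : ℝ) ≤ Nat.clog 2 k := by exact_mod_cast min_le_right _ _
    have h2 : 2 ^ (Nat.clog 2 k - 1) < k := by
      have := Nat.pow_pred_clog_lt_self (b := 2) (by norm_num) hk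
      simpa using this
    have h3 : ((Nat.clog 2 k - 1 : ℕ) : ℝ) * Real.log 2 ≤ Real.log k := by
      rw [← Real.log_pow]
      apply Real.log_le_log (by positivity)
      exact_mod_cast h2.le
    have h4 : ((Nat.clog 2 k - 1 : ℕ) : ℝ) = (Nat.clog 2 k : ℝ) - 1 := by
      rw [Nat.cast_sub hclog1]
      norm_num
    rw [h4] at h3
    have h5 := Real.log_two_gt_d9
    have h6 : (0 : ℝ) ≤ (Nat.clog 2 k : ℝ) - 1 := by
      have : (1 : ℝ) ≤ Nat.clog 2 k := by exact_mod_cast hclog1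
      linarith
    nlinarith
  have hdμ : (d : ℝ) ≤ 13 * μ := by
    rw [hμ]
    rcases min_choice t (Real.log k + 1) with h1 | h1 <;> rw [h1]
    · exact hdt
    · exact hdk
  have h2dA : 2 * (d : ℝ) ≤ A := by rw [hA]; linarith
  -- the side length
  set κ : ℝ := (k : ℝ) ^ (1 / (d : ℝ)) with hκ
  have hκ1 : 1 ≤ κ := Real.one_le_rpow hk1 (by positivity)
  have hκd : κ ^ d = k := by
    rw [hκ, ← Real.rpow_natCast, ← Real.rpow_mul hk0.le]
    rw [one_div, inv_mul_cancel₀ hd0.ne', Real.rpow_one]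
  let q : ℕ := ⌈κ⌉₊
  have hκq : κ ≤ q := Nat.le_ceil _
  have hq1 : 1 ≤ q := Nat.one_le_ceil_iff.2 (by linarith)
  have hq2 : (q : ℝ) ≤ 2 * κ := by
    have := Nat.ceil_lt_add_one (show (0 : ℝ) ≤ κ by linarith)
    linarith
  have hkq : k ≤ q ^ d := by
    have : (k : ℝ) ≤ (q : ℝ) ^ d := by
      rw [← hκd]
      exact pow_le_pow_left₀ (by linarith) hκq d
    exact_mod_cast this
  have hκ6 : κ ^ (6 * h) ≤ (k : ℝ) ^ ε * 2 ^ (6 * h) := by
    have hkε : 1 ≤ (k : ℝ) ^ ε := Real.one_le_rpow hk1 hε.le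
    have h2 : (1 : ℝ) ≤ 2 ^ (6 * h) := one_le_pow₀ (by norm_num)
    rcases min_choice N (Nat.clog 2 k) with h1 | h1
    · have hdN : d = N := h1
      have h3 : κ ^ (6 * h) ≤ (k : ℝ) ^ ε := by
        rw [hκ, ← Real.rpow_natCast, ← Real.rpow_mul hk0.le]
        apply Real.rpow_le_rpow_of_exponent_le hk1
        push_cast
        rw [one_div, inv_mul_le_iff₀ hd0, hdN]
        have h4 : 12 * t ≤ N := Nat.le_ceil _
        have h5 : t * ε = h := by rw [ht]; field_simp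
        nlinarith
      calc κ ^ (6 * h) ≤ (k : ℝ) ^ ε := h3
        _ = (k : ℝ) ^ ε * 1 := by ring
        _ ≤ (k : ℝ) ^ ε * 2 ^ (6 * h) := by gcongr
    · have hdc : d = Nat.clog 2 k := h1
      have h3 : κ ≤ 2 := by
        have h4 : κ ^ d ≤ 2 ^ d := by
          rw [hκd, hdc]
          exact_mod_cast Nat.le_pow_clog (by norm_num) k
        exact le_of_pow_le_pow_left₀ (by omega) (by norm_num) h4
      calc κ ^ (6 * h) ≤ 2 ^ (6 * h) := pow_le_pow_left₀ (by linarith) h3 _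
        _ = 1 * 2 ^ (6 * h) := by ring
        _ ≤ (k : ℝ) ^ ε * 2 ^ (6 * h) := by gcongr
  -- the program
  have hkM : k ≤ (d * q) ^ d := hkq.trans (Nat.pow_le_pow_left (Nat.le_mul_of_pos_left _ hd1) _)
  obtain ⟨B, hB1, hB2, hB3, hB4⟩ := exists_program h k (16 * d ^ 3 * q ^ 2) ((d * q) ^ d) hh hk
    (Nat.succ_le_of_lt (by positivity)) hkM (maskProp_vector k d q hd1 hq1 hkq)
  refine ⟨B, hB1, hB2, hB3, ?_⟩
  have hcast : (Fintype.card B.State : ℝ) ≤
      2 * 5 ^ h * (k : ℝ) ^ 2 * ((16 * (d : ℝ) ^ 3 * (q : ℝ) ^ 2) ^ h * ((d : ℝ) * q) ^ d) ^ 3 := by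
    exact_mod_cast hB4
  have hqd : (q : ℝ) ^ (6 * h) ≤ 2 ^ (6 * h) * ((k : ℝ) ^ ε * 2 ^ (6 * h)) := by
    calc (q : ℝ) ^ (6 * h) ≤ (2 * κ) ^ (6 * h) := pow_le_pow_left₀ (by positivity) hq2 _
      _ = 2 ^ (6 * h) * κ ^ (6 * h) := mul_pow _ _ _
      _ ≤ 2 ^ (6 * h) * ((k : ℝ) ^ ε * 2 ^ (6 * h)) := by gcongr
  have hqd3 : ((q : ℝ) ^ d) ^ 3 ≤ (2 ^ d) ^ 3 * (k : ℝ) ^ 3 := by
    calc ((q : ℝ) ^ d) ^ 3 ≤ ((2 * κ) ^ d) ^ 3 := by gcongr
      _ = (2 ^ d) ^ 3 * (k : ℝ) ^ 3 := by rw [mul_pow, hκd, mul_pow]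
  have hbr1 : (2 * (d : ℝ)) ^ (3 * d) ≤ A ^ (39 * t) := by
    calc (2 * (d : ℝ)) ^ (3 * d) ≤ A ^ (3 * d) := pow_le_pow_left₀ (by positivity) h2dA _
      _ = A ^ (((3 * d : ℕ) : ℝ)) := (Real.rpow_natCast _ _).symm
      _ ≤ A ^ (39 * t) := by
          apply Real.rpow_le_rpow_of_exponent_le hA1
          push_cast
          linarith
  have hbr2 : (16 * (d : ℝ) ^ 3) ^ (3 * h) ≤ A ^ (12 * t) := by
    have h1 : 16 * (d : ℝ) ^ 3 ≤ A ^ 4 := by
      calc 16 * (d : ℝ) ^ 3 = 2 * (2 * (d : ℝ)) ^ 3 := by ring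
        _ ≤ A * A ^ 3 := by
            gcongr
            linarith
        _ = A ^ 4 := by ring
    calc (16 * (d : ℝ) ^ 3) ^ (3 * h) ≤ (A ^ 4) ^ (3 * h) :=
          pow_le_pow_left₀ (by positivity) h1 _
      _ = A ^ (((12 * h : ℕ) : ℝ)) := by
          rw [← pow_mul, Real.rpow_natCast]
          congr 1
          ring
      _ ≤ A ^ (12 * t) := by
          apply Real.rpow_le_rpow_of_exponent_le hA1
          push_cast
          linarith
  have hbr3 : 2 * 5 ^ h * (2 : ℝ) ^ (6 * h) * 2 ^ (6 * h) ≤ A ^ (3 * t) := by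
    have h1 : (40960 : ℝ) ≤ A ^ 3 := by
      calc (40960 : ℝ) ≤ 60 ^ 3 := by norm_num
        _ ≤ A ^ 3 := by gcongr
    calc 2 * 5 ^ h * (2 : ℝ) ^ (6 * h) * 2 ^ (6 * h) = 2 * 20480 ^ h := by
          rw [pow_mul, mul_assoc, mul_assoc, ← mul_pow, ← mul_pow]
          norm_num
      _ ≤ 2 ^ h * 20480 ^ h := by
          gcongr
          calc (2 : ℝ) = 2 ^ 1 := by norm_num
            _ ≤ 2 ^ h := pow_le_pow_right₀ (by norm_num) hh
      _ = 40960 ^ h := by rw [← mul_pow]; norm_num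
      _ ≤ (A ^ 3) ^ h := by gcongr
      _ = A ^ (((3 * h : ℕ) : ℝ)) := by rw [← pow_mul, Real.rpow_natCast]
      _ ≤ A ^ (3 * t) := by
          apply Real.rpow_le_rpow_of_exponent_le hA1
          push_cast
          linarith
  have hexp : 60 * (h : ℝ) / ε = 60 * t := by rw [ht]; ring
  rw [hexp]
  calc (Fintype.card B.State : ℝ)
      ≤ 2 * 5 ^ h * (k : ℝ) ^ 2 *
        ((16 * (d : ℝ) ^ 3 * (q : ℝ) ^ 2) ^ h * ((d : ℝ) * q) ^ d) ^ 3 := hcast
    _ = 2 * 5 ^ h * (k : ℝ) ^ 2 * (16 * (d : ℝ) ^ 3) ^ (3 * h) * (q : ℝ) ^ (6 * h) *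
        ((d : ℝ) ^ d) ^ 3 * ((q : ℝ) ^ d) ^ 3 := by
        rw [mul_pow (16 * (d : ℝ) ^ 3), mul_pow (d : ℝ), mul_pow, mul_pow, mul_pow, ← pow_mul,
          ← pow_mul, ← pow_mul, mul_comm h 3]
        ring
    _ ≤ 2 * 5 ^ h * (k : ℝ) ^ 2 * (16 * (d : ℝ) ^ 3) ^ (3 * h) *
        (2 ^ (6 * h) * ((k : ℝ) ^ ε * 2 ^ (6 * h))) *
        ((d : ℝ) ^ d) ^ 3 * ((2 ^ d) ^ 3 * (k : ℝ) ^ 3) := by gcongr
    _ = ((k : ℝ) ^ 5 * (k : ℝ) ^ ε) * ((2 * (d : ℝ)) ^ (3 * d) * (16 * (d : ℝ) ^ 3) ^ (3 * h) *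
        (2 * 5 ^ h * (2 : ℝ) ^ (6 * h) * 2 ^ (6 * h))) := by
        have h9 : (2 * (d : ℝ)) ^ (3 * d) = ((d : ℝ) ^ d) ^ 3 * (2 ^ d) ^ 3 := by
          rw [mul_comm 3 d, pow_mul, mul_pow, mul_pow]
          ring
        rw [h9]
        ring
    _ ≤ ((k : ℝ) ^ 5 * (k : ℝ) ^ ε) * (A ^ (39 * t) * A ^ (12 * t) * A ^ (3 * t)) := by gcongr
    _ = (k : ℝ) ^ (5 + ε) * A ^ (54 * t) := by
        rw [← Real.rpow_add hA0, ← Real.rpow_add hA0, Real.rpow_add hk0]
        congr 1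
        · congr 1
          rw [← Real.rpow_natCast]
          norm_num
        · congr 1
          ring
    _ ≤ (k : ℝ) ^ (5 + ε) * A ^ (60 * t) := by
        have h9 : A ^ (54 * t) ≤ A ^ (60 * t) :=
          Real.rpow_le_rpow_of_exponent_le hA1 (by linarith)
        gcongr

end Pool.Agent.Results.MP_4e849b_lc.ThriftyTreeEvaluation
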